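import Pool.Agent.Lib.MP_fb9257_co.App4

/-! Assembly: the cubic core gives a solution on every two-edge-connected vertex set. -/

set_option linter.unusedSectionVars false

namespace Pool.Agent.Lib.IC34
open Finset

variable {D V : Type*} [Fintype D] [DecidableEq D] [DecidableEq V]

lemma app_cst {T : Finset D} {r s : D → Z2} {p : D → Prop} {t : D} (c : T.card = 2)
    (h : VV T r p) (ht : t ∈ T) (h1 : s t = 1) (h0 : ∀ x ∈ T, x ≠ t → s x = 0) :
    Cst T fun x => r x + s x := by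
  obtain ⟨a, b, hab, rfl⟩ := card_eq_two.1 c
  have k := (h.two hab).1
  refine ⟨r a + s a, fun x hx => ?_⟩
  simp only [mem_insert, mem_singleton] at hx ht
  rcases hx with rfl | rfl
  · rfl
  · rcases ht with rfl | rfl
    · have := h0 x (by simp) hab.symm
      simp only; grind
    · have := h0 a (by simp) hab
      simp only; grind

section
variable {v : D → V} {α : D → D} {S : Finset D}

lemma app_sub (d : D) : fib v (inn α S) d ⊆ fib v univ d :=
  fun _ hx => mem_fib.2 ⟨mem_univ _, (mem_fib.1 hx).2⟩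

lemma app_le (d : D) : (fib v (inn α S) d).card ≤ deg v d := card_le_card (app_sub d)

lemma app_vv {σ : D → Z2} {W : D → Prop} {r : D → Z2} {p : D → Prop}
    (h : Sol v (inn α S) α σ W r p) {d : D} (hd : 2 ≤ (fib v (inn α S) d).card) :
    VV (fib v (inn α S) d) r p := by
  obtain ⟨x, hx⟩ := card_pos.1 (show 0 < (fib v (inn α S) d).card by omega)
  rw [← app_fib_congr (mem_fib.1 hx).2]
  exact h.1 x (mem_fib.1 hx).1

lemma app_g0 (g : Gr v α) : GNet (inn α S) α :=
  ⟨fun d hd => mem_inn.2 ⟨(mem_inn.1 hd).2, by rw [g.inv]; exact (mem_inn.1 hd).1⟩,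
    fun d _ => g.inv d, fun d _ e => g.nl d (by rw [e])⟩

lemma app_fin1 (g : Gr v α) (sz : ∀ d ∈ S, 2 ≤ (fib v (inn α S) d).card) {t : D} {l : Z2}
    {W : D → Prop} {r : D → Z2} {p : D → Prop} (h : Sol v (inn α S) α (fl (sg v) t l) W r p)
    (hl : l = 0 ∨ (deg v t ≠ 2 ∧ (fib v (inn α S) t).card = 2 ∧ t ∈ inn α S))
    (hW : ∀ d, W d → deg v d = 2 ∨ (deg v d = 4 ∧ deg v (α d) = 4)) : ∃ r p, FS v α S r p := by
  refine app_finish g.inv (fun d => r d + fl (sg v) t l d) (fun d => p d ∧ deg v d ≠ 2)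
    (fun d hd => ?_) (fun d hd => ⟨fun c => ?_, fun c => ?_⟩)
  · obtain ⟨k1, k2⟩ := h.2 d hd ((app_g0 g).mem d hd)
    refine ⟨by rw [← k1]; ring, fun a b => ?_⟩
    rcases k2 a.1 b.1 with u | u
    · exact (hW _ u).resolve_left a.2
    · have := (hW _ u).resolve_left b.2
      rw [g.inv] at this; exact this.symm
  · have e : fib v (inn α S) d = fib v univ d :=
      eq_of_subset_of_card_le (app_sub d) (by have := sz d hd; unfold deg at c; omega)
    have e2 : ∀ x, v x = v d → fl (sg v) t l x = sg v x := by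
      intro x hx
      rcases hl with rfl | hl
      · rw [fl_zero]
      · refine fl_ne _ fun u => hl.1 ?_
        rw [← u, app_deg_congr hx, c]
    refine app_cst (t := rep v d) (by rw [e]; exact c) (app_vv h (sz d hd))
      (by rw [e]; exact mem_fib.2 ⟨mem_univ _, rep_v v d⟩) ?_ fun x hx u => ?_
    · rw [e2 _ (rep_v v d)]
      exact if_pos ⟨by rw [app_deg_congr (rep_v v d), c], (rep_congr (rep_v v d)).symm⟩
    · rw [e2 _ (mem_fib.1 hx).2]
      exact if_neg fun k => u (k.2.trans (rep_congr (mem_fib.1 hx).2))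
  · have e2 : ∀ x, v x = v d → deg v x ≠ 2 := fun x hx => by rw [app_deg_congr hx]; omega
    have e3 : ∀ x, v x = v d → sg v x = 0 := fun x hx => if_neg fun k => e2 x hx k.1
    by_cases hh : l = 0 ∨ v t ≠ v d
    · refine Or.inl ((app_vv h (sz d hd)).congr 0 (fun x hx => ?_)
        fun x hx u => ⟨u, e2 x (mem_fib.1 hx).2⟩)
      have hx' := (mem_fib.1 hx).2
      rcases hh with rfl | hh
      · rw [fl_zero, e3 x hx']
      · rw [fl_ne _ (fun u : x = t => hh (u ▸ hx')), e3 x hx']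
    · push Not at hh
      obtain ⟨-, k1, k2⟩ := hl.resolve_left hh.1
      rw [app_fib_congr hh.2] at k1
      refine Or.inr (Or.inl ⟨k1.le, app_cst (t := t) k1 (app_vv h (sz d hd))
        (mem_fib.2 ⟨k2, hh.2⟩) ?_ fun x hx u => ?_⟩)
      · rw [fl_self, e3 t hh.2, (z2 l).resolve_left hh.1, zero_add]
      · rw [fl_ne _ u, e3 x (mem_fib.1 hx).2]

lemma app_fin2 (g : Gr v α) (sz : ∀ d ∈ S, 2 ≤ (fib v (inn α S) d).card)
    (n2 : ∀ d ∈ S, deg v d ≠ 2) {a b : D} {r : D → Z2} {p : D → Prop}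
    (h : Sol v (inn α S) α 0 (· = a) r p) (c4 : deg v a = 4)
    (c3 : (fib v (inn α S) a).card = 3) (hb : b ∈ fib v (inn α S) a) (hp : ¬ p (α b)) :
    ∃ r p, FS v α S r p := by
  refine app_finish g.inv r (fun d => if v d = v a then ¬ p (α d) else p d)
    (fun d hd => ?_) (fun d hd => ⟨fun c => absurd c (n2 d hd), fun c => ?_⟩)
  · obtain ⟨k1, k2⟩ := h.2 d hd ((app_g0 g).mem d hd)
    refine ⟨by simpa using k1, fun u w => ?_⟩
    exfalso
    have nl := g.nl d
    by_cases e1 : v d = v a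
    · rw [if_pos e1] at u
      rw [if_neg (by rw [← e1]; exact nl)] at w
      exact u w
    · rw [if_neg e1] at u
      by_cases e2 : v (α d) = v a
      · rw [if_pos e2, g.inv] at w; exact w u
      · rw [if_neg e2] at w
        rcases k2 u w with k | k
        · exact e1 (by rw [k])
        · exact e2 (by rw [k])
  · by_cases e : v d = v a
    · refine Or.inr (Or.inr ⟨by rw [app_deg_congr e, c4], ?_⟩)
      have k := app_vv h (sz d hd)
      rw [app_fib_congr e] at k ⊢
      rcases k with ⟨x, y, e0, h1, -⟩ | ⟨x, y, z, e0, h1, h2, h3, h4, h5, -⟩ |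
        ⟨x, y, z, w, e0, h1, h2, h3, h4, h5, h6, -⟩
      · rw [e0, card_pair h1] at c3; omega
      · refine ⟨x, y, z, e0, h1, h2, h3, h4, h5, ?_⟩
        have k : (if v b = v a then ¬ p (α b) else p b) := by
          rw [if_pos (mem_fib.1 hb).2]; exact hp
        rw [e0] at hb
        simp only [mem_insert, mem_singleton] at hb
        rcases hb with rfl | rfl | rfl
        · exact Or.inl k
        · exact Or.inr (Or.inl k)
        · exact Or.inr (Or.inr k)
      · rw [e0, app_card4 h1 h2 h3 h4 h5 h6] at c3; omega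
    · refine Or.inl ((app_vv h (sz d hd)).congr 0 (fun x _ => by simp) fun x hx u => ?_)
      rw [if_neg (by rw [(mem_fib.1 hx).2]; exact e)]; exact u

end

theorem baseFS (v : D → V) (α : D → D) (hN : CoreN v) (hT : CoreT v) (hG : CoreG v)
    (g : Gr v α) : BaseFS v α := by
  classical
  intro S hS H
  by_cases hne : (inn α S).Nonempty
  swap
  · rw [not_nonempty_iff_eq_empty] at hne
    refine app_finish g.inv 0 (fun _ => True) (fun d hd => by simp [hne] at hd) fun d _ => ?_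
    have : fib v (inn α S) d = ∅ := by rw [hne]; rfl
    rw [this]
    exact ⟨fun _ => ⟨0, by simp⟩, fun _ => Or.inr (Or.inl ⟨by simp, 0, by simp⟩)⟩
  have g0 : GNet (inn α S) α := app_g0 g
  have sz : ∀ d ∈ S, 2 ≤ (fib v (inn α S) d).card := by
    intro d hd
    obtain ⟨e, he⟩ := hne
    have k := H _ (closed_fib d) ⟨d, mem_fib.2 ⟨hd, rfl⟩⟩ fun u => by
      have k1 : e ∈ fib v S d := u.symm ▸ (mem_inn.1 he).1
      have k2 : α e ∈ fib v S d := u.symm ▸ (mem_inn.1 he).2
      exact g.nl e ((mem_fib.1 k2).2.trans (mem_fib.1 k1).2.symm)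
    refine k.trans (card_le_card fun x hx => ?_)
    obtain ⟨h1, h2⟩ := mem_filter.1 hx
    exact mem_fib.2 ⟨mem_inn.2 ⟨(mem_fib.1 h1).1, (mem_sdiff.1 h2).1⟩, (mem_fib.1 h1).2⟩
  have hc : ∀ d ∈ inn α S, 2 ≤ (fib v (inn α S) d).card ∧ (fib v (inn α S) d).card ≤ 4 :=
    fun d hd => ⟨sz d (mem_inn.1 hd).1, (app_le d).trans (g.le d)⟩
  have hk : Conn v 2 (inn α S) α := by
    intro X cX nX hX
    set Y := S.filter fun d => ∃ x ∈ X, v x = v d with hY
    have m : ∀ d ∈ inn α S, d ∈ Y ↔ d ∈ X := by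
      intro d hd
      rw [hY, mem_filter]
      exact ⟨fun ⟨_, x, h1, h2⟩ => cX.2 x h1 d hd h2.symm,
        fun k => ⟨(mem_inn.1 hd).1, d, k, rfl⟩⟩
    have k := H Y ⟨filter_subset _ _, fun d hd z hz e => by
        obtain ⟨-, x, h1, h2⟩ := mem_filter.1 hd
        exact mem_filter.2 ⟨hz, x, h1, h2.trans e.symm⟩⟩
      (by obtain ⟨x, hx⟩ := nX; exact ⟨x, (m x (cX.1 hx)).2 hx⟩)
      (fun e => hX (Subset.antisymm cX.1 fun d hd => (m d hd).1 (e.symm ▸ (mem_inn.1 hd).1)))
    refine k.trans (card_le_card fun d hd => ?_)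
    obtain ⟨h1, h2⟩ := mem_filter.1 hd
    have h3 : d ∈ inn α S := mem_inn.2 ⟨(mem_filter.1 h1).1, (mem_sdiff.1 h2).1⟩
    exact mem_bd.2 ⟨(m d h3).1 h1, fun u => (mem_sdiff.1 h2).2 ((m _ (cX.1 u)).2 u)⟩
  have gp := app_GG hG _ α g0 hc hk
  by_cases ca : ∃ t ∈ inn α S, deg v t ≠ 2 ∧ (fib v (inn α S) t).card = 2
  · obtain ⟨t, ht, h1, h2⟩ := ca
    rcases (gp (sg v) t ht).1 with ⟨⟨r, p, h, -⟩, -⟩ | ⟨⟨r, p, h, -⟩, -⟩
    · exact app_fin1 g sz (t := t) (l := 0) (W := W0) (r := r) (p := p) (by rwa [fl_zero])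
        (Or.inl rfl) fun _ u => u.elim
    · exact app_fin1 g sz h (Or.inr ⟨h1, h2, ht⟩) fun _ u => u.elim
  push Not at ca
  by_cases cb : ∃ w ∈ inn α S, deg v w = 2 ∨ (deg v w = 4 ∧ deg v (α w) = 4)
  · obtain ⟨w, hw, h1⟩ := cb
    obtain ⟨r, p, h⟩ := (gp (sg v) w hw).2 (by
      by_cases h3 : ∃ d ∈ inn α S, (fib v (inn α S) d).card = 3
      · exact Or.inl h3
      push Not at h3
      have A : ∀ d ∈ inn α S, (fib v (inn α S) d).card = deg v d ∧ (deg v d = 2 ∨ deg v d = 4) := by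
        intro d hd
        have := hc d hd; have := h3 d hd; have := ca d hd; have := app_le (v := v) (α := α) (S := S) d
        have := g.le d
        omega
      refine Or.inr (app_parity g ⟨subset_univ _, fun d hd x _ e => ?_⟩ g0.mem
        fun d hd => (A d hd).2)
      have := eq_of_subset_of_card_le (app_sub (v := v) (α := α) (S := S) d) (A d hd).1.ge
      have k : x ∈ fib v univ d := mem_fib.2 ⟨mem_univ _, e⟩
      rw [← this] at k
      exact (mem_fib.1 k).1)
    exact app_fin1 g sz (t := w) (l := 0) (W := (· = w)) (r := r) (p := p) (by rwa [fl_zero])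
      (Or.inl rfl) fun d u => by rw [u]; exact h1
  push Not at cb
  have n2 : ∀ d ∈ S, deg v d ≠ 2 := by
    intro d hd
    obtain ⟨x, hx⟩ := card_pos.1 (show 0 < (fib v (inn α S) d).card by have := sz d hd; omega)
    rw [← app_deg_congr (mem_fib.1 hx).2]
    exact (cb x (mem_fib.1 hx).1).1
  have c34 : ∀ d ∈ inn α S, 3 ≤ (fib v (inn α S) d).card := fun d hd => by
    have := hc d hd; have := ca d hd (cb d hd).1; omega
  have plain : ∀ r p, Sol v (inn α S) α 0 W0 r p → ∃ r p, FS v α S r p := by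
    intro r p h
    have z : ∀ d ∈ inn α S, sg v d = 0 := fun d hd => if_neg fun k => (cb d hd).1 k.1
    refine app_fin1 g sz (t := hne.choose) (l := 0) (W := W0) (r := r) (p := p) ?_ (Or.inl rfl)
      fun _ u => u.elim
    rw [fl_zero]
    exact h.congr fun d hd hd' => ⟨rfl, by simp [z d hd, z _ hd'], id⟩
  obtain ⟨X, β, τ, B, cX, nX, gX, kX, b2, bβ, bα, glue⟩ := app_piece hG g0 hc hk hne
  have plain' : ∀ r p, Sol v X β τ W0 r p → ∃ r p, FS v α S r p := by
    intro r p h
    obtain ⟨r', p', k, -⟩ := glue W0 r p (fun _ _ u => u) h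
    exact plain r' p' k
  obtain ⟨u, y, hu, hy, d3, d4⟩ : ∃ u y, u ∈ X ∧ y ∈ X ∧ deg v u = 3 ∧ deg v y = 4 := by
    obtain ⟨x, hx⟩ := nX
    obtain ⟨d, hd, hd'⟩ := exists_mem_notMem_of_card_lt_card
      (show B.card < (fib v (inn α S) x).card by have := c34 x (cX.1 hx); omega)
    have h1 : d ∈ X := cX.2 x hx d (mem_fib.1 hd).1 (mem_fib.1 hd).2
    have h2 : α d ∈ X := bα d hd' ▸ gX.mem d h1
    have := c34 d (cX.1 h1); have := c34 _ (cX.1 h2)
    have := app_le (v := v) (α := α) (S := S) d; have := app_le (v := v) (α := α) (S := S) (α d)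
    have := g.le d; have := g.le (α d); have := g.ind d; have := (cb d (cX.1 h1)).2
    by_cases e : deg v d = 3
    · exact ⟨d, α d, h1, h2, e, by omega⟩
    · exact ⟨α d, d, h2, h1, by omega, by omega⟩
  have cu : (fib v X u).card = 3 := by
    rw [cX.fib_eq hu]
    have := c34 u (cX.1 hu); have := app_le (v := v) (α := α) (S := S) u; omega
  have hcX : ∀ d ∈ X, (fib v X d).card = 3 ∨ (fib v X d).card = 4 := fun d hd => by
    rw [cX.fib_eq hd]
    have := c34 d (cX.1 hd); have := hc d (cX.1 hd); omega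
  by_cases h4 : ∃ d ∈ X, (fib v X d).card = 4
  · obtain ⟨r, p, h⟩ := app_F1 hN hT X β τ gX hcX kX ⟨u, hu, cu⟩ h4
    exact plain' r p h
  push Not at h4
  have cub : Cub v X := fun d hd => (hcX d hd).resolve_right (h4 d hd)
  rcases hN X β τ y gX cub kX hy with ⟨r, p, h, -⟩ | hb
  · exact plain' r p h
  have nl := app_noloop gX kX hy (by rw [cub y hy]; omega) fun e => by
    have k : u ∈ fib v X y := e.symm ▸ hu
    rw [app_deg_congr (mem_fib.1 k).2] at d3; omega
  have c1 : (fib v X y ∩ B).card ≤ 1 := by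
    refine card_le_one.2 fun a ha b hb => ?_
    by_contra hab
    obtain ⟨a1, a2⟩ := mem_inter.1 ha
    obtain ⟨b1, b2'⟩ := mem_inter.1 hb
    have e : ({a, b} : Finset D) = B := eq_of_subset_of_card_le
      (by intro z; simp only [mem_insert, mem_singleton]; rintro (rfl | rfl); exacts [a2, b2'])
      (by rw [card_pair hab]; exact b2)
    have k := bβ a a2
    rw [← e] at k
    simp only [mem_insert, mem_singleton] at k
    rcases k with k | k
    · exact gX.ne a (mem_fib.1 a1).1 k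
    · exact nl a a1 (by rw [k]; exact (mem_fib.1 b1).2)
  have c2 := card_sdiff_add_card_inter (fib v X y) B
  rw [cub y hy] at c2
  obtain ⟨a, ha, b, hb', hab⟩ := one_lt_card.1 (show 1 < (fib v X y \ B).card by omega)
  obtain ⟨a1, a2⟩ := mem_sdiff.1 ha
  obtain ⟨b1, b2'⟩ := mem_sdiff.1 hb'
  obtain ⟨a3, a4⟩ := mem_fib.1 a1
  obtain ⟨b3, b4⟩ := mem_fib.1 b1
  obtain ⟨r, p, h, -, hp⟩ := hT X β τ a b gX cub kX a3 b3 hab.symm
    (fun e => nl a a1 (e ▸ b4)) hb
  obtain ⟨r', p', k, k'⟩ := glue (· = a) r p (fun z hz (e : z = a) => a2 (e ▸ hz)) h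
  refine app_fin2 g sz n2 (b := b) k (by rw [app_deg_congr a4, d4]) ?_
    (mem_fib.2 ⟨cX.1 b3, b4.trans a4.symm⟩) ?_
  · rw [← cX.fib_eq a3]; exact cub a a3
  · rw [← bα b b2', k' _ (gX.mem b b3)]; exact hp

end Pool.Agent.Lib.IC34
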