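import Pool.Agent.Lib.MP_fb9257_co.Blue

/-! Removing a pair of darts, splitting a vertex of size four, lifting solutions. -/

set_option linter.unusedSectionVars false

namespace Pool.Agent.Lib.IC34
open Finset

variable {D V : Type*} [DecidableEq D] [DecidableEq V]

lemma app_fib_congr {v : D → V} {S : Finset D} {d x : D} (h : v x = v d) :
    fib v S x = fib v S d := by
  ext y; simp [h]

lemma app_card_bd_compl {S X : Finset D} {a : D → D} (h : GNet S a) (hX : X ⊆ S) :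
    (bd a (S \ X)).card = (bd a X).card := by
  rw [h.bd_compl hX]
  refine card_image_of_injOn fun x hx y hy e => ?_
  exact h.inj (hX (mem_bd.1 hx).1) (hX (mem_bd.1 hy).1) e

lemma app_gnet_cl {S X : Finset D} {a : D → D} {f g : D} (h : GNet S a) (hX : X ⊆ S)
    (hb : bd a X = {f, g}) (hfg : f ≠ g) : GNet X (cl a f g) := by
  have hf : f ∈ X ∧ a f ∉ X := mem_bd.1 (by rw [hb]; simp)
  have hg : g ∈ X ∧ a g ∉ X := mem_bd.1 (by rw [hb]; simp)
  have k : ∀ d ∈ X, d ≠ f → d ≠ g → a d ∈ X ∧ a d ≠ f ∧ a d ≠ g := by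
    intro d hd h1 h2
    refine ⟨?_, ?_, ?_⟩
    · by_contra hn
      have : d ∈ bd a X := mem_bd.2 ⟨hd, hn⟩
      rw [hb] at this; simp [h1, h2] at this
    · intro e; apply hf.2; rw [← e, h.inv d (hX hd)]; exact hd
    · intro e; apply hg.2; rw [← e, h.inv d (hX hd)]; exact hd
  refine ⟨fun d hd => ?_, fun d hd => ?_, fun d hd => ?_⟩
  · by_cases h1 : d = f
    · subst h1; simpa using hg.1
    by_cases h2 : d = g
    · subst h2; simpa using hf.1
    rw [cl_ne h1 h2]; exact (k d hd h1 h2).1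
  · by_cases h1 : d = f
    · subst h1; simp
    by_cases h2 : d = g
    · subst h2; simp
    rw [cl_ne h1 h2, cl_ne (k d hd h1 h2).2.1 (k d hd h1 h2).2.2, h.inv d (hX hd)]
  · by_cases h1 : d = f
    · subst h1; simpa using hfg.symm
    by_cases h2 : d = g
    · subst h2; simpa using hfg
    rw [cl_ne h1 h2]; exact h.ne d (hX hd)

lemma app_bd_cl {X Z : Finset D} {a : D → D} {f g : D} (hg : a g ∉ X) (hZ : Z ⊆ X)
    (hf : f ∉ Z) : bd (cl a f g) Z = bd a Z := by
  ext d; simp only [mem_bd]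
  refine and_congr_right fun hd => ?_
  have h1 : d ≠ f := fun e => hf (e ▸ hd)
  by_cases h2 : d = g
  · subst h2; simp only [cl_snd]
    exact ⟨fun _ k => hg (hZ k), fun _ => hf⟩
  · rw [cl_ne h1 h2]

lemma app_conn_cl {v : D → V} {k : ℕ} {S X : Finset D} {a : D → D} {f g : D} (h : GNet S a)
    (hX : X ⊆ S) (hb : bd a X = {f, g}) (hfg : f ≠ g)
    (H : ∀ Z, Closed v X Z → Z.Nonempty → Z ≠ X → f ∉ Z → k ≤ (bd a Z).card) :
    Conn v k X (cl a f g) := by
  have hf : f ∈ X ∧ a f ∉ X := mem_bd.1 (by rw [hb]; simp)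
  have hg : g ∈ X ∧ a g ∉ X := mem_bd.1 (by rw [hb]; simp)
  intro Z hZ hne hp
  by_cases h1 : f ∈ Z
  · rw [← app_card_bd_compl (app_gnet_cl h hX hb hfg) hZ.1,
      app_bd_cl hg.2 sdiff_subset (by simp [h1])]
    refine H _ hZ.compl (sdiff_nonempty.2 fun k => hp (Subset.antisymm hZ.1 k)) ?_ (by simp [h1])
    intro e
    have : f ∈ X \ Z := by rw [e]; exact hf.1
    simp [h1] at this
  · rw [app_bd_cl hg.2 hZ.1 h1]; exact H Z hZ hne hp h1

/-- two darts at the same vertex that do not form a loop -/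
structure Pr (v : D → V) (S : Finset D) (a : D → D) (x y : D) : Prop where
  g : GNet S a
  hx : x ∈ S
  hy : y ∈ S
  ne : x ≠ y
  vv : v y = v x
  nl : a x ≠ y

namespace Pr
variable {v : D → V} {S : Finset D} {a : D → D} {x y : D}

lemma nl' (h : Pr v S a x y) : a y ≠ x := fun e => h.nl (by rw [← e, h.g.inv y h.hy])

lemma symm (h : Pr v S a x y) : Pr v S a y x :=
  ⟨h.g, h.hy, h.hx, h.ne.symm, h.vv.symm, h.nl'⟩

lemma ox (h : Pr v S a x y) : a x ∈ S \ {x, y} := by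
  simp [h.g.mem x h.hx, h.g.ne x h.hx, h.nl]

lemma oy (h : Pr v S a x y) : a y ∈ S \ {x, y} := by
  simp [h.g.mem y h.hy, h.g.ne y h.hy, h.nl']

lemma one (h : Pr v S a x y) : a x ≠ a y := h.g.ne_of h.hx h.hy h.ne

lemma bd_eq (h : Pr v S a x y) : bd a (S \ {x, y}) = {a x, a y} := by
  rw [h.g.bd_compl (by intro d; simp; rintro (rfl | rfl); exacts [h.hx, h.hy])]
  have : bd a {x, y} = {x, y} := by
    ext d; simp only [mem_bd, mem_insert, mem_singleton]
    refine ⟨fun k => k.1, fun k => ⟨k, ?_⟩⟩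
    rcases k with rfl | rfl
    · simp [h.g.ne d h.hx, h.nl]
    · simp [h.g.ne d h.hy, h.nl']
  rw [this]; simp

lemma gnet (h : Pr v S a x y) : GNet (S \ {x, y}) (cl a (a x) (a y)) :=
  app_gnet_cl h.g sdiff_subset h.bd_eq h.one

lemma inner (h : Pr v S a x y) {d : D} (hd : d ∈ S \ {x, y}) (hd' : a d ∈ S \ {x, y}) :
    d ≠ a x ∧ d ≠ a y ∧ a d ≠ a x ∧ a d ≠ a y := by
  simp only [mem_sdiff, mem_insert, mem_singleton, not_or] at hd hd'
  refine ⟨fun e => hd'.2.1 ?_, fun e => hd'.2.2 ?_, h.g.ne_of hd.1 h.hx hd.2.1,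
    h.g.ne_of hd.1 h.hy hd.2.2⟩
  · rw [e, h.g.inv x h.hx]
  · rw [e, h.g.inv y h.hy]

lemma outer (h : Pr v S a x y) {d : D} (hd : d ∈ S \ {x, y}) (hd' : a d ∉ S \ {x, y}) :
    d = a x ∨ d = a y := by
  have : d ∈ bd a (S \ {x, y}) := mem_bd.2 ⟨hd, hd'⟩
  rw [h.bd_eq] at this; simpa using this

lemma fib_other (h : Pr v S a x y) {d : D} (hd : v d ≠ v x) :
    fib v (S \ {x, y}) d = fib v S d := by
  ext z; simp only [mem_fib, mem_sdiff, mem_insert, mem_singleton, not_or]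
  refine ⟨fun k => ⟨k.1.1, k.2⟩, fun k => ⟨⟨k.1, ?_, ?_⟩, k.2⟩⟩
  · rintro rfl; exact hd k.2.symm
  · rintro rfl; exact hd (k.2.symm.trans h.vv)

lemma fib_self (h : Pr v S a x y) :
    fib v S x = insert x (insert y (fib v (S \ {x, y}) x)) := by
  ext z; simp only [mem_fib, mem_sdiff, mem_insert, mem_singleton, not_or]
  constructor
  · intro k; by_cases h1 : z = x
    · exact Or.inl h1
    by_cases h2 : z = y
    · exact Or.inr (Or.inl h2)
    exact Or.inr (Or.inr ⟨⟨k.1, h1, h2⟩, k.2⟩)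
  · rintro (rfl | rfl | k)
    · exact ⟨h.hx, rfl⟩
    · exact ⟨h.hy, h.vv⟩
    · exact ⟨k.1.1, k.2⟩

lemma card_self (h : Pr v S a x y) :
    (fib v S x).card = (fib v (S \ {x, y}) x).card + 2 := by
  rw [h.fib_self, card_insert_of_notMem (by simp [h.ne]), card_insert_of_notMem (by simp)]

lemma card_lt (h : Pr v S a x y) : (S \ {x, y}).card < S.card :=
  card_lt_card ⟨sdiff_subset, fun k => by have := k h.hx; simp at this⟩

lemma closed (h : Pr v S a x y) {Z : Finset D} (hZ : Closed v (S \ {x, y}) Z)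
    (H : ∀ d ∈ Z, v d ≠ v x) : Closed v S Z := by
  refine ⟨hZ.1.trans sdiff_subset, fun d hd z hz e => hZ.2 d hd z ?_ e⟩
  simp only [mem_sdiff, mem_insert, mem_singleton, not_or]
  refine ⟨hz, ?_, ?_⟩
  · rintro rfl; exact H d hd e.symm
  · rintro rfl; exact H d hd (e.symm.trans h.vv)

lemma conn (h : Pr v S a x y) {k : ℕ} (hc : Conn v k S a)
    (H : (fib v S x).card = 2 ∨ v (a x) = v x) : Conn v k (S \ {x, y}) (cl a (a x) (a y)) := by
  refine app_conn_cl h.g sdiff_subset h.bd_eq h.one fun Z hZ hne _ hf => ?_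
  refine hc Z (h.closed hZ fun d hd e => ?_) hne ?_
  · rcases H with H | H
    · rw [h.card_self] at H
      have : fib v (S \ {x, y}) x = ∅ := card_eq_zero.1 (by omega)
      have k : d ∈ fib v (S \ {x, y}) x := mem_fib.2 ⟨hZ.1 hd, e⟩
      rw [this] at k; simp at k
    · exact hf (hZ.2 d hd _ h.ox (H.trans e.symm))
  · intro e
    have : x ∈ S \ {x, y} := hZ.1 (e ▸ h.hx)
    simp at this

end Pr

lemma VV.two {a b : D} {r : D → Z2} {p : D → Prop} (h : VV {a, b} r p) (hab : a ≠ b) :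
    r a + r b = 1 ∧ (p a ∨ p b) := by
  have hc : ({a, b} : Finset D).card = 2 := card_pair hab
  rcases h with ⟨c, d, e, h1, h2, h3⟩ | ⟨c, d, f, e, h1, h2, h3, -⟩ |
    ⟨c, d, f, g, e, h1, h2, h3, h4, h5, h6, -⟩
  · have hc' : c ∈ ({a, b} : Finset D) := by rw [e]; simp
    have hd' : d ∈ ({a, b} : Finset D) := by rw [e]; simp
    simp only [mem_insert, mem_singleton] at hc' hd'
    rcases hc' with rfl | rfl <;> rcases hd' with rfl | rfl
    · exact absurd rfl h1
    · exact ⟨h2, Or.inl h3⟩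
    · exact ⟨by rw [add_comm]; exact h2, Or.inr h3⟩
    · exact absurd rfl h1
  · rw [e, card_eq_three.2 ⟨c, d, f, h1, h2, h3, rfl⟩] at hc; omega
  · rw [e, card_insert_of_notMem (by simp [h1, h2, h3]),
      card_eq_three.2 ⟨d, f, g, h4, h5, h6, rfl⟩] at hc; omega

lemma app_v2 {a b : D} {r : D → Z2} {p : D → Prop} (hab : a ≠ b) (hr : r a + r b = 1)
    (hp : p a ∨ p b) : V2 {a, b} r p := by
  rcases hp with hp | hp
  · exact ⟨a, b, rfl, hab, hr, hp⟩
  · exact ⟨b, a, pair_comm _ _, hab.symm, by rw [add_comm]; exact hr, hp⟩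

lemma app_v4 {a b c d : D} {r : D → Z2} {p : D → Prop} (h1 : a ≠ b) (h2 : a ≠ c) (h3 : a ≠ d)
    (h4 : b ≠ c) (h5 : b ≠ d) (h6 : c ≠ d) (hr : r a + r b = 1) (hs : r c + r d = 1)
    (hp : (p a ∨ p b) ∧ (p c ∨ p d) ∨ p c ∧ p d) : V4 {a, b, c, d} r p := by
  have hr' : r b + r a = 1 := by rw [add_comm]; exact hr
  have hs' : r d + r c = 1 := by rw [add_comm]; exact hs
  rcases hp with ⟨hp | hp, hq | hq⟩ | ⟨hp, hq⟩
  · exact ⟨a, b, c, d, rfl, h1, h2, h3, h4, h5, h6, hr, hs, hp, hq⟩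
  · exact ⟨a, b, d, c, by ext; simp; tauto, h1, h3, h2, h5, h4, h6.symm, hr, hs', hp, hq⟩
  · exact ⟨b, a, c, d, by ext; simp; tauto, h1.symm, h4, h5, h2, h3, h6, hr', hs, hp, hq⟩
  · exact ⟨b, a, d, c, by ext; simp; tauto, h1.symm, h5, h4, h3, h2, h6.symm, hr', hs', hp, hq⟩
  · rcases z2_or (r a) (r c) with e | e
    · exact ⟨c, b, d, a, by ext; simp; tauto, h4.symm, h6, h2.symm, h5, h1.symm, h3.symm,
        by grind, by grind, hp, hq⟩
    · exact ⟨c, a, d, b, by ext; simp; tauto, h2.symm, h6, h4.symm, h3, h1, h5.symm,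
        by grind, by grind, hp, hq⟩

/-- lifting a solution along the removal of a pair -/
lemma Pr.lift {v : D → V} {S : Finset D} {a : D → D} {x y : D} (h : Pr v S a x y)
    {σ σ' : D → Z2} {W W' : D → Prop} {r : D → Z2} {p : D → Prop}
    (hs : Sol v (S \ {x, y}) (cl a (a x) (a y)) σ' W' r p)
    (hσ : ∀ d ∈ S \ {x, y}, σ' d = fl σ (a x) (σ x + σ y) d) (q1 q2 : Prop)
    (hW : ∀ d ∈ S \ {x, y}, a d ∈ S \ {x, y} → W' d ∨ W' (a d) → W d ∨ W (a d))
    (h1 : q1 → p (a x) → W x ∨ W (a x)) (h2 : q2 → p (a y) → W y ∨ W (a y))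
    (hV : ((fib v S x).card = 2 ∨ (fib v S x).card = 4) ∧ (q1 ∨ q2) ∨
      (fib v S x).card = 4 ∧ ∀ z ∈ fib v (S \ {x, y}) x, p z) :
    ∃ r' p', Sol v S a σ W r' p' ∧ (∀ d ∈ S \ {x, y}, p' d = p d) ∧ p' x = q1 ∧ p' y = q2 := by
  set r' : D → Z2 := fun d => if d = x ∨ d = y then 1 + σ d + r (a d) + σ (a d) else r d with hr'
  set p' : D → Prop := fun d => if d = x then q1 else if d = y then q2 else p d with hp'
  have e1 : ∀ d ∈ S \ {x, y}, r' d = r d ∧ p' d = p d := by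
    intro d hd
    simp only [mem_sdiff, mem_insert, mem_singleton, not_or] at hd
    simp [hr', hp', hd.2.1, hd.2.2]
  have rx : r' x = 1 + σ x + r (a x) + σ (a x) := by simp [hr']
  have ry : r' y = 1 + σ y + r (a y) + σ (a y) := by simp [hr']
  have px : p' x = q1 := by simp [hp']
  have py : p' y = q2 := by simp [hp', h.ne.symm]
  have hxy : r' x + r' y = 1 := by
    have := (hs.2 (a x) h.ox (by simpa using h.oy)).1
    rw [cl_fst, hσ _ h.ox, hσ _ h.oy, fl_self, fl_ne _ h.one.symm] at this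
    rw [rx, ry]; grind
  have hmem : ∀ d ∈ S, d = x ∨ d = y ∨ d ∈ S \ {x, y} := by
    intro d hd; simp only [mem_sdiff, mem_insert, mem_singleton]; tauto
  refine ⟨r', p', ⟨fun d hd => ?_, fun d hd _ => ?_⟩, fun d hd => (e1 d hd).2, px, py⟩
  · by_cases hv : v d = v x
    · rw [app_fib_congr hv]
      have hc := h.card_self
      have four : (fib v S x).card = 4 → (q1 ∨ q2 ∨ ∀ z ∈ fib v (S \ {x, y}) x, p z) →
          VV (fib v S x) r' p' := by
        intro h4 hq
        obtain ⟨z, w, hzw, e⟩ := card_eq_two.1 (show (fib v (S \ {x, y}) x).card = 2 by omega)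
        have hz : z ∈ fib v (S \ {x, y}) x := by rw [e]; simp
        have hw : w ∈ fib v (S \ {x, y}) x := by rw [e]; simp
        have hz' := (mem_fib.1 hz).1
        have hw' := (mem_fib.1 hw).1
        have k := hs.1 z hz'
        rw [app_fib_congr (mem_fib.1 hz).2, e] at k
        have k := k.two hzw
        rw [h.fib_self, e]
        have nz := hz'
        have nw := hw'
        simp only [mem_sdiff, mem_insert, mem_singleton, not_or] at nz nw
        refine Or.inr (Or.inr (app_v4 h.ne (Ne.symm nz.2.1) (Ne.symm nw.2.1) (Ne.symm nz.2.2)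
          (Ne.symm nw.2.2) hzw hxy ?_ ?_))
        · rw [(e1 z hz').1, (e1 w hw').1]; exact k.1
        · rw [px, py, (e1 z hz').2, (e1 w hw').2]
          rcases hq with hq | hq | hq
          · exact Or.inl ⟨Or.inl hq, k.2⟩
          · exact Or.inl ⟨Or.inr hq, k.2⟩
          · exact Or.inr ⟨hq z hz, hq w hw⟩
      rcases hV with ⟨h2' | h4, hq⟩ | ⟨h4, hq⟩
      · have : fib v (S \ {x, y}) x = ∅ := card_eq_zero.1 (by omega)
        rw [h.fib_self, this]
        exact Or.inl (app_v2 h.ne hxy (by rw [px, py]; exact hq))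
      · exact four h4 (hq.elim Or.inl fun k => Or.inr (Or.inl k))
      · exact four h4 (Or.inr (Or.inr hq))
    · have hd' : d ∈ S \ {x, y} := by
        rcases hmem d hd with rfl | rfl | k
        · exact absurd rfl hv
        · exact absurd h.vv hv
        · exact k
      rw [← h.fib_other hv]
      refine (hs.1 d hd').congr 0 (fun z hz => ?_) (fun z hz k => ?_)
      · simp [(e1 z (mem_fib.1 hz).1).1]
      · rw [(e1 z (mem_fib.1 hz).1).2]; exact k
  · have ex : r' x + σ x + r' (a x) + σ (a x) = 1 ∧ (p' x → p' (a x) → W x ∨ W (a x)) := by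
      rw [rx, px, (e1 _ h.ox).1, (e1 _ h.ox).2]; exact ⟨by grind, h1⟩
    have ey : r' y + σ y + r' (a y) + σ (a y) = 1 ∧ (p' y → p' (a y) → W y ∨ W (a y)) := by
      rw [ry, py, (e1 _ h.oy).1, (e1 _ h.oy).2]; exact ⟨by grind, h2⟩
    rcases hmem d hd with rfl | rfl | k
    · exact ex
    · exact ey
    by_cases k' : a d ∈ S \ {x, y}
    · obtain ⟨n1, n2, n3, n4⟩ := h.inner k k'
      have := hs.2 d k (by rwa [cl_ne n1 n2])
      rw [cl_ne n1 n2, hσ _ k, hσ _ k', fl_ne _ n1, fl_ne _ n3] at this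
      rw [(e1 _ k).1, (e1 _ k).2, (e1 _ k').1, (e1 _ k').2]
      exact ⟨this.1, fun u w => hW d k k' (this.2 u w)⟩
    · rcases h.outer k k' with rfl | rfl
      · rw [h.g.inv x h.hx]; exact ⟨by have := ex.1; grind, fun u w => (ex.2 w u).symm⟩
      · rw [h.g.inv y h.hy]; exact ⟨by have := ey.1; grind, fun u w => (ey.2 w u).symm⟩

/-- lifting a plain solution -/
lemma Pr.lift0 {v : D → V} {S : Finset D} {a : D → D} {x y : D} (h : Pr v S a x y)
    {σ σ' : D → Z2} {r : D → Z2} {p : D → Prop}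
    (hs : Sol v (S \ {x, y}) (cl a (a x) (a y)) σ' W0 r p)
    (hσ : ∀ d ∈ S \ {x, y}, σ' d = fl σ (a x) (σ x + σ y) d)
    (hV : (fib v S x).card = 2 ∨ (fib v S x).card = 4) :
    ∃ r' p', Sol v S a σ W0 r' p' ∧ ∀ d ∈ S \ {x, y}, p' d = p d := by
  have k := (hs.2 (a x) h.ox (by simpa using h.oy)).2
  rw [cl_fst] at k
  obtain ⟨r', p', h1, h2, -⟩ := h.lift (W := W0) hs hσ (¬ p (a x)) (¬ p (a y)) (fun _ _ _ u => u)
    (fun u w => (u w).elim) (fun u w => (u w).elim)
    (Or.inl ⟨hV, by simp only [W0, or_self] at k; tauto⟩)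
  exact ⟨r', p', h1, h2⟩

end Pool.Agent.Lib.IC34
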