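import Pool.Agent.Lib.MP_fb9257_co.App1

/-! The splitting lemma and the two inductions. -/

set_option linter.unusedSectionVars false

namespace Pool.Agent.Lib.IC34
open Finset

variable {D V : Type*} [DecidableEq D] [DecidableEq V]

lemma app_cut {S X : Finset D} {a : D → D} (h : GNet S a) (hX : X ⊆ S) :
    2 * (bd a X).card = ∑ d ∈ S, if (d ∈ X ↔ a d ∈ X) then 0 else 1 := by
  have e1 : (bd a X).card = ∑ d ∈ S, if d ∈ X ∧ a d ∉ X then 1 else 0 := by
    rw [← card_filter]; congr 1; ext d; simp only [mem_bd, mem_filter]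
    exact ⟨fun k => ⟨hX k.1, k⟩, fun k => k.2⟩
  have e2 : (bd a X).card = ∑ d ∈ S, if d ∉ X ∧ a d ∈ X then 1 else 0 := by
    rw [← app_card_bd_compl h hX, ← card_filter]; congr 1; ext d
    simp only [mem_bd, mem_filter, mem_sdiff]
    constructor
    · rintro ⟨⟨h1, h2⟩, h3⟩
      exact ⟨h1, h2, by_contra fun k => h3 ⟨h.mem d h1, k⟩⟩
    · rintro ⟨h1, h2, h3⟩
      exact ⟨⟨h1, h2⟩, fun k => k.2 h3⟩
  rw [two_mul]
  nth_rewrite 1 [e1]
  rw [e2, ← sum_add_distrib]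
  refine sum_congr rfl fun d _ => ?_
  by_cases h1 : d ∈ X <;> by_cases h2 : a d ∈ X <;> simp [h1, h2]

lemma app_four {S X Y Z : Finset D} {a : D → D} (h : GNet S a) (hX : X ⊆ S) (hY : Y ⊆ S)
    (hZ : Z ⊆ S) {x : D} (hx : x ∈ S) (n1 : x ∉ X) (n2 : x ∉ Y) (n3 : x ∉ Z) (m1 : a x ∈ X)
    (m2 : a x ∈ Y) (m3 : a x ∈ Z) :
    (bd a (X ∩ Y ∩ Z)).card + (bd a ((X \ Y) \ Z)).card + (bd a ((Y \ X) \ Z)).card +
      (bd a ((Z \ X) \ Y)).card + 2 ≤ (bd a X).card + (bd a Y).card + (bd a Z).card := by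
  have c1 := app_cut h hX
  have c2 := app_cut h hY
  have c3 := app_cut h hZ
  have c4 := app_cut h (X := X ∩ Y ∩ Z) (inter_subset_right.trans hZ)
  have c5 := app_cut h (X := (X \ Y) \ Z) (sdiff_subset.trans (sdiff_subset.trans hX))
  have c6 := app_cut h (X := (Y \ X) \ Z) (sdiff_subset.trans (sdiff_subset.trans hY))
  have c7 := app_cut h (X := (Z \ X) \ Y) (sdiff_subset.trans (sdiff_subset.trans hZ))
  have c8 : (2 : ℕ) = ∑ d ∈ S, if d = x then 2 else 0 := by simp [hx]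
  have c9 : (2 : ℕ) = ∑ d ∈ S, if d = a x then 2 else 0 := by simp [h.mem x hx]
  have key : 2 * (bd a (X ∩ Y ∩ Z)).card + 2 * (bd a ((X \ Y) \ Z)).card +
      2 * (bd a ((Y \ X) \ Z)).card + 2 * (bd a ((Z \ X) \ Y)).card +
      (∑ d ∈ S, if d = x then 2 else 0) + (∑ d ∈ S, if d = a x then 2 else 0) ≤
      2 * (bd a X).card + 2 * (bd a Y).card + 2 * (bd a Z).card := by
    rw [c1, c2, c3, c4, c5, c6, c7]
    simp only [← sum_add_distrib]
    refine sum_le_sum fun d _ => ?_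
    by_cases e : d = x
    · subst e; simp [n1, n2, n3, m1, m2, m3, (h.ne d hx).symm]
    by_cases e' : d = a x
    · subst e'; simp [n1, n2, n3, m1, m2, m3, h.ne x hx, h.inv x hx]
    · by_cases u1 : d ∈ X <;> by_cases u2 : d ∈ Y <;> by_cases u3 : d ∈ Z <;>
        by_cases w1 : a d ∈ X <;> by_cases w2 : a d ∈ Y <;> by_cases w3 : a d ∈ Z <;>
        simp [e, e', u1, u2, u3, w1, w2, w3]
  rw [← c8, ← c9] at key
  omega

/-- a vertex of size four without loops -/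
structure Quad (v : D → V) (S : Finset D) (a : D → D) (x y z w : D) : Prop where
  g : GNet S a
  e : fib v S x = {x, y, z, w}
  c : (fib v S x).card = 4
  nl : ∀ d ∈ fib v S x, v (a d) ≠ v x

namespace Quad
variable {v : D → V} {S : Finset D} {a : D → D} {x y z w : D}

lemma swap1 (h : Quad v S a x y z w) : Quad v S a x z y w :=
  ⟨h.g, by rw [h.e]; ext; simp; tauto, h.c, h.nl⟩

lemma swap2 (h : Quad v S a x y z w) : Quad v S a x w y z :=
  ⟨h.g, by rw [h.e]; ext; simp; tauto, h.c, h.nl⟩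

lemma ne (h : Quad v S a x y z w) : x ≠ y ∧ x ≠ z ∧ x ≠ w ∧ y ≠ z ∧ y ≠ w ∧ z ≠ w := by
  have := h.c
  rw [h.e] at this
  have k : ∀ p q s : D, ({p, q, s} : Finset D).card ≤ 3 := fun p q s => card_le_three
  refine ⟨?_, ?_, ?_, ?_, ?_, ?_⟩ <;> rintro rfl
  · have e : ({x, x, z, w} : Finset D) = {x, z, w} := by ext; simp
    have k := k x z w; rw [e] at this; omega
  · have e : ({x, y, x, w} : Finset D) = {x, y, w} := by ext; simp; tauto
    have k := k x y w; rw [e] at this; omega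
  · have e : ({x, y, z, x} : Finset D) = {x, y, z} := by ext; simp; tauto
    have k := k x y z; rw [e] at this; omega
  · have e : ({x, y, y, w} : Finset D) = {x, y, w} := by ext; simp
    have k := k x y w; rw [e] at this; omega
  · have e : ({x, y, z, y} : Finset D) = {x, y, z} := by ext; simp; tauto
    have k := k x y z; rw [e] at this; omega
  · have e : ({x, y, z, z} : Finset D) = {x, y, z} := by ext; simp
    have k := k x y z; rw [e] at this; omega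

lemma mx (h : Quad v S a x y z w) : x ∈ fib v S x := by rw [h.e]; simp
lemma my (h : Quad v S a x y z w) : y ∈ fib v S x := by rw [h.e]; simp
lemma mz (h : Quad v S a x y z w) : z ∈ fib v S x := by rw [h.e]; simp
lemma mw (h : Quad v S a x y z w) : w ∈ fib v S x := by rw [h.e]; simp

lemma ane (h : Quad v S a x y z w) {d d' : D} (hd : d ∈ fib v S x) (hd' : d' ∈ fib v S x) :
    a d ≠ d' := fun e => h.nl d hd (by rw [e]; exact (mem_fib.1 hd').2)

lemma pr1 (h : Quad v S a x y z w) : Pr v S a x y :=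
  ⟨h.g, (mem_fib.1 h.mx).1, (mem_fib.1 h.my).1, h.ne.1, (mem_fib.1 h.my).2, h.ane h.mx h.my⟩

lemma az (h : Quad v S a x y z w) : cl a (a x) (a y) z = a z :=
  cl_ne (h.ane h.mx h.mz).symm (h.ane h.my h.mz).symm

lemma aw (h : Quad v S a x y z w) : cl a (a x) (a y) w = a w :=
  cl_ne (h.ane h.mx h.mw).symm (h.ane h.my h.mw).symm

lemma pr2 (h : Quad v S a x y z w) : Pr v (S \ {x, y}) (cl a (a x) (a y)) z w := by
  obtain ⟨n1, n2, n3, n4, n5, n6⟩ := h.ne
  refine ⟨h.pr1.gnet, ?_, ?_, n6, (mem_fib.1 h.mw).2.trans (mem_fib.1 h.mz).2.symm, ?_⟩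
  · simp [(mem_fib.1 h.mz).1, n2.symm, n4.symm]
  · simp [(mem_fib.1 h.mw).1, n3.symm, n5.symm]
  · rw [h.az]; exact h.ane h.mz h.mw

lemma c2 (h : Quad v S a x y z w) : (fib v (S \ {x, y}) z).card = 2 := by
  have := h.pr1.card_self
  rw [h.c] at this
  rw [app_fib_congr (mem_fib.1 h.mz).2]; omega

lemma mem2 (h : Quad v S a x y z w) {d : D} : d ∈ (S \ {x, y}) \ {z, w} ↔ d ∈ S ∧ v d ≠ v x := by
  have : d ∈ fib v S x ↔ d ∈ ({x, y, z, w} : Finset D) := by rw [h.e]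
  simp only [mem_fib, mem_insert, mem_singleton] at this
  simp only [mem_sdiff, mem_insert, mem_singleton]
  tauto

lemma amem (h : Quad v S a x y z w) {d : D} (hd : d ∈ fib v S x) :
    a d ∈ (S \ {x, y}) \ {z, w} := h.mem2.2 ⟨h.g.mem d (mem_fib.1 hd).1, h.nl d hd⟩

lemma fib2 (h : Quad v S a x y z w) {d : D} (hd : d ∈ (S \ {x, y}) \ {z, w}) :
    fib v ((S \ {x, y}) \ {z, w}) d = fib v S d := by
  have := (h.mem2.1 hd).2
  rw [h.pr2.fib_other (by rw [(mem_fib.1 h.mz).2]; exact this), h.pr1.fib_other this]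

lemma closed (h : Quad v S a x y z w) : Closed v S ((S \ {x, y}) \ {z, w}) :=
  ⟨fun _ hd => (h.mem2.1 hd).1, fun _ hd _ hu e => h.mem2.2 ⟨hu, e ▸ (h.mem2.1 hd).2⟩⟩

/-- the net after the split -/
def nw (a : D → D) (x y z w : D) : D → D := cl (cl a (a x) (a y)) (a z) (a w)

lemma nw_eq (h : Quad v S a x y z w) : nw a x y z w =
    cl (cl a (a x) (a y)) (cl a (a x) (a y) z) (cl a (a x) (a y) w) := by
  rw [h.az, h.aw]; rfl

lemma gnet (h : Quad v S a x y z w) : GNet ((S \ {x, y}) \ {z, w}) (nw a x y z w) := by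
  rw [h.nw_eq]; exact h.pr2.gnet

lemma easy (h : Quad v S a x y z w) {Z : Finset D} (hZ : Z ⊆ (S \ {x, y}) \ {z, w})
    (h1 : a x ∉ Z ∨ a y ∉ Z) (h2 : a z ∉ Z ∨ a w ∉ Z) : bd (nw a x y z w) Z = bd a Z := by
  have e1 : bd (nw a x y z w) Z = bd (cl a (a x) (a y)) Z := by
    rw [h.nw_eq]
    rcases h2 with k | k
    · refine app_bd_cl ?_ hZ (by rwa [h.az])
      rw [h.pr1.gnet.inv w h.pr2.hy]; simp
    · rw [cl_comm]
      refine app_bd_cl ?_ hZ (by rwa [h.aw])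
      rw [h.pr1.gnet.inv z h.pr2.hx]; simp
  rw [e1]
  rcases h1 with k | k
  · refine app_bd_cl (X := S \ {x, y}) ?_ (hZ.trans sdiff_subset) k
    rw [h.g.inv y h.pr1.hy]; simp
  · rw [cl_comm]
    refine app_bd_cl (X := S \ {x, y}) ?_ (hZ.trans sdiff_subset) k
    rw [h.g.inv x h.pr1.hx]; simp

lemma bad (h : Quad v S a x y z w) {k : ℕ} (hc : Conn v k S a)
    (hn : ¬ Conn v k ((S \ {x, y}) \ {z, w}) (nw a x y z w)) :
    ∃ Z, Closed v S Z ∧ x ∉ Z ∧ a x ∈ Z ∧ a y ∈ Z ∧ a z ∉ Z ∧ a w ∉ Z ∧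
      (bd a Z).card ≤ k + 1 := by
  have nx : x ∉ (S \ {x, y}) \ {z, w} := by simp
  have A : ∀ Z, Closed v ((S \ {x, y}) \ {z, w}) Z → Z.Nonempty →
      (bd (nw a x y z w) Z).card < k → (a x ∈ Z ∧ a y ∈ Z) ∨ (a z ∈ Z ∧ a w ∈ Z) := by
    intro Z hZ hne hlt
    by_contra hh
    rw [h.easy hZ.1 (by tauto) (by tauto)] at hlt
    have := hc Z (h.closed.trans hZ) hne fun e => nx (hZ.1 (e ▸ h.pr1.hx))
    omega
  have B : ∀ Z, Closed v ((S \ {x, y}) \ {z, w}) Z → (bd (nw a x y z w) Z).card < k →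
      a x ∈ Z → a y ∈ Z → a z ∉ Z → a w ∉ Z → ∃ Z, Closed v S Z ∧ x ∉ Z ∧ a x ∈ Z ∧ a y ∈ Z ∧
        a z ∉ Z ∧ a w ∉ Z ∧ (bd a Z).card ≤ k + 1 := by
    intro Z hZ hlt m1 m2 m3 m4
    refine ⟨Z, h.closed.trans hZ, fun u => nx (hZ.1 u), m1, m2, m3, m4, ?_⟩
    have : bd a Z ⊆ insert (a x) (insert (a y) (bd (nw a x y z w) Z)) := by
      intro d hd
      simp only [mem_insert, mem_bd] at hd ⊢
      by_cases e1 : d = a x
      · exact Or.inl e1
      by_cases e2 : d = a y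
      · exact Or.inr (Or.inl e2)
      refine Or.inr (Or.inr ⟨hd.1, ?_⟩)
      unfold nw
      rw [cl_ne (d := d) (f := a z) (g := a w) (fun e => m3 (e ▸ hd.1)) (fun e => m4 (e ▸ hd.1)), cl_ne e1 e2]
      exact hd.2
    have c1 := card_le_card this
    have c2 := card_insert_le (a x) (insert (a y) (bd (nw a x y z w) Z))
    have c3 := card_insert_le (a y) (bd (nw a x y z w) Z)
    omega
  unfold Conn at hn
  push Not at hn
  obtain ⟨Z, hZ, hne, hp, hlt⟩ := hn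
  have hlt' := hlt
  rw [← app_card_bd_compl h.gnet hZ.1] at hlt'
  have a1 := A Z hZ hne hlt
  have a2 := A _ hZ.compl (sdiff_nonempty.2 fun u => hp (Subset.antisymm hZ.1 u)) hlt'
  simp only [mem_sdiff (s := (S \ {x, y}) \ {z, w})] at a2
  rcases a1 with a1 | a1 <;> rcases a2 with a2 | a2
  · exact absurd a1.1 a2.1.2
  · exact B Z hZ hlt a1.1 a1.2 a2.1.2 a2.2.2
  · exact B _ hZ.compl hlt' (mem_sdiff.2 a2.1) (mem_sdiff.2 a2.2) (by simp [a1.1]) (by simp [a1.2])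
  · exact absurd a1.1 a2.1.2

end Quad

lemma Closed.inter {v : D → V} {S X Y : Finset D} (h : Closed v S X) (h' : Closed v S Y) :
    Closed v S (X ∩ Y) :=
  ⟨inter_subset_left.trans h.1, fun d hd x hx e =>
    mem_inter.2 ⟨h.2 d (mem_inter.1 hd).1 x hx e, h'.2 d (mem_inter.1 hd).2 x hx e⟩⟩

lemma Closed.sdiff {v : D → V} {S X Y : Finset D} (h : Closed v S X) (h' : Closed v S Y) :
    Closed v S (X \ Y) :=
  ⟨sdiff_subset.trans h.1, fun d hd x hx e => mem_sdiff.2 ⟨h.2 d (mem_sdiff.1 hd).1 x hx e,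
    fun k => (mem_sdiff.1 hd).2 (h'.2 x k d (h.1 (mem_sdiff.1 hd).1) e.symm)⟩⟩

/-- the splitting lemma -/
lemma app_split {v : D → V} {S : Finset D} {a : D → D} {k : ℕ} (hk : 2 ≤ k) (g : GNet S a)
    (hc : Conn v k S a) {x : D} (hx : x ∈ S) (c : (fib v S x).card = 4)
    (nl : ∀ d ∈ fib v S x, v (a d) ≠ v x) :
    ∃ y z w, Quad v S a x y z w ∧ Conn v k ((S \ {x, y}) \ {z, w}) (Quad.nw a x y z w) := by
  have hx' : x ∈ fib v S x := mem_fib.2 ⟨hx, rfl⟩
  obtain ⟨y, z, w, -, -, -, e⟩ := card_eq_three.1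
    (show ((fib v S x).erase x).card = 3 by rw [card_erase_of_mem hx', c])
  have h : Quad v S a x y z w := ⟨g, by rw [← e, insert_erase hx'], c, nl⟩
  by_contra hn
  push Not at hn
  obtain ⟨X, cX, x1, x2, x3, x4, x5, x6⟩ := h.bad hc (hn _ _ _ h)
  obtain ⟨Y, cY, y1, y2, y3, y4, y5, y6⟩ := h.swap1.bad hc (hn _ _ _ h.swap1)
  obtain ⟨Z, cZ, z1, z2, z3, z4, z5, z6⟩ := h.swap2.bad hc (hn _ _ _ h.swap2)
  have k0 := app_four g cX.1 cY.1 cZ.1 hx x1 y1 z1 x2 y2 z2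
  have k1 := hc _ ((cX.inter cY).inter cZ) ⟨a x, by simp [x2, y2, z2]⟩
    (fun e => by have := e ▸ hx; simp [x1] at this)
  have k2 := hc _ ((cX.sdiff cY).sdiff cZ) ⟨a y, by simp [x3, y4, z4]⟩
    (fun e => by have := e ▸ hx; simp [x1] at this)
  have k3 := hc _ ((cY.sdiff cX).sdiff cZ) ⟨a z, by simp [y3, x4, z5]⟩
    (fun e => by have := e ▸ hx; simp [y1] at this)
  have k4 := hc _ ((cZ.sdiff cX).sdiff cY) ⟨a w, by simp [z3, x5, y5]⟩
    (fun e => by have := e ▸ hx; simp [z1] at this)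
  omega

end Pool.Agent.Lib.IC34
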