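import Pool.Agent.Lib.MP_fb9257_co.App2

/-! The two inductions on nets with vertices of size two, three and four. -/

set_option linter.unusedSectionVars false

namespace Pool.Agent.Lib.IC34
open Finset

variable {D V : Type*} [DecidableEq D] [DecidableEq V]

def HW (v : D → V) (S : Finset D) (σ : D → Z2) : Prop :=
  (∃ d ∈ S, (fib v S d).card = 3) ∨ ∑ d ∈ S, σ d = 0

def GQ (v : D → V) (S : Finset D) (a : D → D) (σ : D → Z2) (t : D) : Prop :=
  (NDb v S a σ t ∨ NDb v S a (fl σ t 1) t) ∧ (HW v S σ → WW v S a σ t)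

def GP (v : D → V) (S : Finset D) (a : D → D) : Prop := ∀ σ, ∀ t ∈ S, GQ v S a σ t

lemma app_fl_swap {v : D → V} {S : Finset D} {a : D → D} {σ : D → Z2} {W : D → Prop} {t : D}
    {b : Z2} {r : D → Z2} {p : D → Prop} (g : GNet S a) (ht : t ∈ S)
    (h : Sol v S a (fl σ t b) W r p) : Sol v S a (fl σ (a t) b) W r p := by
  refine h.congr fun d hd _ => ⟨rfl, ?_, id⟩
  by_cases e1 : d = t
  · subst e1
    rw [fl_self, fl_self, fl_ne _ (g.ne d hd), fl_ne _ (g.ne d hd).symm]; ring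
  by_cases e2 : d = a t
  · subst e2
    rw [g.inv t ht, fl_self, fl_self, fl_ne _ e1, fl_ne _ (Ne.symm e1)]; ring
  rw [fl_ne _ e1, fl_ne _ e2, fl_ne _ (g.ne_of hd ht e1),
    fl_ne _ (fun e => e2 (by rw [← e, g.inv d hd]))]

lemma GQ.swap {v : D → V} {S : Finset D} {a : D → D} {σ : D → Z2} {t : D} (g : GNet S a)
    (ht : t ∈ S) (h : GQ v S a σ t) : GQ v S a σ (a t) := by
  refine ⟨h.1.imp (fun k => ⟨k.2, by rw [g.inv t ht]; exact k.1⟩) fun k => ⟨?_, ?_⟩, fun k => ?_⟩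
  · obtain ⟨r, p, h1, h2⟩ := k.2
    exact ⟨r, p, app_fl_swap g ht h1, h2⟩
  · obtain ⟨r, p, h1, h2⟩ := k.1
    exact ⟨r, p, app_fl_swap g ht h1, by rw [g.inv t ht]; exact h2⟩
  · obtain ⟨r, p, h1⟩ := h.2 k
    refine ⟨r, p, h1.congr fun d hd _ => ⟨rfl, rfl, ?_⟩⟩
    rintro (e | e)
    · exact Or.inr (by rw [e])
    · exact Or.inl (by rw [← e, g.inv d hd])

namespace Pr
variable {v : D → V} {S : Finset D} {a : D → D} {x y : D}

lemma hw (h : Pr v S a x y) (hV : (fib v S x).card = 2 ∨ (fib v S x).card = 4) {σ : D → Z2}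
    (H : HW v S σ) : HW v (S \ {x, y}) (fl σ (a x) (σ x + σ y)) := by
  rcases H with ⟨d, hd, c⟩ | H
  · have hv : v d ≠ v x := fun e => by rw [app_fib_congr e] at c; omega
    refine Or.inl ⟨d, ?_, by rw [h.fib_other hv]; exact c⟩
    simp only [mem_sdiff, mem_insert, mem_singleton, not_or]
    refine ⟨hd, ?_, ?_⟩
    · rintro rfl; exact hv rfl
    · rintro rfl; exact hv h.vv
  · refine Or.inr ?_
    have e1 : ∑ d ∈ S \ {x, y}, fl σ (a x) (σ x + σ y) d =
        ∑ d ∈ S \ {x, y}, (σ d + if d = a x then σ x + σ y else 0) :=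
      sum_congr rfl fun d _ => by unfold fl; split_ifs <;> simp
    have e2 := sum_sdiff (s₁ := {x, y}) (s₂ := S) (f := σ)
      (by intro d; simp; rintro (rfl | rfl); exacts [h.hx, h.hy])
    rw [e1, sum_add_distrib, sum_ite_eq', if_pos h.ox, ← H, ← e2, sum_pair h.ne]

lemma ndb (h : Pr v S a x y) (hV : (fib v S x).card = 2 ∨ (fib v S x).card = 4)
    {σ σ' : D → Z2} (hσ : ∀ d ∈ S \ {x, y}, σ' d = fl σ (a x) (σ x + σ y) d)
    (H : NDb v (S \ {x, y}) (cl a (a x) (a y)) σ' (a x)) : NDb v S a σ x := by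
  obtain ⟨⟨r, p, h1, h2⟩, ⟨r2, p2, h3, h4⟩⟩ := H
  rw [cl_fst] at h4
  constructor
  · obtain ⟨r', p', k1, -, k2, -⟩ := h.lift (W := W0) h3 hσ False True (fun _ _ _ u => u)
      (fun u => u.elim) (fun _ w => (h4 w).elim) (Or.inl ⟨hV, Or.inr trivial⟩)
    exact ⟨r', p', k1, by rw [k2]; exact id⟩
  · obtain ⟨r', p', k1, k2⟩ := h.lift0 h1 hσ hV
    exact ⟨r', p', k1, by rw [k2 _ h.ox]; exact h2⟩

lemma step1 (h : Pr v S a x y) (hV : (fib v S x).card = 2 ∨ (fib v S x).card = 4)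
    (H : GP v (S \ {x, y}) (cl a (a x) (a y))) (σ : D → Z2) : GQ v S a σ x := by
  obtain ⟨k1, k2⟩ := H (fl σ (a x) (σ x + σ y)) (a x) h.ox
  refine ⟨k1.imp (h.ndb hV fun _ _ => rfl) (h.ndb hV fun d hd => ?_), fun k => ?_⟩
  · simp only [mem_sdiff, mem_insert, mem_singleton, not_or] at hd
    rw [fl_fl, fl_self, fl_ne _ h.ne.symm]
    unfold fl
    rw [if_neg hd.2.1]
    split_ifs
    · ring
    · rfl
  · obtain ⟨r, p, h1⟩ := k2 (h.hw hV k)
    obtain ⟨r', p', k1, -⟩ := h.lift (W := (· = x)) h1 (fun _ _ => rfl) True False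
      (fun d hd hd' u => by have := h.inner hd hd'; tauto)
      (fun _ _ => Or.inl rfl) (fun u => u.elim) (Or.inl ⟨hV, Or.inl trivial⟩)
    exact ⟨r', p', k1⟩

lemma step2 (h : Pr v S a x y) (hV : (fib v S x).card = 2 ∨ (fib v S x).card = 4)
    (H : GP v (S \ {x, y}) (cl a (a x) (a y))) (σ : D → Z2) {t : D} (ht : t ∈ S \ {x, y})
    (ht' : a t ∈ S \ {x, y}) : GQ v S a σ t := by
  obtain ⟨k1, k2⟩ := H (fl σ (a x) (σ x + σ y)) t ht
  obtain ⟨n1, n2, -, -⟩ := h.inner ht ht'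
  have A : ∀ σ σ' : D → Z2, (∀ d ∈ S \ {x, y}, σ' d = fl σ (a x) (σ x + σ y) d) →
      NDb v (S \ {x, y}) (cl a (a x) (a y)) σ' t → NDb v S a σ t := by
    rintro σ σ' hσ ⟨⟨r, p, h1, h2⟩, ⟨r2, p2, h3, h4⟩⟩
    rw [cl_ne n1 n2] at h4
    obtain ⟨r', p', k1, k2⟩ := h.lift0 h1 hσ hV
    obtain ⟨r2', p2', k3, k4⟩ := h.lift0 h3 hσ hV
    exact ⟨⟨r', p', k1, by rw [k2 _ ht]; exact h2⟩, ⟨r2', p2', k3, by rw [k4 _ ht']; exact h4⟩⟩
  refine ⟨k1.imp (A _ _ fun _ _ => rfl) (A _ _ fun d _ => ?_), fun k => ?_⟩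
  · simp only [mem_sdiff, mem_insert, mem_singleton, not_or] at ht
    rw [fl_comm, fl_ne _ (Ne.symm ht.2.1), fl_ne _ (Ne.symm ht.2.2)]
  · obtain ⟨r, p, h1⟩ := k2 (h.hw hV k)
    have k := (h1.2 (a x) h.ox (by simpa using h.oy)).2
    rw [cl_fst] at k
    obtain ⟨r', p', k1, -⟩ := h.lift (W := (· = t)) h1 (fun _ _ => rfl) (¬ p (a x)) (¬ p (a y))
      (fun _ _ _ u => u) (fun u w => (u w).elim) (fun u w => (u w).elim)
      (Or.inl ⟨hV, by
        by_contra hn
        push Not at hn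
        exact (k hn.1 hn.2).elim (fun e => n1 e.symm) (fun e => n2 e.symm)⟩)
    exact ⟨r', p', k1⟩

lemma step (h : Pr v S a x y) (hV : (fib v S x).card = 2 ∨ (fib v S x).card = 4)
    (H : GP v (S \ {x, y}) (cl a (a x) (a y))) : GP v S a := by
  intro σ t ht
  have hx := h.step1 hV H σ
  have hy : GQ v S a σ y := h.symm.step1 (by rw [app_fib_congr h.vv]; exact hV)
    (by rw [pair_comm y x, cl_comm]; exact H) σ
  by_cases e1 : t = x
  · rw [e1]; exact hx
  by_cases e2 : t = y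
  · rw [e2]; exact hy
  have ht1 : t ∈ S \ {x, y} := by simp [ht, e1, e2]
  by_cases ht2 : a t ∈ S \ {x, y}
  · exact h.step2 hV H σ ht1 ht2
  rcases h.outer ht1 ht2 with e | e
  · rw [e]; exact hx.swap h.g h.hx
  · rw [e]; exact hy.swap h.g h.hy

lemma cards (h : Pr v S a x y) (hV : (fib v S x).card = 2 ∨ (fib v S x).card = 4)
    (hc : ∀ d ∈ S, 2 ≤ (fib v S d).card ∧ (fib v S d).card ≤ 4) :
    ∀ d ∈ S \ {x, y}, 2 ≤ (fib v (S \ {x, y}) d).card ∧ (fib v (S \ {x, y}) d).card ≤ 4 := by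
  intro d hd
  by_cases hv : v d = v x
  · have c := h.card_self
    have : 0 < (fib v (S \ {x, y}) x).card := card_pos.2 ⟨d, mem_fib.2 ⟨hd, hv⟩⟩
    rw [app_fib_congr hv]; omega
  · rw [h.fib_other hv]; exact hc d (mem_sdiff.1 hd).1

end Pr

lemma app_circle {v : D → V} {a : D → D} {x : D} (g : GNet {x, a x} a) (hv : v (a x) = v x) :
    GP v {x, a x} a := by
  have hne : a x ≠ x := g.ne x (by simp)
  have hi : a (a x) = x := g.inv x (by simp)
  have A : ∀ (σ : D → Z2) (t : D), σ x + σ (a x) = 0 → ND v {x, a x} a σ t := by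
    intro σ t hσ
    set u := if t = x then a x else x with hu
    refine ⟨fun d => if d = x then 0 else 1, (· = u), ⟨fun d hd => ?_, fun d hd _ => ?_⟩, ?_⟩
    · have : fib v {x, a x} d = {x, a x} := by
        ext z; simp only [mem_fib, mem_insert, mem_singleton] at hd ⊢
        refine ⟨fun k => k.1, fun k => ⟨k, ?_⟩⟩
        rcases hd with rfl | rfl <;> rcases k with rfl | rfl <;> simp [hv]
      rw [this]
      refine Or.inl (app_v2 hne.symm (by simp [hne]) ?_)
      rw [hu]; split_ifs <;> simp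
    · refine ⟨?_, fun e1 e2 => (g.ne d hd (e2.trans e1.symm)).elim⟩
      simp only [mem_insert, mem_singleton] at hd
      rcases hd with rfl | rfl
      · simp only [if_true, if_neg hne]; grind
      · simp only [hi, if_true, if_neg hne]; grind
    · rw [hu]; split_ifs with e
      · rw [e]; exact hne.symm
      · exact e
  intro σ t ht
  refine ⟨?_, fun k => ?_⟩
  · rcases z2 (σ x + σ (a x)) with e | e
    · exact Or.inl ⟨A _ _ e, A _ _ e⟩
    · have : fl σ t 1 x + fl σ t 1 (a x) = 0 := by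
        simp only [mem_insert, mem_singleton] at ht
        rcases ht with rfl | rfl
        · rw [fl_self, fl_ne _ hne]; grind
        · rw [fl_self, fl_ne _ hne.symm]; grind
      exact Or.inr ⟨A _ _ this, A _ _ this⟩
  · rcases k with ⟨d, _, c⟩ | k
    · have c1 : (fib v {x, a x} d).card ≤ ({x, a x} : Finset D).card :=
        card_le_card (filter_subset _ _)
      have c2 : ({x, a x} : Finset D).card ≤ 2 := card_le_two
      omega
    · rw [sum_pair hne.symm] at k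
      obtain ⟨r, p, h1, -⟩ := A σ t k
      exact ⟨r, p, h1.w0⟩

theorem app_GG {v : D → V} (hG : CoreG v) (S : Finset D) : ∀ (a : D → D), GNet S a →
    (∀ d ∈ S, 2 ≤ (fib v S d).card ∧ (fib v S d).card ≤ 4) → Conn v 2 S a → GP v S a := by
  induction S using Finset.strongInductionOn with
  | _ S ih =>
  intro a g hc hk
  have ss : ∀ {x y : D}, x ∈ S → S \ {x, y} ⊂ S := fun {x y} hx =>
    ⟨sdiff_subset, fun k => by have := k hx; simp at this⟩
  by_cases h4 : ∃ x ∈ S, (fib v S x).card = 4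
  · obtain ⟨x, hx, c⟩ := h4
    by_cases nl : ∀ d ∈ fib v S x, v (a d) ≠ v x
    · obtain ⟨y, z, w, q, hq⟩ := app_split le_rfl g hk hx c nl
      refine q.pr1.step (Or.inr c) (q.pr2.step (Or.inl q.c2) ?_)
      rw [← q.nw_eq]
      refine ih _ (Finset.ssubset_of_subset_of_ssubset sdiff_subset (ss hx)) _ q.gnet (fun d hd => ?_) hq
      rw [q.fib2 hd]; exact hc d (q.mem2.1 hd).1
    · push Not at nl
      obtain ⟨d, hd, e⟩ := nl
      obtain ⟨hd, hv⟩ := mem_fib.1 hd
      have c' : (fib v S d).card = 4 := by rw [app_fib_congr hv]; exact c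
      obtain ⟨y, hy, hy'⟩ := exists_mem_notMem_of_card_lt_card
        (show ({d, a d} : Finset D).card < (fib v S d).card by
          have : ({d, a d} : Finset D).card ≤ 2 := card_le_two
          omega)
      simp only [mem_insert, mem_singleton, not_or] at hy'
      have q : Pr v S a d y := ⟨g, hd, (mem_fib.1 hy).1, Ne.symm hy'.1, (mem_fib.1 hy).2,
        Ne.symm hy'.2⟩
      exact q.step (Or.inr c') (ih _ (ss hd) _ q.gnet (q.cards (Or.inr c') hc)
        (q.conn hk (Or.inr (e.trans hv.symm))))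
  by_cases h2 : ∃ x ∈ S, (fib v S x).card = 2
  · obtain ⟨x, hx, c⟩ := h2
    have hx' : x ∈ fib v S x := mem_fib.2 ⟨hx, rfl⟩
    obtain ⟨y, e⟩ := card_eq_one.1
      (show ((fib v S x).erase x).card = 1 by rw [card_erase_of_mem hx', c])
    have hy : y ∈ (fib v S x).erase x := by rw [e]; simp
    obtain ⟨hy1, hy2⟩ := mem_erase.1 hy
    by_cases hl : a x = y
    · subst hl
      have ef : fib v S x = {x, a x} := by rw [← insert_erase hx', e]
      have eS : fib v S x = S := by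
        by_contra hn
        have k := hk _ (closed_fib x) ⟨x, hx'⟩ hn
        have : bd a (fib v S x) = ∅ := by
          rw [ef]; ext d; simp only [mem_bd, mem_insert, mem_singleton, notMem_empty, iff_false]
          rintro ⟨rfl | rfl, k⟩
          · simp at k
          · simp [g.inv x hx] at k
        rw [this] at k; simp at k
      have eS' : S = {x, a x} := eS.symm.trans ef
      rw [eS'] at g ⊢
      exact app_circle g (mem_fib.1 hy2).2
    · have q : Pr v S a x y := ⟨g, hx, (mem_fib.1 hy2).1, hy1.symm, (mem_fib.1 hy2).2, hl⟩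
      exact q.step (Or.inl c) (ih _ (ss hx) _ q.gnet (q.cards (Or.inl c) hc)
        (q.conn hk (Or.inl c)))
  · push Not at h4 h2
    intro σ t ht
    have := hG S a σ t g (fun d hd => by
      have := hc d hd; have := h4 d hd; have := h2 d hd; omega) hk ht
    exact ⟨this.1, fun _ => this.2⟩

lemma app_noloop {v : D → V} {S : Finset D} {a : D → D} (g : GNet S a) (hk : Conn v 3 S a)
    {x : D} (hx : x ∈ S) (c : (fib v S x).card ≤ 4) (hn : fib v S x ≠ S) :
    ∀ d ∈ fib v S x, v (a d) ≠ v x := by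
  intro d hd e
  have hd' := (mem_fib.1 hd).1
  have k := hk _ (closed_fib x) ⟨x, mem_fib.2 ⟨hx, rfl⟩⟩ hn
  have ha : a d ∈ fib v S x := mem_fib.2 ⟨g.mem d hd', e⟩
  have s : bd a (fib v S x) ⊆ (fib v S x) \ {d, a d} := by
    intro z hz
    rw [mem_bd] at hz
    simp only [mem_sdiff, mem_insert, mem_singleton, not_or]
    refine ⟨hz.1, ?_, ?_⟩
    · rintro rfl; exact hz.2 ha
    · rintro rfl; exact hz.2 (by rw [g.inv d hd']; exact hd)
  have c1 := card_le_card s
  rw [card_sdiff_of_subset (by intro z; simp only [mem_insert, mem_singleton]; rintro (rfl | rfl); exacts [hd, ha]),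
    card_pair (g.ne d hd').symm] at c1
  omega

theorem app_F1 {v : D → V} (hN : CoreN v) (hT : CoreT v) (S : Finset D) : ∀ (a : D → D)
    (σ : D → Z2), GNet S a → (∀ d ∈ S, (fib v S d).card = 3 ∨ (fib v S d).card = 4) →
    Conn v 3 S a → (∃ d ∈ S, (fib v S d).card = 3) → (∃ d ∈ S, (fib v S d).card = 4) →
    ∃ r p, Sol v S a σ W0 r p := by
  induction S using Finset.strongInductionOn with
  | _ S ih =>
  intro a σ g hc hk ⟨u, hu, cu⟩ ⟨x, hx, c⟩
  have hv : v u ≠ v x := fun e => by rw [app_fib_congr e] at cu; omega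
  have nl := app_noloop g hk hx c.le fun e => hv (mem_fib.1 (e.symm ▸ hu : u ∈ fib v S x)).2
  obtain ⟨y, z, w, q, hq⟩ := app_split (by norm_num) g hk hx c nl
  set σ1 := fl σ (a x) (σ x + σ y) with h1
  set σ2 := fl σ1 (cl a (a x) (a y) z) (σ1 z + σ1 w) with h2
  have plain : ∀ r p, Sol v ((S \ {x, y}) \ {z, w}) (Quad.nw a x y z w) σ2 W0 r p →
      ∃ r p, Sol v S a σ W0 r p := by
    intro r p h
    rw [q.nw_eq] at h
    obtain ⟨r1, p1, k1, -⟩ := q.pr2.lift0 h (fun _ _ => rfl) (Or.inl q.c2)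
    obtain ⟨r2, p2, k2, -⟩ := q.pr1.lift0 k1 (fun _ _ => rfl) (Or.inr c)
    exact ⟨r2, p2, k2⟩
  have hc2 : ∀ d ∈ (S \ {x, y}) \ {z, w}, (fib v ((S \ {x, y}) \ {z, w}) d).card = 3 ∨
      (fib v ((S \ {x, y}) \ {z, w}) d).card = 4 := fun d hd => by
    rw [q.fib2 hd]; exact hc d (q.mem2.1 hd).1
  by_cases h4 : ∃ d ∈ (S \ {x, y}) \ {z, w}, (fib v ((S \ {x, y}) \ {z, w}) d).card = 4
  · obtain ⟨r, p, h⟩ := ih _ (Finset.ssubset_of_subset_of_ssubset sdiff_subset
      (show S \ {x, y} ⊂ S from ⟨sdiff_subset, fun k => by have := k hx; simp at this⟩)) _ σ2 q.gnet hc2 hq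
      ⟨u, q.mem2.2 ⟨hu, hv⟩, by rw [q.fib2 (q.mem2.2 ⟨hu, hv⟩)]; exact cu⟩ h4
    exact plain r p h
  · push Not at h4
    have cub : Cub v ((S \ {x, y}) \ {z, w}) := fun d hd => (hc2 d hd).resolve_right (h4 d hd)
    rcases hN _ _ σ2 (a x) q.gnet cub hq (q.amem q.mx) with ⟨r, p, h, -⟩ | hb
    · exact plain r p h
    obtain ⟨n1, n2, n3, n4, n5, n6⟩ := q.ne
    have m := fun {d d' : D} (hd : d ∈ fib v S x) (hd' : d' ∈ fib v S x) (e : d ≠ d') =>
      g.ne_of (mem_fib.1 hd).1 (mem_fib.1 hd').1 e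
    have ex : Quad.nw a x y z w (a x) = a y := by
      unfold Quad.nw; rw [cl_ne (m q.mx q.mz n2) (m q.mx q.mw n3), cl_fst]
    have ez : Quad.nw a x y z w (a z) = a w := by unfold Quad.nw; rw [cl_fst]
    obtain ⟨r, p, h, p1, p2⟩ := hT _ _ σ2 (a x) (a z) q.gnet cub hq (q.amem q.mx) (q.amem q.mz)
      (m q.mz q.mx n2.symm) (by rw [ex]; exact m q.mz q.my n4.symm) hb
    rw [ez] at p2
    rw [q.nw_eq] at h
    obtain ⟨r1, q1, k1, -, k2, k3⟩ := q.pr2.lift (W := (· = a x)) h (fun _ _ => rfl) True True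
      (fun _ _ _ u => u) (fun _ u => by rw [q.az] at u; exact (p1 u).elim)
      (fun _ u => by rw [q.aw] at u; exact (p2 u).elim) (Or.inl ⟨Or.inl q.c2, Or.inl trivial⟩)
    obtain ⟨r2, q2, k4, -⟩ := q.pr1.lift (W := W0) k1 (fun _ _ => rfl) False False
      (fun d hd hd' u => by have := q.pr1.inner hd hd'; tauto) (fun u => u.elim) (fun u => u.elim)
      (Or.inr ⟨c, fun d hd => by
        have hd1 := (mem_fib.1 hd).1
        have : d ∈ fib v S x := mem_fib.2 ⟨(mem_sdiff.1 hd1).1, (mem_fib.1 hd).2⟩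
        rw [q.e] at this
        simp only [mem_sdiff, mem_insert, mem_singleton, not_or] at hd1 this
        rcases this with e | e | e | e
        · exact absurd e hd1.2.1
        · exact absurd e hd1.2.2
        · rw [e, k2]; trivial
        · rw [e, k3]; trivial⟩)
    exact ⟨r2, q2, k4⟩

end Pool.Agent.Lib.IC34
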