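import Pool.Agent.Lib.MP_fb9257_co.App3

/-! Extension to free darts, a three-connected piece, and the parity count. -/

set_option linter.unusedSectionVars false

namespace Pool.Agent.Lib.IC34
open Finset

variable {D V : Type*} [DecidableEq D] [DecidableEq V]

def Cst (T : Finset D) (r : D → Z2) : Prop := ∃ c, ∀ x ∈ T, r x = c

def V3w (T : Finset D) (r : D → Z2) (p : D → Prop) : Prop :=
  ∃ a b c, T = {a, b, c} ∧ a ≠ b ∧ a ≠ c ∧ b ≠ c ∧ r a + r b = 1 ∧ r b = r c ∧ (p a ∨ p b ∨ p c)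

/-- the condition on the inner darts `T` of a vertex of degree `n` -/
def LC (n : ℕ) (T : Finset D) (r : D → Z2) (p : D → Prop) : Prop :=
  (n = 2 → Cst T r) ∧
    (n = 3 ∨ n = 4 → VV T r p ∨ (T.card ≤ 2 ∧ Cst T r) ∨ (n = 4 ∧ V3w T r p))

lemma app_ins1 {T0 T : Finset D} (h : T0 ⊆ T) (c : T0.card + 1 = T.card) :
    ∃ e, e ∉ T0 ∧ T = insert e T0 := by
  obtain ⟨e, h1, h2⟩ := exists_eq_insert_iff.2 ⟨h, c⟩
  exact ⟨e, h1, h2.symm⟩

lemma app_ins2 {T0 T : Finset D} (h : T0 ⊆ T) (c : T0.card + 2 = T.card) :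
    ∃ e f, e ≠ f ∧ e ∉ T0 ∧ f ∉ T0 ∧ T = insert e (insert f T0) := by
  obtain ⟨T1, h1, h2, h3⟩ := exists_subsuperset_card_eq h (n := T0.card + 1) (by omega) (by omega)
  obtain ⟨f, k1, rfl⟩ := app_ins1 h1 h3.symm
  obtain ⟨e, k2, rfl⟩ := app_ins1 h2 (by omega)
  simp only [mem_insert, not_or] at k2
  exact ⟨e, f, k2.1, k2.2, k1, rfl⟩

lemma app_card4 {a b c d : D} (h1 : a ≠ b) (h2 : a ≠ c) (h3 : a ≠ d) (h4 : b ≠ c) (h5 : b ≠ d)
    (h6 : c ≠ d) : ({a, b, c, d} : Finset D).card = 4 := by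
  rw [card_insert_of_notMem (by simp [h1, h2, h3]), card_eq_three.2 ⟨b, c, d, h4, h5, h6, rfl⟩]

lemma app_ext3 {T0 T : Finset D} {r : D → Z2} {p P : D → Prop} (h : T0 ⊆ T) (c : T.card = 3)
    (hP : ∀ x, (x ∈ T0 → p x) → P x) (H : VV T0 r p ∨ (T0.card ≤ 2 ∧ Cst T0 r)) :
    ∃ r', (∀ x ∈ T0, r' x = r x) ∧ V3 T r' P := by
  rcases H with (⟨a, b, rfl, h1, h2, h3⟩ | ⟨a, b, e, rfl, h1, h2, h3, h4, h5, h6⟩ |
    ⟨a, b, e, f, rfl, h1, h2, h3, h4, h5, h6, -⟩) | ⟨h1, k, hk⟩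
  · obtain ⟨e, he, rfl⟩ := app_ins1 h (by rw [card_pair h1, c])
    have he' := he
    simp only [mem_insert, mem_singleton, not_or] at he
    refine ⟨Function.update r e (r b),
      fun x hx => Function.update_of_ne (fun k : x = e => he' (k ▸ hx)) _ _,
      a, b, e, by ext; simp; tauto, h1, Ne.symm he.1, Ne.symm he.2, ?_, ?_, hP _ fun _ => h3⟩
    · simp [Ne.symm he.1, Ne.symm he.2, h2]
    · simp [Ne.symm he.2]
  · have := eq_of_subset_of_card_le h
      (by rw [c, card_eq_three.2 ⟨a, b, e, h1, h2, h3, rfl⟩])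
    exact ⟨r, fun _ _ => rfl, a, b, e, this.symm, h1, h2, h3, h4, h5, hP _ fun _ => h6⟩
  · have := card_le_card h
    rw [app_card4 h1 h2 h3 h4 h5 h6] at this; omega
  · obtain ⟨T1, k1, k2, k3⟩ := exists_subsuperset_card_eq h (n := 2) h1 (by omega)
    obtain ⟨e, he, rfl⟩ := app_ins1 k2 (by omega)
    obtain ⟨a, b, hab, rfl⟩ := card_eq_two.1 k3
    have he' := he
    simp only [mem_insert, mem_singleton, not_or] at he
    refine ⟨fun z => if z = e then k + 1 else k, fun x hx => ?_, e, a, b, rfl, he.1, he.2, hab,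
      ?_, ?_, hP _ fun u => (he' (k1 u)).elim⟩
    · rw [hk x hx]; exact if_neg fun u : x = e => he' (k1 (u ▸ hx))
    · simp only [if_true, if_neg (Ne.symm he.1)]; grind
    · simp only [if_neg (Ne.symm he.1), if_neg (Ne.symm he.2)]

lemma app_ext4 {T0 T : Finset D} {r : D → Z2} {p P : D → Prop} (h : T0 ⊆ T) (c : T.card = 4)
    (hP : ∀ x, (x ∈ T0 → p x) → P x)
    (H : VV T0 r p ∨ (T0.card ≤ 2 ∧ Cst T0 r) ∨ V3w T0 r p) :
    ∃ r', (∀ x ∈ T0, r' x = r x) ∧ V4 T r' P := by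
  have W : V3w T0 r p → ∃ r', (∀ x ∈ T0, r' x = r x) ∧ V4 T r' P := by
    rintro ⟨a, b, e, rfl, h1, h2, h3, h4, h5, h6⟩
    obtain ⟨f, hf, rfl⟩ := app_ins1 h (by rw [c, card_eq_three.2 ⟨a, b, e, h1, h2, h3, rfl⟩])
    have hf' := hf
    simp only [mem_insert, mem_singleton, not_or] at hf
    obtain ⟨n1, n2, n3⟩ := hf
    refine ⟨Function.update r f (r a),
      fun x hx => Function.update_of_ne (fun k : x = f => hf' (k ▸ hx)) _ _, ?_⟩
    have Pf : P f := hP _ fun u => (hf' u).elim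
    by_cases he : p e
    · rw [show ({f, a, b, e} : Finset D) = {f, b, a, e} by ext; simp; tauto]
      refine app_v4 n2 n1 n3 h1.symm h3 h2 ?_ ?_ (Or.inl ⟨Or.inl Pf, Or.inr (hP _ fun _ => he)⟩)
      · simp [Ne.symm n2, h4]
      · simp [Ne.symm n1, Ne.symm n3, ← h5, h4]
    · rw [show ({f, a, b, e} : Finset D) = {f, e, a, b} by ext; simp; tauto]
      refine app_v4 n3 n1 n2 h2.symm h3.symm h1 ?_ ?_ (Or.inl ⟨Or.inl Pf, ?_⟩)
      · simp [Ne.symm n3, ← h5, h4]
      · simp [Ne.symm n1, Ne.symm n2, h4]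
      · rcases h6 with u | u | u
        · exact Or.inl (hP _ fun _ => u)
        · exact Or.inr (hP _ fun _ => u)
        · exact absurd u he
  rcases H with (⟨a, b, rfl, h1, h2, h3⟩ | ⟨a, b, e, rfl, h1, h2, h3, h4, h5, h6⟩ |
    ⟨a, b, e, f, rfl, h1, h2, h3, h4, h5, h6, h7, h8, h9, h10⟩) | ⟨h1, k, hk⟩ | H
  · obtain ⟨e, f, hef, he, hf, rfl⟩ := app_ins2 h (by rw [card_pair h1, c])
    have he' := he
    have hf' := hf
    simp only [mem_insert, mem_singleton, not_or] at he hf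
    refine ⟨fun z => if z = e then 0 else if z = f then 1 else r z, fun x hx => ?_,
      app_v4 hef he.1 he.2 hf.1 hf.2 h1 ?_ ?_
        (Or.inl ⟨Or.inl (hP _ fun u => (he' u).elim), Or.inl (hP _ fun _ => h3)⟩)⟩
    · have n1 : x ≠ e := fun u => he' (u ▸ hx)
      have n2 : x ≠ f := fun u => hf' (u ▸ hx)
      simp [n1, n2]
    · simp [hef.symm]
    · simp [Ne.symm he.1, Ne.symm he.2, Ne.symm hf.1, Ne.symm hf.2, h2]
  · exact W ⟨a, b, e, rfl, h1, h2, h3, h4, h5, Or.inl h6⟩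
  · have := eq_of_subset_of_card_le h (by rw [c, app_card4 h1 h2 h3 h4 h5 h6])
    exact ⟨r, fun _ _ => rfl, a, b, e, f, this.symm, h1, h2, h3, h4, h5, h6, h7, h8,
      hP _ fun _ => h9, hP _ fun _ => h10⟩
  · obtain ⟨T1, k1, k2, k3⟩ := exists_subsuperset_card_eq h (n := 2) h1 (by omega)
    obtain ⟨e, f, hef, he, hf, rfl⟩ := app_ins2 k2 (by omega)
    obtain ⟨a, b, hab, rfl⟩ := card_eq_two.1 k3
    have he' := he
    have hf' := hf
    simp only [mem_insert, mem_singleton, not_or] at he hf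
    refine ⟨fun z => if z = e ∨ z = f then k + 1 else k, fun x hx => ?_, e, a, f, b,
      by ext; simp; tauto, he.1, hef, he.2, Ne.symm hf.1, hab, hf.2, ?_, ?_,
      hP _ fun u => (he' (k1 u)).elim, hP _ fun u => (hf' (k1 u)).elim⟩
    · have n1 : x ≠ e := fun u => he' (k1 (u ▸ hx))
      have n2 : x ≠ f := fun u => hf' (k1 (u ▸ hx))
      simp [n1, n2, hk x hx]
    · simp only [true_or, if_true, Ne.symm he.1, Ne.symm hf.1, or_self, if_false]; grind
    · simp only [or_true, if_true, Ne.symm he.2, Ne.symm hf.2, or_self, if_false]; grind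
  · exact W H

lemma app_ext {T0 T : Finset D} {r : D → Z2} {p P : D → Prop} (h : T0 ⊆ T)
    (hP : ∀ x, (x ∈ T0 → p x) → P x) (H : LC T.card T0 r p) :
    ∃ r', (∀ x ∈ T0, r' x = r x) ∧ (T.card = 2 → Cst T r') ∧ (T.card = 3 → V3 T r' P) ∧
      (T.card = 4 → V4 T r' P) := by
  by_cases c2 : T.card = 2
  · obtain ⟨k, hk⟩ := H.1 c2
    exact ⟨fun _ => k, fun x hx => (hk x hx).symm, fun _ => ⟨k, fun _ _ => rfl⟩,
      fun _ => by omega, fun _ => by omega⟩
  by_cases c3 : T.card = 3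
  · obtain ⟨r', k1, k2⟩ := app_ext3 h c3 hP
      ((H.2 (Or.inl c3)).imp_right fun u => u.resolve_right fun u => by omega)
    exact ⟨r', k1, fun _ => by omega, fun _ => k2, fun _ => by omega⟩
  by_cases c4 : T.card = 4
  · obtain ⟨r', k1, k2⟩ := app_ext4 h c4 hP
      ((H.2 (Or.inr c4)).imp_right fun u => u.imp_right fun u => u.2)
    exact ⟨r', k1, fun _ => by omega, fun _ => by omega, fun _ => k2⟩
  · exact ⟨r, fun _ _ => rfl, fun u => absurd u c2, fun u => absurd u c3, fun u => absurd u c4⟩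

/-- the darts of the inner edges -/
def inn (α : D → D) (S : Finset D) : Finset D := S.filter fun d => α d ∈ S

@[simp] lemma mem_inn {α : D → D} {S : Finset D} {d : D} : d ∈ inn α S ↔ d ∈ S ∧ α d ∈ S := by
  simp [inn]

lemma app_finish [Fintype D] {v : D → V} {α : D → D} {S : Finset D} (hi : ∀ d, α (α d) = d)
    (r : D → Z2) (p : D → Prop)
    (hE : ∀ d ∈ inn α S, r d + r (α d) = 1 ∧ (p d → p (α d) → deg v d = 4 ∧ deg v (α d) = 4))
    (hV : ∀ d ∈ S, LC (deg v d) (fib v (inn α S) d) r p) : ∃ r p, FS v α S r p := by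
  have A : ∀ y : V, ∃ (r' : D → Z2), (∀ x ∈ inn α S, v x = y → r' x = r x) ∧ ∀ d ∈ S, v d = y →
      (deg v d = 2 → Cst (fib v univ d) r') ∧
      (deg v d = 3 → V3 (fib v univ d) r' fun x => x ∈ fib v (inn α S) d → p x) ∧
      (deg v d = 4 → V4 (fib v univ d) r' fun x => x ∈ fib v (inn α S) d → p x) := by
    intro y
    by_cases h : ∃ d ∈ S, v d = y
    · obtain ⟨d, hd, rfl⟩ := h
      obtain ⟨r', k1, k2⟩ := app_ext (T0 := fib v (inn α S) d) (T := fib v univ d)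
        (P := fun x => x ∈ fib v (inn α S) d → p x)
        (fun x hx => mem_fib.2 ⟨mem_univ _, (mem_fib.1 hx).2⟩) (fun _ u => u) (hV d hd)
      refine ⟨r', fun x hx e => k1 x (mem_fib.2 ⟨hx, e⟩), fun d' _ e => ?_⟩
      unfold deg
      rw [app_fib_congr e, app_fib_congr e]
      exact k2
    · exact ⟨r, fun _ _ _ => rfl, fun d hd e => (h ⟨d, hd, e⟩).elim⟩
  choose R h1 h2 using A
  refine ⟨fun x => R (v x) x, fun x => x ∈ inn α S → p x, fun d hd hd' => ?_, fun d hd => ?_⟩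
  · have m1 : d ∈ inn α S := mem_inn.2 ⟨hd, hd'⟩
    have m2 : α d ∈ inn α S := mem_inn.2 ⟨hd', by rw [hi]; exact hd⟩
    simp only [h1 _ d m1 rfl, h1 _ _ m2 rfl]
    exact ⟨(hE d m1).1, fun a b => (hE d m1).2 (a m1) (b m2)⟩
  · obtain ⟨k1, k2, k3⟩ := h2 _ d hd rfl
    have e : ∀ x ∈ fib v univ d, R (v x) x = R (v d) x := fun x hx => by rw [(mem_fib.1 hx).2]
    have e' : ∀ x ∈ fib v univ d, (x ∈ fib v (inn α S) d → p x) → (x ∈ inn α S → p x) :=
      fun x hx u w => u (mem_fib.2 ⟨w, (mem_fib.1 hx).2⟩)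
    refine ⟨fun c x hx => ?_, fun c => ?_, fun c => ?_⟩
    · obtain ⟨k, hk⟩ := k1 c
      simp only [hx]
      rw [hk x (mem_fib.2 ⟨mem_univ _, hx⟩), hk d (mem_fib.2 ⟨mem_univ _, rfl⟩)]
    · obtain ⟨a, b, c, e0, n1, n2, n3, u1, u2, u3⟩ := k2 c
      rw [e0] at e e'
      refine ⟨a, b, c, e0, n1, n2, n3, ?_, ?_, e' a (by simp) u3⟩
      · simp only [e a (by simp), e b (by simp)]; exact u1
      · simp only [e c (by simp), e b (by simp)]; exact u2
    · obtain ⟨a, b, c, f, e0, n1, n2, n3, n4, n5, n6, u1, u2, u3, u4⟩ := k3 c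
      rw [e0] at e e'
      refine ⟨a, b, c, f, e0, n1, n2, n3, n4, n5, n6, ?_, ?_, e' a (by simp) u3,
        e' c (by simp) u4⟩
      · simp only [e a (by simp), e b (by simp)]; exact u1
      · simp only [e c (by simp), e f (by simp)]; exact u2

lemma app_piece {v : D → V} (hG : CoreG v) {S : Finset D} {α : D → D} (g : GNet S α)
    (hc : ∀ d ∈ S, 2 ≤ (fib v S d).card ∧ (fib v S d).card ≤ 4) (hk : Conn v 2 S α)
    (hne : S.Nonempty) :
    ∃ (X : Finset D) (β : D → D) (τ : D → Z2) (B : Finset D), Closed v S X ∧ X.Nonempty ∧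
      GNet X β ∧ Conn v 3 X β ∧ B.card ≤ 2 ∧ (∀ b ∈ B, β b ∈ B) ∧ (∀ d, d ∉ B → β d = α d) ∧
      ∀ W r p, (∀ b ∈ B, ¬ W b) → Sol v X β τ W r p →
        ∃ r' p', Sol v S α 0 W r' p' ∧ ∀ x ∈ X, p' x = p x := by
  classical
  obtain ⟨X, hX, hmin⟩ := exists_min_image
    (S.powerset.filter fun X => Closed v S X ∧ X.Nonempty ∧ (bd α X).card ≤ 2) card
    ⟨S, mem_filter.2 ⟨mem_powerset_self _, ⟨Subset.refl _, fun _ _ _ h _ => h⟩, hne, by
      have : bd α S = ∅ := by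
        ext d; simp only [mem_bd, notMem_empty, iff_false]; exact fun k => k.2 (g.mem d k.1)
      rw [this]; simp⟩⟩
  obtain ⟨-, cX, nX, bX⟩ := mem_filter.1 hX
  have hm : ∀ Z, Closed v X Z → Z.Nonempty → Z ≠ X → 3 ≤ (bd α Z).card := by
    intro Z cZ nZ e
    by_contra hn
    have := hmin Z (mem_filter.2 ⟨mem_powerset.2 (cZ.1.trans cX.1), cX.trans cZ, nZ, by omega⟩)
    exact e (eq_of_subset_of_card_le cZ.1 this)
  by_cases e : X = S
  · subst e
    exact ⟨X, α, 0, ∅, cX, nX, g, hm, by simp, by simp, fun _ _ => rfl,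
      fun W r p _ h => ⟨r, p, h, fun _ _ => rfl⟩⟩
  obtain ⟨f, f', hff, hb⟩ := card_eq_two.1 (le_antisymm bX (hk X cX nX e))
  have hf : f ∈ X ∧ α f ∉ X := mem_bd.1 (by rw [hb]; simp)
  have hf' : f' ∈ X ∧ α f' ∉ X := mem_bd.1 (by rw [hb]; simp)
  have hbY : bd α (S \ X) = {α f, α f'} := by rw [g.bd_compl cX.1, hb]; simp
  have hne' : α f ≠ α f' := g.ne_of (cX.1 hf.1) (cX.1 hf'.1) hff
  have mf : α f ∈ S \ X := mem_sdiff.2 ⟨g.mem f (cX.1 hf.1), hf.2⟩
  have mf' : α f' ∈ S \ X := mem_sdiff.2 ⟨g.mem f' (cX.1 hf'.1), hf'.2⟩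
  have gp := app_GG hG (S \ X) _ (app_gnet_cl g sdiff_subset hbY hne')
    (fun d hd => by rw [cX.compl.fib_eq hd]; exact hc d (mem_sdiff.1 hd).1)
    (app_conn_cl g sdiff_subset hbY hne' fun Z cZ nZ _ _ => hk Z (cX.compl.trans cZ) nZ fun u => by
      have := cZ.1 (u ▸ cX.1 hf.1); simp [hf.1] at this)
  obtain ⟨l, hl⟩ : ∃ l, NDb v (S \ X) (cl α (α f) (α f')) (fl 0 (α f) l) (α f) := by
    rcases (gp 0 (α f) mf).1 with k | k
    · exact ⟨0, by rwa [fl_zero]⟩
    · exact ⟨1, k⟩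
  refine ⟨X, cl α f f', fl 0 f l, {f, f'}, cX, nX, app_gnet_cl g cX.1 hb hff,
    app_conn_cl g cX.1 hb hff fun Z cZ nZ u _ => hm Z cZ nZ u, card_le_two, ?_, ?_, ?_⟩
  · intro b hb; simp only [mem_insert, mem_singleton] at hb; rcases hb with rfl | rfl <;> simp
  · intro d hd; simp only [mem_insert, mem_singleton, not_or] at hd; exact cl_ne hd.1 hd.2
  intro W r p hW h
  have k := h.2 f hf.1 (by simpa using hf'.1)
  rw [cl_fst, fl_self, fl_ne _ hff.symm] at k
  have k2 : p f → ¬ p f' := fun a b => (k.2 a b).elim (hW f (by simp)) (hW f' (by simp))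
  obtain ⟨r2, p2, h2, u1, u2⟩ : ∃ r2 p2, Sol v (S \ X) (cl α (α f) (α f')) (fl 0 (α f) l) W0 r2 p2 ∧
      (p f → ¬ p2 (α f)) ∧ (p f' → ¬ p2 (α f')) := by
    by_cases hp : p f
    · obtain ⟨r2, p2, a, b⟩ := hl.1
      exact ⟨r2, p2, a, fun _ => b, fun u => absurd u (k2 hp)⟩
    · obtain ⟨r2, p2, a, b⟩ := hl.2
      rw [cl_fst] at b
      exact ⟨r2, p2, a, fun u => absurd u hp, fun _ => b⟩
  have k' := (h2.2 (α f) mf (by simpa using mem_sdiff.1 mf')).1
  rw [cl_fst, fl_self, fl_ne _ hne'.symm] at k'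
  have open1 : ∀ {Y : Finset D} {a b : D} {W : D → Prop} {r : D → Z2} {p : D → Prop}, Y ⊆ S →
      α a ∉ Y → α b ∉ Y → Sol v Y (cl α a b) (fl 0 a l) W r p → Sol v Y α 0 W r p := by
    intro Y a b W r p hY n1 n2 h
    refine h.congr fun d hd hd' => ?_
    have m1 : d ≠ a := fun u => n1 (u ▸ hd')
    have m2 : d ≠ b := fun u => n2 (u ▸ hd')
    have m3 : α d ≠ a := fun u => n1 (by rw [← u, g.inv d (hY hd)]; exact hd)
    exact ⟨cl_ne m1 m2, by rw [fl_ne _ m1, fl_ne _ m3], id⟩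
  have s1 := open1 cX.1 hf.2 hf'.2 h
  have s2 := ((open1 sdiff_subset (by rw [g.inv f (cX.1 hf.1)]; simp [hf.1])
    (by rw [g.inv f' (cX.1 hf'.1)]; simp [hf'.1]) h2).flip (1 + r f + r2 (α f))).w0 (W' := W)
  obtain ⟨r', p', s, e1, -⟩ := s1.union s2 (cX.vne sdiff_subset disjoint_sdiff)
    (fun y hy _ => g.inv y (mem_sdiff.1 hy).1) (fun x hx hx' => by
      have : x ∈ bd α X := mem_bd.2 ⟨hx, (mem_sdiff.1 hx').2⟩
      rw [hb] at this
      simp only [mem_insert, mem_singleton] at this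
      have k1 := k.1
      simp only [Pi.zero_apply] at k1 k'
      rcases this with rfl | rfl
      · exact ⟨by simp only [Pi.zero_apply]; grind, fun a b => absurd b (u1 a)⟩
      · exact ⟨by simp only [Pi.zero_apply]; grind, fun a b => absurd b (u2 a)⟩)
  rw [union_sdiff_of_subset cX.1] at s
  exact ⟨r', p', s, fun x hx => (e1 x hx).2⟩

/-- a chosen dart at the vertex of `d` -/
noncomputable def rep (v : D → V) (d : D) : D := @Function.invFun D V ⟨d⟩ v (v d)

lemma rep_v (v : D → V) (d : D) : v (rep v d) = v d :=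
  @Function.invFun_eq D V ⟨d⟩ v (v d) ⟨d, rfl⟩

lemma rep_congr {v : D → V} {d x : D} (h : v x = v d) : rep v x = rep v d := by
  unfold rep; rw [h]

noncomputable def sg [Fintype D] (v : D → V) (d : D) : Z2 :=
  if deg v d = 2 ∧ d = rep v d then 1 else 0

lemma app_deg_congr [Fintype D] {v : D → V} {d x : D} (h : v x = v d) : deg v x = deg v d := by
  unfold deg; rw [app_fib_congr h]

lemma app_half [Fintype D] {v : D → V} {T : Finset D} (hT : Closed v univ T)
    (hd : ∀ d ∈ T, deg v d = 2 ∨ deg v d = 4) :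
    ∃ m : ℕ, T.card = 2 * m ∧ ∑ d ∈ T, sg v d = (m : Z2) := by
  refine ⟨∑ d ∈ T, if d = rep v d then (if deg v d = 2 then 1 else 2) else 0, ?_, ?_⟩
  · rw [card_eq_sum_card_fiberwise (f := rep v) (t := T)
      (fun d hd => hT.2 d hd _ (mem_univ _) (rep_v v d)), mul_sum]
    refine sum_congr rfl fun e he => ?_
    by_cases h : e = rep v e
    · have : T.filter (fun d => rep v d = e) = fib v univ e := by
        ext d; simp only [mem_filter, mem_fib, mem_univ, true_and]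
        constructor
        · rintro ⟨-, k⟩; rw [← k, rep_v v]
        · intro k; exact ⟨hT.2 e he d (mem_univ _) k, (rep_congr k).trans h.symm⟩
      rw [this, if_pos h]
      change deg v e = _
      rcases hd e he with k | k <;> simp [k]
    · rw [if_neg h, mul_zero, card_eq_zero]
      ext d; simp only [mem_filter, notMem_empty, iff_false]
      rintro ⟨-, k⟩
      exact h (k.symm.trans (rep_congr (by rw [← k, rep_v v])).symm)
  · push_cast
    refine sum_congr rfl fun d _ => ?_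
    unfold sg
    by_cases h1 : d = rep v d <;> by_cases h2 : deg v d = 2
    · rw [if_pos ⟨h2, h1⟩, if_pos h1, if_pos h2]
    · rw [if_neg (fun k => h2 k.1), if_pos h1, if_neg h2]; rfl
    · rw [if_neg (fun k => h1 k.2), if_neg h1]
    · rw [if_neg (fun k => h1 k.2), if_neg h1]

lemma app_parity [Fintype D] {v : D → V} {α : D → D} (g : Gr v α) {T : Finset D}
    (hT : Closed v univ T) (hα : ∀ d ∈ T, α d ∈ T) (hd : ∀ d ∈ T, deg v d = 2 ∨ deg v d = 4) :
    ∑ d ∈ T, sg v d = 0 := by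
  obtain ⟨s, s1, s2⟩ := g.bip
  have c : ∀ b, Closed v univ (T.filter fun d => s d = b) := fun b =>
    ⟨subset_univ _, fun d hd x hx e => mem_filter.2 ⟨hT.2 d (mem_filter.1 hd).1 x hx e,
      (s1 d x e).trans (mem_filter.1 hd).2⟩⟩
  obtain ⟨m, h1, h2⟩ := app_half (c true) fun d k => hd d (mem_filter.1 k).1
  obtain ⟨m', h3, h4⟩ := app_half (c false) fun d k => hd d (mem_filter.1 k).1
  have e : (T.filter fun d => s d = true).card = (T.filter fun d => s d = false).card := by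
    refine card_bij' (fun d _ => α d) (fun d _ => α d) (fun d hd => ?_) (fun d hd => ?_)
      (fun d _ => g.inv d) (fun d _ => g.inv d)
    · obtain ⟨k1, k2⟩ := mem_filter.1 hd
      have := s2 d
      exact mem_filter.2 ⟨hα d k1, by simp_all⟩
    · obtain ⟨k1, k2⟩ := mem_filter.1 hd
      have := s2 d
      exact mem_filter.2 ⟨hα d k1, by simp_all⟩
  have em : m' = m := by omega
  rw [← sum_filter_add_sum_filter_not T (fun d => s d = true), h2]
  simp only [Bool.not_eq_true]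
  rw [h4, em]
  grind

end Pool.Agent.Lib.IC34
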