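import Mathlib

/-! Dart structures, signed solutions and their elementary operations. -/

set_option linter.unusedSectionVars false

namespace Pool.Agent.Lib.IC34
open Finset

abbrev Z2 := ZMod 2

lemma z2 (a : Z2) : a = 0 ∨ a = 1 := by revert a; decide
lemma z2_ne {a b : Z2} (h : a ≠ b) : a = b + 1 := by revert a b; decide
lemma z2_or (a b : Z2) : a = b ∨ a = b + 1 := by revert a b; decide

variable {D V : Type*} [DecidableEq D] [DecidableEq V]

/-- the darts of `X` at the vertex of `d` -/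
def fib (v : D → V) (X : Finset D) (d : D) : Finset D := X.filter fun x => v x = v d

def V2 (T : Finset D) (r : D → Z2) (p : D → Prop) : Prop :=
  ∃ a b, T = {a, b} ∧ a ≠ b ∧ r a + r b = 1 ∧ p a

def V3 (T : Finset D) (r : D → Z2) (p : D → Prop) : Prop :=
  ∃ a b c, T = {a, b, c} ∧ a ≠ b ∧ a ≠ c ∧ b ≠ c ∧ r a + r b = 1 ∧ r b = r c ∧ p a

def V4 (T : Finset D) (r : D → Z2) (p : D → Prop) : Prop :=
  ∃ a b c d, T = {a, b, c, d} ∧ a ≠ b ∧ a ≠ c ∧ a ≠ d ∧ b ≠ c ∧ b ≠ d ∧ c ≠ d ∧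
    r a + r b = 1 ∧ r c + r d = 1 ∧ p a ∧ p c

def VV (T : Finset D) (r : D → Z2) (p : D → Prop) : Prop := V2 T r p ∨ V3 T r p ∨ V4 T r p

def VOK (v : D → V) (X : Finset D) (r : D → Z2) (p : D → Prop) : Prop := ∀ d ∈ X, VV (fib v X d) r p

def EOK (X : Finset D) (α : D → D) (σ : D → Z2) (W : D → Prop) (r : D → Z2) (p : D → Prop) : Prop :=
  ∀ d ∈ X, α d ∈ X → r d + σ d + r (α d) + σ (α d) = 1 ∧
    (p d → p (α d) → W d ∨ W (α d))

def Sol (v : D → V) (X : Finset D) (α : D → D) (σ : D → Z2) (W : D → Prop)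
    (r : D → Z2) (p : D → Prop) : Prop := VOK v X r p ∧ EOK X α σ W r p

/-- no wild edge -/
def W0 : D → Prop := fun _ => False

def Closed (v : D → V) (S X : Finset D) : Prop :=
  X ⊆ S ∧ ∀ d ∈ X, ∀ x ∈ S, v x = v d → x ∈ X

def bd (α : D → D) (X : Finset D) : Finset D := X.filter fun d => α d ∉ X

structure GNet (S : Finset D) (α : D → D) : Prop where
  mem : ∀ d ∈ S, α d ∈ S
  inv : ∀ d ∈ S, α (α d) = d
  ne : ∀ d ∈ S, α d ≠ d

def Cub (v : D → V) (S : Finset D) : Prop := ∀ d ∈ S, (fib v S d).card = 3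

def Conn (v : D → V) (k : ℕ) (S : Finset D) (α : D → D) : Prop :=
  ∀ X, Closed v S X → X.Nonempty → X ≠ S → k ≤ (bd α X).card

def cl (α : D → D) (f g : D) : D → D := fun d => if d = f then g else if d = g then f else α d

def fl (σ : D → Z2) (a : D) (b : Z2) : D → Z2 := fun d => if d = a then σ d + b else σ d

/-- `τ` is constant on the vertices of `X` and makes the inner edges of `X` positive -/
def Frame (v : D → V) (X : Finset D) (α : D → D) (σ τ : D → Z2) : Prop :=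
  (∀ d ∈ X, ∀ x ∈ X, v x = v d → τ x = τ d) ∧
    ∀ d ∈ X, α d ∈ X → σ d + σ (α d) = τ d + τ (α d)

def Bal (v : D → V) (S : Finset D) (α : D → D) (σ : D → Z2) : Prop := ∃ τ, Frame v S α σ τ

def TT (v : D → V) (S : Finset D) (α : D → D) (σ : D → Z2) (w e : D) : Prop :=
  ∃ r p, Sol v S α σ (· = w) r p ∧ ¬ p e ∧ ¬ p (α e)

def ND (v : D → V) (S : Finset D) (α : D → D) (σ : D → Z2) (t : D) : Prop :=
  ∃ r p, Sol v S α σ W0 r p ∧ ¬ p t

def NDb (v : D → V) (S : Finset D) (α : D → D) (σ : D → Z2) (t : D) : Prop :=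
  ND v S α σ t ∧ ND v S α σ (α t)

def WW (v : D → V) (S : Finset D) (α : D → D) (σ : D → Z2) (w : D) : Prop :=
  ∃ r p, Sol v S α σ (· = w) r p

@[simp] lemma mem_fib {v : D → V} {X : Finset D} {d x : D} : x ∈ fib v X d ↔ x ∈ X ∧ v x = v d := by
  simp [fib]

@[simp] lemma mem_bd {α : D → D} {X : Finset D} {d : D} : d ∈ bd α X ↔ d ∈ X ∧ α d ∉ X := by
  simp [bd]

@[simp] lemma cl_fst (α : D → D) (f g : D) : cl α f g f = g := by simp [cl]
@[simp] lemma cl_snd (α : D → D) (f g : D) : cl α f g g = f := by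
  unfold cl; split_ifs <;> simp_all
lemma cl_ne {α : D → D} {f g d : D} (h1 : d ≠ f) (h2 : d ≠ g) : cl α f g d = α d := by
  simp [cl, h1, h2]
lemma cl_comm (α : D → D) (f g : D) : cl α f g = cl α g f := by
  funext d; unfold cl; split_ifs <;> simp_all

@[simp] lemma fl_self (σ : D → Z2) (a : D) (b : Z2) : fl σ a b a = σ a + b := by simp [fl]
lemma fl_ne {σ : D → Z2} {a d : D} (b : Z2) (h : d ≠ a) : fl σ a b d = σ d := by simp [fl, h]
@[simp] lemma fl_zero (σ : D → Z2) (a : D) : fl σ a 0 = σ := by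
  funext d; simp [fl]
lemma fl_fl (σ : D → Z2) (a : D) (b c : Z2) : fl (fl σ a b) a c = fl σ a (b + c) := by
  funext d; unfold fl; split_ifs <;> simp [add_assoc]
lemma fl_comm (σ : D → Z2) (a a' : D) (b c : Z2) :
    fl (fl σ a b) a' c = fl (fl σ a' c) a b := by
  funext d; unfold fl; split_ifs <;> ring

lemma VV.congr {T : Finset D} {r r' : D → Z2} {p p' : D → Prop} (h : VV T r p) (t : Z2)
    (hr : ∀ d ∈ T, r' d = r d + t) (hp : ∀ d ∈ T, p d → p' d) : VV T r' p' := by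
  have k : ∀ x y : Z2, x + y = 1 → x + t + (y + t) = 1 := by intro x y h; grind
  rcases h with ⟨a, b, rfl, h1, h2, h3⟩ | ⟨a, b, c, rfl, h1, h2, h3, h4, h5, h6⟩ |
    ⟨a, b, c, d, rfl, h1, h2, h3, h4, h5, h6, h7, h8, h9, h10⟩
  · refine Or.inl ⟨a, b, rfl, h1, ?_, hp a (by simp) h3⟩
    rw [hr a (by simp), hr b (by simp)]; exact k _ _ h2
  · refine Or.inr (Or.inl ⟨a, b, c, rfl, h1, h2, h3, ?_, ?_, hp a (by simp) h6⟩)
    · rw [hr a (by simp), hr b (by simp)]; exact k _ _ h4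
    · rw [hr c (by simp), hr b (by simp), h5]
  · refine Or.inr (Or.inr ⟨a, b, c, d, rfl, h1, h2, h3, h4, h5, h6, ?_, ?_, hp a (by simp) h9,
      hp c (by simp) h10⟩)
    · rw [hr a (by simp), hr b (by simp)]; exact k _ _ h7
    · rw [hr c (by simp), hr d (by simp)]; exact k _ _ h8

/-- global reversal -/
lemma Sol.flip {v : D → V} {X : Finset D} {α : D → D} {σ : D → Z2} {W : D → Prop}
    {r : D → Z2} {p : D → Prop} (h : Sol v X α σ W r p) (t : Z2) :
    Sol v X α σ W (fun d => r d + t) p := by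
  refine ⟨fun d hd => (h.1 d hd).congr t (fun _ _ => rfl) (fun _ _ h => h), fun d hd hd' => ?_⟩
  obtain ⟨h1, h2⟩ := h.2 d hd hd'
  refine ⟨?_, h2⟩
  grind

/-- a solution only sees the inner edges -/
lemma Sol.congr {v : D → V} {X : Finset D} {α α' : D → D} {σ σ' : D → Z2} {W W' : D → Prop}
    {r : D → Z2} {p : D → Prop} (h : Sol v X α σ W r p)
    (H : ∀ d ∈ X, α' d ∈ X → α d = α' d ∧ σ d + σ (α' d) = σ' d + σ' (α' d) ∧
      (W d ∨ W (α' d) → W' d ∨ W' (α' d))) : Sol v X α' σ' W' r p := by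
  refine ⟨h.1, fun d hd hd' => ?_⟩
  obtain ⟨e1, e2, e3⟩ := H d hd hd'
  obtain ⟨h1, h2⟩ := h.2 d hd (e1 ▸ hd')
  rw [e1] at h1 h2
  refine ⟨?_, fun a b => e3 (h2 a b)⟩
  grind

lemma Sol.mono {v : D → V} {X : Finset D} {α : D → D} {σ : D → Z2} {W W' : D → Prop}
    {r : D → Z2} {p : D → Prop} (h : Sol v X α σ W r p) (H : ∀ d, W d → W' d) : Sol v X α σ W' r p :=
  h.congr fun _ _ _ => ⟨rfl, rfl, fun h => h.imp (H _) (H _)⟩

lemma Sol.w0 {v : D → V} {X : Finset D} {α : D → D} {σ : D → Z2} {W' : D → Prop}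
    {r : D → Z2} {p : D → Prop} (h : Sol v X α σ W0 r p) : Sol v X α σ W' r p :=
  h.mono fun _ h => h.elim

/-- switching -/
lemma Sol.switch {v : D → V} {X : Finset D} {α : D → D} {σ : D → Z2} {W : D → Prop}
    {r : D → Z2} {p : D → Prop} (h : Sol v X α σ W r p) (τ : D → Z2)
    (hτ : ∀ d ∈ X, ∀ x ∈ X, v x = v d → τ x = τ d) :
    Sol v X α (fun d => σ d + τ d) W (fun d => r d + τ d) p := by
  refine ⟨fun d hd => (h.1 d hd).congr (τ d) (fun x hx => ?_) (fun _ _ h => h), fun d hd hd' => ?_⟩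
  · rw [mem_fib] at hx; rw [hτ d hd x hx.1 hx.2]
  · obtain ⟨h1, h2⟩ := h.2 d hd hd'
    refine ⟨?_, h2⟩
    grind

/-- the edge condition at one dart -/
def EC (α : D → D) (σ : D → Z2) (W : D → Prop) (d : D) (a : Z2) (q : Prop) (a' : Z2)
    (q' : Prop) : Prop :=
  a + σ d + a' + σ (α d) = 1 ∧ (q → q' → W d ∨ W (α d))

/-- union of two vertex-disjoint solutions -/
lemma Sol.union {v : D → V} {X Y : Finset D} {α : D → D} {σ : D → Z2} {W : D → Prop}
    {r1 r2 : D → Z2} {p1 p2 : D → Prop} (h1 : Sol v X α σ W r1 p1) (h2 : Sol v Y α σ W r2 p2)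
    (hv : ∀ x ∈ X, ∀ y ∈ Y, v x ≠ v y) (hi : ∀ y ∈ Y, α y ∈ X → α (α y) = y)
    (hc : ∀ x ∈ X, α x ∈ Y → EC α σ W x (r1 x) (p1 x) (r2 (α x)) (p2 (α x))) :
    ∃ r p, Sol v (X ∪ Y) α σ W r p ∧ (∀ x ∈ X, r x = r1 x ∧ p x = p1 x) ∧
      (∀ y ∈ Y, r y = r2 y ∧ p y = p2 y) := by
  have hd : ∀ y ∈ Y, y ∉ X := fun y hy hx => hv y hx y hy rfl
  set r : D → Z2 := fun d => if d ∈ X then r1 d else r2 d with hr
  set p : D → Prop := fun d => if d ∈ X then p1 d else p2 d with hp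
  have eX : ∀ x ∈ X, r x = r1 x ∧ p x = p1 x := fun x hx => by simp [hr, hp, hx]
  have eY : ∀ y ∈ Y, r y = r2 y ∧ p y = p2 y := fun y hy => by simp [hr, hp, hd y hy]
  refine ⟨r, p, ⟨fun d hd0 => ?_, fun d hd0 hd1 => ?_⟩, eX, eY⟩
  · rcases mem_union.1 hd0 with hx | hy
    · have : fib v (X ∪ Y) d = fib v X d := by
        ext x; simp only [mem_fib, mem_union]
        exact ⟨fun h => ⟨h.1.resolve_right fun hy => hv d hx x hy h.2.symm, h.2⟩,
          fun h => ⟨Or.inl h.1, h.2⟩⟩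
      rw [this]
      exact (h1.1 d hx).congr 0 (fun x hx => by simp [(eX x (mem_fib.1 hx).1).1])
        (fun x hx h => by rw [(eX x (mem_fib.1 hx).1).2]; exact h)
    · have : fib v (X ∪ Y) d = fib v Y d := by
        ext x; simp only [mem_fib, mem_union]
        exact ⟨fun h => ⟨h.1.resolve_left fun hx => hv x hx d hy h.2, h.2⟩,
          fun h => ⟨Or.inr h.1, h.2⟩⟩
      rw [this]
      exact (h2.1 d hy).congr 0 (fun x hx => by simp [(eY x (mem_fib.1 hx).1).1])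
        (fun x hx h => by rw [(eY x (mem_fib.1 hx).1).2]; exact h)
  · rcases mem_union.1 hd0 with hx | hy <;> rcases mem_union.1 hd1 with hx' | hy'
    · rw [(eX _ hx).1, (eX _ hx).2, (eX _ hx').1, (eX _ hx').2]; exact h1.2 d hx hx'
    · rw [(eX _ hx).1, (eX _ hx).2, (eY _ hy').1, (eY _ hy').2]; exact hc d hx hy'
    · rw [(eY _ hy).1, (eY _ hy).2, (eX _ hx').1, (eX _ hx').2]
      have := hc (α d) hx' (by rw [hi d hy hx']; exact hy)
      unfold EC at this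
      rw [hi d hy hx'] at this
      exact ⟨by have := this.1; grind, fun a b => (this.2 b a).symm⟩
    · rw [(eY _ hy).1, (eY _ hy).2, (eY _ hy').1, (eY _ hy').2]; exact h2.2 d hy hy'

lemma Closed.compl {v : D → V} {S X : Finset D} (h : Closed v S X) : Closed v S (S \ X) :=
  ⟨sdiff_subset, fun d hd x hx e => mem_sdiff.2 ⟨hx, fun hX =>
    (mem_sdiff.1 hd).2 (h.2 x hX d (mem_sdiff.1 hd).1 e.symm)⟩⟩

lemma Closed.union {v : D → V} {S X Y : Finset D} (h : Closed v S X) (h' : Closed v S Y) :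
    Closed v S (X ∪ Y) :=
  ⟨union_subset h.1 h'.1, fun d hd x hx e => (mem_union.1 hd).elim
    (fun a => mem_union_left _ (h.2 d a x hx e)) (fun a => mem_union_right _ (h'.2 d a x hx e))⟩

lemma Closed.trans {v : D → V} {S X Z : Finset D} (h : Closed v S X) (h' : Closed v X Z) :
    Closed v S Z :=
  ⟨h'.1.trans h.1, fun d hd x hx e => h'.2 d hd x (h.2 d (h'.1 hd) x hx e) e⟩

lemma Closed.sub {v : D → V} {S X Z : Finset D} (h : Closed v S Z) (hX : X ⊆ S) (hZ : Z ⊆ X) :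
    Closed v X Z := ⟨hZ, fun d hd x hx e => h.2 d hd x (hX hx) e⟩

lemma closed_fib {v : D → V} {S : Finset D} (d : D) : Closed v S (fib v S d) :=
  ⟨filter_subset _ _, fun _ hy _ hx e => mem_fib.2 ⟨hx, e.trans (mem_fib.1 hy).2⟩⟩

lemma Closed.vne {v : D → V} {S X Y : Finset D} (h : Closed v S X) (hY : Y ⊆ S)
    (hd : Disjoint X Y) : ∀ x ∈ X, ∀ y ∈ Y, v x ≠ v y := fun x hx y hy e =>
  disjoint_left.1 hd (h.2 x hx y (hY hy) e.symm) hy

lemma Closed.fib_eq {v : D → V} {S X : Finset D} (h : Closed v S X) {d : D} (hd : d ∈ X) :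
    fib v X d = fib v S d := by
  ext x; simp only [mem_fib]
  exact ⟨fun a => ⟨h.1 a.1, a.2⟩, fun a => ⟨h.2 d hd x a.1 a.2, a.2⟩⟩

lemma Cub.sub {v : D → V} {S X : Finset D} (h : Cub v S) (hX : Closed v S X) : Cub v X :=
  fun d hd => by rw [hX.fib_eq hd]; exact h d (hX.1 hd)

lemma GNet.inj {S : Finset D} {α : D → D} (h : GNet S α) {x y : D} (hx : x ∈ S) (hy : y ∈ S)
    (e : α x = α y) : x = y := by rw [← h.inv x hx, e, h.inv y hy]

lemma GNet.ne_of {S : Finset D} {α : D → D} (h : GNet S α) {x y : D} (hx : x ∈ S) (hy : y ∈ S)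
    (e : x ≠ y) : α x ≠ α y := fun k => e (h.inj hx hy k)

lemma GNet.bd_compl {S X : Finset D} {α : D → D} (h : GNet S α) (hX : X ⊆ S) :
    bd α (S \ X) = (bd α X).image α := by
  ext d; simp only [mem_bd, mem_sdiff, mem_image]
  constructor
  · rintro ⟨⟨h1, h2⟩, h3⟩
    refine ⟨α d, ⟨by_contra fun k => h3 ⟨h.mem d h1, k⟩, by rwa [h.inv d h1]⟩, h.inv d h1⟩
  · rintro ⟨x, ⟨h1, h2⟩, rfl⟩
    exact ⟨⟨h.mem x (hX h1), h2⟩, fun k => k.2 (by rwa [h.inv x (hX h1)])⟩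

end Pool.Agent.Lib.IC34
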