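import Pool.Agent.Lib.MP_fb9257_co.Basic

/-! Interfaces between the cubic core, the application part and the colouring part. -/

namespace Pool.Agent.Lib.IC34
open Finset

variable {D V : Type*} [DecidableEq D] [DecidableEq V]

def CoreN (v : D → V) : Prop := ∀ (S : Finset D) (α : D → D) (σ : D → Z2) (t : D),
  GNet S α → Cub v S → Conn v 3 S α → t ∈ S → ND v S α σ t ∨ Bal v S α σ

def CoreT (v : D → V) : Prop := ∀ (S : Finset D) (α : D → D) (σ : D → Z2) (w e : D),
  GNet S α → Cub v S → Conn v 3 S α → w ∈ S → e ∈ S → e ≠ w → e ≠ α w → Bal v S α σ →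
    TT v S α σ w e

def CoreG (v : D → V) : Prop := ∀ (S : Finset D) (α : D → D) (σ : D → Z2) (a : D),
  GNet S α → Cub v S → Conn v 2 S α → a ∈ S →
    (NDb v S α σ a ∨ NDb v S α (fl σ a 1) a) ∧ WW v S α σ a

/-- degree of the vertex of the dart `d` in the whole graph -/
def deg [Fintype D] (v : D → V) (d : D) : ℕ := (fib v univ d).card

/-- a bipartite multigraph of maximum degree at most four, given by darts, in which no edge joins
two vertices of degree two or three -/
structure Gr [Fintype D] (v : D → V) (α : D → D) : Prop where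
  inv : ∀ d, α (α d) = d
  nl : ∀ d, v (α d) ≠ v d
  bip : ∃ s : D → Bool, (∀ d x, v x = v d → s x = s d) ∧ ∀ d, s (α d) ≠ s d
  le : ∀ d, deg v d ≤ 4
  ind : ∀ d, (deg v d = 2 ∨ deg v d = 3) → ¬ (deg v (α d) = 2 ∨ deg v (α d) = 3)

/-- the final form of a solution on a vertex set `S` (darts leaving `S` are free) -/
def FS [Fintype D] (v : D → V) (α : D → D) (S : Finset D) (r : D → Z2) (p : D → Prop) : Prop :=
  (∀ d ∈ S, α d ∈ S → r d + r (α d) = 1 ∧ (p d → p (α d) → deg v d = 4 ∧ deg v (α d) = 4)) ∧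
  ∀ d ∈ S, (deg v d = 2 → ∀ x, v x = v d → r x = r d) ∧ (deg v d = 3 → V3 (fib v univ d) r p) ∧
    (deg v d = 4 → V4 (fib v univ d) r p)

/-- every vertex set whose inner edge cuts all have at least two edges has a solution -/
def BaseFS [Fintype D] (v : D → V) (α : D → D) : Prop :=
  ∀ S, Closed v univ S →
    (∀ X, Closed v S X → X.Nonempty → X ≠ S → 2 ≤ (X.filter fun d => α d ∈ S \ X).card) →
    ∃ r p, FS v α S r p

end Pool.Agent.Lib.IC34
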