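import Pool.Agent.Lib.MP_fb9257_co.Glue

/-! Consequences of the induction hypothesis for bridgeless nets and chains. -/

set_option linter.unusedSectionVars false

namespace Pool.Agent.Lib.IC34
open Finset

variable {D V : Type*} [DecidableEq D] [DecidableEq V]
variable {v : D → V} {S X Y Z P Q : Finset D} {α : D → D} {σ σ' σ1 σ2 τ : D → Z2}
  {a b e f g f2 g2 w : D} {W W1 W2 : D → Prop} {r r1 r2 : D → Z2} {p p1 p2 : D → Prop} {n : ℕ}

def IH (v : D → V) (n : ℕ) : Prop :=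
  ∀ S α, GNet S α → Cub v S → Conn v 3 S α → S.card ≤ n → Good v S α

lemma TT.sg (h : TT v S α σ a b) (H : ∀ d ∈ S, σ d = σ' d) : TT v S α σ' a b := by
  obtain ⟨r, p, h1, h2⟩ := h; exact ⟨r, p, h1.sg H, h2⟩
lemma ND.sg (h : ND v S α σ a) (H : ∀ d ∈ S, σ d = σ' d) : ND v S α σ' a := by
  obtain ⟨r, p, h1, h2⟩ := h; exact ⟨r, p, h1.sg H, h2⟩
lemma NDb.sg (h : NDb v S α σ a) (H : ∀ d ∈ S, σ d = σ' d) : NDb v S α σ' a :=
  ⟨h.1.sg H, h.2.sg H⟩
lemma WW.sg (h : WW v S α σ a) (H : ∀ d ∈ S, σ d = σ' d) : WW v S α σ' a := by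
  obtain ⟨r, p, h1⟩ := h; exact ⟨r, p, h1.sg H⟩

lemma bal_fl (hn : GNet S α) (hc : Conn v 3 S α) (ha : a ∈ S) (hb : b ∈ S) (h1 : b ≠ a)
    (h2 : b ≠ α a) {x y x' y' : Z2} (k1 : Bal v S α (fl (fl σ a x) b y))
    (k2 : Bal v S α (fl (fl σ a x') b y')) : x = x' ∧ y = y' := by
  have i1 := hn.inv a ha
  have i2 := hn.inv b hb
  have e1 := bal_unique hn hc k1 k2 ha hb fun d hd a1 a2 a3 a4 => by
    simp [hn.es_fl hd ha, hn.es_fl hd hb, *]
  have e2 := bal_unique hn hc k1 k2 hb ha fun d hd a1 a2 a3 a4 => by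
    simp [hn.es_fl hd ha, hn.es_fl hd hb, *]
  have : a ≠ α b := by rintro rfl; exact h2 i2.symm
  simp only [hn.es_fl ha ha, hn.es_fl ha hb, hn.es_fl hb ha, hn.es_fl hb hb] at e1 e2
  simp [h1, h2, h1.symm, this] at e1 e2
  exact ⟨e1, e2⟩

lemma bal_fl1 (hn : GNet S α) (hc : Conn v 3 S α) (ha : a ∈ S) (k1 : Bal v S α σ)
    (k2 : Bal v S α (fl σ a 1)) : False := by
  have e1 := bal_unique hn hc k1 k2 ha ha fun d hd a1 a2 a3 a4 => by
    simp [hn.es_fl hd ha, *]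
  simp [hn.es_fl ha ha] at e1

lemma Exc3.card (h : Exc3 v S α σ w e) : 18 ≤ S.card ∧ S.card ≤ 30 := by
  obtain ⟨τ, P, w', k, _, _, h1, h2, h3⟩ := h
  have := card_sdiff_add_card_eq_card h1.1
  have := h2.card; have := h3.card; omega

lemma Exc4.card (h : Exc4 v S α σ w e) : 36 ≤ S.card := by
  obtain ⟨τ, P, Q, P', Q', w', f, g, f2, g2, _, _, h, h1, h2, h3, h4⟩ := h
  rw [← h.un, card_union_of_disjoint, card_union_of_disjoint, card_union_of_disjoint h.d12]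
  · have := h1.card; have := h2.card; have := h3.card; have := h4.card; omega
  · simp [h.d13, h.d23]
  · simp [h.d14, h.d24, h.d34]

lemma Exc3.bal (h : Exc3 v S α σ w e) : Bal v S α (fl σ e 1) := by
  obtain ⟨τ, _, _, _, h, _⟩ := h; exact ⟨τ, h⟩
lemma Exc4.bal (h : Exc4 v S α σ w e) : Bal v S α (fl σ w 1) := by
  obtain ⟨τ, _, _, _, _, _, _, _, _, _, h, _⟩ := h; exact ⟨τ, h⟩

lemma T1c.bal (h : T1c v S α σ w e) : TT v S α σ w e ∨ Bal v S α (fl (fl σ w 1) e 0) ∨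
    (S.card = 6 ∧ Bal v S α (fl (fl σ w 1) e 1)) ∨ (18 ≤ S.card ∧ Bal v S α (fl (fl σ w 0) e 1)) := by
  rcases h with h | h | h | h | h
  · exact Or.inl h
  · exact Or.inr (Or.inl (by simpa using h.1))
  · exact Or.inr (Or.inr (Or.inl ⟨h.1, h.2.1⟩))
  · exact Or.inr (Or.inr (Or.inr ⟨h.card.1, by simpa using h.bal⟩))
  · exact Or.inr (Or.inl (by simpa using h.bal))

lemma glueC (h : Cut v S α a b X f g) (l : Z2)
    (s1 : Sol v X (cl α f g) (fl σ f l) W1 r1 p1)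
    (s2 : Sol v (S \ X) (cl α (α f) (α g)) (fl σ (α f) l) W2 r2 p2)
    (w1 : ∀ d ∈ X, d ≠ f → d ≠ g → W1 d → W d)
    (w2 : ∀ d ∈ S \ X, d ≠ α f → d ≠ α g → W2 d → W d)
    (c1 : p1 f → ¬ p2 (α f)) (c2 : p1 g → ¬ p2 (α g)) :
    ∃ r p t, Sol v S α σ W r p ∧ (∀ x ∈ X, r x = r1 x ∧ p x = p1 x) ∧
      (∀ y ∈ S \ X, r y = r2 y + t ∧ p y = p2 y) ∧ r1 f + σ f + r2 (α f) + t + σ (α f) = 1 := by
  have n := h.ch.net.ne_of (h.cX.1 h.fX) (h.cX.1 h.gX) h.fg
  exact glue2 h.ch.net h.cX h.hb s1 s2 (fun d _ k _ => fl_ne _ k) (fun d _ k _ => fl_ne _ k)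
    (by simp only [fl_self, fl_ne _ h.fg.symm, fl_ne _ n.symm]; grind)
    (fun d a b c k => Or.inl (w1 d a b c k)) (fun d a b c k => Or.inl (w2 d a b c k))
    (fun a b => absurd b (c1 a)) (fun a b => absurd b (c2 a))

lemma exl {P : (D → Z2) → Prop} (h : P σ ∨ P (fl σ a 1)) : ∃ l, P (fl σ a l) :=
  h.elim (fun k => ⟨0, by simpa⟩) fun k => ⟨1, k⟩

lemma exl' {P : (D → Z2) → Prop} {l : Z2} (h : P (fl σ a l)) : P σ ∨ P (fl σ a 1) := by
  rcases z2 l with rfl | rfl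
  · exact Or.inl (by simpa using h)
  · exact Or.inr h

theorem c1 (ih : IH v n) : ∀ (m : ℕ) (S : Finset D) (α : D → D) (a b : D), S.card ≤ m → m ≤ n →
    Chain v S α a b → ∀ σ, ∃ l, TT v S α (fl σ a l) a b := by
  intro m
  induction m with
  | zero => intro S α a b h _ hc; have := card_pos.2 ⟨a, hc.ha⟩; omega
  | succ m IHm =>
    intro S α a b h hm hc σ
    rcases hc.cut with h3 | ⟨X, f, g, k1, k2, k3, k4, k5, k6, k7⟩
    · have G := (ih S α hc.net hc.cub h3 (by omega)).2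
      have B := fun x y x' y' => bal_fl (σ := σ) (x := x) (y := y) (x' := x') (y' := y')
        hc.net h3 hc.ha hc.hb hc.ba hc.ba'
      rcases (G σ a hc.ha b hc.hb hc.ba hc.ba').bal with t | t
      · exact ⟨0, by simpa⟩
      rcases (G (fl σ a 1) a hc.ha b hc.hb hc.ba hc.ba').bal with t' | t'
      · exact ⟨1, t'⟩
      exfalso
      simp only [fl_fl] at t'
      rcases t with t | ⟨c, t⟩ | ⟨c, t⟩ <;> rcases t' with t' | ⟨c', t'⟩ | ⟨c', t'⟩ <;>
        first | omega | (have := B _ _ _ _ t t'; revert this; decide)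
    · have C : Cut v S α a b X f g := ⟨hc, k1, k2, k3, k4, k5, k6, k7⟩
      obtain ⟨l, r2, p2, s2, q1, q2⟩ := IHm _ _ _ _ (by have := C.ltr; omega) (by omega) C.right σ
      obtain ⟨l', r1, p1, s1, q3, q4⟩ :=
        IHm _ _ _ _ (by have := C.ltl; omega) (by omega) C.left (fl σ f l)
      rw [fl_comm] at s1
      rw [cl_fst] at q4
      rw [C.cb] at q2
      obtain ⟨r, p, t, s, e1, e2, -⟩ := glueC (W := (· = a)) C l s1 (s2.sg (σ' := fl (fl σ a l') (α f) l)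
        (by have := C.aX; grind [fl])) (fun _ _ _ _ k => k) (fun _ _ k _ k' => absurd k' k)
        (fun k => absurd k q3) (fun k => absurd k q4)
      exact ⟨l', r, p, s, by rwa [(e2 _ C.bY).2], by rwa [(e2 _ C.bY').2]⟩

lemma glue_plain (hn : GNet S α) (hX : Closed v S X) (hb : bd α X = {f, g}) (fg : f ≠ g) {l : Z2}
    (hY : NDb v (S \ X) (cl α (α f) (α g)) (fl σ (α f) l) (α f))
    (s1 : Sol v X (cl α f g) (fl σ f l) W1 r1 p1) (hp : ¬ p1 f ∨ ¬ p1 g)
    (w1 : ∀ d ∈ X, d ≠ f → d ≠ g → W1 d → W d) :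
    ∃ r p, Sol v S α σ W r p ∧ ∀ x ∈ X, r x = r1 x ∧ p x = p1 x := by
  have n := hn.ne_of (hX.1 (bd_mem2 hb).1.1) (hX.1 (bd_mem2 hb).2.1.1) fg
  have key : ∀ r2 p2, Sol v (S \ X) (cl α (α f) (α g)) (fl σ (α f) l) W0 r2 p2 →
      (p1 f → ¬ p2 (α f)) → (p1 g → ¬ p2 (α g)) →
      ∃ r p, Sol v S α σ W r p ∧ ∀ x ∈ X, r x = r1 x ∧ p x = p1 x := fun r2 p2 s2 c1 c2 => by
    obtain ⟨r, p, t, s, e1, -⟩ := glue2 (W := W) (σ := σ) hn hX hb s1 s2 (fun d _ k _ => fl_ne _ k)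
      (fun d _ k _ => fl_ne _ k) (by simp only [fl_self, fl_ne _ fg.symm, fl_ne _ n.symm]; grind)
      (fun d a b c k => Or.inl (w1 d a b c k)) (fun d a b c k => k.elim)
      (fun a b => absurd b (c1 a)) (fun a b => absurd b (c2 a))
    exact ⟨r, p, s, e1⟩
  obtain ⟨⟨r2, p2, s2, q2⟩, ⟨r3, p3, s3, q3⟩⟩ := hY
  rw [cl_fst] at q3
  rcases hp with hp | hp
  · exact key r3 p3 s3 (fun k => absurd k hp) fun _ => q3
  · exact key r2 p2 s2 (fun _ => q2) fun k => absurd k hp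

theorem gnd (M : Models v) (ih : IH v n) : ∀ (m : ℕ) (S : Finset D) (α : D → D) (a : D),
    S.card ≤ m → m ≤ n → GNet S α → Cub v S → Conn v 2 S α → a ∈ S → ∀ σ,
    (∃ l, NDb v S α (fl σ a l) a) ∧ WW v S α σ a := by
  intro m
  induction m with
  | zero => intro S α a h _ _ _ _ ha; have := card_pos.2 ⟨a, ha⟩; omega
  | succ m IHm =>
    intro S α a h hm hn hcub hc ha σ
    by_cases h3 : Conn v 3 S α
    · have G := (ih S α hn hcub h3 (by omega)).1
      have k : ∀ σ, ¬ Bal v S α σ → NDb v S α σ a := fun σ hb =>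
        ⟨(G σ a ha).resolve_right fun t => hb t.1, (G σ _ (hn.mem a ha)).resolve_right fun t => hb t.1⟩
      refine ⟨?_, ?_⟩
      · by_cases hb : Bal v S α σ
        · exact ⟨1, k _ (bal_fl1 hn h3 ha hb)⟩
        · exact ⟨0, by simpa using k _ hb⟩
      · rcases G σ a ha with t | t
        · exact t.ww
        · obtain ⟨b, hb, hb'⟩ : ∃ b ∈ fib v S a, b ∉ ({a, α a} : Finset D) :=
            exists_mem_notMem_of_card_lt_card (by
              have := card_le_two (a := a) (b := α a); rw [hcub a ha]; omega)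
          simp only [mem_insert, mem_singleton, not_or] at hb'
          exact (M.tp S α σ a b t ha (mem_fib.1 hb).1 hb'.1 hb'.2).t1.ww
    · obtain ⟨X, f, g, hX, hne, hb, fg, haX, hf⟩ : ∃ X f g, Closed v S X ∧ X ≠ S ∧ bd α X = {f, g} ∧
          f ≠ g ∧ a ∈ X ∧ (α a ∈ X ∨ a = f) := by
        unfold Conn at h3; push Not at h3
        obtain ⟨X, h1, h2, h3, h4⟩ := h3
        have h5 := hc X h1 h2 h3
        have key : ∀ X, Closed v S X → X ≠ S → (bd α X).card = 2 → a ∈ X → ∃ X f g, Closed v S X ∧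
            X ≠ S ∧ bd α X = {f, g} ∧ f ≠ g ∧ a ∈ X ∧ (α a ∈ X ∨ a = f) := fun X k1 k2 k3 k4 => by
          obtain ⟨f, g, fg, hb⟩ := card_eq_two.1 k3
          by_cases c : α a ∈ X
          · exact ⟨X, f, g, k1, k2, hb, fg, k4, Or.inl c⟩
          rcases (bd_mem2 hb).2.2 a k4 c with r | r
          · exact ⟨X, f, g, k1, k2, hb, fg, k4, Or.inr r⟩
          · exact ⟨X, g, f, k1, k2, by rw [hb, pair_comm], fg.symm, k4, Or.inr r⟩
        by_cases c : a ∈ X
        · exact key X h1 h3 (by omega) c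
        · refine key (S \ X) h1.compl (fun k => ?_) (by rw [hn.card_bd_compl h1.1]; omega) (by simp [ha, c])
          obtain ⟨x, hx⟩ := h2
          exact (mem_sdiff.1 (k.symm ▸ h1.1 hx : x ∈ S \ X)).2 hx
      obtain ⟨⟨f1, f2⟩, ⟨g1, g2⟩, -⟩ := bd_mem2 hb
      have n := hn.ne_of (hX.1 f1) (hX.1 g1) fg
      have hb' := hn.bd_compl2 hX.1 hb
      have fY : α f ∈ S \ X := (bd_mem2 hb').1.1
      have IX := fun a ha => IHm X (cl α f g) a
        (by have := card_lt_card (ssubset_of_subset_of_ne hX.1 hne); omega) (by omega)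
        (hn.close hX.1 hb fg) (hcub.sub hX) (hc.close hn hX hne hb) ha
      have hne' : S \ X ≠ S := fun k => (mem_sdiff.1 (k.symm ▸ ha : a ∈ S \ X)).2 haX
      have IY := IHm (S \ X) (cl α (α f) (α g)) (α f)
        (by have := card_lt_card (ssubset_of_subset_of_ne sdiff_subset hne'); omega) (by omega)
        (hn.close sdiff_subset hb' n) (hcub.sub hX.compl) (hc.close hn hX.compl hne' hb') fY
      rcases hf with hf | rfl
      · have af : a ≠ f := by rintro rfl; contradiction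
        have ag : a ≠ g := by rintro rfl; contradiction
        obtain ⟨⟨l, hY⟩, -⟩ := IY σ
        obtain ⟨⟨l', ⟨r1, p1, s1, q1⟩, ⟨r2, p2, s2, q2⟩⟩, r3, p3, s3⟩ := IX a haX (fl σ f l)
        rw [fl_comm] at s1 s2
        rw [cl_ne af ag] at q2
        have hY' := hY.sg (σ' := fl (fl σ a l') (α f) l) (by grind [fl])
        refine ⟨⟨l', ?_, ?_⟩, ?_⟩
        · obtain ⟨r, p, s, e⟩ := glue_plain (W := W0) hn hX hb fg hY' s1
            (by simpa using s1.plain f1 (by simpa)) (fun _ _ _ _ k => k)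
          exact ⟨r, p, s, by rwa [(e _ haX).2]⟩
        · obtain ⟨r, p, s, e⟩ := glue_plain (W := W0) hn hX hb fg hY' s2
            (by simpa using s2.plain f1 (by simpa)) (fun _ _ _ _ k => k)
          exact ⟨r, p, s, by rwa [(e _ hf).2]⟩
        · obtain ⟨r, p, s, e⟩ := glue_plain (W := (· = a)) hn hX hb fg hY s3
            (by have := (s3.2 f f1 (by simpa)).2; simp only [cl_fst] at this; grind)
            (fun _ _ _ _ k => k)
          exact ⟨r, p, s⟩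
      · obtain ⟨⟨l1, ⟨r1, p1, s1, q1⟩, ⟨r2, p2, s2, q2⟩⟩, -⟩ := IX a haX σ
        obtain ⟨⟨l2, ⟨r3, p3, s3, q3⟩, ⟨r4, p4, s4, q4⟩⟩, -⟩ := IY σ
        obtain ⟨-, r5, p5, s5⟩ := IY (fl σ (α a) l1)
        rw [cl_fst] at q2 q4
        have n2 := hn.ne a ha
        have n3 : α g ≠ a := fun k => g2 (k ▸ f1)
        refine ⟨⟨l1 + l2, ?_, ?_⟩, ?_⟩
        · obtain ⟨r, p, t, s, e, -⟩ := glue2 (W := W0) (σ := fl σ a (l1 + l2)) hn hX hb s1 s4
            (by grind [fl]) (by grind [fl]) (by grind [fl]) (fun _ _ _ _ k => k.elim)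
            (fun _ _ _ _ k => k.elim) (fun k => absurd k q1) (fun _ k => absurd k q4)
          exact ⟨r, p, s, by rwa [(e _ haX).2]⟩
        · obtain ⟨r, p, t, s, -, e, -⟩ := glue2 (W := W0) (σ := fl σ a (l1 + l2)) hn hX hb s2 s3
            (by grind [fl]) (by grind [fl]) (by grind [fl]) (fun _ _ _ _ k => k.elim)
            (fun _ _ _ _ k => k.elim) (fun _ k => absurd k q3) (fun k => absurd k q2)
          exact ⟨r, p, s, by rwa [(e _ fY).2]⟩
        · obtain ⟨r, p, t, s, -⟩ := glue2 (W := (· = a)) (σ := σ) hn hX hb s2 s5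
            (by grind [fl]) (by grind [fl]) (by grind [fl]) (fun _ _ _ _ k => k.elim)
            (fun _ _ k _ k' => absurd k' k) (fun _ _ => Or.inl rfl) (fun k => absurd k q2)
          exact ⟨r, p, s⟩

end Pool.Agent.Lib.IC34
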