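import Pool.Agent.Lib.MP_fb9257_co.Chain

/-! Chains with a bad marked edge. -/

set_option linter.unusedSectionVars false

namespace Pool.Agent.Lib.IC34
open Finset

variable {D V : Type*} [DecidableEq D] [DecidableEq V]
variable {v : D → V} {S X Y Z P Q : Finset D} {α : D → D} {σ σ' σ1 σ2 τ : D → Z2}
  {a b e f g f2 g2 w : D} {W W1 W2 : D → Prop} {r r1 r2 : D → Z2} {p p1 p2 : D → Prop} {n : ℕ}

lemma Chain.four (h : Chain v S α a b) : 4 ≤ S.card := by
  have i1 := h.net.inv a h.ha; have i2 := h.net.inv b h.hb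
  have n1 := h.net.ne a h.ha; have n2 := h.net.ne b h.hb
  have n3 := h.ba; have n4 := h.ba'
  have : ({a, α a, b, α b} : Finset D).card = 4 := by
    rw [card_insert_of_notMem, card_insert_of_notMem, card_pair] <;> grind
  rw [← this]
  exact card_le_card (by simp [insert_subset_iff, h.ha, h.hb, h.net.mem a h.ha, h.net.mem b h.hb])

lemma Cut.nd (C : Cut v S α a b X f g) {l : Z2}
    (hY : NDb v (S \ X) (cl α (α f) (α g)) (fl σ (α f) l) (α f))
    (hX : NDb v X (cl α f g) (fl σ f l) a) : NDb v S α σ a := by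
  obtain ⟨⟨r1, p1, s1, q1⟩, ⟨r2, p2, s2, q2⟩⟩ := hX
  rw [C.ca] at q2
  constructor
  · obtain ⟨r, p, s, e⟩ := glue_plain (W := W0) C.ch.net C.cX C.hb C.fg hY s1
      (by simpa using s1.plain C.fX (by simpa using C.gX)) (fun _ _ _ _ k => k)
    exact ⟨r, p, s, by rwa [(e _ C.aX).2]⟩
  · obtain ⟨r, p, s, e⟩ := glue_plain (W := W0) C.ch.net C.cX C.hb C.fg hY s2
      (by simpa using s2.plain C.fX (by simpa using C.gX)) (fun _ _ _ _ k => k)
    exact ⟨r, p, s, by rwa [(e _ C.aX').2]⟩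

lemma Cut.tt (C : Cut v S α a b X f g) {l : Z2} (hX : TT v X (cl α f g) (fl σ f l) a f)
    (hY : TT v (S \ X) (cl α (α f) (α g)) (fl σ (α f) l) (α f) b) : TT v S α σ a b := by
  obtain ⟨r1, p1, s1, q3, q4⟩ := hX
  obtain ⟨r2, p2, s2, q1, q2⟩ := hY
  rw [cl_fst] at q4
  rw [C.cb] at q2
  obtain ⟨r, p, t, s, e1, e2, -⟩ := glueC (W := (· = a)) C l s1 s2 (fun _ _ _ _ k => k)
    (fun _ _ k _ k' => absurd k' k) (fun k => absurd k q3) (fun k => absurd k q4)
  exact ⟨r, p, s, by rwa [(e2 _ C.bY).2], by rwa [(e2 _ C.bY').2]⟩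

/-- a side that behaves like a vertex -/
lemma Cut.pv (C : Cut v S α a b X f g) {l : Z2} (hX : PV2 v X (cl α f g) (fl σ f l) a f) :
    ∃ q, ∀ r2 p2 c, Sol v (S \ X) (cl α (α f) (α g)) (fl σ (α f) l) W0 r2 p2 →
      Opt (cl α (α f) (α g)) r2 p2 (α f) c → ∃ r p t, Sol v S α σ W0 r p ∧
        (∀ y ∈ S \ X, r y = r2 y + t ∧ p y = p2 y) ∧ Opt α r p a (c + t + q) := by
  obtain ⟨q, ⟨r1, p1, s1, q1, o1⟩, ⟨r3, p3, s3, q3, o3⟩⟩ := hX
  rw [cl_fst] at q3
  refine ⟨q + σ f + σ (α f), fun r2 p2 c s2 o => ?_⟩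
  unfold Opt at o o1 o3 ⊢
  rw [C.ca] at o1 o3
  rw [cl_fst] at o
  rcases o with ⟨o, rfl⟩ | ⟨o, rfl⟩
  · obtain ⟨r, p, t, s, e1, e2, e3⟩ := glueC (W := W0) C l s3 s2 (fun _ _ _ _ k => k)
      (fun _ _ _ _ k => k) (fun _ => o) (fun k => absurd k q3)
    refine ⟨r, p, t, s, e2, ?_⟩
    rw [(e1 _ C.aX).1, (e1 _ C.aX).2, (e1 _ C.aX').2]; grind
  · obtain ⟨r, p, t, s, e1, e2, e3⟩ := glueC (W := W0) C l s1 s2 (fun _ _ _ _ k => k)
      (fun _ _ _ _ k => k) (fun k => absurd k q1) (fun _ => o)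
    refine ⟨r, p, t, s, e2, ?_⟩
    rw [(e1 _ C.aX).1, (e1 _ C.aX).2, (e1 _ C.aX').2]; grind

theorem c2 (M : Models v) (ih : IH v n) : ∀ (m : ℕ) (S : Finset D) (α : D → D) (a b : D),
    S.card ≤ m → m ≤ n → Chain v S α a b → ∀ σ, ¬ NDb v S α σ a →
    TP v S α σ a b ∧ NDb v S α (fl σ b 1) a := by
  intro m
  induction m with
  | zero => intro S α a b h _ hc; have := card_pos.2 ⟨a, hc.ha⟩; omega
  | succ m IHm =>
    intro S α a b h hm hc σ bad
    rcases hc.cut with h3 | ⟨X, f, g, k1, k2, k3, k4, k5, k6, k7⟩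
    · have G := (ih S α hc.net hc.cub h3 (by omega)).1
      have k : ∀ σ, ¬ Tight v S α σ → NDb v S α σ a := fun σ hb =>
        ⟨(G σ a hc.ha).resolve_right hb, (G σ _ (hc.net.mem a hc.ha)).resolve_right hb⟩
      have t : Tight v S α σ := by_contra fun c => bad (k _ c)
      exact ⟨M.tp S α σ a b t hc.ha hc.hb hc.ba hc.ba',
        k _ fun c => bal_fl1 hc.net h3 hc.hb t.1 c.1⟩
    · have C : Cut v S α a b X f g := ⟨hc, k1, k2, k3, k4, k5, k6, k7⟩
      have l1 := C.ltl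
      have l2 := C.ltr
      have GY := gnd M ih m _ _ _ (by omega) (by omega) C.right.net C.right.cub C.right.conn C.fY
      have C1 := c1 ih m _ _ _ _ (by omega) (by omega) C.right
      obtain ⟨⟨l, hY⟩, -⟩ := GY σ
      obtain ⟨TX, nX⟩ := IHm _ _ _ _ (by omega) (by omega) C.left (fl σ f l) fun c => bad (C.nd hY c)
      rw [fl_fl] at nX
      obtain ⟨TY, nY⟩ := IHm _ _ _ _ (by omega) (by omega) C.right (fl σ (α f) (l + 1))
        fun c => bad (C.nd c nX)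
      have aX := C.aX
      have bX := C.bX
      have x6 : X.card ≠ 6 := fun c => bad (by
        obtain ⟨⟨r1, p1, s1, q1, q2, q3⟩, ⟨r2, p2, s2, q4, q5, q6⟩⟩ := TX.t7 c
        obtain ⟨-, r3, p3, s3⟩ := GY (fl σ (α f) (l + 1))
        rw [fl_fl] at s1 s2
        rw [cl_fst] at q2 q5
        rw [C.ca] at q6
        constructor
        · obtain ⟨r, p, t, s, e, -⟩ := glueC (W := W0) C _ s1 s3 (fun _ _ _ _ k => k)
            (fun _ _ k _ k' => absurd k' k) (fun k => absurd k q1) (fun k => absurd k q2)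
          exact ⟨r, p, s, by rwa [(e _ C.aX).2]⟩
        · obtain ⟨r, p, t, s, e, -⟩ := glueC (W := W0) C _ s2 s3 (fun _ _ _ _ k => k)
            (fun _ _ k _ k' => absurd k' k) (fun k => absurd k q4) (fun k => absurd k q5)
          exact ⟨r, p, s, by rwa [(e _ C.aX').2]⟩)
      have full : ∀ l', TT v X (cl α f g) (fl σ f l') a f := fun l' => by
        rcases z2_or l' l with rfl | rfl
        · exact TX.t1
        · simpa only [fl_fl] using TX.t2
      have t3 := TX.t3.resolve_right x6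
      obtain ⟨q, hq⟩ := C.pv (σ := fl σ a 1) (l := l) (by rw [fl_comm]; exact TX.t6)
      have sY : ∀ {r p}, Sol v (S \ X) (cl α (α f) (α g)) (fl (fl σ (α f) (l + 1)) (α f) 1) W0 r p →
          Sol v (S \ X) (cl α (α f) (α g)) (fl (fl σ a 1) (α f) l) W0 r p :=
        fun s => s.sg (by grind [fl])
      refine ⟨⟨?_, ?_, Or.inl ?_, Or.inl ?_, fun s => ?_, ?_, fun c => ?_⟩, ?_⟩
      · obtain ⟨l', t⟩ := C1 σ
        exact C.tt (full l') t
      · obtain ⟨l', t⟩ := C1 (fl σ b 1)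
        exact C.tt ((full l').sg (by grind [fl])) t
      · exact C.tt (l := l + 1) (t3.sg (by grind [fl])) (TY.t2.sg (by grind [fl]))
      · exact C.tt (l := l + 1) (t3.sg (by grind [fl])) (TY.t1.sg (by grind [fl]))
      · obtain ⟨r2, p2, s2, c, c', o1, o2, e⟩ := TY.t5 (s + q)
        obtain ⟨r, p, t, s0, e2, o⟩ := hq r2 p2 c (sY s2) o1
        refine ⟨r, p, s0, _, c' + t, o, ?_, by grind⟩
        unfold Opt at o2 ⊢
        rw [C.cb] at o2
        rw [(e2 _ C.bY).1, (e2 _ C.bY).2, (e2 _ C.bY').2]; grind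
      · obtain ⟨q', ⟨r2, p2, s2, q1, o1⟩, ⟨r3, p3, s3, q2, o2⟩⟩ := TY.t6
        rw [C.cb] at q2
        obtain ⟨r, p, t, s0, e2, o⟩ := hq r2 p2 _ (sY s2) o1
        obtain ⟨r', p', t', s0', e2', o'⟩ := hq r3 p3 _ (sY s3) o2
        refine ⟨q + q', ⟨r, p, s0, by rwa [(e2 _ C.bY).2], ?_⟩, ⟨r', p', s0', by rwa [(e2' _ C.bY').2], ?_⟩⟩
        · rw [(e2 _ C.bY).1]; convert o using 1; ring
        · rw [(e2' _ C.bY).1]; convert o' using 1; ring
      · have := C.left.four; have := C.right.four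
        have := card_sdiff_add_card_eq_card C.cX.1; omega
      · exact C.nd (l := l + 1) (nY.sg (by grind [fl])) (nX.sg (by grind [fl]))

end Pool.Agent.Lib.IC34
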