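import Mathlib

/-! Multigraphs given by the ends of their edges, and interval colourings. -/

namespace Pool.Agent.Lib.IC34
open Finset

variable {V E : Type*} [Fintype E] [DecidableEq V]

/-- The number of edges at the vertex `w`. -/
def mdeg (ends : E → Sym2 V) (w : V) : ℕ := (univ.filter fun e => w ∈ ends e).card

/-- The colours are positive integers, and at every vertex `w` the colours of the incident edges
are pairwise distinct and form a set of `mdeg ends w` consecutive integers. -/
def IsIntervalColoring (ends : E → Sym2 V) (c : E → ℕ) : Prop :=
  (∀ e, 1 ≤ c e) ∧ ∀ w, Set.InjOn c {e | w ∈ ends e} ∧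
    ∃ a, c '' {e | w ∈ ends e} = Set.Ico a (a + mdeg ends w)

end Pool.Agent.Lib.IC34
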