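import Pool.Agent.Lib.MP_fb9257_co.Blue
import Pool.Agent.Lib.MP_fb9257_co.Stmt

/-! From solutions to interval colourings. -/

set_option linter.unusedSectionVars false

namespace Pool.Agent.Lib.IC34
open Finset

namespace COL

lemma two_inv {D : Type*} (a b : D → D) (ha : ∀ d, a (a d) = d) (hb : ∀ d, b (b d) = d)
    (na : ∀ d, a d ≠ d) (nb : ∀ d, b d ≠ d) :
    ∃ χ : D → Bool, ∀ d, χ (a d) ≠ χ d ∧ χ (b d) ≠ χ d := by
  classical
  let A : Equiv.Perm D := Function.Involutive.toPerm a ha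
  let B : Equiv.Perm D := Function.Involutive.toPerm b hb
  have hA : A * A = 1 := Equiv.ext ha
  have hB : B * B = 1 := Equiv.ext hb
  have cj : ∀ j : ℤ, A * (A * B) ^ j = (A * B) ^ (-j) * A := fun j => by
    have : A * (A * B) * A⁻¹ = (A * B)⁻¹ := by
      rw [← mul_assoc, hA, one_mul, mul_inv_rev, inv_eq_of_mul_eq_one_right hB]
    rw [zpow_neg, ← inv_zpow, ← this, conj_zpow, inv_mul_cancel_right]
  have ns : ∀ d, ¬ (A * B).SameCycle d (a d) := by
    rintro d ⟨k, hk⟩
    have key : ∀ j : ℤ, a (((A * B) ^ j) d) = ((A * B) ^ (k - j)) d := fun j => by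
      have := congrArg (fun f : Equiv.Perm D => f d) (cj j)
      simp only [Equiv.Perm.mul_apply] at this
      change A _ = _
      rw [this, show A d = a d from rfl, ← hk, ← Equiv.Perm.mul_apply, ← zpow_add, neg_add_eq_sub]
    rcases Int.even_or_odd' k with ⟨j, rfl | rfl⟩
    · exact na _ ((key j).trans (by congr 2; ring))
    · refine nb (((A * B) ^ j) d) ?_
      have := key (j + 1)
      rw [add_comm j 1, zpow_add, zpow_one, Equiv.Perm.mul_apply, Equiv.Perm.mul_apply] at this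
      change a (a (b _)) = _ at this
      rw [ha] at this
      rw [this]
      congr 2
      ring
  let q : D → Quotient (Equiv.Perm.SameCycle.setoid (A * B)) := Quotient.mk _
  obtain ⟨_, -⟩ := exists_wellFoundedLT (Quotient (Equiv.Perm.SameCycle.setoid (A * B)))
  have q1 : ∀ d, q (a (b d)) = q d := fun d =>
    (Quotient.sound (show (A * B).SameCycle d (a (b d)) from ⟨1, rfl⟩)).symm
  have q2 : ∀ d, q (b d) = q (a d) := fun d => by rw [← q1 (b d), hb]
  have q3 : ∀ d, q d ≠ q (a d) := fun d h => ns d (Quotient.exact h)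
  refine ⟨fun d => decide (q d < q (a d)), fun d => ?_⟩
  simp only [ha, q1, q2, ne_eq, decide_eq_decide, and_self]
  rcases lt_or_gt_of_ne (q3 d) with h | h <;> simp [h, h.not_gt]

lemma two_match {D : Type*} (a : D → D) (ha : ∀ d, a (a d) = d) (na : ∀ d, a d ≠ d)
    (R : D → D → Prop) (hs : ∀ x y, R x y → R y x) (hi : ∀ x, ¬ R x x)
    (hf : ∀ x y z, R x y → R x z → y = z) :
    ∃ χ : D → Bool, (∀ d, χ (a d) ≠ χ d) ∧ ∀ x y, R x y → χ x ≠ χ y := by
  classical
  let b : D × Bool → D × Bool := fun x =>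
    if h : ∃ y, R x.1 y then (h.choose, x.2) else (x.1, !x.2)
  have b1 : ∀ x y t, R x y → b (x, t) = (y, t) := fun x y t h => by
    have h' : ∃ y, R x y := ⟨y, h⟩
    simp only [b, dif_pos h', hf x _ _ h'.choose_spec h]
  have b2 : ∀ x t, ¬ (∃ y, R x y) → b (x, t) = (x, !t) := fun x t h => by
    simp only [b, dif_neg h]
  obtain ⟨χ, hχ⟩ := two_inv (fun x : D × Bool => (a x.1, x.2)) b (fun x => by simp [ha])
    (fun ⟨x, t⟩ => by
      by_cases h : ∃ y, R x y
      · obtain ⟨y, h⟩ := h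
        rw [b1 x y t h, b1 y x t (hs _ _ h)]
      · rw [b2 x t h, b2 x _ h, Bool.not_not])
    (fun x h => na x.1 (congrArg Prod.fst h))
    (fun ⟨x, t⟩ => by
      by_cases h : ∃ y, R x y
      · obtain ⟨y, h⟩ := h
        rw [b1 x y t h]
        intro e
        obtain rfl : y = x := congrArg Prod.fst e
        exact hi _ h
      · rw [b2 x t h]
        simp)
  refine ⟨fun d => χ (d, false), fun d => (hχ (d, false)).1, fun x y h => ?_⟩
  have := (hχ (x, false)).2
  rw [b1 x y _ h] at this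
  exact this.symm

variable {D V : Type*} [Fintype D] [DecidableEq D] [DecidableEq V]

/-- The colours at the vertex of `d` are distinct and lie in an interval of the right length. -/
def Good (v : D → V) (c : D → ℤ) (d : D) : Prop :=
  ∃ a : ℤ, ∀ x, v x = v d → (a ≤ c x ∧ c x < a + deg v d) ∧ ∀ y, v y = v d → c x = c y → x = y

/-- The colour table. -/
def tab (k : Z2) (f s : Bool) : ℤ :=
  if k = 0 then (if f then 4 else if s then 1 else 5) else (if f then 3 else if s then 6 else 2)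

/-- The minority dart at a vertex of degree three. -/
def Stem (v : D → V) (S : Finset D) (r : D → Z2) (d : D) : Prop :=
  d ∈ S ∧ deg v d = 3 ∧ ∀ x, v x = v d → x ≠ d → r x ≠ r d

variable {v : D → V} {α : D → D} {S : Finset D} {r : D → Z2} {p : D → Prop}

lemma deg_eq {x y : D} (h : v x = v y) : deg v x = deg v y := by
  simp only [deg, fib, h]

lemma mem_of {d x : D} {T : Finset D} (h : fib v univ d = T) : v x = v d ↔ x ∈ T := by
  rw [← h, mem_fib]; simp

lemma Stem.perm (h : FS v α S r p) {d : D} (hd : Stem v S r d) : p d := by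
  obtain ⟨a, b, c, e, h1, h2, h3, h4, h5, h6⟩ := (h.2 d hd.1).2.1 hd.2.1
  have m := fun x => mem_of (x := x) e
  simp only [mem_insert, mem_singleton] at m
  rcases (m d).1 rfl with rfl | rfl | rfl
  · exact h6
  · exact absurd h5.symm (hd.2.2 c ((m c).2 (by simp)) h3.symm)
  · exact absurd h5 (hd.2.2 b ((m b).2 (by simp)) h3)

lemma not_stem (h : FS v α S r p) {d : D} (hd : d ∈ S) (hp : p d) : ¬ Stem v S r (α d) :=
  fun k => by
    have := ((h.1 d hd k.1).2 hp (k.perm h)).2
    have := k.2.1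
    omega

lemma one_le_deg (d : D) : 1 ≤ deg v d := card_pos.2 ⟨d, by simp⟩

lemma two_le_deg {d x : D} (h : v x = v d) (hx : x ≠ d) : 2 ≤ deg v d :=
  one_lt_card.2 ⟨x, by simp [h], d, by simp, hx⟩

lemma same_r (g : Gr v α) (h : FS v α S r p) {x y z : D} (hx : x ∈ S) (hy : v y = v x)
    (hz : v z = v x) (xy : x ≠ y) (xz : x ≠ z) (ry : r y = r x) (rz : r z = r x) : y = z := by
  by_contra yz
  have h3 : 3 ≤ deg v x := two_lt_card_iff.2 ⟨x, y, z, by simp, by simp [hy], by simp [hz], xy, xz, yz⟩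
  rcases (by have := g.le x; omega : deg v x = 3 ∨ deg v x = 4) with k | k
  · obtain ⟨a, b, c, e, h1, h2, h3, h4, h5, -⟩ := (h.2 x hx).2.1 k
    have m := fun x => mem_of (x := x) e
    simp only [mem_insert, mem_singleton] at m
    have m1 := (m x).1 rfl
    have m2 := (m y).1 hy
    have m3 := (m z).1 hz
    grind
  · obtain ⟨a, b, c, d, e, -, -, -, -, -, -, h4, h5, -⟩ := (h.2 x hx).2.2 k
    have m := fun x => mem_of (x := x) e
    simp only [mem_insert, mem_singleton] at m
    have m1 := (m x).1 rfl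
    have m2 := (m y).1 hy
    have m3 := (m z).1 hz
    grind

lemma two_stems (g : Gr v α) (hS : Closed v univ S) (h : FS v α S r p) {x y z : D} (hx : x ∈ S)
    (hy : v y = v x) (hz : v z = v x) (xy : x ≠ y) (xz : x ≠ z) (sx : Stem v S r (α x))
    (sy : Stem v S r (α y)) (sz : Stem v S r (α z)) : y = z := by
  have h2 := two_le_deg hy xy.symm
  have h3 := g.ind _ (Or.inr sx.2.1)
  rw [g.inv] at h3
  obtain ⟨a, b, c, d, e, -, -, -, -, -, -, -, -, pa, pc⟩ :=
    (h.2 x hx).2.2 (by have := g.le x; omega)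
  have m := fun x => mem_of (x := x) e
  simp only [mem_insert, mem_singleton] at m
  have na := not_stem h (hS.2 x hx a (mem_univ _) ((m a).2 (by simp))) pa
  have nc := not_stem h (hS.2 x hx c (mem_univ _) ((m c).2 (by simp))) pc
  have m1 := (m x).1 rfl
  have m2 := (m y).1 hy
  have m3 := (m z).1 hz
  grind

lemma tab2 : ∀ (k : Z2) (f f' : Bool), f ≠ f' → ∃ a ∈ [2, 4], a ≤ tab k f false ∧
    tab k f false < a + 2 ∧ a ≤ tab k f' false ∧ tab k f' false < a + 2 ∧
    tab k f false ≠ tab k f' false := by decide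

lemma tab3 : ∀ (k k' : Z2) (f f' f'' : Bool), k ≠ k' → f' ≠ f'' → ∃ a ∈ [1, 2, 3, 4],
    (∀ t ∈ [tab k f true, tab k' f' false, tab k' f'' false], a ≤ t ∧ t < a + 3) ∧
    [tab k f true, tab k' f' false, tab k' f'' false].Nodup := by decide

set_option synthInstance.maxSize 2048 in
lemma tab4 : ∀ (ka kb kc kd : Z2) (fa fb fc fd sb sd : Bool), ka ≠ kb → kc ≠ kd →
    (ka = kc → fa ≠ fc) → (ka = kd → fa ≠ fd) → (kb = kc → fb ≠ fc) → (kb = kd → fb ≠ fd) →
    (sb = true → sd = true → fb ≠ fd) → ∃ a ∈ [1, 2, 3],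
    (∀ t ∈ [tab ka fa false, tab kb fb sb, tab kc fc false, tab kd fd sd], a ≤ t ∧ t < a + 4) ∧
    [tab ka fa false, tab kb fb sb, tab kc fc false, tab kd fd sd].Nodup := by decide +kernel

lemma colFS (g : Gr v α) (hS : Closed v univ S) (h : FS v α S r p) :
    ∃ c : D → ℤ, (∀ d, c (α d) = c d) ∧ ∀ d ∈ S, Good v c d := by
  classical
  obtain ⟨s, s1, s2⟩ := g.bip
  have cl : ∀ {d x}, d ∈ S → v x = v d → x ∈ S := fun hd e => hS.2 _ hd _ (mem_univ _) e
  have inj : ∀ {x y}, α x = α y → x = y := fun {x y} e => by rw [← g.inv x, e, g.inv]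
  obtain ⟨χ, c1, c2⟩ := two_match α g.inv (fun d e => g.nl d (congrArg v e))
    (fun x y => x ≠ y ∧ ((x ∈ S ∧ v y = v x ∧ r y = r x) ∨
      (Stem v S r x ∧ Stem v S r y ∧ α x ∈ S ∧ v (α y) = v (α x))))
    (fun x y k => ⟨k.1.symm, k.2.imp (fun k => ⟨cl k.1 k.2.1, k.2.1.symm, k.2.2.symm⟩)
      fun k => ⟨k.2.1, k.1, cl k.2.2.1 k.2.2.2, k.2.2.2.symm⟩⟩)
    (fun x k => k.1 rfl) (by
      rintro x y z ⟨xy, k | k⟩ ⟨xz, k' | k'⟩
      · exact same_r g h k.1 k.2.1 k'.2.1 xy xz k.2.2 k'.2.2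
      · exact absurd k.2.2 (k'.1.2.2 y k.2.1 xy.symm)
      · exact absurd k'.2.2 (k.1.2.2 z k'.2.1 xz.symm)
      · exact inj (two_stems g hS h k.2.2.1 k.2.2.2 k'.2.2.2 (fun e => xy (inj e))
          (fun e => xz (inj e)) (by rw [g.inv]; exact k.1) (by rw [g.inv]; exact k.2.1)
          (by rw [g.inv]; exact k'.2.1)))
  obtain ⟨φ, f1, f2⟩ : ∃ φ : D → Bool, (∀ d, φ (α d) = φ d) ∧
      ∀ x y, s x = s y → χ x ≠ χ y → φ x ≠ φ y := by
    refine ⟨fun d => xor (χ d) (s d), fun d => ?_, fun x y e e' => ?_⟩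
    · have a1 := c1 d
      have a2 := s2 d
      beta_reduce
      revert a1 a2
      cases χ (α d) <;> cases χ d <;> cases s (α d) <;> cases s d <;> simp
    · simpa [e] using e'
  obtain ⟨κ, k1, k2⟩ : ∃ κ : D → Z2, (∀ d, κ (α d) = κ d) ∧
      ∀ d ∈ S, ∀ x, v x = v d → (κ x = κ d ↔ r x = r d) := by
    let t : D → Z2 := fun d => r d + if s d then 0 else 1
    refine ⟨fun d => if d ∈ S then t d else if α d ∈ S then t (α d) else 0, fun d => ?_,
      fun d hd x e => ?_⟩
    · by_cases h1 : d ∈ S <;> by_cases h2 : α d ∈ S <;> simp only [h1, h2, g.inv, if_true, if_false]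
      have a1 := (h.1 d h1 h2).1
      have a2 := s2 d
      simp only [t]
      revert a2
      cases s (α d) <;> cases s d <;> simp <;> grind
    · simp only [hd, cl hd e, if_true, t, s1 d x e, add_left_inj]
  let st : D → Bool := fun d => decide (Stem v S r d ∨ Stem v S r (α d))
  have st1 : ∀ d, st (α d) = st d := fun d => by simp only [st, g.inv, or_comm]
  have p1 : ∀ {x y}, x ∈ S → v y = v x → x ≠ y → κ x = κ y → φ x ≠ φ y := fun {x y} hx e ne k =>
    f2 x y (s1 _ _ e).symm (c2 x y ⟨ne, Or.inl ⟨hx, e, (k2 x hx y e).1 k.symm⟩⟩)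
  have low : ∀ {x}, deg v x = 2 ∨ deg v x = 3 → ¬ Stem v S r (α x) := fun k k' =>
    g.ind _ k (Or.inr k'.2.1)
  refine ⟨fun d => tab (κ d) (φ d) (st d), fun d => by simp only [k1, f1, st1], fun d hd => ?_⟩
  have l1 := one_le_deg (v := v) d
  have l4 := g.le d
  rcases (by omega : deg v d = 1 ∨ deg v d = 2 ∨ deg v d = 3 ∨ deg v d = 4) with k | k | k | k
  · have : ∀ x, v x = v d → x = d := fun x e => by
      by_contra ne
      have := two_le_deg e ne
      omega
    refine ⟨tab (κ d) (φ d) (st d), fun x e => ⟨?_, fun y e' _ => by rw [this x e, this y e']⟩⟩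
    rw [this x e, k]
    exact ⟨le_rfl, by simp⟩
  · obtain ⟨a, b, ab, e⟩ := card_eq_two.1 k
    have m := fun x => mem_of (x := x) e
    simp only [mem_insert, mem_singleton] at m
    have va := (m a).2 (by simp)
    have vb := (m b).2 (by simp)
    have ns : ∀ x, v x = v d → st x = false := fun x e => by
      have := deg_eq e
      refine decide_eq_false ?_
      rintro (j | j)
      · have := j.2.1; omega
      · exact low (Or.inl (by omega)) j
    have kab : κ a = κ b := (k2 b (cl hd vb) a (va.trans vb.symm)).2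
      (((h.2 d hd).1 k a va).trans ((h.2 d hd).1 k b vb).symm)
    obtain ⟨t, -, t1, t2, t3, t4, t5⟩ := tab2 (κ a) _ _ (p1 (cl hd va) (vb.trans va.symm) ab kab)
    refine ⟨t, fun x ex => ⟨?_, fun y ey => ?_⟩⟩
    · simp only [ns x ex, k]
      rcases (m x).1 ex with rfl | rfl
      · exact ⟨t1, t2⟩
      · rw [← kab]; exact ⟨t3, t4⟩
    · simp only [ns x ex, ns y ey]
      rcases (m x).1 ex with rfl | rfl <;> rcases (m y).1 ey with rfl | rfl <;> intro j
      exacts [rfl, absurd (by rwa [← kab] at j) t5, absurd (by rw [← kab] at j; exact j.symm) t5, rfl]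
  · obtain ⟨a, b, c, e, ab, ac, bc, h4, h5, -⟩ := (h.2 d hd).2.1 k
    have m := fun x => mem_of (x := x) e
    simp only [mem_insert, mem_singleton] at m
    have va := (m a).2 (by simp)
    have vb := (m b).2 (by simp)
    have vc := (m c).2 (by simp)
    have rab : r b ≠ r a := by grind
    have sa : st a = true := decide_eq_true (Or.inl ⟨cl hd va, (deg_eq va).trans k, fun x ex xa => by
      rcases (m x).1 (ex.trans va) with rfl | rfl | rfl
      exacts [absurd rfl xa, rab, h5 ▸ rab]⟩)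
    have sb : st b = false := decide_eq_false (by
      rintro (j | j)
      exacts [j.2.2 c (vc.trans vb.symm) bc.symm h5.symm, low (Or.inr ((deg_eq vb).trans k)) j])
    have sc : st c = false := decide_eq_false (by
      rintro (j | j)
      exacts [j.2.2 b (vb.trans vc.symm) bc h5, low (Or.inr ((deg_eq vc).trans k)) j])
    have kbc : κ b = κ c := (k2 c (cl hd vc) b (vb.trans vc.symm)).2 h5
    obtain ⟨t, -, t1, t2⟩ := tab3 (κ a) (κ b) (φ a) _ _
      (fun j => rab ((k2 a (cl hd va) b (vb.trans va.symm)).1 j.symm))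
      (p1 (cl hd vb) (vc.trans vb.symm) bc kbc)
    refine ⟨t, fun x ex => ⟨?_, fun y ey => ?_⟩⟩
    · rw [k]
      refine t1 _ ?_
      rcases (m x).1 ex with rfl | rfl | rfl <;> simp [sa, sb, sc, kbc]
    · simp only [List.nodup_cons, List.mem_cons, List.not_mem_nil, or_false, not_or] at t2
      obtain ⟨⟨u1, u2⟩, u3, -⟩ := t2
      rcases (m x).1 ex with rfl | rfl | rfl <;> rcases (m y).1 ey with rfl | rfl | rfl <;>
        simp only [sa, sb, sc, ← kbc] <;> intro j <;>
        first | trivial | exact absurd j (by assumption) | exact absurd j.symm (by assumption)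
  · obtain ⟨a, b, c, d', e, ab, ac, ad, bc, bd, cd, h4, h5, pa, pc⟩ := (h.2 d hd).2.2 k
    have m := fun x => mem_of (x := x) e
    simp only [mem_insert, mem_singleton] at m
    have va := (m a).2 (by simp)
    have vb := (m b).2 (by simp)
    have vc := (m c).2 (by simp)
    have vd := (m d').2 (by simp)
    have n3 : ∀ x, v x = v d → ¬ Stem v S r x := fun x ex j => by
      have := deg_eq ex
      have := j.2.1
      omega
    have sa : st a = false := decide_eq_false (not_or.2 ⟨n3 a va, not_stem h (cl hd va) pa⟩)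
    have sc : st c = false := decide_eq_false (not_or.2 ⟨n3 c vc, not_stem h (cl hd vc) pc⟩)
    obtain ⟨t, -, t1, t2⟩ := tab4 (κ a) (κ b) (κ c) (κ d') (φ a) (φ b) (φ c) (φ d') (st b) (st d')
      (fun j => by have := (k2 b (cl hd vb) a (va.trans vb.symm)).1 j; grind)
      (fun j => by have := (k2 d' (cl hd vd) c (vc.trans vd.symm)).1 j; grind)
      (p1 (cl hd va) (vc.trans va.symm) ac) (p1 (cl hd va) (vd.trans va.symm) ad)
      (p1 (cl hd vb) (vc.trans vb.symm) bc) (p1 (cl hd vb) (vd.trans vb.symm) bd) (fun j j' => by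
        rw [← f1 b, ← f1 d']
        refine f2 _ _ ?_ (c2 _ _ ⟨fun e => bd (inj e), Or.inr
          ⟨(of_decide_eq_true j).resolve_left (n3 b vb), (of_decide_eq_true j').resolve_left (n3 d' vd),
            by rw [g.inv]; exact cl hd vb, by rw [g.inv, g.inv, vd, vb]⟩⟩)
        have a1 := s2 b
        have a2 := s2 d'
        rw [s1 d b vb] at a1
        rw [s1 d d' vd] at a2
        revert a1 a2
        cases s (α b) <;> cases s (α d') <;> cases s d <;> simp)
    refine ⟨t, fun x ex => ⟨?_, fun y ey => ?_⟩⟩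
    · rw [k]
      refine t1 _ ?_
      rcases (m x).1 ex with rfl | rfl | rfl | rfl <;> simp [sa, sc]
    · simp only [List.nodup_cons, List.mem_cons, List.not_mem_nil, or_false, not_or] at t2
      obtain ⟨⟨u1, u2, u3⟩, ⟨u4, u5⟩, u6, -⟩ := t2
      rcases (m x).1 ex with rfl | rfl | rfl | rfl <;>
        rcases (m y).1 ey with rfl | rfl | rfl | rfl <;> simp only [sa, sc] <;> intro j <;>
        first | trivial | exact absurd j (by assumption) | exact absurd j.symm (by assumption)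

lemma Good.shift {c c' : D → ℤ} {d : D} (h : Good v c d) (t : ℤ)
    (e : ∀ x, v x = v d → c' x = c x + t) : Good v c' d := by
  obtain ⟨a, ha⟩ := h
  refine ⟨a + t, fun x ex => ⟨?_, fun y ey j => (ha x ex).2 y ey ?_⟩⟩
  · have := (ha x ex).1
    rw [e x ex]
    omega
  · rw [e x ex, e y ey] at j
    omega

lemma col_all (g : Gr v α) (h : BaseFS v α) (S : Finset D) : Closed v univ S →
    ∃ c : D → ℤ, (∀ d, c (α d) = c d) ∧ ∀ d ∈ S, Good v c d := by
  induction S using Finset.strongInduction with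
  | H S ih =>
  intro hS
  by_cases k : ∀ X, Closed v S X → X.Nonempty → X ≠ S →
      2 ≤ (X.filter fun d => α d ∈ S \ X).card
  · obtain ⟨r, p, hf⟩ := h S hS k
    exact colFS g hS hf
  push Not at k
  obtain ⟨X, hX, ne, nS, k⟩ := k
  have hX' := hS.trans hX
  have hY := hS.trans hX.compl
  obtain ⟨c1, a1, b1⟩ := ih X (Finset.ssubset_iff_subset_ne.2 ⟨hX.1, nS⟩) hX'
  obtain ⟨c2, a2, b2⟩ := ih (S \ X) (sdiff_ssubset hX.1 ne) hY
  obtain ⟨t, ht⟩ : ∃ t, ∀ d ∈ X, α d ∈ S \ X → c1 d = c2 d + t := by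
    by_cases j : ∃ d ∈ X, α d ∈ S \ X
    · obtain ⟨d0, j1, j2⟩ := j
      refine ⟨c1 d0 - c2 d0, fun d j3 j4 => ?_⟩
      rw [card_le_one.1 (Nat.lt_succ_iff.1 k) d (mem_filter.2 ⟨j3, j4⟩) d0 (mem_filter.2 ⟨j1, j2⟩)]
      ring
    · exact ⟨0, fun d j3 j4 => absurd ⟨d, j3, j4⟩ j⟩
  refine ⟨fun d => if d ∈ X ∨ α d ∈ X then c1 d else c2 d + t, fun d => ?_, fun d hd => ?_⟩
  · simp only [g.inv, a1, a2, or_comm]
  by_cases j : d ∈ X
  · refine (b1 d j).shift 0 fun x ex => ?_
    rw [if_pos (Or.inl (hX'.2 d j x (mem_univ _) ex)), add_zero]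
  · refine (b2 d (mem_sdiff.2 ⟨hd, j⟩)).shift t fun x ex => ?_
    have hx := hY.2 d (mem_sdiff.2 ⟨hd, j⟩) x (mem_univ _) ex
    split_ifs with j'
    · rw [← a1, ← a2 x]
      exact ht _ (j'.resolve_left (mem_sdiff.1 hx).2) (by rwa [g.inv])
    · rfl

end COL

theorem final_of_base {V E : Type*} [Fintype V] [Fintype E] [DecidableEq V] [DecidableEq E]
    (H : ∀ (v : E × Bool → V) (α : E × Bool → E × Bool), Gr v α → BaseFS v α)
    (ends : E → Sym2 V) (side : V → Prop)
    (hb : ∀ e, ∃ x y, ends e = s(x, y) ∧ side x ∧ ¬ side y) (hd : ∀ w, mdeg ends w ≤ 4)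
    (hi : ∀ e x y, ends e = s(x, y) →
      ¬ ((mdeg ends x = 2 ∨ mdeg ends x = 3) ∧ (mdeg ends y = 2 ∨ mdeg ends y = 3))) :
    ∃ c, IsIntervalColoring ends c := by
  classical
  choose x y hxy hx hy using hb
  let v : E × Bool → V := fun d => if d.2 then x d.1 else y d.1
  let α : E × Bool → E × Bool := fun d => (d.1, !d.2)
  have sd : ∀ d, side (v d) ↔ d.2 = true := by
    rintro ⟨e, _ | _⟩ <;> simp [v, hx, hy]
  have sd' : ∀ d d', v d' = v d → d'.2 = d.2 := fun d d' e => by
    rw [Bool.eq_iff_iff, ← sd, ← sd, e]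
  have mem : ∀ w e, w ∈ ends e ↔ ∃ b, v (e, b) = w := fun w e => by
    rw [hxy, Sym2.mem_iff]
    simp only [v, Bool.exists_bool, Bool.false_eq_true, if_false, if_true]
    exact ⟨fun h => h.symm.imp Eq.symm Eq.symm, fun h => h.symm.imp Eq.symm Eq.symm⟩
  have mem' : ∀ d e, v d ∈ ends e ↔ v (e, d.2) = v d := fun d e => by
    rw [mem]
    exact ⟨fun ⟨b, hb⟩ => by rwa [← sd' _ _ hb], fun h => ⟨_, h⟩⟩
  have dg : ∀ d, deg v d = mdeg ends (v d) := fun d => by
    refine card_nbij' Prod.fst (fun e => (e, d.2)) (fun z hz => ?_) (fun e he => ?_)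
      (fun z hz => ?_) fun e _ => rfl
    · simp only [coe_filter, mem_univ, true_and, Set.mem_ofPred_eq, mem]
      exact ⟨z.2, (mem_fib.1 hz).2⟩
    · exact mem_fib.2 ⟨mem_univ _, (mem' d e).1 (mem_filter.1 he).2⟩
    · exact Prod.ext rfl (sd' _ _ (mem_fib.1 hz).2).symm
  have g : Gr v α := by
    refine ⟨fun d => by simp [α], fun d e => by simpa [α] using sd' _ _ e,
      ⟨Prod.snd, sd', fun d => by simp [α]⟩, fun d => dg d ▸ hd _, ?_⟩
    rintro ⟨e, _ | _⟩ h1 h2 <;> rw [dg] at h1 h2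
    · exact hi e _ _ (hxy e) ⟨h2, h1⟩
    · exact hi e _ _ (hxy e) ⟨h1, h2⟩
  obtain ⟨c, c1, c2⟩ := COL.col_all g (H v α g) univ ⟨subset_rfl, fun _ _ _ h _ => h⟩
  have c3 : ∀ e b, c (e, b) = c (e, true) := by
    rintro e (_ | _)
    exacts [c1 (e, true), rfl]
  obtain ⟨M, hM⟩ := Finite.bddBelow_range c
  have hM' : ∀ d, M ≤ c d := fun d => hM ⟨d, rfl⟩
  refine ⟨fun e => (c (e, true) - M + 1).toNat, fun e => by have := hM' (e, true); beta_reduce; omega,
    fun w => ?_⟩
  by_cases k : ∃ d, v d = w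
  swap
  · have : ∀ e, w ∉ ends e := fun e he => k ⟨_, ((mem w e).1 he).choose_spec⟩
    exact ⟨fun e he => absurd he (this e), 0, by simp [this, mdeg]⟩
  obtain ⟨d, rfl⟩ := k
  obtain ⟨a, ha⟩ := c2 d (mem_univ _)
  have inj : Set.InjOn (fun e => (c (e, true) - M + 1).toNat) {e | v d ∈ ends e} :=
    fun e he e' he' j => by
      have j1 := hM' (e, true)
      have j2 := hM' (e', true)
      refine congrArg Prod.fst ((ha _ ((mem' d e).1 he)).2 _ ((mem' d e').1 he') ?_)
      rw [c3 e, c3 e']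
      simp only at j
      omega
  refine ⟨inj, (a - M + 1).toNat, ?_⟩
  have e1 : {e | v d ∈ ends e} = ((univ.filter fun e => v d ∈ ends e : Finset E) : Set E) := by simp
  rw [e1] at inj ⊢
  rw [← coe_image, ← coe_Ico, coe_inj]
  refine eq_of_subset_of_card_le (fun n hn => ?_) ?_
  · obtain ⟨e, he, rfl⟩ := mem_image.1 hn
    have j1 := (ha _ ((mem' d e).1 (mem_filter.1 he).2)).1
    have j2 := hM' (e, true)
    rw [c3 e, dg] at j1
    rw [mem_Ico]
    omega
  · rw [card_image_of_injOn inj, Nat.card_Ico, add_tsub_cancel_left, mdeg]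

end Pool.Agent.Lib.IC34
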