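import Pool.Agent.Lib.MP_fb9257_co.StepT

/-! The induction for 3-edge-connected cubic nets. -/

set_option linter.unusedSectionVars false

namespace Pool.Agent.Lib.IC34
open Finset

variable {D V : Type*} [DecidableEq D] [DecidableEq V]
variable {v : D → V} {S X Y Z P Q P' Q' U : Finset D} {α α' : D → D} {σ σ' τ τ' τ1 τ2 : D → Z2}
  {a b d e f g f2 g2 w w' k d1 d2 d3 : D} {W W' : D → Prop} {r : D → Z2} {p : D → Prop} {n : ℕ}
  {l m x y : Z2} {q1 q2 q3 s1 s2 s3 : Bool}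

lemma Mid.t1_th (M : Models v) (h : Mid v S α P Q e f g f2 g2) (pt : Part4 v S P Q P' Q')
    (b3 : bd α P' = {w, α f, α f2}) (b4 : bd α Q' = {α w, α g, α g2}) (v3 : IsV v P' w (α f) (α f2))
    (v4 : IsV v Q' (α w) (α g) (α g2)) (hw : w ∈ S \ (P ∪ Q)) (hw' : α w ∈ S \ (P ∪ Q))
    (th : IsTH v (S \ (P ∪ Q)) (mα α f g f2 g2)) (sP : Side v P α σ e f g)
    (sQ : Side v Q α σ (α e) f2 g2) : TT v S α σ w e ∨ Exc1 v S α (fl σ w 1) w e := by
  obtain ⟨⟨a1, a2, a3, a4⟩, ⟨a5, a6, a7, a8⟩, -⟩ := h.wne hw hw'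
  obtain ⟨n1, n2, n3, n4, n5, n6⟩ := h.nes
  have key : ∀ (x l x' l' y : Z2) (q2 q3 s2 s3 t2 t3 u2 u3 : Bool), S0 v P α σ e f g x l q2 q3 →
      S0 v Q α σ (α e) f2 g2 x' l' s2 s3 →
      Vt (y + σ w) (1 + σ (α f)) (x + x' + σ (α f2)) true t2 t3 = true →
      Vt (1 + y + σ (α w)) (l + σ (α g)) (l' + 1 + x + x' + σ (α g2)) true u2 u3 = true →
      ((q2 && t2) = false ∧ (q3 && u2) = false ∧ (s2 && t3) = false ∧ (s3 && u3) = false) →
      TT v S α σ w e := fun x l x' l' y q2 q3 s2 s3 t2 t3 u2 u3 st st' k1 k2 k3 => by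
    obtain ⟨r, p, s, v1, v2, -⟩ := glueK4 (W := (· = w)) h.net pt h.bP h.bQ b3 b4 st
      (st'.fit (1 + x + x') (a3 := l' + x + x') (by grind)) (v3.st b3 a1 a3 n2 k1)
      (v4.st b4 a6 a8 n5 k2) ⟨by grind, by simp⟩ ⟨by grind, by grind⟩ ⟨by grind, by grind⟩
      ⟨by grind, by grind⟩ ⟨by grind, by grind⟩ ⟨by grind, by simp⟩
    exact ⟨r, p, s, by simpa using v1.2.1, by simpa using v2.2.1⟩
  by_cases c1 : Lam v P α σ e f g (σ w + σ (α w) + σ (α f) + σ (α g))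
  · obtain ⟨-, x, st⟩ := c1
    obtain ⟨l', A⟩ := sQ.aa
    refine Or.inl (key x _ (x + σ (α f2) + 1 + σ (α f)) l' (σ (α f) + σ w) _ _ _ _ false false true false
      st (A _) (by grind [Vt]) ?_ (by simp))
    generalize σ (α f) = x1, σ w = x2, σ (α w) = x3, σ (α g) = x4, σ (α f2) = x5, σ (α g2) = x6, x = x7
    clear A; revert x1 x2 x3 x4 x5 x6 x7 l'; decide +kernel
  by_cases c2 : Lam v Q α σ (α e) f2 g2 (σ w + σ (α w) + σ (α f2) + σ (α g2))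
  · obtain ⟨-, x, st⟩ := c2
    obtain ⟨l', A⟩ := sP.aa
    refine Or.inl (key (x + σ (α f2) + 1 + σ (α f)) l' x _ (σ (α f) + σ w) _ _ _ _ false false false true
      (A _) st (by grind [Vt]) ?_ (by simp))
    generalize σ (α f) = x1, σ w = x2, σ (α w) = x3, σ (α g) = x4, σ (α f2) = x5, σ (α g2) = x6, x = x7
    clear A; revert x1 x2 x3 x4 x5 x6 x7 l'; decide +kernel
  have o1 : ∀ x x' l l', S0 v P α σ e f g x l true false → S0 v Q α σ (α e) f2 g2 x' l' false true →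
      l = σ w + σ (α w) + σ (α f) + σ (α g) + 1 → l' = σ w + σ (α w) + σ (α f2) + σ (α g2) + 1 →
      x + x' = σ (α f) + σ (α f2) → TT v S α σ w e := fun x x' l l' st st' k1 k2 k3 =>
    key x l x' l' (1 + σ (α f) + σ w) _ _ _ _ false true true false st st' (by grind [Vt])
      (by grind [Vt]) (by simp)
  have o2 : ∀ x x' l l', S0 v P α σ e f g x l false true → S0 v Q α σ (α e) f2 g2 x' l' true false →
      l = σ w + σ (α w) + σ (α f) + σ (α g) + 1 → l' = σ w + σ (α w) + σ (α f2) + σ (α g2) + 1 →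
      x + x' = σ (α f) + σ (α f2) → TT v S α σ w e := fun x x' l l' st st' k1 k2 k3 =>
    key x l x' l' (σ (α f) + σ w) _ _ _ _ true false false true st st' (by grind [Vt])
      (by grind [Vt]) (by simp)
  rcases sP.bad _ c1 with ⟨vP, k1⟩ | ⟨A1, B1, -⟩ <;> rcases sQ.bad _ c2 with ⟨vQ, k2⟩ | ⟨A2, B2, -⟩
  · obtain ⟨x1, x2, -⟩ := vP.s0 (σ := σ) h.bP h.ef h.eg h.fg
    obtain ⟨y1, y2, -⟩ := vQ.s0 (σ := σ) h.bQ h.ef2 h.eg2 h.fg2
    rcases z2_or (σ e + σ f + (σ (α e) + σ f2)) (σ (α f) + σ (α f2)) with c | c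
    swap
    · exact Or.inl (o1 _ _ _ _ x2 y1 (by grind) (by grind) (by grind))
    right
    obtain ⟨m1, m2, m3, m4, m5, m6⟩ := h.mems
    obtain ⟨⟨m7, -⟩, ⟨m8, -⟩, ⟨m9, -⟩, -⟩ := bd_mem3 b3
    obtain ⟨⟨m10, -⟩, ⟨m11, -⟩, ⟨m12, -⟩, -⟩ := bd_mem3 b4
    obtain ⟨τ, F1, F2, F3, F4⟩ := pt.pw (fun _ => σ f + σ (α f) + 0) (fun _ => σ f2 + σ (α f2) + 0)
      (fun _ => 0 + 0) (fun _ => σ f + σ (α f) + σ g + σ (α g) + 0)
    have wP : ∀ d ∈ P, d ≠ w ∧ v w ≠ v d ∧ v (α w) ≠ v d := fun d hd => by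
      have := h.cP.2 d hd w (mem_sdiff.1 hw).1; have := h.cP.2 d hd _ (mem_sdiff.1 hw').1
      simp only [mem_sdiff, mem_union] at hw hw'; grind
    have wQ : ∀ d ∈ Q, d ≠ w ∧ v w ≠ v d ∧ v (α w) ≠ v d := fun d hd => by
      have := h.cQ.2 d hd w (mem_sdiff.1 hw).1; have := h.cQ.2 d hd _ (mem_sdiff.1 hw').1
      simp only [mem_sdiff, mem_union] at hw hw'; grind
    refine ⟨⟨τ, frame4 h.net pt h.bP h.bQ b3 b4 ((vP.frame h.bP _).shift 0 F1)
      ((vQ.frame h.bQ _).shift 0 F2) ((v3.frame b3 _).shift 0 F3) ((v4.frame b4 _).shift 0 F4) ?_⟩,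
      Or.inr ⟨?_, (mem_sdiff.1 hw).1, h.cP.1 m1, (wP _ m1).2.1, (wQ _ m4).2.1, (wP _ m1).2.2,
        (wQ _ m4).2.2⟩⟩
    · have := F1 _ m1; have := F1 _ m2; have := F1 _ m3; have := F2 _ m4; have := F2 _ m5
      have := F2 _ m6; have := F3 _ m7; have := F3 _ m8; have := F3 _ m9; have := F4 _ m10
      have := F4 _ m11; have := F4 _ m12
      have := (wP _ m1).1; have := (wP _ m2).1; have := (wP _ m3).1; have := (wQ _ m4).1
      have := (wQ _ m5).1; have := (wQ _ m6).1; have := h.net.ne w (mem_sdiff.1 hw).1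
      clear F1 F2 F3 F4 wP wQ key o1 o2
      rintro d (rfl | rfl | rfl | rfl | rfl | rfl) <;> grind [fl]
    · obtain ⟨rfl, z1, z2⟩ := vP
      obtain ⟨rfl, z3, z4⟩ := vQ
      exact M.k4 S α e f g f2 g2 h z1 z2 z3 z4 th
  · obtain ⟨x1, x2, -⟩ := vP.s0 (σ := σ) h.bP h.ef h.eg h.fg
    rcases B2 (σ (α f) + σ (α f2) + σ e + σ f + 1) with y | y
    · exact Or.inl (o1 _ _ _ _ x2 y (by grind) rfl (by grind))
    · exact Or.inl (o2 _ _ _ _ x1 y (by grind) rfl (by grind))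
  · obtain ⟨y1, y2, -⟩ := vQ.s0 (σ := σ) h.bQ h.ef2 h.eg2 h.fg2
    rcases B1 (σ (α f) + σ (α f2) + σ (α e) + σ f2 + 1) with x | x
    · exact Or.inl (o2 _ _ _ _ x y2 rfl (by grind) (by grind))
    · exact Or.inl (o1 _ _ _ _ x y1 rfl (by grind) (by grind))
  · exact Or.inl (key 0 _ (σ (α f2) + 1 + σ (α f)) _ (σ (α f) + σ w) _ _ _ _ false false false false
      (A1 _) (A2 _) (by grind [Vt]) (by grind [Vt]) (by simp))

/-- the middle net has six darts -/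
lemma Mid.t1_six (M : Models v) (ih : IH v n) (hS : S.card ≤ n + 1) (h : Mid v S α P Q e f g f2 g2)
    (hw : w ∈ S \ (P ∪ Q)) (hw' : α w ∈ S \ (P ∪ Q))
    (c3 : Conn v 3 (S \ (P ∪ Q)) (mα α f g f2 g2)) (c6 : (S \ (P ∪ Q)).card = 6) :
    TT v S α σ w e ∨ Exc1 v S α (fl σ w 1) w e := by
  have ch := h.chain
  have th := M.th _ _ ch.net ch.cub c3 c6
  obtain ⟨x, y, vZ, bZ, n1, n2, n3⟩ := vertex ch.cub c3 hw fun k => by
    have := ch.cub w hw; rw [k] at this; omega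
  have cZ : Closed v (S \ (P ∪ Q)) (fib v (S \ (P ∪ Q)) w) := closed_fib w
  have c3Z := ch.cub w hw
  generalize fib v (S \ (P ∪ Q)) w = Z at *
  have key : ∀ f g f2 g2, Mid v S α P Q e f g f2 g2 → IsTH v (S \ (P ∪ Q)) (mα α f g f2 g2) →
      bd (mα α f g f2 g2) Z = {w, x, y} → α f ∈ Z → α f2 ∈ Z →
      TT v S α σ w e ∨ Exc1 v S α (fl σ w 1) w e := by
    intro f g f2 g2 h th bZ m1 m2
    obtain ⟨⟨a1, a2, a3, a4⟩, ⟨a5, a6, a7, a8⟩, a9⟩ := h.wne hw hw'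
    obtain ⟨n1, n2, n3, n4, n5, n6⟩ := h.nes
    have wZ : w ∈ Z := (bd_mem3 bZ).1.1
    have hZ : Z = {w, α f, α f2} := (eq_of_subset_of_card_le (by simp [insert_subset_iff, *])
      (by rw [c3Z, card_eq_three.2 ⟨_, _, _, a1, a3, n2, rfl⟩])).symm
    have bZ' : bd (mα α f g f2 g2) Z = {w, α f, α f2} := by rw [bZ, ← vZ.1, ← hZ]
    obtain ⟨-, ⟨-, m3⟩, ⟨-, m4⟩, -⟩ := bd_mem3 bZ'
    rw [h.m1] at m3
    rw [Mid.m3] at m4
    have b4 := h.mnet.bd_compl3 cZ.1 bZ'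
    rw [h.m1, Mid.m3, a9] at b4
    have k : ∀ d ∈ Z, v d = v w := by
      have := vZ.2; rw [vZ.1]; simp only [mem_insert, mem_singleton]; grind
    obtain ⟨⟨m5, -⟩, ⟨m6, -⟩, ⟨m7, -⟩, -⟩ := bd_mem3 b4
    have cc : ((S \ (P ∪ Q)) \ Z).card = 3 := by have := card_sdiff_add_card_eq_card cZ.1; omega
    have k' : fib v ((S \ (P ∪ Q)) \ Z) (α w) = (S \ (P ∪ Q)) \ Z :=
      eq_of_subset_of_card_le (filter_subset _ _) (by rw [cc, (h.cub.sub h.cM).sub cZ.compl _ m5])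
    refine h.t1_th M (h.part4 cZ) (by rw [h.bd_loc cZ.1 (by tauto) (by tauto), bZ'])
      (by rw [h.bd_loc sdiff_subset (by simp [m1]) (by simp [m2]), b4]) ⟨hZ, k _ m1, k _ m2⟩
      ⟨(eq_of_subset_of_card_le (b4 ▸ filter_subset _ _) (by
        rw [cc, card_eq_three.2 ⟨_, _, _, a6, a8, n5, rfl⟩])).symm, (mem_fib.1 (k' ▸ m6)).2,
        (mem_fib.1 (k' ▸ m7)).2⟩ hw hw' th
      (IC34.side M ih hS h.net h.cub h.conn h.cP h.bP h.ef h.eg h.fg)
      (IC34.side M ih hS h.net h.cub h.conn h.cQ h.bQ h.ef2 h.eg2 h.fg2)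
  have half : ∀ d ∈ S \ (P ∪ Q), d ∈ Z ∨ mα α f g f2 g2 d ∈ Z := fun d hd => by
    by_contra c
    push Not at c
    have b4 := h.mnet.bd_compl3 cZ.1 bZ
    have cc : ((S \ (P ∪ Q)) \ Z).card = 3 := by have := card_sdiff_add_card_eq_card cZ.1; omega
    have : bd (mα α f g f2 g2) ((S \ (P ∪ Q)) \ Z) = (S \ (P ∪ Q)) \ Z :=
      eq_of_subset_of_card_le (filter_subset _ _) (by
        rw [cc, h.mnet.card_bd_compl cZ.1, bZ, card_eq_three.2 ⟨_, _, _, n1, n2, n3, rfl⟩])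
    have hd' : d ∈ bd (mα α f g f2 g2) ((S \ (P ∪ Q)) \ Z) := this.symm ▸ mem_sdiff.2 ⟨hd, c.1⟩
    exact (mem_bd.1 hd').2 (mem_sdiff.2 ⟨h.mnet.mem d hd, c.2⟩)
  have h1 := half _ h.out1
  have h2 := half _ h.out3
  rw [h.m1] at h1
  rw [Mid.m3] at h2
  rcases h1 with h1 | h1 <;> rcases h2 with h2 | h2
  · exact key _ _ _ _ h th bZ h1 h2
  · exact key _ _ _ _ h.swap2 (by rwa [Mid.mα_swap2]) (by rwa [Mid.mα_swap2]) h1 h2
  · exact key _ _ _ _ h.swap (by rwa [Mid.mα_swap]) (by rwa [Mid.mα_swap]) h1 h2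
  · exact key _ _ _ _ h.swap.swap2 (by rwa [Mid.mα_swap2, Mid.mα_swap])
      (by rwa [Mid.mα_swap2, Mid.mα_swap]) h1 h2

theorem Mid.caseB (M : Models v) (ih : IH v n) (hS : S.card ≤ n + 1)
    (h : Mid v S α P Q e f g f2 g2) (hw : w ∈ S \ (P ∪ Q)) (hw' : α w ∈ S \ (P ∪ Q))
    (c3 : Conn v 3 (S \ (P ∪ Q)) (mα α f g f2 g2)) : T1c v S α σ w e := by
  by_cases c6 : (S \ (P ∪ Q)).card = 6
  · exact (h.t1_six M ih hS hw hw' c3 c6).imp id Or.inl
  by_cases nt : TT v S α σ w e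
  · exact Or.inl nt
  have ch := h.chain
  have G := (ih _ _ ch.net ch.cub c3 (by have := h.card_lt; omega)).2
  obtain ⟨⟨a1, a2, a3, a4⟩, ⟨a5, a6, a7, a8⟩, a9⟩ := h.wne hw hw'
  obtain ⟨n1, n2, n3, n4, n5, n6⟩ := h.nes
  have sP := IC34.side (σ := σ) M ih hS h.net h.cub h.conn h.cP h.bP h.ef h.eg h.fg
  have sQ := IC34.side (σ := σ) M ih hS h.net h.cub h.conn h.cQ h.bQ h.ef2 h.eg2 h.fg2
  have B := fun σ x y x' y' => bal_fl (v := v) (σ := σ) (x := x) (y := y) (x' := x') (y' := y')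
    ch.net c3 ch.ha ch.hb ch.ba ch.ba'
  have K : ∀ l m l' m', Lam v P α σ e f g l → AA v Q α σ (α e) f2 g2 m → AA v P α σ e f g l' →
      Lam v Q α σ (α e) f2 g2 m' → Exc3 v (S \ (P ∪ Q)) (mα α f g f2 g2) (mσ α σ f f2 l m) w (α f2) ∧
        l = l' + 1 ∧ m' = m + 1 := by
    intro l m l' m' L1 A2 A1 L2
    have t1 := fun t => nt (h.tt1 hw' t L1 A2)
    have t2 := fun t => nt (h.tt2 hw' t A1 L2)
    have T1 := (G _ w hw _ ch.hb a3.symm (a9 ▸ a7.symm)).resolve_left t1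
    have T2 := (G _ w hw _ ch.ha a1.symm (a9 ▸ a5.symm)).resolve_left t2
    have e1 : ∀ {σ a}, Exc1 v (S \ (P ∪ Q)) (mα α f g f2 g2) σ w a →
        K4d v (S \ (P ∪ Q)) (mα α f g f2 g2) w a ∧ (S \ (P ∪ Q)).card = 12 := fun t =>
      have k := t.2.resolve_left fun k => c6 (M.cardTH _ _ k)
      ⟨k, M.cardK4 _ _ k.1⟩
    rcases T1 with t | ⟨t, -⟩ | t | t <;> rcases T2 with t' | ⟨t', -⟩ | t' | t'
    any_goals contradiction
    · refine absurd ?_ t2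
      have := M.other _ _ _ _ _ (α f) t'.1 (e1 t).1 ch.ha a1.symm (a9 ▸ a5.symm) n2
        (by rw [Mid.m3]; exact n3)
      exact this.sg (by grind [fl])
    · have := (e1 t).2; have := t'.card; omega
    · have := (e1 t).2; have := t'.card; omega
    · have := (e1 t').2; have := t.card; omega
    · refine ⟨t, ?_⟩
      have := B σ l (m + 1) (l' + 1) m' (by convert t.bal using 1; funext d; unfold mσ; grind [fl])
        (by convert t'.bal using 1; funext d; unfold mσ; grind [fl])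
      exact ⟨this.1, this.2.symm⟩
    · have := t'.card; have := t.card; omega
    · have := (e1 t').2; have := t.card; omega
    · have := t'.card; have := t.card; omega
    · obtain ⟨rfl, rfl⟩ := B (fl σ w 1) l m l' m'
        (by convert t.bal using 1; funext d; unfold mσ; grind [fl])
        (by convert t'.bal using 1; funext d; unfold mσ; grind [fl])
      exact absurd (t.other ch.net hw ch.ha n2 (by rw [Mid.m3]; exact n3) a1.symm (a9 ▸ a5.symm)) t2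
  obtain ⟨l, L1⟩ := sP.lam
  obtain ⟨l', A1⟩ := sP.aa
  obtain ⟨m', L2⟩ := sQ.lam
  obtain ⟨m, A2⟩ := sQ.aa
  obtain ⟨t, rfl, rfl⟩ := K _ _ _ _ L1 A2 A1 L2
  have z : ∀ x : Z2, x ≠ x + 1 := by decide
  obtain ⟨τ1, t1, e1⟩ : ∃ τ, Sp v P α σ τ e f g ∧ τ f + τ g = σ f + σ g + l' := by
    rcases sP.bad l' (fun c => z _ (K _ _ _ _ c A2 A1 L2).2.1) with ⟨vP, k⟩ | ⟨-, -, k | k⟩
    · have := (K _ _ _ _ L1 A2 (vP.s0 h.bP h.ef h.eg h.fg).2.2 L2).2.1; grind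
    · exact absurd (K _ _ _ _ L1 A2 k L2).2.1 (z _)
    · exact k
  obtain ⟨τ2, t2, e2⟩ : ∃ τ, Sp v Q α σ τ (α e) f2 g2 ∧ τ f2 + τ g2 = σ f2 + σ g2 + m := by
    rcases sQ.bad m (fun c => z _ (K _ _ _ _ L1 A2 A1 c).2.2) with ⟨vQ, k⟩ | ⟨-, -, k | k⟩
    · have := (K _ _ _ _ L1 (vQ.s0 h.bQ h.ef2 h.eg2 h.fg2).2.2 A1 L2).2.2; grind
    · exact absurd (K _ _ _ _ L1 k A1 L2).2.2 (z _)
    · exact k
  obtain ⟨τ, Z, w', k, F, hw2, K2, sw⟩ := t.k2s ch.net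
  obtain ⟨m1, m2, m3, m4⟩ := h.ms (σ := σ) (l' + 1) m
  have f1 := F.2 _ h.out1 (ch.net.mem _ h.out1)
  have f2' := F.2 _ h.out3 (ch.net.mem _ h.out3)
  rw [h.m1, fl_ne _ n2, fl_ne _ n4, m1, m2] at f1
  rw [Mid.m3, fl_self, fl_ne _ n6.symm, m3, m4] at f2'
  have i := h.net.inv w (mem_sdiff.1 hw).1
  rw [a9] at hw2
  have hi : w' ∈ S \ (P ∪ Q) ∧ α w' ∈ S \ (P ∪ Q) := by grind
  obtain ⟨⟨b1, b2, b3, b4⟩, ⟨b5, b6, b7, b8⟩, b9⟩ := h.wne hi.1 hi.2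
  obtain ⟨⟨p1, p2⟩, -, -, p3⟩ := K2.s1.mem
  rw [Mid.m3] at p2
  have sep : ¬ (α f ∈ Z ↔ α g ∈ Z) := fun c => nt (h.tt2 hw' (by
    obtain ⟨r, p, s, k⟩ := (K2.sg (σ' := fl (mσ α σ f f2 (l' + 1) m) (α f2) 1)
      fun d k _ _ _ => fl_ne _ k).other (W := (· = w)) (d := α f) (F.2 _ h.out3 (ch.net.mem _ h.out3))
      (F.2 _ hi.1 (ch.net.mem _ hi.1)) (by rw [b9]; grind) h.out1 (by rwa [h.m1])
    exact ⟨r, p, s.sg (by unfold mσ; grind [fl]), k⟩) A1 L2)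
  have s3 := h.sp_loc K2.cP.1 (by tauto) (by tauto) K2.s1
  have s4 := h.sp_loc sdiff_subset (by simp only [mem_sdiff]; tauto) (by simp [p1]) K2.s2
  rw [b9, mσ_ne _ _ b1 b3, mσ_ne _ _ b5 b7] at sw
  rw [Mid.m3, b9] at s4
  refine (?_ : TT v S α σ w e ∨ Exc4 v S α σ w e).imp id fun k => Or.inr (Or.inr (Or.inr k))
  by_cases c : α f ∈ Z
  · have : α f = k := by have := p3 _ c (by rw [h.m1]; tauto); grind
    subst this
    rw [h.m1] at s4
    exact h.t1_k4 (mem_sdiff.1 hw).1 hw2 K2.cP s3 s4 t1 t2 (by grind) (by grind) sw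
  · have : α g = k := by have := p3 (α g) (by tauto) (by rw [h.m2]; tauto); grind
    subst this
    rw [h.m2] at s4
    exact h.swap.t1_k4 (mem_sdiff.1 hw).1 hw2 K2.cP s3 s4 t1.sw23 t2 (by grind) (by grind) sw

theorem stepT (M : Models v) (ih : IH v n) (hS : S.card ≤ n + 1) (h6 : 6 < S.card) (hn : GNet S α)
    (hc : Cub v S) (h3 : Conn v 3 S α) (hw : w ∈ S) (he : e ∈ S) (n1 : e ≠ w) (n2 : e ≠ α w) :
    T1c v S α σ w e := by
  have iw := hn.inv w hw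
  have ie := hn.inv e he
  by_cases cA : ∃ P w' k, Closed v S P ∧ bd α P = {e, w', k} ∧ e ≠ w' ∧ e ≠ k ∧ w' ≠ k ∧
      (w' = w ∨ w' = α w)
  · obtain ⟨P, w', k, hP, hb, k1, k2, k3, k4⟩ := cA
    obtain ⟨⟨p1, -⟩, ⟨p2, -⟩, ⟨p3, -⟩, -⟩ := bd_mem3 hb
    exact (caseA hn h6 hP hb k1 k2 k3 hw k4 (side M ih hS hn hc h3 hP hb k1 k2 k3)
      (side M ih hS hn hc h3 hP.compl (hn.bd_compl3 hP.1 hb) (hn.ne_of he (hP.1 p2) k1)
        (hn.ne_of he (hP.1 p3) k2) (hn.ne_of (hP.1 p2) (hP.1 p3) k3))).imp id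
      fun k => Or.inr (Or.inr (Or.inl k))
  -- a three-cut through `e` never separates the two darts of `w`
  have nA : ∀ P f g, Closed v S P → bd α P = {e, f, g} → e ≠ f → e ≠ g → f ≠ g →
      (w ∈ P ↔ α w ∈ P) := fun P f g hP hb k1 k2 k3 => by
    have key : ∀ w', (w' = w ∨ w' = α w) → w' ∈ P → α w' ∈ P := fun w' k4 k5 => by
      by_contra k6
      rcases (bd_mem3 hb).2.2.2 w' k5 k6 with rfl | rfl | rfl
      · tauto
      · exact cA ⟨P, w', g, hP, hb, k1, k2, k3, k4⟩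
      · exact cA ⟨P, w', f, hP, by rw [hb, pair_comm], k2, k1, k3.symm, k4⟩
    exact ⟨key w (Or.inl rfl), fun k => iw ▸ key _ (Or.inr rfl) k⟩
  have nA' : ∀ P f g, Closed v S P → bd α P = {α e, f, g} → α e ≠ f → α e ≠ g → f ≠ g →
      (w ∈ P ↔ α w ∈ P) := fun P f g hP hb k1 k2 k3 => by
    obtain ⟨⟨p1, -⟩, ⟨p2, -⟩, ⟨p3, -⟩, -⟩ := bd_mem3 hb
    have := nA _ _ _ hP.compl (by rw [hn.bd_compl3 hP.1 hb, ie])
      (ie ▸ hn.ne_of (hP.1 p1) (hP.1 p2) k1) (ie ▸ hn.ne_of (hP.1 p1) (hP.1 p3) k2)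
      (hn.ne_of (hP.1 p2) (hP.1 p3) k3)
    simp only [mem_sdiff, hw, hn.mem w hw, true_and] at this; tauto
  obtain ⟨u1, u2, v1, v2, h0, hU, hV⟩ := mid_vertices hn hc h3 h6 he
  have wU : w ∉ fib v S e := fun k => by
    have := (nA _ _ _ h0.cP h0.bP h0.ef h0.eg h0.fg).1 k
    rw [hU.1, ← h0.bP] at k; exact (mem_bd.1 k).2 this
  have wV : w ∉ fib v S (α e) := fun k => by
    have := (nA' _ _ _ h0.cQ h0.bQ h0.ef2 h0.eg2 h0.fg2).1 k
    rw [hV.1, ← h0.bQ] at k; exact (mem_bd.1 k).2 this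
  obtain ⟨P, ⟨wP, hP, f, g, bP, k1, k2, k3⟩, mP⟩ := exmax (S := S) (Pr := fun P => w ∉ P ∧ Closed v S P ∧
    ∃ f g, bd α P = {e, f, g} ∧ e ≠ f ∧ e ≠ g ∧ f ≠ g) (fun P k => k.2.1.1)
    ⟨wU, h0.cP, u1, u2, h0.bP, h0.ef, h0.eg, h0.fg⟩
  obtain ⟨Q, ⟨wQ, f2, g2, h⟩, mQ⟩ := exmax (S := S) (Pr := fun Q => w ∉ Q ∧
    ∃ f2 g2, Mid v S α P Q e f g f2 g2) (fun P ⟨_, _, _, k⟩ => k.cQ.1)
    ⟨wV, v1, v2, hn, hc, h3, hP, h0.cQ, disjoint_left.2 fun d h1 h2 => (bd_mem3 bP).1.2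
      (hP.2 d h1 _ (hn.mem e he) (mem_fib.1 h2).2.symm), bP, k1, k2, k3, h0.bQ, h0.ef2, h0.eg2, h0.fg2,
      w, by simp only [mem_sdiff, mem_union]; tauto⟩
  have wP' := mt (nA _ _ _ hP bP k1 k2 k3).2 wP
  have wQ' := mt (nA' _ _ _ h.cQ h.bQ h.ef2 h.eg2 h.fg2).2 wQ
  have wB : w ∈ S \ (P ∪ Q) := by simp [*]
  refine h.caseB M ih hS wB (by simp [hn.mem w hw, *]) (h.chain.cut.resolve_right ?_)
  rintro ⟨X, x, y, c1, c2, -, c3, c4, c5, c6⟩
  rw [h.m1] at c4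
  rw [Mid.m3] at c6
  by_cases c : w ∈ X
  · obtain ⟨x', y', -, k⟩ := h.symm.grow (Z := (S \ (P ∪ Q)) \ X) (by rw [union_comm]; exact c1.compl)
      (by simp only [mem_sdiff (s := S \ (P ∪ Q)), h.out3, c5, not_false_iff, and_self])
      (by simp only [mem_sdiff (s := S \ (P ∪ Q)), h.out4, c6, not_false_iff, and_self])
      (by simp [c3]) (by simp [c4])
      (by rw [h.mα_symm, h.mnet.card_bd_compl c1.1, c2]; exact card_le_two)
    have k' := k.symm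
    rw [ie] at k'
    have := mQ _ ⟨by simp [wQ, c], _, _, k'⟩
    have := h.symm.card_grow (Z := (S \ (P ∪ Q)) \ X)
      (by simp only [mem_sdiff (s := S \ (P ∪ Q)), h.out3, c5, not_false_iff, and_self])
    omega
  · obtain ⟨x', y', -, k⟩ := h.grow c1 c3 c4 c5 c6 (by rw [c2]; exact card_le_two)
    have := mP _ ⟨by simp [wP, c], k.cP, x', y', k.bP, k.ef, k.eg, k.fg⟩
    have := h.card_grow c3; omega

theorem ih_all (M : Models v) : ∀ n, IH v n := by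
  intro n
  induction n with
  | zero =>
    intro S α _ _ _ h
    obtain rfl := card_eq_zero.1 (Nat.le_zero.1 h)
    exact ⟨by simp, by simp⟩
  | succ n ih =>
    intro S α hn hc h3 hS
    rcases lt_trichotomy S.card 6 with c | c | c
    · rcases S.eq_empty_or_nonempty with rfl | ⟨e, he⟩
      · exact ⟨by simp, by simp⟩
      exfalso
      by_cases k : fib v S e = S
      · have c3 := hc e he
        rw [k] at c3
        obtain ⟨x, hx, hx'⟩ : ∃ x ∈ S, x ∉ ({e, α e} : Finset D) :=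
          exists_mem_notMem_of_card_lt_card (by have := card_le_two (a := e) (b := α e); omega)
        simp only [mem_insert, mem_singleton, not_or] at hx'
        have i1 := hn.inv e he; have i2 := hn.inv x hx
        have n1 := hn.ne e he; have n2 := hn.ne x hx
        have : ({e, α e, x, α x} : Finset D).card = 4 := by
          rw [card_insert_of_notMem, card_insert_of_notMem, card_pair] <;> grind
        have := card_le_card (show ({e, α e, x, α x} : Finset D) ⊆ S by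
          simp [insert_subset_iff, he, hx, hn.mem e he, hn.mem x hx])
        omega
      · have k1 := h3 _ (closed_fib e) ⟨e, by simp [he]⟩ k
        rw [← hn.card_bd_compl (closed_fib (v := v) e).1] at k1
        have := card_le_card (show bd α (S \ fib v S e) ⊆ S \ fib v S e from filter_subset _ _)
        have := card_sdiff_add_card_eq_card (closed_fib (v := v) (S := S) e).1
        have := hc e he; omega
    · exact M.goodTH S α (M.th S α hn hc h3 c)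
    · exact ⟨fun σ t ht => stepN M ih hS c hn hc h3 ht,
        fun σ w hw e he n1 n2 => stepT M ih hS c hn hc h3 hw he n1 n2⟩

theorem coreN (M : Models v) : CoreN v := fun S α σ t hn hc h3 ht =>
  ((ih_all M _ S α hn hc h3 le_rfl).1 σ t ht).imp id fun k => k.1

theorem coreT (M : Models v) : CoreT v := fun S α σ w e hn hc h3 hw he n1 n2 hb => by
  have B := fun x y k => bal_fl (σ := σ) (x := 0) (y := 0) (x' := x) (y' := y) hn h3 hw he n1 n2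
    (by simpa using hb) k
  rcases ((ih_all M _ S α hn hc h3 le_rfl).2 σ w hw e he n1 n2).bal with t | t | ⟨-, t⟩ | ⟨-, t⟩
  · exact t
  all_goals exact absurd (B _ _ t) (by decide)

theorem coreG (M : Models v) : CoreG v := fun S α σ a hn hc h2 ha => by
  obtain ⟨⟨l, k⟩, k'⟩ := gnd M (ih_all M S.card) S.card S α a le_rfl le_rfl hn hc h2 ha σ
  exact ⟨exl' (P := fun σ => NDb v S α σ a) k, k'⟩

end Pool.Agent.Lib.IC34
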