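import Pool.Agent.Lib.MP_fb9257_co.Blue

/-! Definitions for the cubic core: small models, special poles, exceptional configurations. -/

set_option linter.unusedSectionVars false

namespace Pool.Agent.Lib.IC34
open Finset

variable {D V : Type*} [DecidableEq D] [DecidableEq V]

/-- admissible values at the third dart of a vertex inserted on the edge of `a` -/
def Opt (α : D → D) (r : D → Z2) (p : D → Prop) (a : D) (c : Z2) : Prop :=
  (¬ p a ∧ c = r a) ∨ (¬ p (α a) ∧ c = r a + 1)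

def PV (v : D → V) (S : Finset D) (α : D → D) (σ : D → Z2) (a b : D) (s : Z2) : Prop :=
  ∃ r p, Sol v S α σ W0 r p ∧ ∃ c c', Opt α r p a c ∧ Opt α r p b c' ∧ c + c' = s

def PV2 (v : D → V) (S : Finset D) (α : D → D) (σ : D → Z2) (a b : D) : Prop :=
  ∃ q, (∃ r p, Sol v S α σ W0 r p ∧ ¬ p b ∧ Opt α r p a (r b + q)) ∧
    (∃ r p, Sol v S α σ W0 r p ∧ ¬ p (α b) ∧ Opt α r p a (r b + q + 1))

/-- `X` is a copy of the model with darts `0, …, m-1`, vertices `i / 3`, edge map `a0`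
(fixed points of `a0` are the darts leaving `X`) -/
structure PIso (v : D → V) (m : ℕ) (a0 : ℕ → ℕ) (φ : ℕ → D) (X : Finset D) (α : D → D) :
    Prop where
  inj : ∀ i < m, ∀ j < m, φ i = φ j → i = j
  mem : ∀ d, d ∈ X ↔ ∃ i < m, φ i = d
  vtx : ∀ i < m, ∀ j < m, (v (φ i) = v (φ j) ↔ i / 3 = j / 3)
  inn : ∀ i < m, a0 i ≠ i → α (φ i) = φ (a0 i)
  out : ∀ i < m, a0 i = i → α (φ i) ∉ X

def aTH (i : ℕ) : ℕ := (i + 3) % 6
def aK4 (i : ℕ) : ℕ := [3, 6, 9, 0, 7, 10, 1, 4, 11, 2, 5, 8].getD i i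
def aK33 (i : ℕ) : ℕ := if i < 9 then 9 + 3 * (i % 3) + i / 3 else 3 * (i % 3) + (i / 3 - 3)

def IsTH (v : D → V) (S : Finset D) (α : D → D) : Prop := ∃ φ, PIso v 6 aTH φ S α
def IsK4 (v : D → V) (S : Finset D) (α : D → D) : Prop := ∃ φ, PIso v 12 aK4 φ S α
def IsK33 (v : D → V) (S : Finset D) (α : D → D) : Prop := ∃ φ, PIso v 18 aK33 φ S α

/-- `S` is a `K₄` and the edges of `a` and `b` are disjoint -/
def K4d (v : D → V) (S : Finset D) (α : D → D) (a b : D) : Prop :=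
  IsK4 v S α ∧ a ∈ S ∧ b ∈ S ∧ v a ≠ v b ∧ v a ≠ v (α b) ∧ v (α a) ≠ v b ∧ v (α a) ≠ v (α b)

def Tight (v : D → V) (S : Finset D) (α : D → D) (σ : D → Z2) : Prop :=
  Bal v S α σ ∧ (IsTH v S α ∨ IsK4 v S α ∨ IsK33 v S α)

def Exc1 (v : D → V) (S : Finset D) (α : D → D) (σ : D → Z2) (a b : D) : Prop :=
  Bal v S α σ ∧ (IsTH v S α ∨ K4d v S α a b)

/-- a state of a three-pole in the frame `τ` -/
def St (v : D → V) (X : Finset D) (α : D → D) (σ τ : D → Z2) (R : (D → Prop) → Prop)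
    (d1 d2 d3 : D) (a1 a2 a3 : Z2) (q1 q2 q3 : Bool) : Prop :=
  ∃ r p, Sol v X α σ W0 r p ∧ R p ∧ r d1 + τ d1 = a1 ∧ r d2 + τ d2 = a2 ∧ r d3 + τ d3 = a3 ∧
    (p d1 → q1 = true) ∧ (p d2 → q2 = true) ∧ (p d3 → q3 = true)

def R0 : (D → Prop) → Prop := fun _ => True
def RN (α : D → D) (h : D) : (D → Prop) → Prop := fun p => ¬ p h ∧ ¬ p (α h)

/-- the table of the pole `K₂,₃` -/
def Kt (a1 a2 a3 : Z2) (q1 q2 q3 : Bool) : Bool :=
  if a1 = a2 then (if a2 = a3 then q1 || q2 || q3 else q3 && (q1 || q2))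
  else if a2 = a3 then q1 && (q2 || q3) else q2 && (q1 || q3)

/-- special poles (positive triangle, positive `K₂,₃`) -/
structure Sp (v : D → V) (X : Finset D) (α : D → D) (σ τ : D → Z2) (d1 d2 d3 : D) : Prop where
  bdy : bd α X = {d1, d2, d3}
  n12 : d1 ≠ d2
  n13 : d1 ≠ d3
  n23 : d2 ≠ d3
  card : 9 ≤ X.card ∧ X.card ≤ 15
  fr : Frame v X α σ τ
  tab : ∀ a1 a2 a3 q1 q2 q3, Kt a1 a2 a3 q1 q2 q3 = true → St v X α σ τ R0 d1 d2 d3 a1 a2 a3 q1 q2 q3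
  in0 : ∀ h ∈ X, α h ∈ X → ∃ a1 a2 a3 q1 q2 q3, Kt a1 a2 a3 q1 q2 q3 = true ∧
    ¬ (a1 = a2 ∧ a2 = a3) ∧ (q1 && q2 && q3) = false ∧
    St v X α σ τ (RN α h) d1 d2 d3 a1 a2 a3 q1 q2 q3
  in1 : ∀ h ∈ X, α h ∈ X → St v X α (fl σ h 1) τ (RN α h) d1 d2 d3 0 0 0 true true true ∨
    (St v X α (fl σ h 1) τ (RN α h) d1 d2 d3 1 0 0 true false false ∧
     St v X α (fl σ h 1) τ (RN α h) d1 d2 d3 0 1 0 false true false ∧
     St v X α (fl σ h 1) τ (RN α h) d1 d2 d3 0 0 1 false false true)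

def Exc3 (v : D → V) (S : Finset D) (α : D → D) (σ : D → Z2) (w e : D) : Prop :=
  ∃ τ P w' k, Frame v S α (fl σ e 1) τ ∧ (w' = w ∨ w' = α w) ∧ Closed v S P ∧
    Sp v P α σ τ e w' k ∧ Sp v (S \ P) α σ τ (α e) (α w') (α k)

structure Part4 (v : D → V) (S P Q P' Q' : Finset D) : Prop where
  c1 : Closed v S P
  c2 : Closed v S Q
  c3 : Closed v S P'
  c4 : Closed v S Q'
  d12 : Disjoint P Q
  d13 : Disjoint P P'
  d14 : Disjoint P Q'
  d23 : Disjoint Q P'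
  d24 : Disjoint Q Q'
  d34 : Disjoint P' Q'
  un : P ∪ Q ∪ P' ∪ Q' = S

def Exc4 (v : D → V) (S : Finset D) (α : D → D) (σ : D → Z2) (w e : D) : Prop :=
  ∃ τ P Q P' Q' w' f g f2 g2, Frame v S α (fl σ w 1) τ ∧ (w' = w ∨ w' = α w) ∧
    Part4 v S P Q P' Q' ∧ Sp v P α σ τ e f g ∧ Sp v Q α σ τ (α e) f2 g2 ∧
    Sp v P' α σ τ w' (α f) (α f2) ∧ Sp v Q' α σ τ (α w') (α g) (α g2)

def T1c (v : D → V) (S : Finset D) (α : D → D) (σ : D → Z2) (w e : D) : Prop :=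
  TT v S α σ w e ∨ Exc1 v S α (fl σ w 1) w e ∨
    (S.card = 6 ∧ Exc1 v S α (fl (fl σ w 1) e 1) w e) ∨ Exc3 v S α σ w e ∨ Exc4 v S α σ w e

def Good (v : D → V) (S : Finset D) (α : D → D) : Prop :=
  (∀ σ, ∀ t ∈ S, ND v S α σ t ∨ Tight v S α σ) ∧
    ∀ σ, ∀ w ∈ S, ∀ e ∈ S, e ≠ w → e ≠ α w → T1c v S α σ w e

/-- consequences of tightness for a pair of distinct edges -/
structure TP (v : D → V) (S : Finset D) (α : D → D) (σ : D → Z2) (a b : D) : Prop where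
  t1 : TT v S α σ a b
  t2 : TT v S α (fl σ b 1) a b
  t3 : TT v S α (fl (fl σ a 1) b 1) a b ∨ S.card = 6
  t4 : TT v S α (fl σ a 1) a b ∨ Exc1 v S α σ a b
  t5 : ∀ s, PV v S α (fl σ a 1) a b s
  t6 : PV2 v S α (fl σ a 1) a b
  t7 : S.card = 6 → (∃ r p, Sol v S α (fl σ b 1) W0 r p ∧ ¬ p b ∧ ¬ p (α b) ∧ ¬ p a) ∧
    (∃ r p, Sol v S α (fl σ b 1) W0 r p ∧ ¬ p b ∧ ¬ p (α b) ∧ ¬ p (α a))

/-- two disjoint three-poles joined by the edge of `e` in a 3-edge-connected cubic net -/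
structure Mid (v : D → V) (S : Finset D) (α : D → D) (P Q : Finset D) (e f g f2 g2 : D) :
    Prop where
  net : GNet S α
  cub : Cub v S
  conn : Conn v 3 S α
  cP : Closed v S P
  cQ : Closed v S Q
  dis : Disjoint P Q
  bP : bd α P = {e, f, g}
  ef : e ≠ f
  eg : e ≠ g
  fg : f ≠ g
  bQ : bd α Q = {α e, f2, g2}
  ef2 : α e ≠ f2
  eg2 : α e ≠ g2
  fg2 : f2 ≠ g2
  ne : (S \ (P ∪ Q)).Nonempty

def mα (α : D → D) (f g f2 g2 : D) : D → D := cl (cl α (α f) (α g)) (α f2) (α g2)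
def mσ (α : D → D) (σ : D → Z2) (f f2 : D) (l m : Z2) : D → Z2 := fl (fl σ (α f) l) (α f2) m

/-- chains: all edge cuts of size at most two have size two and separate the marked edges -/
structure Chain (v : D → V) (S : Finset D) (α : D → D) (a b : D) : Prop where
  net : GNet S α
  cub : Cub v S
  conn : Conn v 2 S α
  ha : a ∈ S
  hb : b ∈ S
  ba : b ≠ a
  ba' : b ≠ α a
  sep : ∀ X, Closed v S X → X.Nonempty → X ≠ S → (bd α X).card ≤ 2 →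
    (a ∈ X ∧ α a ∈ X ∧ b ∉ X ∧ α b ∉ X) ∨ (b ∈ X ∧ α b ∈ X ∧ a ∉ X ∧ α a ∉ X)

/-- the facts about small models used by the induction -/
structure Models (v : D → V) : Prop where
  th : ∀ S α, GNet S α → Cub v S → Conn v 3 S α → S.card = 6 → IsTH v S α
  cardTH : ∀ S α, IsTH v S α → S.card = 6
  cardK4 : ∀ S α, IsK4 v S α → S.card = 12
  goodTH : ∀ S α, IsTH v S α → Good v S α
  tp : ∀ S α σ a b, Tight v S α σ → a ∈ S → b ∈ S → b ≠ a → b ≠ α a → TP v S α σ a b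
  other : ∀ S α σ a b c, Bal v S α σ → K4d v S α a b → c ∈ S → c ≠ a → c ≠ α a → c ≠ b →
    c ≠ α b → TT v S α (fl σ a 1) a c
  sp : ∀ S α σ Q e f g f2 g2 m, Mid v S α {e, f, g} Q e f g f2 g2 → v f = v e → v g = v e →
    Exc1 v (S \ ({e, f, g} ∪ Q)) (mα α f g f2 g2) (mσ α σ f f2 (σ f + σ g) m) (α f2) (α f) →
    ∃ τ, Sp v (S \ Q) α σ τ e (α f2) (α g2) ∧ τ (α f2) + τ (α g2) = σ (α f2) + σ (α g2) + m
  k4 : ∀ S α e f g f2 g2, Mid v S α {e, f, g} {α e, f2, g2} e f g f2 g2 → v f = v e → v g = v e →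
    v f2 = v (α e) → v g2 = v (α e) →
    IsTH v (S \ ({e, f, g} ∪ {α e, f2, g2})) (mα α f g f2 g2) → IsK4 v S α
  k33 : ∀ S α e f g f2 g2, Mid v S α {e, f, g} {α e, f2, g2} e f g f2 g2 → v f = v e → v g = v e →
    v f2 = v (α e) → v g2 = v (α e) →
    K4d v (S \ ({e, f, g} ∪ {α e, f2, g2})) (mα α f g f2 g2) (α f2) (α f) → IsK33 v S α

end Pool.Agent.Lib.IC34
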