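import Pool.Agent.Lib.MP_fb9257_co.Side

/-! Properties of the exceptional configurations built from special poles. -/

set_option linter.unusedSectionVars false

namespace Pool.Agent.Lib.IC34
open Finset

variable {D V : Type*} [DecidableEq D] [DecidableEq V]
variable {v : D → V} {S X Y Z P Q P' Q' U : Finset D} {α α' : D → D} {σ σ' τ τ' : D → Z2}
  {a b d e f g f2 g2 w k d1 d2 d3 : D} {W W' : D → Prop} {r : D → Z2} {p : D → Prop} {n : ℕ}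
  {R R1 R2 R3 R4 : (D → Prop) → Prop} {a1 a2 a3 b1 b2 b3 c1 c2 c3 e1 e2 e3 l m : Z2}
  {q1 q2 q3 s1 s2 s3 t1 t2 t3 u1 u2 u3 : Bool}

lemma Frame.shift (h : Frame v X α σ τ) (c : Z2) (H : ∀ d ∈ X, τ' d = τ d + c) :
    Frame v X α σ τ' :=
  ⟨fun d hd x hx e => by rw [H d hd, H x hx, h.1 d hd x hx e],
    fun d hd hd' => by rw [H d hd, H _ hd', h.2 d hd hd']; grind⟩

lemma Frame.congr (h : Frame v X α σ τ)
    (H : ∀ d ∈ X, α' d ∈ X → α d = α' d ∧ σ' d + σ' (α' d) = σ d + σ (α' d)) :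
    Frame v X α' σ' τ :=
  ⟨h.1, fun d hd hd' => by
    obtain ⟨k1, k2⟩ := H d hd hd'
    rw [k2, ← k1]; exact h.2 d hd (k1 ▸ hd')⟩

lemma Frame.union (h1 : Frame v X α σ τ) (h2 : Frame v Y α σ τ) (hv : ∀ x ∈ X, ∀ y ∈ Y, v x ≠ v y)
    (hi : ∀ y ∈ Y, α y ∈ X → α (α y) = y)
    (hc : ∀ x ∈ X, α x ∈ Y → σ x + σ (α x) = τ x + τ (α x)) : Frame v (X ∪ Y) α σ τ := by
  refine ⟨fun d hd x hx e => ?_, fun d hd hd' => ?_⟩
  · rcases mem_union.1 hd with hd | hd <;> rcases mem_union.1 hx with hx | hx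
    · exact h1.1 d hd x hx e
    · exact absurd e.symm (hv d hd x hx)
    · exact absurd e (hv x hx d hd)
    · exact h2.1 d hd x hx e
  · rcases mem_union.1 hd with hd | hd <;> rcases mem_union.1 hd' with hx | hx
    · exact h1.2 d hd hx
    · exact hc d hd hx
    · have := hc _ hx (by rwa [hi d hd hx])
      rw [hi d hd hx] at this; grind
    · exact h2.2 d hd hx

lemma Frame.cut (hn : GNet S α) (hP : Closed v S P) (hb : bd α P = {d1, d2, d3})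
    (h1 : Frame v P α σ τ) (h2 : Frame v (S \ P) α σ τ) (k1 : σ d1 + σ (α d1) = τ d1 + τ (α d1))
    (k2 : σ d2 + σ (α d2) = τ d2 + τ (α d2)) (k3 : σ d3 + σ (α d3) = τ d3 + τ (α d3)) :
    Frame v S α σ τ := by
  have := h1.union h2 (hP.vne sdiff_subset disjoint_sdiff) (fun y hy _ => hn.inv y (mem_sdiff.1 hy).1)
    fun x hx hx' => by
      rcases (bd_mem3 hb).2.2.2 x hx (mem_sdiff.1 hx').2 with rfl | rfl | rfl <;> assumption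
  rwa [union_sdiff_of_subset hP.1] at this

lemma Sp.sg (h : Sp v X α σ τ d1 d2 d3) (hn : GNet S α) (hX : X ⊆ S)
    (H : ∀ d ∈ X, α d ∈ X → σ' d = σ d) : Sp v X α σ' τ d1 d2 d3 :=
  h.congr (fun _ _ => Iff.rfl) (fun d hd hd' => ⟨rfl, H d hd hd'⟩) fun d hd _ => hn.inv d (hX hd)

lemma St.sg (h : St v X α σ τ R d1 d2 d3 a1 a2 a3 q1 q2 q3) (H : ∀ d ∈ X, σ d = σ' d) :
    St v X α σ' τ R d1 d2 d3 a1 a2 a3 q1 q2 q3 :=
  h.congr fun d hd hd' => ⟨rfl, by unfold es; rw [H d hd, H _ hd']⟩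

lemma Sp.mem (h : Sp v X α σ τ d1 d2 d3) :
    (d1 ∈ X ∧ α d1 ∉ X) ∧ (d2 ∈ X ∧ α d2 ∉ X) ∧ (d3 ∈ X ∧ α d3 ∉ X) ∧
      ∀ d ∈ X, α d ∉ X → d = d1 ∨ d = d2 ∨ d = d3 := bd_mem3 h.bdy

/-- two special poles joined by three edges -/
structure K2S (v : D → V) (S : Finset D) (α : D → D) (σ τ : D → Z2) (P : Finset D) (e w k : D) :
    Prop where
  net : GNet S α
  cP : Closed v S P
  s1 : Sp v P α σ τ e w k
  s2 : Sp v (S \ P) α σ τ (α e) (α w) (α k)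
  sk : σ k + σ (α k) = τ k + τ (α k)

lemma K2S.invs (h : K2S v S α σ τ P e w k) : α (α e) = e ∧ α (α w) = w ∧ α (α k) = k :=
  ⟨h.net.inv _ (h.cP.1 h.s1.mem.1.1), h.net.inv _ (h.cP.1 h.s1.mem.2.1.1),
    h.net.inv _ (h.cP.1 h.s1.mem.2.2.1.1)⟩

lemma K2S.symm (h : K2S v S α σ τ P e w k) : K2S v S α σ τ (S \ P) (α e) (α w) (α k) := by
  obtain ⟨i1, i2, i3⟩ := h.invs
  refine ⟨h.net, h.cP.compl, h.s2, ?_, ?_⟩
  · rw [Finset.sdiff_sdiff_eq_self h.cP.1, i1, i2, i3]; exact h.s1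
  · rw [i3, add_comm, h.sk, add_comm]

lemma K2S.sg (h : K2S v S α σ τ P e w k)
    (H : ∀ d, d ≠ e → d ≠ α e → d ≠ w → d ≠ α w → σ' d = σ d) : K2S v S α σ' τ P e w k := by
  obtain ⟨⟨p1, p2⟩, ⟨p3, p4⟩, ⟨p5, p6⟩, -⟩ := h.s1.mem
  obtain ⟨⟨p7, p8⟩, ⟨p9, p10⟩, -⟩ := h.s2.mem
  obtain ⟨i1, i2, i3⟩ := h.invs
  have := h.s1.n13; have := h.s1.n23; have := h.s2.n13; have := h.s2.n23
  refine ⟨h.net, h.cP, h.s1.sg h.net h.cP.1 fun d hd hd' => H d ?_ ?_ ?_ ?_,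
    h.s2.sg h.net sdiff_subset fun d hd hd' => H d ?_ ?_ ?_ ?_, ?_⟩
  any_goals (rintro rfl; simp_all)
  rw [H k, H (α k), h.sk] <;> grind

lemma K2S.inner (h : K2S v S α σ τ P e w k) (se : σ e + σ (α e) = τ e + τ (α e))
    (sw : σ w + σ (α w) = τ w + τ (α w)) (hW : W w ∨ W (α w)) (hd : d ∈ P) (hd' : α d ∈ P) :
    ∃ r p, Sol v S α (fl σ d 1) W r p ∧ ¬ p d ∧ ¬ p (α d) := by
  obtain ⟨⟨p1, p2⟩, ⟨p3, p4⟩, ⟨p5, p6⟩, -⟩ := h.s1.mem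
  have sk := h.sk
  have T := fun a1 a2 a3 q1 q2 q3 c => (h.s2.tab a1 a2 a3 q1 q2 q3 c).sg (σ' := fl σ d 1)
    fun x hx => (fl_ne _ fun c : x = d => (mem_sdiff.1 hx).2 (c ▸ hd)).symm
  rcases h.s1.in1 d hd hd' with st | ⟨-, st, -⟩
  · obtain ⟨r, p, s, -, -, t, -⟩ := glueA (W := W) h.net h.cP h.s1.bdy st (T 1 1 1 false true false rfl)
      ⟨by grind [fl], by simp⟩ ⟨by grind [fl], fun _ _ => hW⟩ ⟨by grind [fl], by simp⟩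
    exact ⟨r, p, s, t.rn hd hd'⟩
  · obtain ⟨r, p, s, -, -, t, -⟩ := glueA (W := W) h.net h.cP h.s1.bdy st (T 1 0 1 true true true rfl)
      ⟨by grind [fl], by simp⟩ ⟨by grind [fl], fun _ _ => hW⟩ ⟨by grind [fl], by simp⟩
    exact ⟨r, p, s, t.rn hd hd'⟩

lemma K2S.other (h : K2S v S α σ τ P e w k) (se : σ e + σ (α e) = τ e + τ (α e))
    (sw : σ w + σ (α w) = τ w + τ (α w)) (hW : W w ∨ W (α w)) (hd : d ∈ S) (c : d ∈ P ↔ α d ∈ P) :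
    ∃ r p, Sol v S α (fl σ d 1) W r p ∧ ¬ p d ∧ ¬ p (α d) := by
  by_cases c' : d ∈ P
  · exact h.inner se sw hW c' (c.1 c')
  · obtain ⟨i1, i2, i3⟩ := h.invs
    exact h.symm.inner (by rw [i1]; grind) (by rw [i2]; grind) (by rw [i2]; exact hW.symm)
      (mem_sdiff.2 ⟨hd, c'⟩) (mem_sdiff.2 ⟨h.net.mem d hd, fun k => c' (c.2 k)⟩)

lemma K2S.tt (h : K2S v S α σ τ P e w k) (se : σ e + σ (α e) = τ e + τ (α e))
    (sw : σ w + σ (α w) = τ w + τ (α w)) (hW : W w ∨ W (α w)) :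
    ∃ r p, Sol v S α σ W r p ∧ ¬ p e ∧ ¬ p (α e) := by
  have sk := h.sk
  obtain ⟨r, p, s, v1, v2, -⟩ := glueA (W := W) h.net h.cP h.s1.bdy (h.s1.tab 0 0 0 false true false rfl)
    (h.s2.tab 1 1 1 false true false rfl)
    ⟨by grind, by simp⟩ ⟨by grind, fun _ _ => hW⟩ ⟨by grind, by simp⟩
  exact ⟨r, p, s, by simpa using v1.2.1, by simpa using v2.2.1⟩

/-- both values at a vertex inserted on the edge of `w`, for both signs of the open edge of `e` -/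
def PB (v : D → V) (S : Finset D) (α : D → D) (σ : D → Z2) (e w : D) : Prop :=
  ∀ l c, (∃ r p, Sol v S α (fl σ e l) (fun d => d = e ∨ d = w) r p ∧ ¬ p (α e) ∧ r w = r e + c) ∨
    ∃ r p, Sol v S α (fl (fl σ e l) w 1) (fun d => d = e ∨ d = w) r p ∧ ¬ p (α e) ∧
      Opt α r p w (r e + c)

lemma PB.symm (hn : GNet S α) (hw : w ∈ S) (n1 : e ≠ w) (n2 : e ≠ α w)
    (h : PB v S α σ e (α w)) : PB v S α σ e w := by
  intro l c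
  have i := hn.inv w hw
  have n3 := hn.ne w hw
  have hw' := hn.mem w hw
  have k : ∀ d ∈ S, (d = e ∨ d = α w) ∨ (α d = e ∨ α d = α w) → (d = e ∨ d = w) ∨ (α d = e ∨ α d = w) :=
    fun d hd => by have := hn.inv d hd; grind
  rcases h l (c + 1 + σ w + σ (α w)) with ⟨r, p, s, k1, k2⟩ | ⟨r, p, s, k1, k2⟩
  · refine Or.inl ⟨r, p, s.congr fun d hd _ => ⟨rfl, rfl, k d hd⟩, k1, ?_⟩
    have := (s.2 w hw hw').1; grind [fl]
  · refine Or.inr ⟨r, p, s.congr fun d hd _ => ⟨rfl, ?_, k d hd⟩, k1, ?_⟩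
    · have := hn.inv d hd; have := hn.ne d hd; grind [fl]
    · have := (s.2 w hw hw').1; unfold Opt at k2 ⊢; grind [fl]

lemma tab3 : ∀ x c : Z2, (∃ a q, Kt 0 c a true true q = true ∧ Kt (1 + x) (1 + c) (1 + a) false true (!q) = true) ∨
    (∃ a q, Kt 0 c a true false q = true ∧ Kt (1 + x) c (1 + a) false true (!q) = true) ∨
    (∃ a q, Kt 0 (c + 1) a true true q = true ∧ Kt (1 + x) (c + 1) (1 + a) false false (!q) = true) := by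
  decide

lemma K2S.pb (h : K2S v S α σ τ P e w k) (sw : σ w + σ (α w) = τ w + τ (α w)) : PB v S α σ e w := by
  intro l c
  obtain ⟨⟨p1, p2⟩, ⟨p3, p4⟩, ⟨p5, p6⟩, -⟩ := h.s1.mem
  have n := h.s1.n12
  have h1 := h.sg (σ' := fl σ e l) fun d k _ _ _ => fl_ne _ k
  have h2 := h.sg (σ' := fl (fl σ e l) w 1) fun d k _ k' _ => by rw [fl_ne _ k', fl_ne _ k]
  rcases tab3 (σ e + l + σ (α e) + τ e + τ (α e)) (c + τ e + τ w) with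
    ⟨a, q, k1, k2⟩ | ⟨a, q, k1, k2⟩ | ⟨a, q, k1, k2⟩
  · obtain ⟨r, p, s, v1, v2, -⟩ := glueA (W := fun d => d = e ∨ d = w) h.net h.cP h.s1.bdy
      (h1.s1.tab _ _ _ _ _ _ k1) (h1.s2.tab _ _ _ _ _ _ k2)
      ⟨by grind [fl], by simp⟩ ⟨by grind [fl], by simp⟩ ⟨by have := h1.sk; grind, by simp +contextual⟩
    exact Or.inl ⟨r, p, s, by simpa using v2.2.1, by have := v1.1; grind⟩
  · obtain ⟨r, p, s, v1, v2, -⟩ := glueA (W := fun d => d = e ∨ d = w) h.net h.cP h.s1.bdy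
      (h2.s1.tab _ _ _ _ _ _ k1) (h2.s2.tab _ _ _ _ _ _ k2)
      ⟨by grind [fl], by simp⟩ ⟨by grind [fl], by simp⟩ ⟨by have := h2.sk; grind, by simp +contextual⟩
    exact Or.inr ⟨r, p, s, by simpa using v2.2.1,
      Or.inl ⟨by simpa using v1.2.2.1, by have := v1.1; grind⟩⟩
  · obtain ⟨r, p, s, v1, v2, -⟩ := glueA (W := fun d => d = e ∨ d = w) h.net h.cP h.s1.bdy
      (h2.s1.tab _ _ _ _ _ _ k1) (h2.s2.tab _ _ _ _ _ _ k2)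
      ⟨by grind [fl], by simp⟩ ⟨by grind [fl], by simp⟩ ⟨by have := h2.sk; grind, by simp +contextual⟩
    exact Or.inr ⟨r, p, s, by simpa using v2.2.1,
      Or.inr ⟨by simpa using v2.2.2.1, by have := v1.1; grind⟩⟩

lemma Exc3.k2s (hn : GNet S α) (h : Exc3 v S α σ w e) : ∃ τ P w' k, Frame v S α (fl σ e 1) τ ∧
    (w' = w ∨ w' = α w) ∧ K2S v S α σ τ P e w' k ∧ σ w' + σ (α w') = τ w' + τ (α w') := by
  obtain ⟨τ, P, w', k, F, hw, cP, s1, s2⟩ := h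
  obtain ⟨⟨p1, p2⟩, ⟨p3, p4⟩, ⟨p5, p6⟩, -⟩ := s1.mem
  have := s1.n12; have := s1.n13
  have := F.2 k (cP.1 p5) (hn.mem _ (cP.1 p5))
  have := F.2 w' (cP.1 p3) (hn.mem _ (cP.1 p3))
  exact ⟨τ, P, w', k, F, hw, ⟨hn, cP, s1, s2, by grind [fl]⟩, by grind [fl]⟩

lemma Exc3.pb (hn : GNet S α) (hw : w ∈ S) (n1 : e ≠ w) (n2 : e ≠ α w) (h : Exc3 v S α σ w e) :
    PB v S α σ e w := by
  obtain ⟨τ, P, w', k, -, rfl | rfl, h, sw⟩ := h.k2s hn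
  · exact h.pb sw
  · exact (h.pb sw).symm hn hw n1 n2

/-- four special poles joined along a `K₄` -/
structure K4B (v : D → V) (S : Finset D) (α : D → D) (σ τ : D → Z2) (P Q P' Q' : Finset D)
    (e f g f2 g2 w : D) : Prop where
  net : GNet S α
  pt : Part4 v S P Q P' Q'
  s1 : Sp v P α σ τ e f g
  s2 : Sp v Q α σ τ (α e) f2 g2
  s3 : Sp v P' α σ τ w (α f) (α f2)
  s4 : Sp v Q' α σ τ (α w) (α g) (α g2)

structure K4S (v : D → V) (S : Finset D) (α : D → D) (σ τ : D → Z2) (P Q P' Q' : Finset D)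
    (e f g f2 g2 w : D) : Prop extends K4B v S α σ τ P Q P' Q' e f g f2 g2 w where
  k1 : σ f + σ (α f) = τ f + τ (α f)
  k2 : σ g + σ (α g) = τ g + τ (α g)
  k3 : σ f2 + σ (α f2) = τ f2 + τ (α f2)
  k4 : σ g2 + σ (α g2) = τ g2 + τ (α g2)

lemma Part4.sw1 (h : Part4 v S P Q P' Q') : Part4 v S Q P P' Q' :=
  ⟨h.c2, h.c1, h.c3, h.c4, h.d12.symm, h.d23, h.d24, h.d13, h.d14, h.d34,
    by rw [union_comm Q P]; exact h.un⟩

lemma Part4.sw2 (h : Part4 v S P Q P' Q') : Part4 v S P Q Q' P' :=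
  ⟨h.c1, h.c2, h.c4, h.c3, h.d12, h.d14, h.d13, h.d24, h.d23, h.d34.symm,
    by rw [union_right_comm]; exact h.un⟩

namespace K4S

lemma _root_.Pool.Agent.Lib.IC34.K4B.ie (h : K4B v S α σ τ P Q P' Q' e f g f2 g2 w) : α (α e) = e :=
  h.net.inv _ (h.pt.c1.1 h.s1.mem.1.1)
lemma _root_.Pool.Agent.Lib.IC34.K4B.iw (h : K4B v S α σ τ P Q P' Q' e f g f2 g2 w) : α (α w) = w :=
  h.net.inv _ (h.pt.c3.1 h.s3.mem.1.1)

lemma sw1 (h : K4S v S α σ τ P Q P' Q' e f g f2 g2 w) :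
    K4S v S α σ τ Q P P' Q' (α e) f2 g2 f g w :=
  ⟨⟨h.net, h.pt.sw1, h.s2, by rw [h.ie]; exact h.s1, h.s3.sw23, h.s4.sw23⟩, h.k3, h.k4, h.k1, h.k2⟩

lemma sw2 (h : K4S v S α σ τ P Q P' Q' e f g f2 g2 w) :
    K4S v S α σ τ P Q Q' P' e g f g2 f2 (α w) :=
  ⟨⟨h.net, h.pt.sw2, h.s1.sw23, h.s2.sw23, h.s4, by rw [h.iw]; exact h.s3⟩, h.k2, h.k1, h.k4, h.k3⟩

lemma _root_.Pool.Agent.Lib.IC34.K4B.nes (h : K4B v S α σ τ P Q P' Q' e f g f2 g2 w) {d : D}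
    (hd : d = f ∨ d = g ∨ d = f2 ∨ d = g2 ∨ d = α f ∨ d = α g ∨ d = α f2 ∨ d = α g2) :
    d ≠ e ∧ d ≠ α e ∧ d ≠ w ∧ d ≠ α w := by
  obtain ⟨⟨a1, -⟩, ⟨a2, -⟩, ⟨a3, -⟩, -⟩ := h.s1.mem
  obtain ⟨⟨b1, -⟩, ⟨b2, -⟩, ⟨b3, -⟩, -⟩ := h.s2.mem
  obtain ⟨⟨c1, -⟩, ⟨c2, -⟩, ⟨c3, -⟩, -⟩ := h.s3.mem
  obtain ⟨⟨e1, -⟩, ⟨e2, -⟩, ⟨e3, -⟩, -⟩ := h.s4.mem
  have := h.s1.n12; have := h.s1.n13; have := h.s2.n12; have := h.s2.n13
  have := h.s3.n12; have := h.s3.n13; have := h.s4.n12; have := h.s4.n13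
  have := disjoint_left.1 h.pt.d12; have := disjoint_left.1 h.pt.d13
  have := disjoint_left.1 h.pt.d14; have := disjoint_left.1 h.pt.d23
  have := disjoint_left.1 h.pt.d24; have := disjoint_left.1 h.pt.d34
  rcases hd with rfl | rfl | rfl | rfl | rfl | rfl | rfl | rfl <;> grind

lemma _root_.Pool.Agent.Lib.IC34.K4B.new (h : K4B v S α σ τ P Q P' Q' e f g f2 g2 w) :
    e ≠ α e ∧ e ≠ w ∧ e ≠ α w ∧ α e ≠ w ∧ α e ≠ α w ∧ w ≠ α w := by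
  have a1 := h.s1.mem.1.1; have b1 := h.s2.mem.1.1; have c1 := h.s3.mem.1.1
  have e1 := h.s4.mem.1.1
  have := disjoint_left.1 h.pt.d12; have := disjoint_left.1 h.pt.d13
  have := disjoint_left.1 h.pt.d14; have := disjoint_left.1 h.pt.d23
  have := disjoint_left.1 h.pt.d24; have := disjoint_left.1 h.pt.d34
  grind

lemma sg (h : K4S v S α σ τ P Q P' Q' e f g f2 g2 w)
    (H : ∀ d, d ≠ e → d ≠ α e → d ≠ w → d ≠ α w → σ' d = σ d) :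
    K4S v S α σ' τ P Q P' Q' e f g f2 g2 w := by
  have E : ∀ d, (d = f ∨ d = g ∨ d = f2 ∨ d = g2 ∨ d = α f ∨ d = α g ∨ d = α f2 ∨ d = α g2) →
      σ' d = σ d := fun d hd => by obtain ⟨a, b, c, e⟩ := h.nes hd; exact H d a b c e
  obtain ⟨⟨a1, a2⟩, -⟩ := h.s1.mem
  obtain ⟨⟨b1, b2⟩, -⟩ := h.s2.mem
  obtain ⟨⟨c1, c2⟩, -⟩ := h.s3.mem
  obtain ⟨⟨e1, e2⟩, -⟩ := h.s4.mem
  have := disjoint_left.1 h.pt.d12; have := disjoint_left.1 h.pt.d13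
  have := disjoint_left.1 h.pt.d14; have := disjoint_left.1 h.pt.d23
  have := disjoint_left.1 h.pt.d24; have := disjoint_left.1 h.pt.d34
  refine ⟨⟨h.net, h.pt, h.s1.sg h.net h.pt.c1.1 fun d hd hd' => H d ?_ ?_ ?_ ?_,
    h.s2.sg h.net h.pt.c2.1 fun d hd hd' => H d ?_ ?_ ?_ ?_,
    h.s3.sg h.net h.pt.c3.1 fun d hd hd' => H d ?_ ?_ ?_ ?_,
    h.s4.sg h.net h.pt.c4.1 fun d hd hd' => H d ?_ ?_ ?_ ?_⟩, ?_, ?_, ?_, ?_⟩
  iterate 16 grind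
  · rw [E f (by simp), E (α f) (by simp), h.k1]
  · rw [E g (by simp), E (α g) (by simp), h.k2]
  · rw [E f2 (by simp), E (α f2) (by simp), h.k3]
  · rw [E g2 (by simp), E (α g2) (by simp), h.k4]

lemma glue (h : K4S v S α σ τ P Q P' Q' e f g f2 g2 w) {x y : Z2}
    (se : σ e + σ (α e) + τ e + τ (α e) = x) (sw : σ w + σ (α w) + τ w + τ (α w) = y)
    (hW : W w ∨ W (α w)) (hE : q1 = true → s1 = true → W e ∨ W (α e))
    (st1 : St v P α σ τ R1 e f g a1 a2 a3 q1 q2 q3)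
    (st2 : St v Q α σ τ R2 (α e) f2 g2 b1 b2 b3 s1 s2 s3)
    (st3 : St v P' α σ τ R3 w (α f) (α f2) c1 c2 c3 t1 t2 t3)
    (st4 : St v Q' α σ τ R4 (α w) (α g) (α g2) e1 e2 e3 u1 u2 u3)
    (k : a1 + b1 = 1 + x ∧ a2 + c2 = 1 ∧ a3 + e2 = 1 ∧ b2 + c3 = 1 ∧ b3 + e3 = 1 ∧ c1 + e1 = 1 + y)
    (k' : (q2 && t2) = false ∧ (q3 && u2) = false ∧ (s2 && t3) = false ∧ (s3 && u3) = false) :
    ∃ r p, Sol v S α σ W r p ∧ Val τ r p e f g a1 a2 a3 q1 q2 q3 ∧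
      Val τ r p (α e) f2 g2 b1 b2 b3 s1 s2 s3 ∧ Val τ r p w (α f) (α f2) c1 c2 c3 t1 t2 t3 ∧
      Val τ r p (α w) (α g) (α g2) e1 e2 e3 u1 u2 u3 ∧ Tr R1 P p ∧ Tr R2 Q p ∧ Tr R3 P' p ∧
      Tr R4 Q' p := by
  have := h.k1; have := h.k2; have := h.k3; have := h.k4
  exact glueK4 h.net h.pt h.s1.bdy h.s2.bdy h.s3.bdy h.s4.bdy st1 st2 st3 st4 ⟨by grind, hE⟩
    ⟨by grind, by grind⟩ ⟨by grind, by grind⟩ ⟨by grind, by grind⟩ ⟨by grind, by grind⟩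
    ⟨by grind, fun _ _ => hW⟩

end K4S

lemma tab4a : ∀ (a1 a2 a3 : Z2) (q1 q2 q3 : Bool), Kt a1 a2 a3 q1 q2 q3 = true →
    ¬ (a1 = a2 ∧ a2 = a3) → (q1 && q2 && q3) = false → ∃ b2 b3 c1 s2 s3,
      Kt (1 + a1) b2 b3 (!q1) s2 s3 = true ∧ Kt c1 (1 + a2) (1 + b2) true (!q2) (!s2) = true ∧
      Kt c1 (1 + a3) (1 + b3) true (!q3) (!s3) = true := by decide +kernel

set_option synthInstance.maxSize 100000 in
lemma tab4b : ∀ (c1 c2 c3 : Z2) (t1 t2 t3 : Bool), Kt c1 c2 c3 t1 t2 t3 = true →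
    ¬ (c1 = c2 ∧ c2 = c3) → (t1 && t2 && t3) = false → ∃ a1 a3 b3 q1 q3 s3,
      Kt a1 (1 + c2) a3 q1 (!t2) q3 = true ∧ Kt (1 + a1) (1 + c3) b3 (!q1) (!t3) s3 = true ∧
      Kt c1 (1 + a3) (1 + b3) true (!q3) (!s3) = true := by decide +kernel

lemma tab4c : ∃ a1 a3 b2 b3 c1 q1 q3 s2 s3,
    Kt a1 0 a3 q1 false q3 = true ∧ Kt (1 + a1) b2 b3 (!q1) s2 s3 = true ∧
      Kt c1 1 (1 + b2) true false (!s2) = true ∧ Kt c1 (1 + a3) (1 + b3) true (!q3) (!s3) = true := by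
  decide +kernel

lemma tab4d : ∃ a2 a3 b2 b3 c1 q2 q3 s2 s3,
    Kt 0 a2 a3 false q2 q3 = true ∧ Kt 0 b2 b3 false s2 s3 = true ∧
      Kt c1 (1 + a2) (1 + b2) true (!q2) (!s2) = true ∧
      Kt c1 (1 + a3) (1 + b3) true (!q3) (!s3) = true := by
  decide +kernel

set_option synthInstance.maxSize 100000 in
lemma tab4e : ∀ x c : Z2, ∃ (y : Z2) (t u : Bool), ∃ c1 a2 a3 b2 b3 q2 q3 s2 s3,
    ((y = 1 ∧ c1 = c) ∨ (y = 0 ∧ ((t = false ∧ c1 = c) ∨ (u = false ∧ c1 = c + 1)))) ∧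
    Kt 0 a2 a3 true q2 q3 = true ∧ Kt (1 + x) b2 b3 false s2 s3 = true ∧
      Kt c1 (1 + a2) (1 + b2) t (!q2) (!s2) = true ∧
      Kt (1 + c1 + y) (1 + a3) (1 + b3) u (!q3) (!s3) = true := by
  decide +kernel

namespace K4S

lemma inP (h : K4S v S α σ τ P Q P' Q' e f g f2 g2 w) (se : σ e + σ (α e) + τ e + τ (α e) = 0)
    (sw : σ w + σ (α w) + τ w + τ (α w) = 1) (hW : W w ∨ W (α w)) (hd : d ∈ P) (hd' : α d ∈ P) :
    ∃ r p, Sol v S α σ W r p ∧ ¬ p d ∧ ¬ p (α d) := by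
  obtain ⟨a1, a2, a3, q1, q2, q3, k1, k2, k3, st⟩ := h.s1.in0 d hd hd'
  obtain ⟨b2, b3, c1, s2, s3, k4, k5, k6⟩ := tab4a _ _ _ _ _ _ k1 k2 k3
  obtain ⟨r, p, s, -, -, -, -, t, -⟩ := h.glue se sw hW (by simp +contextual) st
    (h.s2.tab _ _ _ _ _ _ k4) (h.s3.tab _ _ _ _ _ _ k5) (h.s4.tab _ _ _ _ _ _ k6) (by grind) (by simp)
  exact ⟨r, p, s, t.rn hd hd'⟩

lemma inP' (h : K4S v S α σ τ P Q P' Q' e f g f2 g2 w) (se : σ e + σ (α e) + τ e + τ (α e) = 0)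
    (sw : σ w + σ (α w) + τ w + τ (α w) = 1) (hW : W w ∨ W (α w)) (hd : d ∈ P') (hd' : α d ∈ P') :
    ∃ r p, Sol v S α σ W r p ∧ ¬ p d ∧ ¬ p (α d) := by
  obtain ⟨a1, a2, a3, q1, q2, q3, k1, k2, k3, st⟩ := h.s3.in0 d hd hd'
  obtain ⟨b1, b2, b3, s1, s2, s3, k4, k5, k6⟩ := tab4b _ _ _ _ _ _ k1 k2 k3
  obtain ⟨r, p, s, -, -, -, -, -, -, t, -⟩ := h.glue se sw hW (by simp +contextual)
    (h.s1.tab _ _ _ _ _ _ k4) (h.s2.tab _ _ _ _ _ _ k5) st (h.s4.tab _ _ _ _ _ _ k6) (by grind) (by simp)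
  exact ⟨r, p, s, t.rn hd hd'⟩

lemma atf (h : K4S v S α σ τ P Q P' Q' e f g f2 g2 w) (se : σ e + σ (α e) + τ e + τ (α e) = 0)
    (sw : σ w + σ (α w) + τ w + τ (α w) = 1) (hW : W w ∨ W (α w)) :
    ∃ r p, Sol v S α σ W r p ∧ ¬ p f ∧ ¬ p (α f) := by
  obtain ⟨a1, a3, b2, b3, c1, q1, q3, s2, s3, k1, k2, k3, k4⟩ := tab4c
  obtain ⟨r, p, s, v1, -, v3, -⟩ := h.glue se sw hW (by simp +contextual) (h.s1.tab _ _ _ _ _ _ k1)
    (h.s2.tab _ _ _ _ _ _ k2) (h.s3.tab _ _ _ _ _ _ k3) (h.s4.tab _ _ _ _ _ _ k4) (by grind) (by simp)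
  exact ⟨r, p, s, by simpa using v1.2.2.1, by simpa using v3.2.2.1⟩

lemma ate (h : K4S v S α σ τ P Q P' Q' e f g f2 g2 w) (se : σ e + σ (α e) + τ e + τ (α e) = 1)
    (sw : σ w + σ (α w) + τ w + τ (α w) = 1) (hW : W w ∨ W (α w)) :
    ∃ r p, Sol v S α σ W r p ∧ ¬ p e ∧ ¬ p (α e) := by
  obtain ⟨a2, a3, b2, b3, c1, q2, q3, s2, s3, k1, k2, k3, k4⟩ := tab4d
  obtain ⟨r, p, s, v1, v2, -⟩ := h.glue se sw hW (by simp) (h.s1.tab _ _ _ _ _ _ k1)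
    (h.s2.tab _ _ _ _ _ _ k2) (h.s3.tab _ _ _ _ _ _ k3) (h.s4.tab _ _ _ _ _ _ k4) (by grind) (by simp)
  exact ⟨r, p, s, by simpa using v1.2.1, by simpa using v2.2.1⟩

lemma other (h : K4S v S α σ τ P Q P' Q' e f g f2 g2 w) (se : σ e + σ (α e) + τ e + τ (α e) = 0)
    (sw : σ w + σ (α w) + τ w + τ (α w) = 1) (hW : W w ∨ W (α w)) (hd : d ∈ S) (n1 : d ≠ e)
    (n2 : d ≠ α e) (n3 : d ≠ w) (n4 : d ≠ α w) : ∃ r p, Sol v S α σ W r p ∧ ¬ p d ∧ ¬ p (α d) := by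
  have ie := h.ie
  have iw := h.iw
  have se' : σ (α e) + σ (α (α e)) + τ (α e) + τ (α (α e)) = 0 := by rw [ie]; grind
  have sw' : σ (α w) + σ (α (α w)) + τ (α w) + τ (α (α w)) = 1 := by rw [iw]; grind
  have hW' : W (α w) ∨ W (α (α w)) := by rw [iw]; exact hW.symm
  have c1 := h.atf se sw hW
  have c2 := h.sw2.atf se sw' hW'
  have c3 := h.sw1.atf se' sw hW
  have c4 := h.sw1.sw2.atf se' sw' hW'
  have k : ∀ {x}, x ∈ S → (∃ r p, Sol v S α σ W r p ∧ ¬ p x ∧ ¬ p (α x)) →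
      ∃ r p, Sol v S α σ W r p ∧ ¬ p (α x) ∧ ¬ p (α (α x)) := by
    rintro x hx ⟨r, p, s, k1, k2⟩; exact ⟨r, p, s, k2, by rwa [h.net.inv x hx]⟩
  have m1 := h.pt.c1.1 h.s1.mem.2.1.1
  have m2 := h.pt.c1.1 h.s1.mem.2.2.1.1
  have m3 := h.pt.c2.1 h.s2.mem.2.1.1
  have m4 := h.pt.c2.1 h.s2.mem.2.2.1.1
  rw [← h.pt.un] at hd
  simp only [mem_union] at hd
  rcases hd with ((hd | hd) | hd) | hd
  · by_cases c : α d ∈ P
    · exact h.inP se sw hW hd c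
    rcases h.s1.mem.2.2.2 d hd c with rfl | rfl | rfl
    exacts [absurd rfl n1, c1, c2]
  · by_cases c : α d ∈ Q
    · exact h.sw1.inP se' sw hW hd c
    rcases h.s2.mem.2.2.2 d hd c with rfl | rfl | rfl
    exacts [absurd rfl n2, c3, c4]
  · by_cases c : α d ∈ P'
    · exact h.inP' se sw hW hd c
    rcases h.s3.mem.2.2.2 d hd c with rfl | rfl | rfl
    exacts [absurd rfl n3, k m1 c1, k m3 c3]
  · by_cases c : α d ∈ Q'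
    · exact h.sw2.inP' se sw' hW' hd c
    rcases h.s4.mem.2.2.2 d hd c with rfl | rfl | rfl
    exacts [absurd rfl n4, k m2 c2, k m4 c4]

lemma pb (h : K4S v S α σ τ P Q P' Q' e f g f2 g2 w) (sw : σ w + σ (α w) + τ w + τ (α w) = 1) :
    PB v S α σ e w := by
  intro l c
  obtain ⟨n1, n2, n3, n4, n5, n6⟩ := h.new
  obtain ⟨y, t, u, c1, a2, a3, b2, b3, q2, q3, s2, s3, k0, k1, k2, k3, k4⟩ :=
    tab4e (σ e + l + σ (α e) + τ e + τ (α e)) (c + τ e + τ w)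
  have h2 := h.sg (σ' := fl (fl σ e l) w (y + 1)) fun d k _ k' _ => by rw [fl_ne _ k', fl_ne _ k]
  obtain ⟨r, p, s, v1, v2, v3, v4, -⟩ := h2.glue (W := fun d => d = e ∨ d = w)
    (x := σ e + l + σ (α e) + τ e + τ (α e)) (y := y) (by grind [fl]) (by grind [fl]) (by simp)
    (by simp) (h2.s1.tab _ _ _ _ _ _ k1) (h2.s2.tab _ _ _ _ _ _ k2) (h2.s3.tab _ _ _ _ _ _ k3)
    (h2.s4.tab _ _ _ _ _ _ k4) (by grind) (by simp)
  have := v1.1.1; have := v3.1.1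
  have pe : ¬ p (α e) := by simpa using v2.2.1
  rcases k0 with ⟨rfl, rfl⟩ | ⟨rfl, ⟨rfl, rfl⟩ | ⟨rfl, rfl⟩⟩
  · exact Or.inl ⟨r, p, s.sg (by grind [fl]), pe, by grind⟩
  · exact Or.inr ⟨r, p, by simpa using s, pe, Or.inl ⟨by simpa using v3.2.1, by grind⟩⟩
  · exact Or.inr ⟨r, p, by simpa using s, pe, Or.inr ⟨by simpa using v4.2.1, by grind⟩⟩

end K4S

lemma Exc4.k4s (hn : GNet S α) (hwS : w ∈ S) (h : Exc4 v S α σ w e) : ∃ τ P Q P' Q' w' f g f2 g2,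
    (w' = w ∨ w' = α w) ∧ K4S v S α σ τ P Q P' Q' e f g f2 g2 w' ∧
      σ e + σ (α e) + τ e + τ (α e) = 0 ∧ σ w' + σ (α w') + τ w' + τ (α w') = 1 := by
  obtain ⟨τ, P, Q, P', Q', w', f, g, f2, g2, F, hw, pt, s1, s2, s3, s4⟩ := h
  have E := fun d hd => F.2 d hd (hn.mem d hd)
  have e0 := E _ (pt.c1.1 s1.mem.1.1)
  have e1 := E _ (pt.c1.1 s1.mem.2.1.1)
  have e2 := E _ (pt.c1.1 s1.mem.2.2.1.1)
  have e3 := E _ (pt.c2.1 s2.mem.2.1.1)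
  have e4 := E _ (pt.c2.1 s2.mem.2.2.1.1)
  have e5 := E _ (pt.c3.1 s3.mem.1.1)
  have i := hn.inv _ hwS
  clear E
  have h0 : K4B v S α σ τ P Q P' Q' e f g f2 g2 w' := ⟨hn, pt, s1, s2, s3, s4⟩
  have N : ∀ d, (d = f ∨ d = g ∨ d = f2 ∨ d = g2 ∨ d = α f ∨ d = α g ∨ d = α f2 ∨ d = α g2) →
      fl σ w 1 d = σ d := fun d hd => fl_ne _ (by have := h0.nes hd; grind)
  rw [N f (by simp), N (α f) (by simp)] at e1
  rw [N g (by simp), N (α g) (by simp)] at e2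
  rw [N f2 (by simp), N (α f2) (by simp)] at e3
  rw [N g2 (by simp), N (α g2) (by simp)] at e4
  have := h0.new
  exact ⟨τ, P, Q, P', Q', w', f, g, f2, g2, hw, ⟨h0, e1, e2, e3, e4⟩, by grind [fl], by grind [fl]⟩

lemma Exc4.other (hn : GNet S α) (hw : w ∈ S) (h : Exc4 v S α σ w e) (hd : d ∈ S) (n1 : d ≠ e)
    (n2 : d ≠ α e) (n3 : d ≠ w) (n4 : d ≠ α w) : TT v S α σ w d := by
  obtain ⟨τ, P, Q, P', Q', w', f, g, f2, g2, k, h, se, sw⟩ := h.k4s hn hw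
  have := hn.inv w hw
  exact h.other se sw (by grind) hd n1 n2 (by grind) (by grind)

lemma Exc4.pb (hn : GNet S α) (hw : w ∈ S) (n1 : e ≠ w) (n2 : e ≠ α w) (h : Exc4 v S α σ w e) :
    PB v S α σ e w := by
  obtain ⟨τ, P, Q, P', Q', w', f, g, f2, g2, rfl | rfl, h, se, sw⟩ := h.k4s hn hw
  · exact h.pb sw
  · exact (h.pb sw).symm hn hw n1 n2

end Pool.Agent.Lib.IC34
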