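import Pool.Agent.Lib.MP_fb9257_co.Mid

/-! Gluing along two-edge cuts, uniqueness of balanced signatures. -/

set_option linter.unusedSectionVars false

namespace Pool.Agent.Lib.IC34
open Finset

variable {D V : Type*} [DecidableEq D] [DecidableEq V]
variable {v : D → V} {S X Y Z P Q : Finset D} {α : D → D} {σ σ' σ1 σ2 τ : D → Z2}
  {a b e f g f2 g2 w : D} {W W1 W2 : D → Prop} {r r1 r2 : D → Z2} {p p1 p2 : D → Prop}

lemma GNet.eq_iff (h : GNet S α) {d : D} (hd : d ∈ S) (ha : a ∈ S) : α d = a ↔ d = α a :=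
  ⟨fun k => by rw [← k, h.inv d hd], fun k => by rw [k, h.inv a ha]⟩

/-- the sign of the edge of `d` -/
def es (α : D → D) (σ : D → Z2) (d : D) : Z2 := σ d + σ (α d)

lemma GNet.es_fl (h : GNet S α) {d : D} (hd : d ∈ S) (ha : a ∈ S) (c : Z2) :
    es α (fl σ a c) d = es α σ d + if d = a ∨ d = α a then c else 0 := by
  have h1 := h.eq_iff hd ha
  have h2 := h.ne a ha
  unfold es fl; grind

lemma bal_unique (hn : GNet S α) (hc : Conn v 3 S α) (h1 : Bal v S α σ) (h2 : Bal v S α σ')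
    (ha : a ∈ S) (hb : b ∈ S)
    (H : ∀ d ∈ S, d ≠ a → d ≠ α a → d ≠ b → d ≠ α b → es α σ d = es α σ' d) :
    es α σ a = es α σ' a := by
  obtain ⟨τ, t1, t2⟩ := h1
  obtain ⟨τ', t3, t4⟩ := h2
  by_contra hne
  have key : ∀ d ∈ S, es α σ d + es α σ' d = (τ d + τ' d) + (τ (α d) + τ' (α d)) := fun d hd => by
    have := t2 d hd (hn.mem d hd); have := t4 d hd (hn.mem d hd); unfold es; grind
  set X := S.filter fun d => τ d + τ' d = τ a + τ' a with hX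
  have haX : α a ∉ X := fun k => by
    have k1 := (mem_filter.1 k).2; have := key a ha; apply hne; grind
  have := hc.le_of_sub (X := X) ⟨filter_subset _ _, fun d hd x hx e => mem_filter.2 ⟨hx, by
      rw [t1 d (mem_filter.1 hd).1 x hx e, t3 d (mem_filter.1 hd).1 x hx e]; exact (mem_filter.1 hd).2⟩⟩
    ⟨a, by simp [hX, ha]⟩ (fun k => haX (k ▸ hn.mem a ha))
    (T := {a, if b ∈ X then b else α b}) (fun d hd k => by
      have hdS := (mem_filter.1 hd).1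
      have k1 := (mem_filter.1 hd).2
      have k2 : τ (α d) + τ' (α d) ≠ τ a + τ' a := fun c => k (mem_filter.2 ⟨hn.mem d hdS, c⟩)
      have k3 : es α σ d ≠ es α σ' d := fun c => by have := key d hdS; apply k2; grind
      have k4 := H d hdS
      by_cases c1 : d = a
      · simp [c1]
      by_cases c2 : d = α a
      · exact absurd (c2 ▸ hd) haX
      by_cases c3 : d = b
      · subst c3; simp [hd]
      by_cases c4 : d = α b
      · have : b ∉ X := by rwa [c4, hn.inv b hb] at k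
        simp [this, c4]
      exact absurd (k4 c1 c2 c3 c4) k3)
  have := card_le_two (a := a) (b := if b ∈ X then b else α b); omega

lemma Sol.unclose (hn : GNet S α) (hX : X ⊆ S) (hb : bd α X = {f, g})
    (h : Sol v X (cl α f g) σ1 W1 r p) (hs : ∀ d ∈ X, d ≠ f → d ≠ g → σ1 d = σ d)
    (hw : ∀ d ∈ X, d ≠ f → d ≠ g → W1 d → W d ∨ W (α d)) :
    Sol v X α σ W r p ∧ r f + σ1 f + r g + σ1 g = 1 ∧ (p f → p g → W1 f ∨ W1 g) := by
  obtain ⟨⟨h1, h2⟩, ⟨h3, h4⟩, h5⟩ := bd_mem2 hb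
  refine ⟨h.congr fun d hd hd' => ?_, by simpa using h.2 f h1 (by simpa)⟩
  have i := hn.inv d (hX hd)
  have a1 : d ≠ f := by rintro rfl; contradiction
  have a2 : d ≠ g := by rintro rfl; contradiction
  have a3 : α d ≠ f := by rintro rfl; exact h2 (by rwa [i])
  have a4 : α d ≠ g := by rintro rfl; exact h4 (by rwa [i])
  refine ⟨cl_ne a1 a2, by rw [hs d hd a1 a2, hs _ hd' a3 a4], fun k => k.elim (hw d hd a1 a2) fun k => ?_⟩
  have := hw _ hd' a3 a4 k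
  rw [i] at this; exact this.symm

/-- union of a closed set and its complement -/
lemma Sol.union_compl (hn : GNet S α) (hX : Closed v S X) (h1 : Sol v X α σ W r1 p1)
    (h2 : Sol v (S \ X) α σ W r2 p2)
    (hc : ∀ x ∈ bd α X, EC α σ W x (r1 x) (p1 x) (r2 (α x)) (p2 (α x))) :
    ∃ r p, Sol v S α σ W r p ∧ (∀ x ∈ X, r x = r1 x ∧ p x = p1 x) ∧
      (∀ y ∈ S \ X, r y = r2 y ∧ p y = p2 y) := by
  have := h1.union h2 (hX.vne sdiff_subset disjoint_sdiff)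
    (fun y hy _ => hn.inv y (mem_sdiff.1 hy).1)
    (fun x hx k => hc x (mem_bd.2 ⟨hx, (mem_sdiff.1 k).2⟩))
  rwa [union_sdiff_of_subset hX.1] at this

lemma glue2 (hn : GNet S α) (hX : Closed v S X) (hb : bd α X = {f, g})
    (s1 : Sol v X (cl α f g) σ1 W1 r1 p1) (s2 : Sol v (S \ X) (cl α (α f) (α g)) σ2 W2 r2 p2)
    (e1 : ∀ d ∈ X, d ≠ f → d ≠ g → σ1 d = σ d)
    (e2 : ∀ d ∈ S \ X, d ≠ α f → d ≠ α g → σ2 d = σ d)
    (e3 : σ1 f + σ1 g + σ2 (α f) + σ2 (α g) = σ f + σ g + σ (α f) + σ (α g))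
    (w1 : ∀ d ∈ X, d ≠ f → d ≠ g → W1 d → W d ∨ W (α d))
    (w2 : ∀ d ∈ S \ X, d ≠ α f → d ≠ α g → W2 d → W d ∨ W (α d))
    (c1 : p1 f → p2 (α f) → W f ∨ W (α f)) (c2 : p1 g → p2 (α g) → W g ∨ W (α g)) :
    ∃ r p t, Sol v S α σ W r p ∧ (∀ x ∈ X, r x = r1 x ∧ p x = p1 x) ∧
      (∀ y ∈ S \ X, r y = r2 y + t ∧ p y = p2 y) ∧ r1 f + σ f + r2 (α f) + t + σ (α f) = 1 := by
  obtain ⟨a1, a2, -⟩ := s1.unclose hn hX.1 hb e1 w1
  obtain ⟨b1, b2, -⟩ := s2.unclose hn sdiff_subset (hn.bd_compl2 hX.1 hb) e2 w2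
  obtain ⟨r, p, k1, k2, k3⟩ := Sol.union_compl hn hX a1
    (b1.flip (1 + r1 f + σ f + r2 (α f) + σ (α f))) (by
      rw [hb]; simp only [mem_insert, mem_singleton]
      rintro x (rfl | rfl)
      · exact ⟨by grind, c1⟩
      · exact ⟨by grind, c2⟩)
  exact ⟨r, p, _, k1, k2, k3, by grind⟩

lemma Sol.sg (h : Sol v X α σ W r p) (H : ∀ d ∈ X, σ d = σ' d) : Sol v X α σ' W r p :=
  h.congr fun d hd hd' => ⟨rfl, by rw [H d hd, H _ hd'], id⟩

lemma Sol.es (h : Sol v X α σ W r p) (H : ∀ d ∈ X, α d ∈ X → es α σ d = es α σ' d) :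
    Sol v X α σ' W r p := h.congr fun d hd hd' => ⟨rfl, H d hd hd', id⟩

lemma TT.es (h : TT v S α σ a b) (H : ∀ d ∈ S, es α σ d = es α σ' d) :
    TT v S α σ' a b := by
  obtain ⟨r, p, h1, h2⟩ := h
  exact ⟨r, p, h1.es fun d hd _ => H d hd, h2⟩

lemma Bal.es (h : Bal v S α σ) (H : ∀ d ∈ S, es α σ d = es α σ' d) : Bal v S α σ' := by
  obtain ⟨τ, h1, h2⟩ := h
  exact ⟨τ, h1, fun d hd hd' => (H d hd).symm.trans (h2 d hd hd')⟩

lemma TT.symm_e (hn : GNet S α) (hb : b ∈ S) (h : TT v S α σ a (α b)) : TT v S α σ a b := by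
  obtain ⟨r, p, h1, h2, h3⟩ := h
  exact ⟨r, p, h1, by rwa [hn.inv b hb] at h3, h2⟩

lemma TT.symm_w (hn : GNet S α) (ha : a ∈ S) (h : TT v S α σ (α a) b) : TT v S α σ a b := by
  obtain ⟨r, p, h1, h2⟩ := h
  refine ⟨r, p, h1.congr fun d hd _ => ⟨rfl, rfl, ?_⟩, h2⟩
  rintro (k | k)
  · exact Or.inr (by rw [k, hn.inv a ha])
  · exact Or.inl (hn.inj hd ha k)

lemma TT.ww (h : TT v S α σ a b) : WW v S α σ a := by
  obtain ⟨r, p, h1, _⟩ := h; exact ⟨r, p, h1⟩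

lemma ND.ww (h : ND v S α σ b) : WW v S α σ a := by
  obtain ⟨r, p, h1, _⟩ := h; exact ⟨r, p, h1.w0⟩

lemma Sol.plain (h : Sol v S α σ W0 r p) (ha : a ∈ S) (ha' : α a ∈ S) : ¬ p a ∨ ¬ p (α a) := by
  by_contra k; push Not at k
  exact ((h.2 a ha ha').2 k.1 k.2).elim id id

lemma Chain.cut (h : Chain v S α a b) : Conn v 3 S α ∨ ∃ X f g, Closed v S X ∧ bd α X = {f, g} ∧
    f ≠ g ∧ a ∈ X ∧ α a ∈ X ∧ b ∉ X ∧ α b ∉ X := by
  by_cases hc : Conn v 3 S α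
  · exact Or.inl hc
  right
  unfold Conn at hc; push Not at hc
  obtain ⟨X, h1, h2, h3, h4⟩ := hc
  have h5 := h.conn X h1 h2 h3
  rcases h.sep X h1 h2 h3 (by omega) with k | k
  · obtain ⟨f, g, fg, hb⟩ := card_eq_two.1 (show (bd α X).card = 2 by omega)
    exact ⟨X, f, g, h1, hb, fg, k⟩
  · obtain ⟨f, g, fg, hb⟩ := card_eq_two.1 (show (bd α (S \ X)).card = 2 by
      rw [h.net.card_bd_compl h1.1]; omega)
    exact ⟨S \ X, f, g, h1.compl, hb, fg, by simp [h.ha, k.2.2.1], by simp [h.net.mem a h.ha, k.2.2.2],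
      by simp [k.1], by simp [k.2.1]⟩

/-- data of a cut of a chain -/
structure Cut (v : D → V) (S : Finset D) (α : D → D) (a b : D) (X : Finset D) (f g : D) : Prop where
  ch : Chain v S α a b
  cX : Closed v S X
  hb : bd α X = {f, g}
  fg : f ≠ g
  aX : a ∈ X
  aX' : α a ∈ X
  bX : b ∉ X
  bX' : α b ∉ X

namespace Cut
lemma bY (h : Cut v S α a b X f g) : b ∈ S \ X := mem_sdiff.2 ⟨h.ch.hb, h.bX⟩
lemma bY' (h : Cut v S α a b X f g) : α b ∈ S \ X := mem_sdiff.2 ⟨h.ch.net.mem b h.ch.hb, h.bX'⟩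
lemma fX (h : Cut v S α a b X f g) : f ∈ X := (bd_mem2 h.hb).1.1
lemma gX (h : Cut v S α a b X f g) : g ∈ X := (bd_mem2 h.hb).2.1.1
lemma fY (h : Cut v S α a b X f g) : α f ∈ S \ X :=
  mem_sdiff.2 ⟨h.ch.net.mem f (h.cX.1 h.fX), (bd_mem2 h.hb).1.2⟩
lemma gY (h : Cut v S α a b X f g) : α g ∈ S \ X :=
  mem_sdiff.2 ⟨h.ch.net.mem g (h.cX.1 h.gX), (bd_mem2 h.hb).2.1.2⟩
lemma left (h : Cut v S α a b X f g) : Chain v X (cl α f g) a f :=
  h.ch.close h.cX h.hb h.fg h.aX h.aX' h.bX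
lemma right (h : Cut v S α a b X f g) : Chain v (S \ X) (cl α (α f) (α g)) (α f) b :=
  (h.ch.symm.close h.cX.compl (h.ch.net.bd_compl2 h.cX.1 h.hb)
    (h.ch.net.ne_of (h.cX.1 h.fX) (h.cX.1 h.gX) h.fg) h.bY h.bY' (by simp [h.aX])).symm
lemma ltl (h : Cut v S α a b X f g) : X.card < S.card :=
  card_lt_card ⟨h.cX.1, fun k => h.bX (k h.ch.hb)⟩
lemma ltr (h : Cut v S α a b X f g) : (S \ X).card < S.card :=
  card_lt_card ⟨sdiff_subset, fun k => (mem_sdiff.1 (k h.ch.ha)).2 h.aX⟩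
lemma nes (h : Cut v S α a b X f g) : a ≠ f ∧ a ≠ g ∧ b ≠ α f ∧ b ≠ α g := by
  have := mem_sdiff.1 h.fY; have := mem_sdiff.1 h.gY
  have := h.aX'; have := h.bX'; have := h.fX; have := h.gX
  have := h.ch.net.inv f (h.cX.1 h.fX); have := h.ch.net.inv g (h.cX.1 h.gX)
  grind
lemma ca (h : Cut v S α a b X f g) : cl α f g a = α a := cl_ne h.nes.1 h.nes.2.1
lemma cb (h : Cut v S α a b X f g) : cl α (α f) (α g) b = α b := cl_ne h.nes.2.2.1 h.nes.2.2.2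
end Cut

end Pool.Agent.Lib.IC34
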