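import Pool.Agent.Lib.MP_fb9257_co.Defs

/-! Closing a two-edge cut; the middle net between two three-poles. -/

set_option linter.unusedSectionVars false

namespace Pool.Agent.Lib.IC34
open Finset

variable {D V : Type*} [DecidableEq D] [DecidableEq V]
variable {v : D → V} {S X Y Z P Q : Finset D} {α : D → D} {σ : D → Z2} {a b e f g f2 g2 : D}

lemma bd_mem3 (h : bd α X = {e, f, g}) :
    (e ∈ X ∧ α e ∉ X) ∧ (f ∈ X ∧ α f ∉ X) ∧ (g ∈ X ∧ α g ∉ X) ∧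
      ∀ d ∈ X, α d ∉ X → d = e ∨ d = f ∨ d = g := by
  refine ⟨mem_bd.1 (by simp [h]), mem_bd.1 (by simp [h]), mem_bd.1 (by simp [h]), fun d h1 h2 => ?_⟩
  have : d ∈ bd α X := mem_bd.2 ⟨h1, h2⟩
  simpa [h] using this

lemma bd_mem2 (h : bd α X = {f, g}) :
    (f ∈ X ∧ α f ∉ X) ∧ (g ∈ X ∧ α g ∉ X) ∧ ∀ d ∈ X, α d ∉ X → d = f ∨ d = g := by
  refine ⟨mem_bd.1 (by simp [h]), mem_bd.1 (by simp [h]), fun d h1 h2 => ?_⟩
  have : d ∈ bd α X := mem_bd.2 ⟨h1, h2⟩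
  simpa [h] using this

lemma Conn.le_of_sub {k : ℕ} (h : Conn v k S α) (hX : Closed v S X) (h1 : X.Nonempty)
    (h2 : X ≠ S) {T : Finset D} (hT : ∀ d ∈ X, α d ∉ X → d ∈ T) : k ≤ T.card :=
  (h X hX h1 h2).trans (card_le_card fun d hd => hT d (mem_bd.1 hd).1 (mem_bd.1 hd).2)

/-- closing a two-edge cut gives a net -/
lemma GNet.close (h : GNet S α) (hX : X ⊆ S) (hb : bd α X = {f, g}) (fg : f ≠ g) :
    GNet X (cl α f g) := by
  obtain ⟨⟨h1, h2⟩, ⟨h3, h4⟩, h5⟩ := bd_mem2 hb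
  have k : ∀ d ∈ X, d ≠ f → d ≠ g → α d ∈ X ∧ α d ≠ f ∧ α d ≠ g := fun d hd a b => by
    refine ⟨by_contra fun c => by rcases h5 d hd c with rfl | rfl <;> contradiction, ?_, ?_⟩
    · rintro rfl; exact h2 (by rwa [h.inv d (hX hd)])
    · rintro rfl; exact h4 (by rwa [h.inv d (hX hd)])
  refine ⟨fun d hd => ?_, fun d hd => ?_, fun d hd => ?_⟩
  · by_cases a : d = f
    · subst a; simpa
    by_cases b : d = g
    · subst b; simpa
    rw [cl_ne a b]; exact (k d hd a b).1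
  · by_cases a : d = f
    · subst a; simp
    by_cases b : d = g
    · subst b; simp
    rw [cl_ne a b, cl_ne (k d hd a b).2.1 (k d hd a b).2.2, h.inv d (hX hd)]
  · by_cases a : d = f
    · subst a; simpa using fg.symm
    by_cases b : d = g
    · subst b; simpa using fg
    rw [cl_ne a b]; exact h.ne d (hX hd)

lemma GNet.bd_compl2 (h : GNet S α) (hX : X ⊆ S) (hb : bd α X = {f, g}) :
    bd α (S \ X) = {α f, α g} := by rw [h.bd_compl hX, hb]; simp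

lemma GNet.bd_compl3 (h : GNet S α) (hX : X ⊆ S) (hb : bd α X = {e, f, g}) :
    bd α (S \ X) = {α e, α f, α g} := by rw [h.bd_compl hX, hb]; simp

lemma GNet.card_bd_compl (h : GNet S α) (hX : X ⊆ S) : (bd α (S \ X)).card = (bd α X).card := by
  rw [h.bd_compl hX]
  exact card_image_of_injOn fun x hx y hy e =>
    h.inj (hX (mem_bd.1 (mem_coe.1 hx)).1) (hX (mem_bd.1 (mem_coe.1 hy)).1) e

/-- cuts of a closed side, when not both closing darts are inside -/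
lemma bd_cl_not (hb : bd α X = {f, g}) (hZ : Z ⊆ X) (h : ¬ (f ∈ Z ∧ g ∈ Z)) :
    bd (cl α f g) Z = bd α Z := by
  obtain ⟨⟨h1, h2⟩, ⟨h3, h4⟩, h5⟩ := bd_mem2 hb
  ext d; simp only [mem_bd]
  refine and_congr_right fun hd => ?_
  by_cases a : d = f
  · subst a; simp only [cl_fst]; exact ⟨fun _ k => h2 (hZ k), fun _ k => h ⟨hd, k⟩⟩
  by_cases b : d = g
  · subst b; simp only [cl_snd]; exact ⟨fun _ k => h4 (hZ k), fun _ k => h ⟨k, hd⟩⟩
  rw [cl_ne a b]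

/-- cuts of a closed side, when both closing darts are inside -/
lemma bd_cl_both (h : GNet S α) (hX : X ⊆ S) (hb : bd α X = {f, g}) (hZ : Z ⊆ X) (hf : f ∈ Z)
    (hg : g ∈ Z) : bd (cl α f g) Z = bd α (Z ∪ (S \ X)) := by
  obtain ⟨⟨h1, h2⟩, ⟨h3, h4⟩, h5⟩ := bd_mem2 hb
  ext d; simp only [mem_bd, mem_union, mem_sdiff, not_or, not_and, not_not]
  constructor
  · rintro ⟨hd, k⟩
    have a : d ≠ f := by rintro rfl; simp [hg] at k
    have b : d ≠ g := by rintro rfl; simp [hf] at k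
    rw [cl_ne a b] at k
    exact ⟨Or.inl hd, k, fun _ => by_contra fun c => by rcases h5 d (hZ hd) c with r | r <;> contradiction⟩
  · rintro ⟨hd | hd, k1, k2⟩
    · have hx := k2 (h.mem d (hX (hZ hd)))
      have a : d ≠ f := by rintro rfl; contradiction
      have b : d ≠ g := by rintro rfl; contradiction
      rw [cl_ne a b]; exact ⟨hd, k1⟩
    · exfalso
      have hx := k2 (h.mem d hd.1)
      rcases h5 (α d) hx (by rw [h.inv d hd.1]; exact hd.2) with r | r <;> exact k1 (r ▸ ‹_›)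

lemma union_compl_ne (hX : X ⊆ S) (hZ : Z ⊆ X) (h : Z ≠ X) : Z ∪ (S \ X) ≠ S := by
  intro k; apply h
  refine Subset.antisymm hZ fun d hd => ?_
  have : d ∈ Z ∪ (S \ X) := k.symm ▸ hX hd
  simpa [hd] using this

lemma Conn.close {k : ℕ} (hn : GNet S α) (h : Conn v k S α) (hX : Closed v S X) (hne : X ≠ S)
    (hb : bd α X = {f, g}) : Conn v k X (cl α f g) := by
  intro Z hZ h1 h2
  by_cases c : f ∈ Z ∧ g ∈ Z
  · rw [bd_cl_both hn hX.1 hb hZ.1 c.1 c.2]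
    exact h _ ((hX.trans hZ).union hX.compl) (h1.mono subset_union_left) (union_compl_ne hX.1 hZ.1 h2)
  · rw [bd_cl_not hb hZ.1 c]
    exact h _ (hX.trans hZ) h1 fun k => hne (Subset.antisymm hX.1 (k ▸ hZ.1))

lemma Chain.symm (h : Chain v S α a b) : Chain v S α b a :=
  ⟨h.net, h.cub, h.conn, h.hb, h.ha, h.ba.symm, fun k => h.ba' (by rw [k, h.net.inv b h.hb]),
    fun X a b c d => (h.sep X a b c d).symm⟩

lemma Chain.of_conn3 (hn : GNet S α) (hc : Cub v S) (h : Conn v 3 S α) (ha : a ∈ S) (hb : b ∈ S)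
    (h1 : b ≠ a) (h2 : b ≠ α a) : Chain v S α a b :=
  ⟨hn, hc, fun X a b c => le_trans (by norm_num) (h X a b c), ha, hb, h1, h2,
    fun X a b c d => absurd (h X a b c) (by omega)⟩

/-- the side of the first marked edge of a chain, closed up, is a chain -/
lemma Chain.close (h : Chain v S α a b) (hX : Closed v S X) (hb : bd α X = {f, g}) (fg : f ≠ g)
    (ha : a ∈ X) (ha' : α a ∈ X) (hb1 : b ∉ X) : Chain v X (cl α f g) a f := by
  obtain ⟨⟨h1, h2⟩, ⟨h3, h4⟩, h5⟩ := bd_mem2 hb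
  have hne : X ≠ S := fun k => hb1 (k ▸ h.hb)
  have af : a ≠ f := by rintro rfl; contradiction
  have ag : a ≠ g := by rintro rfl; contradiction
  have ca : cl α f g a = α a := cl_ne af ag
  refine ⟨h.net.close hX.1 hb fg, h.cub.sub hX, h.conn.close h.net hX hne hb, ha, h1, af.symm, ?_,
    fun Z hZ k1 k2 k3 => ?_⟩
  · rw [ca]; rintro rfl; exact h2 (by rwa [h.net.inv a h.ha])
  rw [ca, cl_fst]
  have hZS := hX.trans hZ
  have hU := hZS.union hX.compl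
  have hbU : b ∈ Z ∪ (S \ X) := by simp [h.hb, hb1]
  by_cases c : f ∈ Z ∧ g ∈ Z
  · rw [bd_cl_both h.net hX.1 hb hZ.1 c.1 c.2] at k3
    rcases h.sep _ hU (k1.mono subset_union_left) (union_compl_ne hX.1 hZ.1 k2) k3 with r | r
    · exact absurd hbU r.2.2.1
    · exact Or.inr ⟨c.1, c.2, fun k => r.2.2.1 (mem_union_left _ k),
        fun k => r.2.2.2 (mem_union_left _ k)⟩
  · have k3' := k3
    rw [bd_cl_not hb hZ.1 c] at k3
    rcases h.sep _ hZS k1 (fun k => hne (Subset.antisymm hX.1 (k ▸ hZ.1))) k3 with r | r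
    swap
    · exact absurd (hZ.1 r.1) hb1
    by_cases c2 : f ∈ Z ∨ g ∈ Z
    swap
    · push Not at c2; exact Or.inl ⟨r.1, r.2.1, c2.1, c2.2⟩
    exfalso
    -- the complement inside `X` also has a cut of size two, and contains neither marked edge
    have hn' := h.net.close hX.1 hb fg
    have k4 : (bd (cl α f g) (X \ Z)).card ≤ 2 := by rw [hn'.card_bd_compl hZ.1]; exact k3'
    rw [bd_cl_not hb sdiff_subset (by simp only [mem_sdiff]; tauto)] at k4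
    have k5 : (X \ Z).Nonempty := by
      rw [sdiff_nonempty]; exact fun k => k2 (Subset.antisymm hZ.1 k)
    rcases h.sep _ (hX.trans hZ.compl) k5
      (fun k => hb1 (mem_sdiff.1 (k.symm ▸ h.hb : b ∈ X \ Z)).1) k4 with r' | r'
    · exact (mem_sdiff.1 r'.1).2 r.1
    · exact hb1 (mem_sdiff.1 r'.1).1

namespace Mid

lemma symm (h : Mid v S α P Q e f g f2 g2) : Mid v S α Q P (α e) f2 g2 f g := by
  have he := h.net.inv e (h.cP.1 (bd_mem3 h.bP).1.1)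
  exact ⟨h.net, h.cub, h.conn, h.cQ, h.cP, h.dis.symm, h.bQ, h.ef2, h.eg2, h.fg2,
    by rw [he]; exact h.bP, by rw [he]; exact h.ef, by rw [he]; exact h.eg, h.fg,
    by rw [union_comm]; exact h.ne⟩

lemma swap (h : Mid v S α P Q e f g f2 g2) : Mid v S α P Q e g f f2 g2 :=
  ⟨h.net, h.cub, h.conn, h.cP, h.cQ, h.dis, by rw [h.bP, pair_comm f g], h.eg, h.ef, h.fg.symm,
    h.bQ, h.ef2, h.eg2, h.fg2, h.ne⟩

lemma swap2 (h : Mid v S α P Q e f g f2 g2) : Mid v S α P Q e f g g2 f2 :=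
  ⟨h.net, h.cub, h.conn, h.cP, h.cQ, h.dis, h.bP, h.ef, h.eg, h.fg,
    by rw [h.bQ, pair_comm f2 g2], h.eg2, h.ef2, h.fg2.symm, h.ne⟩

lemma cM (h : Mid v S α P Q e f g f2 g2) : Closed v S (S \ (P ∪ Q)) := (h.cP.union h.cQ).compl

lemma out1 (h : Mid v S α P Q e f g f2 g2) : α f ∈ S \ (P ∪ Q) := by
  obtain ⟨⟨p1, p2⟩, ⟨p3, p4⟩, ⟨p5, p6⟩, p7⟩ := bd_mem3 h.bP
  obtain ⟨⟨q1, q2⟩, ⟨q3, q4⟩, ⟨q5, q6⟩, q7⟩ := bd_mem3 h.bQ
  have hf := h.cP.1 p3
  refine mem_sdiff.2 ⟨h.net.mem f hf, fun k0 => ?_⟩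
  have hQ : α f ∈ Q := (mem_union.1 k0).resolve_left p4
  have hne : P ∪ Q ≠ S := fun k => by simpa [k] using h.ne
  have hfQ : α (α f) ∉ Q := by rw [h.net.inv f hf]; exact disjoint_left.1 h.dis p3
  have key : ∀ x, (f2 = α f ∧ x = g2) ∨ (g2 = α f ∧ x = f2) → False := by
    intro x hx
    have := h.conn.le_of_sub (h.cP.union h.cQ) ⟨e, by simp [p1]⟩ hne (T := {g, x}) (by
      intro d hd k
      simp only [mem_union, not_or] at hd k
      rcases hd with hd | hd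
      · rcases p7 d hd k.1 with rfl | rfl | rfl
        · exact absurd q1 k.2
        · exact absurd hQ k.2
        · simp
      · rcases q7 d hd k.2 with rfl | rfl | rfl
        · exact absurd (by rwa [h.net.inv e (h.cP.1 p1)]) k.1
        · rcases hx with ⟨rfl, _⟩ | ⟨_, rfl⟩
          · exact absurd (by rwa [h.net.inv f hf]) k.1
          · simp
        · rcases hx with ⟨_, rfl⟩ | ⟨rfl, _⟩
          · simp
          · exact absurd (by rwa [h.net.inv f hf]) k.1)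
    have := card_le_two (a := g) (b := x); omega
  rcases q7 _ hQ hfQ with r | r | r
  · exact h.ef (h.net.inj (h.cP.1 p1) hf r.symm)
  · exact key _ (Or.inl ⟨r.symm, rfl⟩)
  · exact key _ (Or.inr ⟨r.symm, rfl⟩)

lemma out2 (h : Mid v S α P Q e f g f2 g2) : α g ∈ S \ (P ∪ Q) := h.swap.out1
lemma out3 (h : Mid v S α P Q e f g f2 g2) : α f2 ∈ S \ (P ∪ Q) := by
  rw [union_comm]; exact h.symm.out1
lemma out4 (h : Mid v S α P Q e f g f2 g2) : α g2 ∈ S \ (P ∪ Q) := h.swap2.out3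

lemma mems (h : Mid v S α P Q e f g f2 g2) : e ∈ P ∧ f ∈ P ∧ g ∈ P ∧ α e ∈ Q ∧ f2 ∈ Q ∧ g2 ∈ Q :=
  ⟨(bd_mem3 h.bP).1.1, (bd_mem3 h.bP).2.1.1, (bd_mem3 h.bP).2.2.1.1, (bd_mem3 h.bQ).1.1,
    (bd_mem3 h.bQ).2.1.1, (bd_mem3 h.bQ).2.2.1.1⟩

lemma invs (h : Mid v S α P Q e f g f2 g2) :
    α (α e) = e ∧ α (α f) = f ∧ α (α g) = g ∧ α (α f2) = f2 ∧ α (α g2) = g2 := by
  obtain ⟨a, b, c, _, d, e⟩ := h.mems
  exact ⟨h.net.inv _ (h.cP.1 a), h.net.inv _ (h.cP.1 b), h.net.inv _ (h.cP.1 c),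
    h.net.inv _ (h.cQ.1 d), h.net.inv _ (h.cQ.1 e)⟩

lemma nes (h : Mid v S α P Q e f g f2 g2) : α f ≠ α g ∧ α f ≠ α f2 ∧ α f ≠ α g2 ∧ α g ≠ α f2 ∧
    α g ≠ α g2 ∧ α f2 ≠ α g2 := by
  obtain ⟨_, b, c, _, d, e⟩ := h.mems
  have k : ∀ x ∈ P, ∀ y ∈ Q, α x ≠ α y := fun x hx y hy =>
    h.net.ne_of (h.cP.1 hx) (h.cQ.1 hy) fun r => disjoint_left.1 h.dis hx (r ▸ hy)
  exact ⟨h.net.ne_of (h.cP.1 b) (h.cP.1 c) h.fg, k _ b _ d, k _ b _ e, k _ c _ d, k _ c _ e,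
    h.net.ne_of (h.cQ.1 d) (h.cQ.1 e) h.fg2⟩

lemma m1 (h : Mid v S α P Q e f g f2 g2) : mα α f g f2 g2 (α f) = α g := by
  obtain ⟨_, a, b, _⟩ := h.nes
  simp [mα, cl_ne a b]
lemma m2 (h : Mid v S α P Q e f g f2 g2) : mα α f g f2 g2 (α g) = α f := by
  obtain ⟨_, _, _, a, b, _⟩ := h.nes
  simp [mα, cl_ne a b]
lemma m3 : mα α f g f2 g2 (α f2) = α g2 := by simp [mα]
lemma m4 : mα α f g f2 g2 (α g2) = α f2 := by simp [mα]
lemma m5 {d : D} (h1 : d ≠ α f) (h2 : d ≠ α g) (h3 : d ≠ α f2) (h4 : d ≠ α g2) :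
    mα α f g f2 g2 d = α d := by simp [mα, cl_ne h3 h4, cl_ne h1 h2]

lemma mα_symm (h : Mid v S α P Q e f g f2 g2) : mα α f2 g2 f g = mα α f g f2 g2 := by
  obtain ⟨a, b, c, d, e, f⟩ := h.nes
  funext x; unfold mα cl; split_ifs <;> simp_all

lemma mα_swap : mα α g f f2 g2 = mα α f g f2 g2 := by unfold mα; rw [cl_comm α]
lemma mα_swap2 : mα α f g g2 f2 = mα α f g f2 g2 := by unfold mα; rw [cl_comm]
lemma mσ_symm (l m : Z2) : mσ α σ f2 f m l = mσ α σ f f2 l m := fl_comm _ _ _ _ _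

/-- darts of the middle part whose edge leaves it -/
lemma bdM (h : Mid v S α P Q e f g f2 g2) {d : D} (hd : d ∈ S \ (P ∪ Q))
    (k : α d ∉ S \ (P ∪ Q)) : d = α f ∨ d = α g ∨ d = α f2 ∨ d = α g2 := by
  obtain ⟨⟨p1, p2⟩, _, _, p7⟩ := bd_mem3 h.bP
  obtain ⟨⟨q1, q2⟩, _, _, q7⟩ := bd_mem3 h.bQ
  simp only [mem_sdiff, mem_union, not_or, not_and, not_not] at hd k
  have i := h.net.inv d hd.1
  by_cases c : α d ∈ P
  · rcases p7 _ c (by rw [i]; exact hd.2.1) with r | r | r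
    · exact absurd (by rwa [← i, r]) hd.2.2
    · exact Or.inl (by rw [← r, i])
    · exact Or.inr (Or.inl (by rw [← r, i]))
  · have c' := k (h.net.mem d hd.1) c
    rcases q7 _ c' (by rw [i]; exact hd.2.2) with r | r | r
    · exact absurd (h.net.inj hd.1 (h.cP.1 p1) r ▸ p1) hd.2.1
    · exact Or.inr (Or.inr (Or.inl (by rw [← r, i])))
    · exact Or.inr (Or.inr (Or.inr (by rw [← r, i])))

lemma inner (h : Mid v S α P Q e f g f2 g2) {d : D} (k : α d ∈ S \ (P ∪ Q)) :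
    d ≠ α f ∧ d ≠ α g ∧ d ≠ α f2 ∧ d ≠ α g2 := by
  obtain ⟨_, b, c, _, d', e'⟩ := h.mems
  obtain ⟨_, i2, i3, i4, i5⟩ := h.invs
  simp only [mem_sdiff, mem_union, not_or] at k
  refine ⟨?_, ?_, ?_, ?_⟩ <;> rintro rfl <;> simp_all

lemma mnet (h : Mid v S α P Q e f g f2 g2) : GNet (S \ (P ∪ Q)) (mα α f g f2 g2) := by
  have key : ∀ d ∈ S \ (P ∪ Q), (d = α f ∨ d = α g ∨ d = α f2 ∨ d = α g2) ∨
      (mα α f g f2 g2 d = α d ∧ α d ∈ S \ (P ∪ Q) ∧ mα α f g f2 g2 (α d) = d) := fun d hd => by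
    by_cases c : α d ∈ S \ (P ∪ Q)
    · obtain ⟨a1, a2, a3, a4⟩ := h.inner c
      have i := h.net.inv d (mem_sdiff.1 hd).1
      obtain ⟨b1, b2, b3, b4⟩ := h.inner (d := α d) (by rwa [i])
      exact Or.inr ⟨m5 a1 a2 a3 a4, c, by rw [m5 b1 b2 b3 b4, i]⟩
    · exact Or.inl (h.bdM hd c)
  obtain ⟨n1, _, _, _, _, n2⟩ := h.nes
  refine ⟨fun d hd => ?_, fun d hd => ?_, fun d hd => ?_⟩ <;>
    rcases key d hd with (rfl | rfl | rfl | rfl) | ⟨k1, k2, k3⟩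
  any_goals simp only [h.m1, h.m2, m3, m4, h.out1, h.out2, h.out3, h.out4]
  · rwa [k1]
  · rw [k1, k3]
  · exact n1.symm
  · exact n1
  · exact n2.symm
  · exact n2
  · rw [k1]; exact h.net.ne d (mem_sdiff.1 hd).1

lemma card_lt (h : Mid v S α P Q e f g f2 g2) : (S \ (P ∪ Q)).card < S.card :=
  card_lt_card ⟨sdiff_subset, fun k => by
    have := k (h.cP.1 h.mems.1); simp [h.mems.1] at this⟩

/-- adding the pole `P` to a set of the middle net containing `α f`, `α g` -/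
lemma bd_left (h : Mid v S α P Q e f g f2 g2) (hZ : Z ⊆ S \ (P ∪ Q)) (h1 : α f ∈ Z)
    (h2 : α g ∈ Z) (h3 : α f2 ∉ Z) (h4 : α g2 ∉ Z) :
    bd α (P ∪ Z) = insert e (bd (mα α f g f2 g2) Z) := by
  obtain ⟨⟨p1, p2⟩, ⟨p3, p4⟩, ⟨p5, p6⟩, p7⟩ := bd_mem3 h.bP
  obtain ⟨i1, i2, i3, i4, i5⟩ := h.invs
  have he : α e ∉ Z := fun k => by have := hZ k; simp [h.mems.2.2.2.1] at this
  ext d; simp only [mem_bd, mem_union, not_or, mem_insert]
  constructor
  · rintro ⟨hd | hd, k1, k2⟩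
    · rcases p7 d hd k1 with rfl | rfl | rfl
      · exact Or.inl rfl
      · contradiction
      · contradiction
    · refine Or.inr ⟨hd, ?_⟩
      rw [m5]
      · exact k2
      all_goals rintro rfl; simp_all
  · rintro (rfl | ⟨hd, k⟩)
    · exact ⟨Or.inl p1, p2, he⟩
    · have a1 : d ≠ α f := by rintro rfl; rw [h.m1] at k; contradiction
      have a2 : d ≠ α g := by rintro rfl; rw [h.m2] at k; contradiction
      have a3 : d ≠ α f2 := by rintro rfl; contradiction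
      have a4 : d ≠ α g2 := by rintro rfl; contradiction
      rw [m5 a1 a2 a3 a4] at k
      refine ⟨Or.inr hd, fun c => ?_, k⟩
      have : α d ∉ S \ (P ∪ Q) := by simp [c]
      rcases h.bdM (hZ hd) this with r | r | r | r <;> contradiction

/-- a set of the middle net that does not separate the two marked edges has a large cut -/
lemma three_le (h : Mid v S α P Q e f g f2 g2) (hZ : Closed v (S \ (P ∪ Q)) Z) (k1 : Z.Nonempty)
    (h12 : ¬ (α f ∈ Z ∧ α g ∈ Z)) (h34 : ¬ (α f2 ∈ Z ∧ α g2 ∈ Z)) :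
    3 ≤ (bd (mα α f g f2 g2) Z).card := by
  refine h.conn.le_of_sub (h.cM.trans hZ) k1 (fun k => ?_) fun d hd k => mem_bd.2 ⟨hd, ?_⟩
  · have := hZ.1 (k ▸ h.cP.1 h.mems.1); simp [h.mems.1] at this
  · by_cases a1 : d = α f
    · subst a1; rw [h.m1]; tauto
    by_cases a2 : d = α g
    · subst a2; rw [h.m2]; tauto
    by_cases a3 : d = α f2
    · subst a3; rw [m3]; tauto
    by_cases a4 : d = α g2
    · subst a4; rw [m4]; tauto
    rwa [m5 a1 a2 a3 a4]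

lemma cases_cut (h : Mid v S α P Q e f g f2 g2) (hZ : Closed v (S \ (P ∪ Q)) Z) (k1 : Z.Nonempty)
    (k2 : Z ≠ S \ (P ∪ Q)) : 3 ≤ (bd (mα α f g f2 g2) Z).card ∨
      (α f ∈ Z ∧ α g ∈ Z ∧ α f2 ∉ Z ∧ α g2 ∉ Z) ∨ (α f2 ∈ Z ∧ α g2 ∈ Z ∧ α f ∉ Z ∧ α g ∉ Z) := by
  have k5 : ((S \ (P ∪ Q)) \ Z).Nonempty := by
    rw [sdiff_nonempty]; exact fun k => k2 (Subset.antisymm hZ.1 k)
  have a := h.three_le hZ k1
  have b := h.three_le hZ.compl k5
  rw [h.mnet.card_bd_compl hZ.1] at b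
  simp only [mem_sdiff (s := S \ (P ∪ Q)), h.out1, h.out2, h.out3, h.out4, true_and] at b
  by_cases c1 : α f ∈ Z <;> by_cases c2 : α g ∈ Z <;> by_cases c3 : α f2 ∈ Z <;>
    by_cases c4 : α g2 ∈ Z <;> simp_all

lemma chain (h : Mid v S α P Q e f g f2 g2) :
    Chain v (S \ (P ∪ Q)) (mα α f g f2 g2) (α f) (α f2) := by
  refine ⟨h.mnet, h.cub.sub h.cM, fun Z hZ k1 k2 => ?_, h.out1, h.out3, h.nes.2.1.symm,
    by rw [h.m1]; exact h.nes.2.2.2.1.symm, fun Z hZ k1 k2 k3 => ?_⟩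
  · have key : ∀ {P Q e f g f2 g2 Z}, Mid v S α P Q e f g f2 g2 → Closed v (S \ (P ∪ Q)) Z →
        α f ∈ Z → α g ∈ Z → α f2 ∉ Z → α g2 ∉ Z → 2 ≤ (bd (mα α f g f2 g2) Z).card := by
      intro P Q e f g f2 g2 Z h hZ a b c d
      have := h.conn (P ∪ Z) (h.cP.union (h.cM.trans hZ)) ⟨e, by simp [h.mems.1]⟩ (fun k => by
        have k3 : α f2 ∈ P ∪ Z := k.symm ▸ (mem_sdiff.1 h.out3).1
        exact (mem_sdiff.1 h.out3).2 (mem_union_left _ ((mem_union.1 k3).resolve_right c)))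
      rw [h.bd_left hZ.1 a b c d] at this
      have := card_insert_le e (bd (mα α f g f2 g2) Z); omega
    rcases h.cases_cut hZ k1 k2 with r | ⟨a, b, c, d⟩ | ⟨a, b, c, d⟩
    · omega
    · exact key h hZ a b c d
    · rw [← h.mα_symm]; exact key h.symm (by rwa [union_comm]) a b c d
  · rw [h.m1, m3]
    rcases h.cases_cut hZ k1 k2 with r | r
    · omega
    · exact r

/-- a small cut of the middle net enlarges the pole `P` -/
lemma grow (h : Mid v S α P Q e f g f2 g2) (hZ : Closed v (S \ (P ∪ Q)) Z) (h1 : α f ∈ Z)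
    (h2 : α g ∈ Z) (h3 : α f2 ∉ Z) (h4 : α g2 ∉ Z) (k : (bd (mα α f g f2 g2) Z).card ≤ 2) :
    ∃ x y, bd (mα α f g f2 g2) Z = {x, y} ∧ Mid v S α (P ∪ Z) Q e x y f2 g2 := by
  have k2 : Z ≠ S \ (P ∪ Q) := fun r => h3 (r ▸ h.out3)
  obtain ⟨x, y, xy, hb⟩ := card_eq_two.1 (le_antisymm k (h.chain.conn Z hZ ⟨_, h1⟩ k2))
  have he : e ∉ Z := fun r => by have := hZ.1 r; simp [h.mems.1] at this
  obtain ⟨⟨x1, _⟩, ⟨y1, _⟩, _⟩ := bd_mem2 hb
  refine ⟨x, y, hb, h.net, h.cub, h.conn, h.cP.union (h.cM.trans hZ), h.cQ, ?_, ?_,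
    fun r => he (r ▸ x1), fun r => he (r ▸ y1), xy, h.bQ, h.ef2, h.eg2, h.fg2, α f2, ?_⟩
  · rw [disjoint_union_left]
    exact ⟨h.dis, disjoint_left.2 fun d hd hq => by have := hZ.1 hd; simp [hq] at this⟩
  · rw [h.bd_left hZ.1 h1 h2 h3 h4, hb]
  · have := h.out3; simp_all

end Mid

end Pool.Agent.Lib.IC34
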