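import Pool.Agent.Lib.MP_fb9257_co.Mod3

/-! The poles, and the facts about small models. -/

set_option linter.unusedSectionVars false

namespace Pool.Agent.Lib.IC34.Mod
open Finset

variable {D V : Type*} [DecidableEq D] [DecidableEq V]
variable {v : D → V} {n : ℕ} {a0 : ℕ → ℕ} {φ : ℕ → D} {S X Q : Finset D} {α : D → D}
  {σ τ : D → Z2} {e f g f2 g2 : D}

lemma Ctx.st {s d1 d2 d3 w : ℕ} {a1 a2 a3 q1 q2 q3 : Bool} (h : Ctx v n a0 φ X α σ τ s)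
    (h1 : d1 < n) (h2 : d2 < n) (h3 : d3 < n) {R : (D → Prop) → Prop}
    (hR : ∀ p : D → Prop, (∀ i < n, (p (φ i) ↔ mn w i = true)) → R p)
    (hc : Mod.st n a0 s d1 d2 d3 w a1 a2 a3 q1 q2 q3 = true) :
    St v X α σ τ R (φ d1) (φ d2) (φ d3) (b2 a1) (b2 a2) (b2 a3) q1 q2 q3 := by
  simp only [Mod.st, Bool.and_eq_true, Bool.or_eq_true, beq_iff_eq, Bool.not_eq_true'] at hc
  obtain ⟨⟨⟨⟨⟨⟨c0, rfl⟩, rfl⟩, rfl⟩, c1⟩, c2⟩, c3⟩ := hc
  obtain ⟨r, p, k1, k2⟩ := h.sol0 c0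
  refine ⟨r, p, k1, hR p fun i hi => (k2 i hi).2, ?_, ?_, ?_, fun k => ?_, fun k => ?_, fun k => ?_⟩
  · rw [(k2 _ h1).1]; grind
  · rw [(k2 _ h2).1]; grind
  · rw [(k2 _ h3).1]; grind
  · exact c1.resolve_left (by simp [(k2 _ h1).2.1 k])
  · exact c2.resolve_left (by simp [(k2 _ h2).2.1 k])
  · exact c3.resolve_left (by simp [(k2 _ h3).2.1 k])

lemma Ctx.stN {s d1 d2 d3 w x : ℕ} {a1 a2 a3 q1 q2 q3 : Bool} (h : Ctx v n a0 φ X α σ τ s)
    (h1 : d1 < n) (h2 : d2 < n) (h3 : d3 < n) (hx : x < n) (hx' : a0 x ≠ x)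
    (hc : Mod.stN n a0 s d1 d2 d3 w x a1 a2 a3 q1 q2 q3 = true) :
    St v X α σ τ (RN α (φ x)) (φ d1) (φ d2) (φ d3) (b2 a1) (b2 a2) (b2 a3) q1 q2 q3 := by
  simp only [Mod.stN, Bool.and_eq_true, Bool.not_eq_true'] at hc
  refine h.st h1 h2 h3 (fun p hp => ⟨?_, ?_⟩) hc.2
  · rw [hp x hx]; simp [hc.1.1]
  · rw [h.iso.inn x hx hx', hp _ (h.lt x hx)]; simp [hc.1.2]

lemma sp_of (h : PIso v n a0 φ X α) (hd : 3 ∣ n) (hn : 9 ≤ n ∧ n ≤ 15) (hf : Frame v X α σ τ)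
    {d1 d2 d3 T : ℕ} (h1 : d1 < n) (h2 : d2 < n) (h3 : d3 < n) (n12 : d1 ≠ d2) (n13 : d1 ≠ d3)
    (n23 : d2 ≠ d3) (hc : spc n a0 d1 d2 d3 T = true) : Sp v X α σ τ (φ d1) (φ d2) (φ d3) := by
  simp only [spc, Bool.and_eq_true, List.all_eq_true, List.mem_range, decide_eq_true_eq] at hc
  obtain ⟨⟨c1, c2⟩, c3⟩ := hc
  have hC : Ctx v n a0 φ X α σ τ 0 := .of_frame h hd (fun i hi => (c1 i hi).1) hf
  have hfix : ∀ x < n, (a0 x = x ↔ x = d1 ∨ x = d2 ∨ x = d3) := by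
    intro x hx
    have := beq_iff_eq.1 (c1 x hx).2
    rw [Bool.eq_iff_iff] at this
    simpa [or_assoc] using this
  refine ⟨?_, fun k => n12 (h.inj _ h1 _ h2 k), fun k => n13 (h.inj _ h1 _ h3 k),
    fun k => n23 (h.inj _ h2 _ h3 k), by rw [iso_card h]; exact hn, hf,
    fun a1 a2 a3 q1 q2 q3 k => ?_, fun u hu hu' => ?_, fun u hu hu' => ?_⟩
  · ext d
    simp only [mem_bd, mem_insert, mem_singleton]
    constructor
    · rintro ⟨k1, k2⟩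
      obtain ⟨x, hx, rfl⟩ := (h.mem _).1 k1
      have : a0 x = x := by
        by_contra k
        exact k2 (h.inn x hx k ▸ iso_mem h (c1 x hx).1)
      rcases (hfix x hx).1 this with rfl | rfl | rfl <;> simp
    · rintro (rfl | rfl | rfl)
      · exact ⟨iso_mem h h1, h.out _ h1 ((hfix _ h1).2 (by simp))⟩
      · exact ⟨iso_mem h h2, h.out _ h2 ((hfix _ h2).2 (by simp))⟩
      · exact ⟨iso_mem h h3, h.out _ h3 ((hfix _ h3).2 (by simp))⟩
  · obtain ⟨x1, rfl⟩ := b2_surj a1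
    obtain ⟨x2, rfl⟩ := b2_surj a2
    obtain ⟨x3, rfl⟩ := b2_surj a3
    rw [Kt_b2] at k
    have := c2 x1 x2 x3 q1 q2 q3
    rw [k, Bool.not_true, Bool.false_or] at this
    exact hC.st h1 h2 h3 (fun _ _ => trivial) this
  · obtain ⟨x, hx, rfl⟩ := (h.mem _).1 hu
    have hx' := iso_ne h hx hu'
    have c := c3 x hx
    simp only [Bool.or_eq_true, beq_iff_eq, hx', false_or, Bool.and_eq_true] at c
    have c := c.1
    simp only [in0c, Bool.and_eq_true, decide_eq_true_eq] at c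
    obtain ⟨⟨⟨⟨q1, q2, q3, ⟨⟨⟨⟨k1, k2⟩, k3⟩, k4⟩, k5⟩, k6⟩, k7⟩, k8⟩, k9⟩ := c
    refine ⟨_, _, _, q1, q2, q3, by rw [Kt_b2]; exact k1, by simpa [b2_inj, imp_iff_not_or] using k2,
      (Bool.not_eq_true' _).mp k3, hC.stN (w := wit T (64 + 4 * x)) h1 h2 h3 hx hx' ?_⟩
    simp only [Mod.stN, Mod.st, k4, k5, k6, k7, k8, k9, beq_self_eq_true, Bool.and_self]
  · obtain ⟨x, hx, rfl⟩ := (h.mem _).1 hu
    have hx' := iso_ne h hx hu'
    have c := c3 x hx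
    simp only [Bool.or_eq_true, beq_iff_eq, hx', false_or, Bool.and_eq_true] at c
    rcases c.2 with c | ⟨⟨k1, k2⟩, k3⟩
    · exact Or.inl ((hC.fl hx).stN h1 h2 h3 hx hx' c)
    · exact Or.inr ⟨(hC.fl hx).stN h1 h2 h3 hx hx' k1, (hC.fl hx).stN h1 h2 h3 hx hx' k2,
        (hC.fl hx).stN h1 h2 h3 hx hx' k3⟩

/-- index facts for the marked edges -/
lemma marks {P : Finset D} (hM : Mid v S α P Q e f g f2 g2)
    (h : PIso v n a0 φ (S \ (P ∪ Q)) (mα α f g f2 g2)) (hb : ∀ i < n, a0 i < n ∧ a0 i ≠ i) :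
    ∃ i < n, ∃ j < n, φ i = α f2 ∧ φ (a0 i) = α g2 ∧ φ j = α f ∧ φ (a0 j) = α g ∧
      j ≠ i ∧ j ≠ a0 i ∧ a0 j ≠ i ∧ a0 j ≠ a0 i := by
  obtain ⟨i, hi, e1⟩ := (h.mem _).1 hM.out3
  obtain ⟨j, hj, e2⟩ := (h.mem _).1 hM.out1
  have e3 : φ (a0 i) = α g2 := by rw [← h.inn i hi (hb i hi).2, e1, Mid.m3]
  have e4 : φ (a0 j) = α g := by rw [← h.inn j hj (hb j hj).2, e2, hM.m1]
  obtain ⟨-, n1, n2, n3, n4, -⟩ := hM.nes
  exact ⟨i, hi, j, hj, e1, e3, e2, e4, fun k => n1 (by rw [← e1, ← e2, k]),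
    fun k => n2 (by rw [← e3, ← e2, k]), fun k => n3 (by rw [← e1, ← e4, k]),
    fun k => n4 (by rw [← e3, ← e4, k])⟩

lemma iso_ins1 (hM : Mid v S α {e, f, g} Q e f g f2 g2) (hf : v f = v e) (hg : v g = v e)
    (h : PIso v n a0 φ (S \ ({e, f, g} ∪ Q)) (mα α f g f2 g2)) (hd : 3 ∣ n)
    (hb : ∀ i < n, a0 i < n ∧ a0 i ≠ i) {i j : ℕ} (hi : i < n) (hj : j < n) (e1 : φ i = α f2)
    (e2 : φ (a0 i) = α g2) (e3 : φ j = α f) (e4 : φ (a0 j) = α g) :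
    PIso v (n + 3) (ins1 n a0 i j) (ext3 n φ e f g) (S \ Q) α := by
  obtain ⟨-, -, -, m1, m2, m3⟩ := hM.mems
  obtain ⟨-, i1, i2, i3, i4⟩ := hM.invs
  have L := (iso_lab h).ext hd hM.ef hM.eg hM.fg hf hg (Y := S \ Q)
    (fun d hd => (hM.cP.vne (Y := S \ ({e, f, g} ∪ Q)) sdiff_subset
      (disjoint_sdiff.mono_left subset_union_left) e (by simp) d hd).symm) (fun d => by
      have k1 := @hM.cP.1 d
      have k2 := @disjoint_left.1 hM.dis d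
      simp only [mem_sdiff, mem_union, mem_insert, mem_singleton] at k1 k2 ⊢
      tauto)
  have hi' := hb i hi
  have hj' := hb j hj
  refine ⟨L.inj, L.mem, L.vtx, fun x hx k => ?_, fun x hx k => ?_⟩
  · unfold ins1 at k ⊢
    split_ifs at k ⊢ with c1 c2 c3 c4 c5 c6 c7
    · exact absurd rfl k
    · exact absurd rfl k
    · exact absurd rfl k
    · rw [c4, ext3_lt hj, ext3_1, e3, i1]
    · rw [c5, ext3_lt hj'.1, ext3_2, e4, i2]
    · rw [c6, ext3_lt hj, ext3_1, e3]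
    · rw [c7, ext3_lt hj'.1, ext3_2, e4]
    · have hx' : x < n := by omega
      rw [ext3_lt hx', ext3_lt (hb x hx').1, ← h.inn x hx' k, Mid.m5]
      · rw [← e3]; exact fun k => c4 (h.inj _ hx' _ hj k)
      · rw [← e4]; exact fun k => c5 (h.inj _ hx' _ hj'.1 k)
      · rw [← e1]; exact fun k => c1 (h.inj _ hx' _ hi k)
      · rw [← e2]; exact fun k => c2 (h.inj _ hx' _ hi'.1 k)
  · unfold ins1 at k
    split_ifs at k with c1 c2 c3 c4 c5 c6 c7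
    · rw [c1, ext3_lt hi, e1, i3]; exact fun k => (mem_sdiff.1 k).2 m2
    · rw [c2, ext3_lt hi'.1, e2, i4]; exact fun k => (mem_sdiff.1 k).2 m3
    · rw [c3, ext3_0]; exact fun k => (mem_sdiff.1 k).2 m1
    · omega
    · omega
    · omega
    · omega
    · exact absurd k (hb x (by omega)).2

lemma iso_ins2 (hM : Mid v S α {e, f, g} {α e, f2, g2} e f g f2 g2) (hf : v f2 = v (α e))
    (hg : v g2 = v (α e)) (hd : 3 ∣ n) {i j : ℕ} (hi : i < n) (hi' : a0 i < n)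
    (e1 : φ i = α f2) (e2 : φ (a0 i) = α g2)
    (h : PIso v (n + 3) (ins1 n a0 i j) (ext3 n φ e f g) (S \ {α e, f2, g2}) α)
    (hl : ∀ x < n + 3, ins1 n a0 i j x < n + 3)
    (hfix : ∀ x < n + 3, ins1 n a0 i j x = x → x = n ∨ x = i ∨ x = a0 i) :
    PIso v (n + 6) (ins2 n a0 i j) (ext3 (n + 3) (ext3 n φ e f g) (α e) f2 g2) S α := by
  obtain ⟨i0, -, -, i3, i4⟩ := hM.invs
  have L := (iso_lab h).ext (by omega) hM.ef2 hM.eg2 hM.fg2 hf hg (Y := S)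
    (fun d hd => (hM.cQ.vne sdiff_subset disjoint_sdiff (α e) (by simp) d hd).symm) (fun d => by
      have k1 := @hM.cQ.1 d
      simp only [mem_sdiff, mem_insert, mem_singleton] at k1 ⊢
      tauto)
  have E1 : ext3 (n + 3) (ext3 n φ e f g) (α e) f2 g2 (n + 4) = f2 := ext3_1
  have E2 : ext3 (n + 3) (ext3 n φ e f g) (α e) f2 g2 (n + 5) = g2 := ext3_2
  refine ⟨L.inj, L.mem, L.vtx, fun x hx k => ?_, fun x hx k => ?_⟩
  · unfold ins2 at k ⊢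
    split_ifs at k ⊢ with c1 c2 c3 c4 c5 c6
    · rw [c1, ext3_lt (by omega), ext3_0, ext3_0]
    · rw [c2, ext3_0, ext3_lt (by omega), ext3_0, i0]
    · rw [c3, ext3_lt (by omega), ext3_lt hi, E1, e1, i3]
    · rw [c4, E1, ext3_lt (by omega), ext3_lt hi, e1]
    · rw [c5, ext3_lt (by omega), ext3_lt hi', E2, e2, i4]
    · rw [c6, E2, ext3_lt (by omega), ext3_lt hi', e2]
    · have hx' : x < n + 3 := by omega
      rw [ext3_lt hx', ext3_lt (hl x hx'), h.inn x hx' k]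
  · unfold ins2 at k
    split_ifs at k with c1 c2 c3 c4 c5 c6
    any_goals omega
    have := hfix x (by omega) k
    omega

lemma ins_row {b0 : ℕ → ℕ} {L M : List ℕ} (hL : insAll n a0 b0 L M = true) {i j : ℕ} (hi : i < n)
    (hj : j < n) (n1 : j ≠ i) (n2 : j ≠ a0 i) (hd : n = 12 → disj a0 i j = true) :
    ∃ T ψ, spc (n + 3) (ins1 n a0 i j) n i (a0 i) T = true ∧
      permc (n + 6) b0 (ins2 n a0 i j) ψ = true := by
  have := List.all_eq_true.1 (List.all_eq_true.1 hL i (List.mem_range.2 hi)) j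
    (List.mem_range.2 hj)
  simp only [Bool.or_eq_true, beq_iff_eq, n1, n2, false_or, Bool.and_eq_true] at this
  rcases this with ⟨k1, k2⟩ | k
  · simp [hd k1] at k2
  · exact ⟨_, _, k⟩

lemma frame_ins {m : Z2} (hM : Mid v S α {e, f, g} Q e f g f2 g2) (hf : v f = v e)
    (hg : v g = v e)
    (hτ : Frame v (S \ ({e, f, g} ∪ Q)) (mα α f g f2 g2) (mσ α σ f f2 (σ f + σ g) m) τ) :
    ∃ τ, Frame v (S \ Q) α σ τ ∧ τ (α f2) + τ (α g2) = σ (α f2) + σ (α g2) + m := by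
  obtain ⟨-, -, -, m1, m2, m3⟩ := hM.mems
  obtain ⟨-, i1, i2, i3, i4⟩ := hM.invs
  obtain ⟨n0, n1, n2, n3, n4, n5⟩ := hM.nes
  set P : Finset D := {e, f, g} with hP
  set τ' : D → Z2 := fun d => if d ∈ P then τ (α f) + σ f + σ (α f) else τ d with hτ'
  have tP : ∀ d ∈ P, τ' d = τ (α f) + σ f + σ (α f) := fun d hd => by simp [hτ', hd]
  have tB : ∀ d ∈ S \ (P ∪ Q), τ' d = τ d := fun d hd => by
    have : d ∉ P := fun k => (mem_sdiff.1 hd).2 (mem_union_left _ k)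
    simp [hτ', this]
  have split : ∀ d ∈ S \ Q, d ∈ P ∨ d ∈ S \ (P ∪ Q) := fun d hd => by
    simp only [mem_sdiff, mem_union] at hd ⊢; tauto
  have vP : ∀ x ∈ P, ∀ y ∈ S \ (P ∪ Q), v x ≠ v y :=
    hM.cP.vne sdiff_subset (disjoint_sdiff.mono_left subset_union_left)
  have e1 := hτ.2 _ hM.out1 (by rw [hM.m1]; exact hM.out2)
  have e2 := hτ.2 _ hM.out3 (by rw [Mid.m3]; exact hM.out4)
  rw [hM.m1] at e1
  rw [Mid.m3] at e2
  simp only [mσ, fl_ne _ n1, fl_ne _ n3, fl_ne _ n0.symm, fl_ne _ n5.symm, fl_ne _ n2.symm,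
    fl_ne _ n1.symm, fl_self] at e1 e2
  have ef : σ f + σ (α f) = τ' f + τ' (α f) := by
    rw [tP f (by simp [hP]), tB _ hM.out1]; grind
  have eg : σ g + σ (α g) = τ' g + τ' (α g) := by
    rw [tP g (by simp [hP]), tB _ hM.out2]; grind
  refine ⟨τ', ⟨fun d hd x hx k => ?_, fun d hd hd' => ?_⟩, ?_⟩
  · rcases split d hd with h1 | h1 <;> rcases split x hx with h2 | h2
    · rw [tP d h1, tP x h2]
    · exact absurd k.symm (vP d h1 x h2)
    · exact absurd k (vP x h2 d h1)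
    · rw [tB d h1, tB x h2, hτ.1 d h1 x h2 k]
  · rcases split d hd with h1 | h1
    · simp only [hP, mem_insert, mem_singleton] at h1
      rcases h1 with rfl | rfl | rfl
      · exact absurd m1 (mem_sdiff.1 hd').2
      · exact ef
      · exact eg
    · by_cases k : α d ∈ S \ (P ∪ Q)
      · obtain ⟨a1, a2, a3, a4⟩ := hM.inner k
        obtain ⟨b1, -, b3, -⟩ := hM.inner (d := α d)
          (by rwa [hM.net.inv d (mem_sdiff.1 hd).1])
        have := hτ.2 d h1 (by rwa [Mid.m5 a1 a2 a3 a4])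
        rw [Mid.m5 a1 a2 a3 a4] at this
        simp only [mσ, fl_ne _ a1, fl_ne _ a3, fl_ne _ b1, fl_ne _ b3] at this
        rw [tB d h1, tB _ k, this]
      · rcases hM.bdM h1 k with rfl | rfl | rfl | rfl
        · rw [i1, add_comm, ef, add_comm]
        · rw [i2, add_comm, eg, add_comm]
        · exact absurd m2 (i3 ▸ (mem_sdiff.1 hd').2)
        · exact absurd m3 (i4 ▸ (mem_sdiff.1 hd').2)
  · rw [tB _ hM.out3, tB _ hM.out4, ← e2]; ring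

lemma sp_gen {b0 : ℕ → ℕ} {L M : List ℕ} (hM : Mid v S α {e, f, g} Q e f g f2 g2)
    (hf : v f = v e) (hg : v g = v e) (h : PIso v n a0 φ (S \ ({e, f, g} ∪ Q)) (mα α f g f2 g2))
    (hn : n = 6 ∨ n = 12) (hb : ∀ i < n, a0 i < n ∧ a0 i ≠ i) (hL : insAll n a0 b0 L M = true)
    (hd : n = 12 → K4d v (S \ ({e, f, g} ∪ Q)) (mα α f g f2 g2) (α f2) (α f)) :
    ∃ i < n, ∃ j, φ i = α f2 ∧ φ (a0 i) = α g2 ∧
      PIso v (n + 3) (ins1 n a0 i j) (ext3 n φ e f g) (S \ Q) α ∧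
      ∃ T ψ, spc (n + 3) (ins1 n a0 i j) n i (a0 i) T = true ∧
        permc (n + 6) b0 (ins2 n a0 i j) ψ = true := by
  obtain ⟨i, hi, j, hj, e1, e2, e3, e4, n1, n2, -, -⟩ := marks hM h hb
  refine ⟨i, hi, j, e1, e2, iso_ins1 hM hf hg h (by omega) hb hi hj e1 e2 e3 e4,
    ins_row hL hi hj n1 n2 fun k => (disj_iff h hb hi hj).2 ?_⟩
  rw [e1, e3]; exact (hd k).2.2.2

lemma sp_fin {b0 : ℕ → ℕ} {L M : List ℕ} (hM : Mid v S α {e, f, g} Q e f g f2 g2)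
    (hf : v f = v e) (hg : v g = v e) (h : PIso v n a0 φ (S \ ({e, f, g} ∪ Q)) (mα α f g f2 g2))
    (hn : n = 6 ∨ n = 12) (hb : ∀ i < n, a0 i < n ∧ a0 i ≠ i) (hL : insAll n a0 b0 L M = true)
    (hd : n = 12 → K4d v (S \ ({e, f, g} ∪ Q)) (mα α f g f2 g2) (α f2) (α f))
    (hτ : Frame v (S \ Q) α σ τ) : Sp v (S \ Q) α σ τ e (α f2) (α g2) := by
  obtain ⟨i, hi, j, e1, e2, k, T, -, c, -⟩ := sp_gen hM hf hg h hn hb hL hd
  have hi' := hb i hi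
  have := sp_of k (by omega) (by omega) hτ (by omega) (by omega) (by omega) (by omega) (by omega)
    hi'.2.symm c
  rwa [ext3_0, ext3_lt hi, ext3_lt hi'.1, e1, e2] at this

lemma iso_fin {b0 : ℕ → ℕ} {L M : List ℕ} (hM : Mid v S α {e, f, g} {α e, f2, g2} e f g f2 g2)
    (hf : v f = v e) (hg : v g = v e) (hf2 : v f2 = v (α e)) (hg2 : v g2 = v (α e))
    (h : PIso v n a0 φ (S \ ({e, f, g} ∪ {α e, f2, g2})) (mα α f g f2 g2))
    (hn : n = 6 ∨ n = 12) (hb : ∀ i < n, a0 i < n ∧ a0 i ≠ i) (hL : insAll n a0 b0 L M = true)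
    (hd : n = 12 → K4d v (S \ ({e, f, g} ∪ {α e, f2, g2})) (mα α f g f2 g2) (α f2) (α f)) :
    ∃ φ', PIso v (n + 6) b0 φ' S α := by
  obtain ⟨i, hi, j, e1, e2, k, T, ψ, c, c'⟩ := sp_gen hM hf hg h hn hb hL hd
  simp only [spc, Bool.and_eq_true, List.all_eq_true, List.mem_range, decide_eq_true_eq] at c
  refine ⟨_, iso_comp (iso_ins2 hM hf2 hg2 (by omega) hi (hb i hi).1 e1 e2 k
    (fun x hx => (c.1.1 x hx).1) fun x hx k => ?_) c'⟩
  have := beq_iff_eq.1 (c.1.1 x hx).2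
  rw [Bool.eq_iff_iff] at this
  simpa [k, or_assoc] using this

end Pool.Agent.Lib.IC34.Mod

namespace Pool.Agent.Lib.IC34
open Pool.Agent.Lib.IC34.Mod

theorem models {D V : Type*} [DecidableEq D] [DecidableEq V] (v : D → V) : Models v where
  th := fun _ _ => th_ok
  cardTH := fun _ _ ⟨_, h⟩ => iso_card h
  cardK4 := fun _ _ ⟨_, h⟩ => iso_card h
  goodTH := fun _ _ => good_TH
  tp := fun _ _ _ _ _ => tp_ok
  other := fun _ _ _ _ _ _ => other_ok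
  sp := by
    rintro S α σ Q e f g f2 g2 m hM hf hg ⟨⟨τ, hτ⟩, h⟩
    obtain ⟨τ', h1, h2⟩ := frame_ins hM hf hg hτ
    refine ⟨τ', ?_, h2⟩
    rcases h with ⟨φ, h⟩ | h
    · exact sp_fin hM hf hg h (Or.inl rfl) basTH insTH (fun k => by omega) h1
    · obtain ⟨φ, k⟩ := h.1
      exact sp_fin hM hf hg k (Or.inr rfl) basK4 insK4 (fun _ => h) h1
  k4 := by
    rintro S α e f g f2 g2 hM hf hg hf2 hg2 ⟨φ, h⟩
    exact iso_fin hM hf hg hf2 hg2 h (Or.inl rfl) basTH insTH fun k => by omega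
  k33 := by
    intro S α e f g f2 g2 hM hf hg hf2 hg2 h
    obtain ⟨φ, k⟩ := h.1
    exact iso_fin hM hf hg hf2 hg2 k (Or.inr rfl) basK4 insK4 fun _ => h

end Pool.Agent.Lib.IC34
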