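import Pool.Agent.Lib.MP_fb9257_co.Mid

/-! Transport of solutions from small models. -/

set_option linter.unusedSectionVars false

namespace Pool.Agent.Lib.IC34.Mod
open Finset

variable {D V : Type*} [DecidableEq D] [DecidableEq V]

def b2 (b : Bool) : Z2 := if b then 1 else 0

lemma b2_xor (a b : Bool) : b2 (a ^^ b) = b2 a + b2 b := by revert a b; decide
lemma b2_surj (z : Z2) : ∃ b, b2 b = z := by revert z; decide
lemma b2_inj {a b : Bool} : b2 a = b2 b ↔ a = b := by revert a b; decide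

/-- the bits `i` and `j` of `u` differ -/
def df (u i j : ℕ) : Bool :=
  Nat.beq (Nat.land (Nat.xor (Nat.shiftRight u i) (Nat.shiftRight u j)) 1) 1

lemma df_eq (u i j : ℕ) : df u i j = (u.testBit i ^^ u.testBit j) := by
  have : df u i j = ((u >>> i) ^^^ (u >>> j)).testBit 0 := by
    rw [Nat.testBit_zero, ← Nat.and_one_is_mod, Bool.eq_iff_iff]
    simp only [df, Nat.beq_eq, decide_eq_true_eq]
    rfl
  rw [this, Nat.testBit_xor, Nat.testBit_shiftRight, Nat.testBit_shiftRight, add_zero, add_zero]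

/-- `i` is the minority dart of its vertex -/
def mn (w i : ℕ) : Bool :=
  df w (Nat.add (Nat.mul 3 (Nat.div i 3)) (Nat.mod (Nat.add i 1) 3)) i &&
    df w (Nat.add (Nat.mul 3 (Nat.div i 3)) (Nat.mod (Nat.add i 2) 3)) i

lemma mn_eq (w i : ℕ) : mn w i = ((w.testBit (3 * (i / 3) + (i + 1) % 3) ^^ w.testBit i) &&
    (w.testBit (3 * (i / 3) + (i + 2) % 3) ^^ w.testBit i)) := by
  rw [mn, df_eq, df_eq]; rfl

/-- `w` is a solution of the model with signs `s` and wild dart `k` -/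
def sol (m : ℕ) (a0 : ℕ → ℕ) (s k w : ℕ) : Bool :=
  (List.range m).all fun i =>
    (df w (Nat.mul 3 (Nat.div i 3)) (Nat.add (Nat.mul 3 (Nat.div i 3)) 1) ||
      df w (Nat.mul 3 (Nat.div i 3)) (Nat.add (Nat.mul 3 (Nat.div i 3)) 2)) &&
    (Nat.beq (a0 i) i || (df (Nat.xor w s) i (a0 i) &&
      (!(mn w i && mn w (a0 i)) || Nat.beq i k || Nat.beq (a0 i) k)))

lemma sol_spec {m : ℕ} {a0 : ℕ → ℕ} {s k w : ℕ} (h : sol m a0 s k w = true) {i : ℕ}
    (hi : i < m) : (∃ x, x / 3 = i / 3 ∧ mn w x = true) ∧ (a0 i ≠ i →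
      ((w.testBit i ^^ s.testBit i) ^^ (w.testBit (a0 i) ^^ s.testBit (a0 i))) = true ∧
      (mn w i = true → mn w (a0 i) = true → i = k ∨ a0 i = k)) := by
  have e := List.all_eq_true.1 h i (List.mem_range.2 hi)
  simp only [Bool.and_eq_true, Bool.or_eq_true, Nat.beq_eq, df_eq] at e
  refine ⟨?_, fun hk => ?_⟩
  · have e1 : (w.testBit (3 * (i / 3)) ^^ w.testBit (3 * (i / 3) + 1)) = true ∨
        (w.testBit (3 * (i / 3)) ^^ w.testBit (3 * (i / 3) + 2)) = true := e.1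
    have m0 := mn_eq w (3 * (i / 3))
    have m1 := mn_eq w (3 * (i / 3) + 1)
    have m2 := mn_eq w (3 * (i / 3) + 2)
    rw [show 3 * (3 * (i / 3) / 3) + (3 * (i / 3) + 1) % 3 = 3 * (i / 3) + 1 by omega,
      show 3 * (3 * (i / 3) / 3) + (3 * (i / 3) + 2) % 3 = 3 * (i / 3) + 2 by omega] at m0
    rw [show 3 * ((3 * (i / 3) + 1) / 3) + (3 * (i / 3) + 1 + 1) % 3 = 3 * (i / 3) + 2 by omega,
      show 3 * ((3 * (i / 3) + 1) / 3) + (3 * (i / 3) + 1 + 2) % 3 = 3 * (i / 3) by omega] at m1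
    rw [show 3 * ((3 * (i / 3) + 2) / 3) + (3 * (i / 3) + 2 + 1) % 3 = 3 * (i / 3) by omega,
      show 3 * ((3 * (i / 3) + 2) / 3) + (3 * (i / 3) + 2 + 2) % 3 = 3 * (i / 3) + 1 by omega] at m2
    have : mn w (3 * (i / 3)) = true ∨ mn w (3 * (i / 3) + 1) = true ∨
        mn w (3 * (i / 3) + 2) = true := by
      rw [m0, m1, m2]
      revert e1
      generalize w.testBit (3 * (i / 3)) = a, w.testBit (3 * (i / 3) + 1) = b,
        w.testBit (3 * (i / 3) + 2) = c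
      revert a b c; decide
    rcases this with e | e | e <;> exact ⟨_, by omega, e⟩
  · obtain ⟨e1, e2⟩ := e.2.resolve_left hk
    refine ⟨?_, fun p1 p2 => ?_⟩
    · rw [← Nat.testBit_xor, ← Nat.testBit_xor]; exact e1
    · simpa [p1, p2] using e2

/-- `s` is balanced, with potential `t` -/
def bal (m : ℕ) (a0 : ℕ → ℕ) (s t : ℕ) : Bool :=
  (List.range m).all fun i =>
    (s.testBit i ^^ s.testBit (a0 i)) == (t.testBit (i / 3) ^^ t.testBit (a0 i / 3))

structure Ctx (v : D → V) (m : ℕ) (a0 : ℕ → ℕ) (φ : ℕ → D) (X : Finset D) (α : D → D)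
    (σ τ : D → Z2) (s : ℕ) : Prop where
  iso : PIso v m a0 φ X α
  dvd : 3 ∣ m
  lt : ∀ i < m, a0 i < m
  cst : ∀ d ∈ X, ∀ x ∈ X, v x = v d → τ x = τ d
  sgn : ∀ i < m, a0 i ≠ i → σ (φ i) + σ (φ (a0 i)) =
    τ (φ i) + τ (φ (a0 i)) + b2 (s.testBit i) + b2 (s.testBit (a0 i))

variable {v : D → V} {m : ℕ} {a0 : ℕ → ℕ} {φ : ℕ → D} {X : Finset D} {α : D → D} {σ τ : D → Z2}
  {s : ℕ}

lemma iso_mem (h : PIso v m a0 φ X α) {i : ℕ} (hi : i < m) : φ i ∈ X := (h.mem _).2 ⟨i, hi, rfl⟩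

lemma iso_idx (h : PIso v m a0 φ X α) : ∃ ι : D → ℕ, ∀ i < m, ι (φ i) = i := by
  refine ⟨Function.invFunOn φ (Set.Iio m), fun i hi => ?_⟩
  exact Set.InjOn.leftInvOn_invFunOn (fun i hi j hj e => h.inj i hi j hj e) hi

lemma iso_ne (h : PIso v m a0 φ X α) {i : ℕ} (hi : i < m) (k : α (φ i) ∈ X) : a0 i ≠ i :=
  fun e => h.out i hi e k

lemma iso_card (h : PIso v m a0 φ X α) : X.card = m := by
  have : X = (range m).image φ := by
    ext d; simp [h.mem]
  rw [this, card_image_of_injOn, card_range]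
  intro i hi j hj e
  exact h.inj i (by simpa using hi) j (by simpa using hj) e

lemma Ctx.of_frame (h : PIso v m a0 φ X α) (hm : 3 ∣ m) (hl : ∀ i < m, a0 i < m)
    (hf : Frame v X α σ τ) : Ctx v m a0 φ X α σ τ 0 := by
  refine ⟨h, hm, hl, hf.1, fun i hi k => ?_⟩
  have e := h.inn i hi k
  have := hf.2 _ (iso_mem h hi) (e ▸ iso_mem h (hl i hi))
  rw [e] at this
  simp [this, b2]

lemma Ctx.of_any (h : PIso v m a0 φ X α) (hm : 3 ∣ m) (hl : ∀ i < m, a0 i < m) (σ : D → Z2) :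
    ∃ s < 2 ^ m, Ctx v m a0 φ X α σ (fun _ => 0) s := by
  choose c hc using b2_surj
  refine ⟨Nat.ofBits fun i : Fin m => c (σ (φ i)), Nat.ofBits_lt_two_pow _, h, hm, hl,
    fun _ _ _ _ _ => rfl, fun i hi _ => ?_⟩
  rw [Nat.testBit_ofBits_lt _ _ hi, Nat.testBit_ofBits_lt _ _ (hl i hi), hc, hc]
  simp

lemma Ctx.fl (h : Ctx v m a0 φ X α σ τ s) {j : ℕ} (hj : j < m) :
    Ctx v m a0 φ X α (fl σ (φ j) 1) τ (s ^^^ 2 ^ j) := by
  have key : ∀ i < m, IC34.fl σ (φ j) 1 (φ i) = σ (φ i) + b2 (decide (j = i)) := by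
    intro i hi
    by_cases e : j = i
    · subst e; simp [b2]
    · rw [fl_ne _ fun k => e (h.iso.inj i hi j hj k).symm]; simp [b2, e]
  refine ⟨h.iso, h.dvd, h.lt, h.cst, fun i hi k => ?_⟩
  have := h.sgn i hi k
  rw [key i hi, key _ (h.lt i hi), Nat.testBit_xor, Nat.testBit_xor, Nat.testBit_two_pow,
    Nat.testBit_two_pow, b2_xor, b2_xor]
  grind

lemma Ctx.bal (h : Ctx v m a0 φ X α σ τ s) {t : ℕ} (hb : bal m a0 s t = true) : Bal v X α σ := by
  obtain ⟨ι, hι⟩ := iso_idx h.iso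
  refine ⟨fun d => τ d + b2 (t.testBit (ι d / 3)), fun d hd x hx e => ?_, fun d hd hd' => ?_⟩
  · obtain ⟨i, hi, rfl⟩ := (h.iso.mem _).1 hd
    obtain ⟨j, hj, rfl⟩ := (h.iso.mem _).1 hx
    simp only [hι i hi, hι j hj, h.cst _ hd _ hx e, (h.iso.vtx j hj i hi).1 e]
  · obtain ⟨i, hi, rfl⟩ := (h.iso.mem _).1 hd
    have k := iso_ne h.iso hi hd'
    have e := List.all_eq_true.1 hb i (List.mem_range.2 hi)
    have e' := congrArg b2 (beq_iff_eq.1 e)
    rw [b2_xor, b2_xor] at e'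
    have := h.sgn i hi k
    simp only [h.iso.inn i hi k, hι i hi, hι _ (h.lt i hi)]
    grind

lemma Ctx.v3 (h : Ctx v m a0 φ X α σ τ s) {r : D → Z2} {p : D → Prop} {w : ℕ}
    (hr : ∀ i < m, r (φ i) = b2 (w.testBit i) + τ (φ i) ∧ (p (φ i) ↔ mn w i = true))
    {i x : ℕ} (hi : i < m) (hx : x / 3 = i / 3) (hm : mn w x = true) :
    V3 (fib v X (φ i)) r p := by
  have hd := h.dvd
  set y := 3 * (x / 3) + (x + 1) % 3 with hy
  set z := 3 * (x / 3) + (x + 2) % 3 with hz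
  have xm : x < m := by omega
  have ym : y < m := by omega
  have zm : z < m := by omega
  have cy := h.cst _ (iso_mem h.iso xm) _ (iso_mem h.iso ym) ((h.iso.vtx y ym x xm).2 (by omega))
  have cz := h.cst _ (iso_mem h.iso xm) _ (iso_mem h.iso zm) ((h.iso.vtx z zm x xm).2 (by omega))
  have hm' := hm
  rw [mn_eq, ← hy, ← hz] at hm'
  refine ⟨φ x, φ y, φ z, ?_, fun e => ?_, fun e => ?_, fun e => ?_, ?_, ?_, (hr x xm).2.2 hm⟩
  · ext d
    simp only [mem_fib, mem_insert, mem_singleton]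
    constructor
    · rintro ⟨h1, h2⟩
      obtain ⟨j, hj, rfl⟩ := (h.iso.mem _).1 h1
      have := (h.iso.vtx j hj i hi).1 h2
      have : j = x ∨ j = y ∨ j = z := by omega
      rcases this with rfl | rfl | rfl <;> simp
    · rintro (rfl | rfl | rfl)
      · exact ⟨iso_mem h.iso xm, (h.iso.vtx x xm i hi).2 (by omega)⟩
      · exact ⟨iso_mem h.iso ym, (h.iso.vtx y ym i hi).2 (by omega)⟩
      · exact ⟨iso_mem h.iso zm, (h.iso.vtx z zm i hi).2 (by omega)⟩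
  · have := h.iso.inj _ xm _ ym e; omega
  · have := h.iso.inj _ xm _ zm e; omega
  · have := h.iso.inj _ ym _ zm e; omega
  · rw [(hr x xm).1, (hr y ym).1, cy]
    have : b2 (w.testBit x) + b2 (w.testBit y) = 1 := by
      revert hm'
      generalize w.testBit x = a, w.testBit y = b, w.testBit z = c
      revert a b c; decide
    grind
  · rw [(hr z zm).1, (hr y ym).1, cy, cz]
    have : w.testBit y = w.testBit z := by
      revert hm'
      generalize w.testBit x = a, w.testBit y = b, w.testBit z = c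
      revert a b c; decide
    rw [this]

lemma Ctx.sol (h : Ctx v m a0 φ X α σ τ s) {W : D → Prop} {k w : ℕ} (hW : k < m → W (φ k))
    (hc : sol m a0 s k w = true) : ∃ r p, Sol v X α σ W r p ∧
      ∀ i < m, r (φ i) = b2 (w.testBit i) + τ (φ i) ∧ (p (φ i) ↔ mn w i = true) := by
  obtain ⟨ι, hι⟩ := iso_idx h.iso
  have hr : ∀ i < m, (fun d => b2 (w.testBit (ι d)) + τ d) (φ i) = b2 (w.testBit i) + τ (φ i) ∧
      ((fun d => mn w (ι d) = true) (φ i) ↔ mn w i = true) := fun i hi => by simp [hι i hi]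
  refine ⟨fun d => b2 (w.testBit (ι d)) + τ d, fun d => mn w (ι d) = true,
    ⟨fun d hd => ?_, fun d hd hd' => ?_⟩, hr⟩
  · obtain ⟨i, hi, rfl⟩ := (h.iso.mem _).1 hd
    obtain ⟨x, hx, e⟩ := (sol_spec hc hi).1
    exact Or.inr (Or.inl (h.v3 (r := fun d => b2 (w.testBit (ι d)) + τ d)
      (p := fun d => mn w (ι d) = true) hr hi hx e))
  · obtain ⟨i, hi, rfl⟩ := (h.iso.mem _).1 hd
    have hk := iso_ne h.iso hi hd'
    obtain ⟨e1, e2⟩ := (sol_spec hc hi).2 hk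
    have e' := congrArg b2 e1
    rw [b2_xor, b2_xor, b2_xor] at e'
    have := h.sgn i hi hk
    have b1 : b2 true = 1 := rfl
    simp only [h.iso.inn i hi hk, hι i hi, hι _ (h.lt i hi)]
    refine ⟨by grind, fun p1 p2 => ?_⟩
    rcases e2 p1 p2 with e2 | e2
    · exact Or.inl (e2 ▸ hW (e2 ▸ hi))
    · exact Or.inr (e2 ▸ hW (e2 ▸ h.lt i hi))

lemma Ctx.sol0 (h : Ctx v m a0 φ X α σ τ s) {w : ℕ} (hc : Mod.sol m a0 s m w = true) :
    ∃ r p, Sol v X α σ W0 r p ∧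
      ∀ i < m, r (φ i) = b2 (w.testBit i) + τ (φ i) ∧ (p (φ i) ↔ mn w i = true) :=
  h.sol (fun k => absurd k (lt_irrefl _)) hc

def tt (m : ℕ) (a0 : ℕ → ℕ) (s i j w : ℕ) : Bool :=
  sol m a0 s i w && !mn w j && !mn w (a0 j)

lemma Ctx.tt (h : Ctx v m a0 φ X α σ τ s) {i j w : ℕ} (hj : j < m) (hj' : a0 j ≠ j)
    (hc : tt m a0 s i j w = true) : TT v X α σ (φ i) (φ j) := by
  simp only [Mod.tt, Bool.and_eq_true, Bool.not_eq_true'] at hc
  obtain ⟨r, p, h1, h2⟩ := h.sol (W := (· = φ i)) (fun _ => rfl) hc.1.1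
  refine ⟨r, p, h1, ?_, ?_⟩
  · rw [(h2 j hj).2]; simp [hc.1.2]
  · rw [h.iso.inn j hj hj', (h2 _ (h.lt j hj)).2]; simp [hc.2]

def opt (a0 : ℕ → ℕ) (w i : ℕ) (c : Bool) : Bool :=
  (!mn w i && c == w.testBit i) || (!mn w (a0 i) && c == !w.testBit i)

lemma Ctx.opt (h : Ctx v m a0 φ X α σ τ s) {r : D → Z2} {p : D → Prop} {w i : ℕ} {c : Bool}
    (hr : ∀ i < m, r (φ i) = b2 (w.testBit i) + τ (φ i) ∧ (p (φ i) ↔ mn w i = true))
    (hi : i < m) (hi' : a0 i ≠ i) (hc : opt a0 w i c = true) :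
    Opt α r p (φ i) (b2 c + τ (φ i)) := by
  simp only [Mod.opt, Bool.and_eq_true, Bool.or_eq_true, Bool.not_eq_true', beq_iff_eq] at hc
  rcases hc with ⟨h1, rfl⟩ | ⟨h1, rfl⟩
  · exact Or.inl ⟨by rw [(hr i hi).2]; simp [h1], (hr i hi).1.symm⟩
  · refine Or.inr ⟨by rw [h.iso.inn i hi hi', (hr _ (h.lt i hi)).2]; simp [h1], ?_⟩
    rw [(hr i hi).1]
    have : ∀ b, b2 (!b) = b2 b + 1 := by decide
    rw [this]; ring

/-! ### labellings -/

structure Lab (v : D → V) (m : ℕ) (φ : ℕ → D) (X : Finset D) : Prop where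
  inj : ∀ i < m, ∀ j < m, φ i = φ j → i = j
  mem : ∀ d, d ∈ X ↔ ∃ i < m, φ i = d
  vtx : ∀ i < m, ∀ j < m, (v (φ i) = v (φ j) ↔ i / 3 = j / 3)

def ext3 (n : ℕ) (φ : ℕ → D) (e f g : D) (x : ℕ) : D :=
  if x < n then φ x else if x = n then e else if x = n + 1 then f else g

lemma ext3_lt {n x : ℕ} {e f g : D} (h : x < n) : ext3 n φ e f g x = φ x := by simp [ext3, h]
lemma ext3_0 {n : ℕ} {e f g : D} : ext3 n φ e f g n = e := by simp [ext3]
lemma ext3_1 {n : ℕ} {e f g : D} : ext3 n φ e f g (n + 1) = f := by simp [ext3]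
lemma ext3_2 {n : ℕ} {e f g : D} : ext3 n φ e f g (n + 2) = g := by simp [ext3]

lemma Lab.ext (h : Lab v m φ X) (hm : 3 ∣ m) {e f g : D} {Y : Finset D} (ef : e ≠ f) (eg : e ≠ g)
    (fg : f ≠ g) (hf : v f = v e) (hg : v g = v e) (hv : ∀ d ∈ X, v d ≠ v e)
    (hY : ∀ d, d ∈ Y ↔ d ∈ X ∨ d = e ∨ d = f ∨ d = g) : Lab v (m + 3) (ext3 m φ e f g) Y := by
  have hv' : ∀ i < m, v (φ i) ≠ v e := fun i hi => hv _ ((h.mem _).2 ⟨i, hi, rfl⟩)
  have hve : ∀ i, m ≤ i → v (ext3 m φ e f g i) = v e := by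
    intro i hi
    unfold ext3; rw [if_neg (by omega)]; split_ifs <;> simp [hf, hg]
  have hvtx : ∀ i < m + 3, ∀ j < m + 3,
      (v (ext3 m φ e f g i) = v (ext3 m φ e f g j) ↔ i / 3 = j / 3) := by
    intro i hi j hj
    rcases lt_or_ge i m with h1 | h1 <;> rcases lt_or_ge j m with h2 | h2
    · rw [ext3_lt h1, ext3_lt h2]; exact h.vtx i h1 j h2
    · rw [ext3_lt h1, hve j h2]; exact iff_of_false (hv' i h1) (by omega)
    · rw [ext3_lt h2, hve i h1]; exact iff_of_false (hv' j h2).symm (by omega)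
    · rw [hve i h1, hve j h2]; exact iff_of_true rfl (by omega)
  refine ⟨fun i hi j hj k => ?_, fun d => ?_, hvtx⟩
  · have k3 := (hvtx i hi j hj).1 (by rw [k])
    rcases lt_or_ge i m with h1 | h1
    · have h2 : j < m := by omega
      rw [ext3_lt h1, ext3_lt h2] at k; exact h.inj i h1 j h2 k
    · have a1 : i = m ∨ i = m + 1 ∨ i = m + 2 := by omega
      have a2 : j = m ∨ j = m + 1 ∨ j = m + 2 := by omega
      rcases a1 with rfl | rfl | rfl <;> rcases a2 with rfl | rfl | rfl <;>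
        simp only [ext3_0, ext3_1, ext3_2] at k <;> simp_all
  · rw [hY, h.mem]
    constructor
    · rintro (⟨i, hi, rfl⟩ | rfl | rfl | rfl)
      · exact ⟨i, by omega, ext3_lt hi⟩
      · exact ⟨m, by omega, ext3_0⟩
      · exact ⟨m + 1, by omega, ext3_1⟩
      · exact ⟨m + 2, by omega, ext3_2⟩
    · rintro ⟨i, hi, rfl⟩
      have : i < m ∨ i = m ∨ i = m + 1 ∨ i = m + 2 := by omega
      rcases this with h1 | rfl | rfl | rfl
      · exact Or.inl ⟨i, h1, (ext3_lt h1).symm⟩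
      · simp [ext3_0]
      · simp [ext3_1]
      · simp [ext3_2]

lemma iso_lab (h : PIso v m a0 φ X α) : Lab v m φ X := ⟨h.inj, h.mem, h.vtx⟩

/-- `ψ` is an isomorphism from the model `b0` to the model `a0` -/
def permc (m : ℕ) (b0 a0 ψ : ℕ → ℕ) : Bool :=
  (List.range m).all fun k => decide (ψ k < m) && decide (b0 k < m) && a0 (ψ k) == ψ (b0 k) &&
    (List.range m).any (fun l => ψ l == k) &&
    (List.range m).all fun l => (ψ k / 3 == ψ l / 3) == (k / 3 == l / 3) &&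
      (ψ k != ψ l || k == l)

lemma iso_comp (h : PIso v m a0 φ X α) {b0 ψ : ℕ → ℕ} (hc : permc m b0 a0 ψ = true) :
    PIso v m b0 (fun k => φ (ψ k)) X α := by
  simp only [permc, List.all_eq_true, List.any_eq_true, List.mem_range, Bool.and_eq_true,
    Bool.or_eq_true, decide_eq_true_eq, beq_iff_eq, bne_iff_ne] at hc
  have inj : ∀ k < m, ∀ l < m, ψ k = ψ l → k = l := fun k hk l hl e =>
    ((hc k hk).2 l hl).2.resolve_left fun k => k e
  refine ⟨fun k hk l hl e => inj k hk l hl (h.inj _ (hc k hk).1.1.1.1 _ (hc l hl).1.1.1.1 e),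
    fun d => ?_, fun k hk l hl => ?_, fun k hk e => ?_, fun k hk e => ?_⟩
  · rw [h.mem]
    constructor
    · rintro ⟨i, hi, rfl⟩
      obtain ⟨l, hl, e⟩ := (hc i hi).1.2
      exact ⟨l, hl, by rw [e]⟩
    · rintro ⟨k, hk, rfl⟩
      exact ⟨_, (hc k hk).1.1.1.1, rfl⟩
  · rw [h.vtx _ (hc k hk).1.1.1.1 _ (hc l hl).1.1.1.1]
    have := ((hc k hk).2 l hl).1
    rw [Bool.eq_iff_iff] at this
    simpa using this
  · rw [← (hc k hk).1.1.2]
    refine h.inn _ (hc k hk).1.1.1.1 fun e' => e ?_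
    rw [(hc k hk).1.1.2] at e'
    exact inj _ (hc k hk).1.1.1.2 _ hk e'
  · exact h.out _ (hc k hk).1.1.1.1 (by rw [(hc k hk).1.1.2, e])

end Pool.Agent.Lib.IC34.Mod
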