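import Pool.Agent.Lib.MP_fb9257_co.Mod2

/-! The closed models. -/

set_option linter.unusedSectionVars false

namespace Pool.Agent.Lib.IC34.Mod
open Finset

variable {D V : Type*} [DecidableEq D] [DecidableEq V]
variable {v : D → V} {m : ℕ} {a0 : ℕ → ℕ} {φ : ℕ → D} {S : Finset D} {α : D → D} {σ τ : D → Z2}

lemma idx_ne (h : PIso v m a0 φ S α) (hb : ∀ i < m, a0 i < m ∧ a0 i ≠ i) {i j : ℕ} (hi : i < m)
    (h1 : φ j ≠ φ i) (h2 : φ j ≠ α (φ i)) : j ≠ i ∧ j ≠ a0 i :=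
  ⟨fun e => h1 (by rw [e]), fun e => h2 (by rw [e, h.inn i hi (hb i hi).2])⟩

lemma tp_row {L : List ℕ} (hL : tpAll m a0 L = true) {i j : ℕ} (hi : i < m) (hj : j < m)
    (hn : j ≠ i ∧ j ≠ a0 i) : ∃ T, tpc m a0 i j T = true := by
  have := List.all_eq_true.1 (List.all_eq_true.1 hL i (List.mem_range.2 hi)) j
    (List.mem_range.2 hj)
  simp only [Bool.or_eq_true, beq_iff_eq, hn.1, hn.2, false_or] at this
  exact ⟨_, this⟩

lemma disj_iff (h : PIso v m a0 φ S α) (hb : ∀ i < m, a0 i < m ∧ a0 i ≠ i) {i j : ℕ} (hi : i < m)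
    (hj : j < m) : disj a0 i j = true ↔ v (φ i) ≠ v (φ j) ∧ v (φ i) ≠ v (α (φ j)) ∧
      v (α (φ i)) ≠ v (φ j) ∧ v (α (φ i)) ≠ v (α (φ j)) := by
  rw [h.inn i hi (hb i hi).2, h.inn j hj (hb j hj).2]
  simp only [disj, Bool.and_eq_true, bne_iff_ne, ne_eq, h.vtx _ hi _ hj, h.vtx _ hi _ (hb j hj).1,
    h.vtx _ (hb i hi).1 _ hj, h.vtx _ (hb i hi).1 _ (hb j hj).1, and_assoc]

lemma tp_of (h : Ctx v m a0 φ S α σ τ 0) (hb : ∀ i < m, a0 i < m ∧ a0 i ≠ i) {i j T : ℕ}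
    (hi : i < m) (hj : j < m) (hc : tpc m a0 i j T = true)
    (hE : m = 6 ∨ (m = 12 ∧ disj a0 i j = true) → Exc1 v S α σ (φ i) (φ j)) :
    TP v S α σ (φ i) (φ j) := by
  have hcard := iso_card h.iso
  simp only [tpc, Bool.and_eq_true, Bool.or_eq_true, beq_iff_eq, bne_iff_ne] at hc
  obtain ⟨⟨⟨⟨⟨⟨⟨c1, c2⟩, c3⟩, c4⟩, c5⟩, c5'⟩, c6⟩, c7⟩ := hc
  have hi' := (hb i hi).2
  have hj' := (hb j hj).2
  have pvz : ∀ w z, pv m a0 i j w z = true →
      PV v S α (fl σ (φ i) 1) (φ i) (φ j) (b2 z + τ (φ i) + τ (φ j)) := by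
    intro w z hw
    simp only [pv, Bool.and_eq_true, decide_eq_true_eq, beq_iff_eq] at hw
    obtain ⟨hs, c, c', ⟨o1, o2⟩, rfl⟩ := hw
    obtain ⟨r, p, h1, h2⟩ := (h.fl hi).sol0 hs
    exact ⟨r, p, h1, _, _, h.opt h2 hi hi' o1, h.opt h2 hj hj' o2, by rw [b2_xor]; ring⟩
  have n3z : ∀ x < m, ∀ w, n3 m a0 x j w = true →
      ∃ r p, Sol v S α (fl σ (φ j) 1) W0 r p ∧ ¬ p (φ j) ∧ ¬ p (α (φ j)) ∧ ¬ p (φ x) := by
    intro x hx w hw
    simp only [n3, Bool.and_eq_true, Bool.not_eq_true'] at hw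
    obtain ⟨r, p, h1, h2⟩ := (h.fl hj).sol0 hw.1.1.1
    refine ⟨r, p, h1, ?_, ?_, ?_⟩
    · rw [(h2 j hj).2]; simp [hw.1.1.2]
    · rw [h.iso.inn j hj hj', (h2 _ (hb j hj).1).2]; simp [hw.1.2]
    · rw [(h2 x hx).2]; simp [hw.2]
  refine ⟨h.tt hj hj' c1, (h.fl hj).tt hj hj' c2, ?_, ?_, fun s => ?_, ?_, fun h6 => ?_⟩
  · rcases c3 with c | c
    · exact Or.inr (hcard.trans c)
    · exact Or.inl (((h.fl hi).fl hj).tt hj hj' c)
  · rcases c4 with c | c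
    · exact Or.inr (hE c)
    · exact Or.inl ((h.fl hi).tt hj hj' c)
  · obtain ⟨z, hz⟩ := b2_surj (s + τ (φ i) + τ (φ j))
    have e : s = b2 z + τ (φ i) + τ (φ j) := by rw [hz]; grind
    rw [e]
    cases z
    · exact pvz _ _ c5
    · exact pvz _ _ c5'
  · simp only [pv2, Bool.and_eq_true, Bool.not_eq_true', decide_eq_true_eq] at c6
    obtain ⟨⟨⟨⟨s1, s2⟩, n1⟩, n2⟩, q, o1, o2⟩ := c6
    obtain ⟨r, p, h1, h2⟩ := (h.fl hi).sol0 s1
    obtain ⟨r', p', h1', h2'⟩ := (h.fl hi).sol0 s2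
    refine ⟨b2 q + τ (φ i) + τ (φ j), ⟨r, p, h1, ?_, ?_⟩, r', p', h1', ?_, ?_⟩
    · rw [(h2 j hj).2]; simp [n1]
    · convert h.opt h2 hi hi' o1 using 1
      rw [(h2 j hj).1, b2_xor]; grind
    · rw [h.iso.inn j hj hj', (h2' _ (hb j hj).1).2]; simp [n2]
    · convert h.opt h2' hi hi' o2 using 1
      have b1 : b2 true = 1 := rfl
      rw [(h2' j hj).1, b2_xor, b2_xor]; grind
  · have c := c7.resolve_left fun k => k (hcard.symm.trans h6)
    refine ⟨n3z i hi _ c.1, ?_⟩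
    rw [h.iso.inn i hi hi']
    exact n3z _ (hb i hi).1 _ c.2

lemma tp_ok {a b : D} (h : Tight v S α σ) (ha : a ∈ S) (hb : b ∈ S) (h1 : b ≠ a) (h2 : b ≠ α a) :
    TP v S α σ a b := by
  obtain ⟨⟨τ, hτ⟩, ⟨φ, h⟩ | ⟨φ, h⟩ | ⟨φ, h⟩⟩ := h <;> obtain ⟨i, hi, rfl⟩ := (h.mem _).1 ha <;>
    obtain ⟨j, hj, rfl⟩ := (h.mem _).1 hb
  · obtain ⟨T, hT⟩ := tp_row tpTH hi hj (idx_ne h basTH hi h1 h2)
    exact tp_of (.of_frame h (by decide) (fun i hi => (basTH i hi).1) hτ) basTH hi hj hT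
      fun _ => ⟨⟨τ, hτ⟩, Or.inl ⟨φ, h⟩⟩
  · obtain ⟨T, hT⟩ := tp_row tpK4 hi hj (idx_ne h basK4 hi h1 h2)
    exact tp_of (.of_frame h (by decide) (fun i hi => (basK4 i hi).1) hτ) basK4 hi hj hT
      fun k => ⟨⟨τ, hτ⟩, Or.inr ⟨⟨φ, h⟩, ha, hb,
        (disj_iff h basK4 hi hj).1 (k.resolve_left (by decide)).2⟩⟩
  · obtain ⟨T, hT⟩ := tp_row tpK33 hi hj (idx_ne h basK33 hi h1 h2)
    exact tp_of (.of_frame h (by decide) (fun i hi => (basK33 i hi).1) hτ) basK33 hi hj hT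
      fun k => by omega

lemma other_ok {a b c : D} (hB : Bal v S α σ) (hK : K4d v S α a b) (hc : c ∈ S) (h1 : c ≠ a)
    (h2 : c ≠ α a) (h3 : c ≠ b) (h4 : c ≠ α b) : TT v S α (fl σ a 1) a c := by
  obtain ⟨τ, hτ⟩ := hB
  obtain ⟨⟨φ, h⟩, ha, hb, hd⟩ := hK
  obtain ⟨i, hi, rfl⟩ := (h.mem _).1 ha
  obtain ⟨j, hj, rfl⟩ := (h.mem _).1 hb
  obtain ⟨k, hk, rfl⟩ := (h.mem _).1 hc
  obtain ⟨T, hT⟩ := tp_row tpK4 hi hk (idx_ne h basK4 hi h1 h2)
  simp only [tpc, Bool.and_eq_true, Bool.or_eq_true, beq_iff_eq] at hT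
  have n := idx_ne h basK4 hj h3 h4
  have d := disjK4 i hi j hj k hk
  rcases hT.1.1.1.1.2 with (c | c) | c
  · omega
  · simp [(disj_iff h basK4 hi hj).2 hd, c.2, n.1, n.2] at d
  · exact ((Ctx.of_frame h (by decide) (fun i hi => (basK4 i hi).1) hτ).fl hi).tt hk
      (basK4 k hk).2 c

lemma good_TH (h : IsTH v S α) : Good v S α := by
  obtain ⟨φ, h⟩ := h
  have hbal : ∀ σ τ s, Ctx v 6 aTH φ S α σ τ s → balTH s = true → Bal v S α σ := by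
    intro σ τ s hs hb
    rcases Bool.or_eq_true_iff.1 hb with hb | hb <;> exact hs.bal hb
  refine ⟨fun σ t ht => ?_, fun σ w hw e he h1 h2 => ?_⟩
  · obtain ⟨s, hs, hc⟩ := Ctx.of_any h (by decide) (fun i hi => (basTH i hi).1) σ
    obtain ⟨i, hi, rfl⟩ := (h.mem _).1 ht
    have g := List.all_eq_true.1 (List.all_eq_true.1 good_ok s (List.mem_range.2 hs)) i
      (List.mem_range.2 hi)
    simp only [Bool.and_eq_true, Bool.or_eq_true, List.any_eq_true, Bool.not_eq_true'] at g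
    rcases g.1 with g | ⟨b, -, g1, g2⟩
    · exact Or.inr ⟨hbal _ _ _ hc g, Or.inl ⟨φ, h⟩⟩
    · obtain ⟨r, p, k1, k2⟩ := hc.sol0 g1
      exact Or.inl ⟨r, p, k1, by rw [(k2 i hi).2]; simp [g2]⟩
  · obtain ⟨s, hs, hc⟩ := Ctx.of_any h (by decide) (fun i hi => (basTH i hi).1) σ
    obtain ⟨i, hi, rfl⟩ := (h.mem _).1 hw
    obtain ⟨j, hj, rfl⟩ := (h.mem _).1 he
    have g := List.all_eq_true.1 (List.all_eq_true.1 good_ok s (List.mem_range.2 hs)) i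
      (List.mem_range.2 hi)
    have g' := List.all_eq_true.1 (Bool.and_eq_true_iff.1 g).2 j (List.mem_range.2 hj)
    have n := idx_ne h basTH hi h1 h2
    simp only [Bool.or_eq_true, List.any_eq_true, beq_iff_eq, n.1, n.2, false_or] at g'
    rcases g' with (g | g) | ⟨b, -, g⟩
    · exact Or.inr (Or.inl ⟨hbal _ _ _ (hc.fl hi) g, Or.inl ⟨φ, h⟩⟩)
    · exact Or.inr (Or.inr (Or.inl ⟨iso_card h, hbal _ _ _ ((hc.fl hi).fl hj) g,
        Or.inl ⟨φ, h⟩⟩))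
    · exact Or.inl (hc.tt hj (basTH j hj).2 g)

lemma th_ok (hn : GNet S α) (hc : Cub v S) (h3 : Conn v 3 S α) (h6 : S.card = 6) :
    IsTH v S α := by
  obtain ⟨d, hd⟩ : S.Nonempty := card_pos.1 (by omega)
  obtain ⟨x, y, z, xy, xz, yz, hF⟩ := card_eq_three.1 (hc d hd)
  have cF : Closed v S (fib v S d) := closed_fib d
  have hb : bd α (fib v S d) = fib v S d := by
    refine eq_of_subset_of_card_le (filter_subset _ _) ?_
    rw [hc d hd]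
    refine h3 _ cF ⟨d, by simp [hd]⟩ fun e => ?_
    have := hc d hd
    rw [e] at this; omega
  have hx : x ∈ fib v S d := by simp [hF]
  have hy : y ∈ fib v S d := by simp [hF]
  have hz : z ∈ fib v S d := by simp [hF]
  have hcomp : S \ fib v S d = {α x, α y, α z} := by
    have k := hn.bd_compl3 cF.1 (hb.trans hF)
    rw [← k]
    refine (eq_of_subset_of_card_le (filter_subset _ _) ?_).symm
    change _ ≤ (bd α (S \ fib v S d)).card
    rw [hn.card_bd_compl cF.1, hb, card_sdiff_of_subset cF.1, h6, hc d hd]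
  have hx' : α x ∈ S \ fib v S d := by simp [hcomp]
  have hfib : fib v (S \ fib v S d) (α x) = S \ fib v S d := by
    refine eq_of_subset_of_card_le (filter_subset _ _) ?_
    rw [hc.sub cF.compl _ hx', card_sdiff_of_subset cF.1, h6, hc d hd]
  have vy : v (α y) = v (α x) := (mem_fib.1 (hfib.symm ▸ (by simp [hcomp]) :
    α y ∈ fib v (S \ fib v S d) (α x))).2
  have vz : v (α z) = v (α x) := (mem_fib.1 (hfib.symm ▸ (by simp [hcomp]) :
    α z ∈ fib v (S \ fib v S d) (α x))).2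
  have xS := cF.1 hx
  have yS := cF.1 hy
  have zS := cF.1 hz
  have L0 : Lab v 0 (fun _ => x) ∅ := ⟨by simp, by simp, by simp⟩
  have L1 := L0.ext (by decide) xy xz yz (by rw [(mem_fib.1 hx).2, (mem_fib.1 hy).2])
    (by rw [(mem_fib.1 hx).2, (mem_fib.1 hz).2]) (by simp) (Y := fib v S d) (by simp [hF])
  have L2 := L1.ext (by decide) (hn.ne_of xS yS xy) (hn.ne_of xS zS xz) (hn.ne_of yS zS yz) vy vz
    (fun u hu => cF.vne sdiff_subset disjoint_sdiff u hu _ hx') (Y := S) (fun u => by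
      have : u ∈ S \ fib v S d ↔ u = α x ∨ u = α y ∨ u = α z := by simp [hcomp]
      rw [← this, mem_sdiff]
      have := @cF.1 u
      tauto)
  refine ⟨_, L2.inj, L2.mem, L2.vtx, fun i hi _ => ?_, fun i hi e => absurd e (basTH i hi).2⟩
  interval_cases i <;> simp [ext3, aTH, hn.inv, xS, yS, zS]

end Pool.Agent.Lib.IC34.Mod
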