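import Pool.Agent.Lib.MP_fb9257_co.Chain2

/-! States of three-poles and their gluing. -/

set_option linter.unusedSectionVars false

namespace Pool.Agent.Lib.IC34
open Finset

variable {D V : Type*} [DecidableEq D] [DecidableEq V]
variable {v : D → V} {S X Y Z P Q P' Q' : Finset D} {α α' : D → D} {σ σ' τ τ' : D → Z2}
  {a b e f g f2 g2 w d1 d2 d3 : D} {W : D → Prop} {r : D → Z2} {p : D → Prop} {n : ℕ}
  {R R1 R2 R3 R4 : (D → Prop) → Prop} {a1 a2 a3 b1 b2 b3 c1 c2 c3 e1 e2 e3 : Z2}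
  {q1 q2 q3 s1 s2 s3 t1 t2 t3 u1 u2 u3 : Bool}

lemma St.flip (h : St v X α σ τ R d1 d2 d3 a1 a2 a3 q1 q2 q3) (t : Z2) :
    St v X α σ τ R d1 d2 d3 (a1 + t) (a2 + t) (a3 + t) q1 q2 q3 := by
  obtain ⟨r, p, s, h0, h1, h2, h3, h4⟩ := h
  exact ⟨_, p, s.flip t, h0, by grind, by grind, by grind, h4⟩

lemma St.shift (h : St v X α σ τ R d1 d2 d3 a1 a2 a3 q1 q2 q3) (τ' : D → Z2) {b1 b2 b3 : Z2}
    (k1 : b1 = a1 + τ d1 + τ' d1) (k2 : b2 = a2 + τ d2 + τ' d2) (k3 : b3 = a3 + τ d3 + τ' d3) :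
    St v X α σ τ' R d1 d2 d3 b1 b2 b3 q1 q2 q3 := by
  obtain ⟨r, p, s, h0, h1, h2, h3, h4⟩ := h
  exact ⟨r, p, s, h0, by grind, by grind, by grind, h4⟩

lemma St.to (h : St v X α σ τ R d1 d2 d3 a1 a2 a3 q1 q2 q3) (t : Z2) (τ' : D → Z2) {b1 b2 b3 : Z2}
    (k1 : b1 = a1 + t + τ d1 + τ' d1) (k2 : b2 = a2 + t + τ d2 + τ' d2)
    (k3 : b3 = a3 + t + τ d3 + τ' d3) : St v X α σ τ' R d1 d2 d3 b1 b2 b3 q1 q2 q3 :=
  (h.flip t).shift τ' k1 k2 k3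

lemma St.mono (h : St v X α σ τ R d1 d2 d3 a1 a2 a3 q1 q2 q3) (k1 : q1 = true → s1 = true)
    (k2 : q2 = true → s2 = true) (k3 : q3 = true → s3 = true) :
    St v X α σ τ R d1 d2 d3 a1 a2 a3 s1 s2 s3 := by
  obtain ⟨r, p, s, h0, h1, h2, h3, h4, h5, h6⟩ := h
  exact ⟨r, p, s, h0, h1, h2, h3, fun k => k1 (h4 k), fun k => k2 (h5 k), fun k => k3 (h6 k)⟩

lemma St.sw12 (h : St v X α σ τ R d1 d2 d3 a1 a2 a3 q1 q2 q3) :
    St v X α σ τ R d2 d1 d3 a2 a1 a3 q2 q1 q3 := by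
  obtain ⟨r, p, s, h0, h1, h2, h3, h4, h5, h6⟩ := h
  exact ⟨r, p, s, h0, h2, h1, h3, h5, h4, h6⟩

lemma St.sw23 (h : St v X α σ τ R d1 d2 d3 a1 a2 a3 q1 q2 q3) :
    St v X α σ τ R d1 d3 d2 a1 a3 a2 q1 q3 q2 := by
  obtain ⟨r, p, s, h0, h1, h2, h3, h4, h5, h6⟩ := h
  exact ⟨r, p, s, h0, h1, h3, h2, h4, h6, h5⟩

lemma St.congr (h : St v X α σ τ R d1 d2 d3 a1 a2 a3 q1 q2 q3)
    (H : ∀ d ∈ X, α' d ∈ X → α d = α' d ∧ es α' σ d = es α' σ' d) :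
    St v X α' σ' τ R d1 d2 d3 a1 a2 a3 q1 q2 q3 := by
  obtain ⟨r, p, s, h0⟩ := h
  exact ⟨r, p, s.congr fun d hd hd' => ⟨(H d hd hd').1, (H d hd hd').2, id⟩, h0⟩

lemma St.r0 (h : St v X α σ τ R d1 d2 d3 a1 a2 a3 q1 q2 q3) :
    St v X α σ τ R0 d1 d2 d3 a1 a2 a3 q1 q2 q3 := by
  obtain ⟨r, p, s, -, h0⟩ := h
  exact ⟨r, p, s, trivial, h0⟩

lemma Sp.sw12 (h : Sp v X α σ τ d1 d2 d3) : Sp v X α σ τ d2 d1 d3 := by
  refine ⟨by rw [h.bdy, insert_comm], h.n12.symm, h.n23, h.n13, h.card, h.fr,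
    fun a1 a2 a3 q1 q2 q3 k => (h.tab a2 a1 a3 q2 q1 q3 (by revert a1 a2 a3 q1 q2 q3; decide)).sw12,
    fun x hx hx' => ?_, fun x hx hx' => ?_⟩
  · obtain ⟨a1, a2, a3, q1, q2, q3, k1, k2, k3, k4⟩ := h.in0 x hx hx'
    refine ⟨a2, a1, a3, q2, q1, q3, ?_, ?_, ?_, k4.sw12⟩ <;> clear k4 <;>
      revert a1 a2 a3 q1 q2 q3 <;> decide
  · exact (h.in1 x hx hx').imp St.sw12 fun k => ⟨k.2.1.sw12, k.1.sw12, k.2.2.sw12⟩

lemma Sp.sw23 (h : Sp v X α σ τ d1 d2 d3) : Sp v X α σ τ d1 d3 d2 := by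
  refine ⟨by rw [h.bdy, pair_comm d2 d3], h.n13, h.n12, h.n23.symm, h.card, h.fr,
    fun a1 a2 a3 q1 q2 q3 k => (h.tab a1 a3 a2 q1 q3 q2 (by revert a1 a2 a3 q1 q2 q3; decide)).sw23,
    fun x hx hx' => ?_, fun x hx hx' => ?_⟩
  · obtain ⟨a1, a2, a3, q1, q2, q3, k1, k2, k3, k4⟩ := h.in0 x hx hx'
    refine ⟨a1, a3, a2, q1, q3, q2, ?_, ?_, ?_, k4.sw23⟩ <;> clear k4 <;>
      revert a1 a2 a3 q1 q2 q3 <;> decide
  · exact (h.in1 x hx hx').imp St.sw23 fun k => ⟨k.1.sw23, k.2.2.sw23, k.2.1.sw23⟩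

/-- change of the frame by a constant -/
lemma Sp.frame (h : Sp v X α σ τ d1 d2 d3) (t : Z2) (H : ∀ d ∈ X, τ' d = τ d + t) :
    Sp v X α σ τ' d1 d2 d3 := by
  obtain ⟨⟨m1, -⟩, ⟨m2, -⟩, ⟨m3, -⟩, -⟩ := bd_mem3 h.bdy
  have k : ∀ {σ R a1 a2 a3 q1 q2 q3}, St v X α σ τ R d1 d2 d3 a1 a2 a3 q1 q2 q3 →
      St v X α σ τ' R d1 d2 d3 a1 a2 a3 q1 q2 q3 := fun s =>
    s.to t τ' (by rw [H _ m1]; grind) (by rw [H _ m2]; grind) (by rw [H _ m3]; grind)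
  refine ⟨h.bdy, h.n12, h.n13, h.n23, h.card, ⟨fun d hd x hx e => ?_, fun d hd hd' => ?_⟩,
    fun a1 a2 a3 q1 q2 q3 c => k (h.tab _ _ _ _ _ _ c), fun x hx hx' => ?_, fun x hx hx' => ?_⟩
  · rw [H d hd, H x hx, h.fr.1 d hd x hx e]
  · rw [H d hd, H _ hd', h.fr.2 d hd hd']; grind
  · obtain ⟨a1, a2, a3, q1, q2, q3, k1, k2, k3, k4⟩ := h.in0 x hx hx'
    exact ⟨a1, a2, a3, q1, q2, q3, k1, k2, k3, k k4⟩
  · exact (h.in1 x hx hx').imp k fun c => ⟨k c.1, k c.2.1, k c.2.2⟩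

/-- a special pole only depends on its inner edges -/
lemma Sp.congr (h : Sp v X α σ τ d1 d2 d3) (H1 : ∀ d ∈ X, (α' d ∈ X ↔ α d ∈ X))
    (H : ∀ d ∈ X, α d ∈ X → α' d = α d ∧ σ' d = σ d) (hi : ∀ d ∈ X, α d ∈ X → α (α d) = d) :
    Sp v X α' σ' τ d1 d2 d3 := by
  have H2 : ∀ d ∈ X, α d ∈ X → σ' (α d) = σ (α d) := fun d hd hd' =>
    (H _ hd' (by rwa [hi d hd hd'])).2
  have k : ∀ x t, ∀ d ∈ X, α' d ∈ X → α d = α' d ∧ es α' (fl σ x t) d = es α' (fl σ' x t) d :=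
    fun x t d hd hd' => by
      have k1 := (H1 d hd).1 hd'
      refine ⟨(H d hd k1).1.symm, ?_⟩
      unfold es fl
      rw [(H d hd k1).1, (H d hd k1).2, H2 d hd k1]
  have k0 := k d1 0
  simp only [fl_zero] at k0
  refine ⟨?_, h.n12, h.n13, h.n23, h.card, ⟨h.fr.1, fun d hd hd' => ?_⟩,
    fun a1 a2 a3 q1 q2 q3 c => (h.tab _ _ _ _ _ _ c).congr k0, fun x hx hx' => ?_, fun x hx hx' => ?_⟩
  · rw [← h.bdy]; ext d; simp only [mem_bd]; exact and_congr_right fun hd => by rw [H1 d hd]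
  · have k1 := (H1 d hd).1 hd'
    rw [(H d hd k1).1, (H d hd k1).2, H2 d hd k1]; exact h.fr.2 d hd k1
  · have k1 := (H1 x hx).1 hx'
    obtain ⟨a1, a2, a3, q1, q2, q3, c1, c2, c3, c4⟩ := h.in0 x hx k1
    refine ⟨a1, a2, a3, q1, q2, q3, c1, c2, c3, ?_⟩
    have : RN α' x = RN α x := by unfold RN; rw [(H x hx k1).1]
    rw [this]; exact c4.congr k0
  · have k1 := (H1 x hx).1 hx'
    have : RN α' x = RN α x := by unfold RN; rw [(H x hx k1).1]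
    rw [this]
    exact (h.in1 x hx k1).imp (fun c => c.congr (k x 1)) fun c =>
      ⟨c.1.congr (k x 1), c.2.1.congr (k x 1), c.2.2.congr (k x 1)⟩

/-- the table of a vertex -/
def Vt (a1 a2 a3 : Z2) (q1 q2 q3 : Bool) : Bool :=
  if a1 = a2 then (if a2 = a3 then false else q3) else if a2 = a3 then q1 else q2

lemma stV (hb : bd α {d1, d2, d3} = {d1, d2, d3}) (n12 : d1 ≠ d2) (n13 : d1 ≠ d3) (n23 : d2 ≠ d3)
    (v2 : v d2 = v d1) (v3 : v d3 = v d1) (h : Vt (a1 + τ d1) (a2 + τ d2) (a3 + τ d3) q1 q2 q3 = true) :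
    St v {d1, d2, d3} α σ τ R0 d1 d2 d3 a1 a2 a3 q1 q2 q3 := by
  refine ⟨fun d => if d = d1 then a1 + τ d1 else if d = d2 then a2 + τ d2 else a3 + τ d3,
    fun d => if d = d1 then q1 = true else if d = d2 then q2 = true else q3 = true,
    ⟨fun d hd => ?_, fun d hd hd' => ?_⟩, trivial, by grind, by grind, by grind, by grind, by grind,
    by grind⟩
  · have : fib v {d1, d2, d3} d = {d1, d2, d3} := by
      ext x; simp only [mem_fib, and_iff_left_iff_imp]; grind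
    rw [this]
    refine Or.inr (Or.inl ?_)
    generalize a1 + τ d1 = x1 at h ⊢
    generalize a2 + τ d2 = x2 at h ⊢
    generalize a3 + τ d3 = x3 at h ⊢
    have k : (x1 + x2 = 1 ∧ x2 = x3 ∧ q1 = true) ∨ (x2 + x1 = 1 ∧ x1 = x3 ∧ q2 = true) ∨
        (x3 + x1 = 1 ∧ x1 = x2 ∧ q3 = true) := by revert x1 x2 x3 q1 q2 q3; decide
    rcases k with k | k | k
    · exact ⟨d1, d2, d3, rfl, n12, n13, n23, by grind, by grind, by grind⟩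
    · exact ⟨d2, d1, d3, insert_comm _ _ _, n12.symm, n23, n13, by grind, by grind, by grind⟩
    · exact ⟨d3, d1, d2, by ext; simp; tauto, n13.symm, n23.symm, n12, by grind, by grind, by grind⟩
  · rw [← hb] at hd; exact absurd hd' (mem_bd.1 hd).2

/-- condition for attaching the boundary dart `d` in state `(a, q)` -/
def AC (α : D → D) (σ τ : D → Z2) (W : D → Prop) (X : Finset D) (r : D → Z2) (p : D → Prop)
    (d : D) (a : Z2) (q : Bool) : Prop :=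
  α d ∈ X → a + τ d + σ d + r (α d) + σ (α d) = 1 ∧ (q = true → p (α d) → W d ∨ W (α d))

lemma St.add (hn : GNet S α) (hP : Closed v S P) (hX : X ⊆ S) (dis : Disjoint P X)
    (hb : bd α P = {d1, d2, d3}) (st : St v P α σ τ R d1 d2 d3 a1 a2 a3 q1 q2 q3)
    (s : Sol v X α σ W r p) (k1 : AC α σ τ W X r p d1 a1 q1) (k2 : AC α σ τ W X r p d2 a2 q2)
    (k3 : AC α σ τ W X r p d3 a3 q3) :
    ∃ r' p', Sol v (P ∪ X) α σ W r' p' ∧ (∀ x ∈ X, r' x = r x ∧ p' x = p x) ∧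
      (r' d1 + τ d1 = a1 ∧ r' d2 + τ d2 = a2 ∧ r' d3 + τ d3 = a3) ∧
      ((p' d1 → q1 = true) ∧ (p' d2 → q2 = true) ∧ (p' d3 → q3 = true)) ∧
      ∃ p1, R p1 ∧ ∀ x ∈ P, p' x = p1 x := by
  obtain ⟨r1, p1, s1, h0, h1, h2, h3, h4, h5, h6⟩ := st
  obtain ⟨⟨m1, -⟩, ⟨m2, -⟩, ⟨m3, -⟩, m4⟩ := bd_mem3 hb
  obtain ⟨r', p', k, eP, eX⟩ := Sol.union (W := W) s1.w0 s (hP.vne hX dis)
    (fun y hy _ => hn.inv y (hX hy)) (fun x hx hx' => by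
      rcases m4 x hx (fun c => disjoint_left.1 dis c hx') with rfl | rfl | rfl
      · exact ⟨by have := (k1 hx').1; grind, fun c => (k1 hx').2 (h4 c)⟩
      · exact ⟨by have := (k2 hx').1; grind, fun c => (k2 hx').2 (h5 c)⟩
      · exact ⟨by have := (k3 hx').1; grind, fun c => (k3 hx').2 (h6 c)⟩)
  refine ⟨r', p', k, eX, ?_, ?_, p1, h0, fun x hx => (eP x hx).2⟩
  · rw [(eP _ m1).1, (eP _ m2).1, (eP _ m3).1]; exact ⟨h1, h2, h3⟩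
  · rw [(eP _ m1).2, (eP _ m2).2, (eP _ m3).2]; exact ⟨h4, h5, h6⟩

/-- compatibility of the states `(a, q)` at `d` and `(b, s)` at `α d` -/
def CC (α : D → D) (σ τ : D → Z2) (W : D → Prop) (d : D) (a : Z2) (q : Bool) (b : Z2) (s : Bool) :
    Prop :=
  a + b = 1 + (σ d + σ (α d) + τ d + τ (α d)) ∧ (q = true → s = true → W d ∨ W (α d))

/-- values of a solution at three darts -/
def Val (τ r : D → Z2) (p : D → Prop) (d1 d2 d3 : D) (a1 a2 a3 : Z2) (q1 q2 q3 : Bool) : Prop :=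
  (r d1 + τ d1 = a1 ∧ r d2 + τ d2 = a2 ∧ r d3 + τ d3 = a3) ∧
    ((p d1 → q1 = true) ∧ (p d2 → q2 = true) ∧ (p d3 → q3 = true))

def Tr (R : (D → Prop) → Prop) (P : Finset D) (p : D → Prop) : Prop :=
  ∃ p1, R p1 ∧ ∀ x ∈ P, p x = p1 x

lemma Tr.rn {h : D} (t : Tr (RN α h) P p) (h1 : h ∈ P) (h2 : α h ∈ P) : ¬ p h ∧ ¬ p (α h) := by
  obtain ⟨p1, k, e⟩ := t
  rw [e _ h1, e _ h2]; exact k

lemma glueA (hn : GNet S α) (hP : Closed v S P) (hb : bd α P = {d1, d2, d3})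
    (st : St v P α σ τ R1 d1 d2 d3 a1 a2 a3 q1 q2 q3)
    (st' : St v (S \ P) α σ τ R2 (α d1) (α d2) (α d3) b1 b2 b3 s1 s2 s3)
    (k1 : CC α σ τ W d1 a1 q1 b1 s1) (k2 : CC α σ τ W d2 a2 q2 b2 s2)
    (k3 : CC α σ τ W d3 a3 q3 b3 s3) :
    ∃ r p, Sol v S α σ W r p ∧ Val τ r p d1 d2 d3 a1 a2 a3 q1 q2 q3 ∧
      Val τ r p (α d1) (α d2) (α d3) b1 b2 b3 s1 s2 s3 ∧ Tr R1 P p ∧ Tr R2 (S \ P) p := by
  obtain ⟨r1, p1, x, h0, h1, h2, h3, h4, h5, h6⟩ := st'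
  obtain ⟨⟨m1, -⟩, ⟨m2, -⟩, ⟨m3, -⟩, -⟩ := bd_mem3 (hn.bd_compl3 hP.1 hb)
  obtain ⟨r, p, s, eX, v1, v2, t⟩ := St.add (W := W) hn hP sdiff_subset disjoint_sdiff hb st x.w0
    (fun _ => ⟨by have := k1.1; grind, fun c c' => k1.2 c (h4 c')⟩)
    (fun _ => ⟨by have := k2.1; grind, fun c c' => k2.2 c (h5 c')⟩)
    (fun _ => ⟨by have := k3.1; grind, fun c c' => k3.2 c (h6 c')⟩)
  rw [union_sdiff_of_subset hP.1] at s
  refine ⟨r, p, s, ⟨v1, v2⟩, ⟨?_, ?_⟩, t, p1, h0, fun x hx => (eX x hx).2⟩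
  · rw [(eX _ m1).1, (eX _ m2).1, (eX _ m3).1]; exact ⟨h1, h2, h3⟩
  · rw [(eX _ m1).2, (eX _ m2).2, (eX _ m3).2]; exact ⟨h4, h5, h6⟩

lemma Val.of_eq {r' : D → Z2} {p' : D → Prop} (h : Val τ r p d1 d2 d3 a1 a2 a3 q1 q2 q3)
    (H : ∀ x ∈ X, r' x = r x ∧ p' x = p x) (m1 : d1 ∈ X) (m2 : d2 ∈ X) (m3 : d3 ∈ X) :
    Val τ r' p' d1 d2 d3 a1 a2 a3 q1 q2 q3 := by
  unfold Val
  rw [(H _ m1).1, (H _ m2).1, (H _ m3).1, (H _ m1).2, (H _ m2).2, (H _ m3).2]; exact h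

lemma Tr.of_eq {r' : D → Z2} {p' : D → Prop} (h : Tr R P p)
    (H : ∀ x ∈ X, r' x = r x ∧ p' x = p x) (m : P ⊆ X) : Tr R P p' := by
  obtain ⟨p1, k, e⟩ := h
  exact ⟨p1, k, fun x hx => (H x (m hx)).2.trans (e x hx)⟩

lemma glueK4 (hn : GNet S α) (h : Part4 v S P Q P' Q') (hb1 : bd α P = {e, f, g})
    (hb2 : bd α Q = {α e, f2, g2}) (hb3 : bd α P' = {w, α f, α f2}) (hb4 : bd α Q' = {α w, α g, α g2})
    (st1 : St v P α σ τ R1 e f g a1 a2 a3 q1 q2 q3)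
    (st2 : St v Q α σ τ R2 (α e) f2 g2 b1 b2 b3 s1 s2 s3)
    (st3 : St v P' α σ τ R3 w (α f) (α f2) c1 c2 c3 t1 t2 t3)
    (st4 : St v Q' α σ τ R4 (α w) (α g) (α g2) e1 e2 e3 u1 u2 u3)
    (k1 : CC α σ τ W e a1 q1 b1 s1) (k2 : CC α σ τ W f a2 q2 c2 t2) (k3 : CC α σ τ W g a3 q3 e2 u2)
    (k4 : CC α σ τ W f2 b2 s2 c3 t3) (k5 : CC α σ τ W g2 b3 s3 e3 u3)
    (k6 : CC α σ τ W w c1 t1 e1 u1) :
    ∃ r p, Sol v S α σ W r p ∧ Val τ r p e f g a1 a2 a3 q1 q2 q3 ∧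
      Val τ r p (α e) f2 g2 b1 b2 b3 s1 s2 s3 ∧ Val τ r p w (α f) (α f2) c1 c2 c3 t1 t2 t3 ∧
      Val τ r p (α w) (α g) (α g2) e1 e2 e3 u1 u2 u3 ∧ Tr R1 P p ∧ Tr R2 Q p ∧ Tr R3 P' p ∧
      Tr R4 Q' p := by
  obtain ⟨⟨m1, -⟩, ⟨m2, -⟩, ⟨m3, -⟩, -⟩ := bd_mem3 hb1
  obtain ⟨⟨m4, -⟩, ⟨m5, -⟩, ⟨m6, -⟩, -⟩ := bd_mem3 hb2
  obtain ⟨⟨m7, -⟩, ⟨m8, -⟩, ⟨m9, -⟩, -⟩ := bd_mem3 hb3
  obtain ⟨⟨m10, -⟩, ⟨m11, -⟩, ⟨m12, -⟩, -⟩ := bd_mem3 hb4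
  have i1 := hn.inv e (h.c1.1 m1); have i2 := hn.inv f (h.c1.1 m2)
  have i5 := hn.inv f2 (h.c2.1 m5)
  obtain ⟨r4, p4, x4, h0, h1, h2, h3, h4, h5, h6⟩ := st4
  have V4 : Val τ r4 p4 (α w) (α g) (α g2) e1 e2 e3 u1 u2 u3 := ⟨⟨h1, h2, h3⟩, h4, h5, h6⟩
  have T4 : Tr R4 Q' p4 := ⟨p4, h0, fun _ _ => rfl⟩
  obtain ⟨r3, p3, x3, E3, v3, v3', T3⟩ := St.add (W := W) hn h.c3 h.c4.1 h.d34 hb3 st3 x4.w0
    (fun _ => ⟨by have := k6.1; grind, fun c c' => k6.2 c (h4 c')⟩)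
    (fun c => absurd (i2 ▸ c) (disjoint_left.1 h.d14 m2))
    (fun c => absurd (i5 ▸ c) (disjoint_left.1 h.d24 m5))
  have V3 : Val τ r3 p3 w (α f) (α f2) c1 c2 c3 t1 t2 t3 := ⟨v3, v3'⟩
  have V4 := V4.of_eq E3 m10 m11 m12
  have T4 := T4.of_eq E3 Subset.rfl
  obtain ⟨r2, p2, x2, E2, v2, v2', T2⟩ := St.add (W := W) hn h.c2 (union_subset h.c3.1 h.c4.1)
    (by simp [h.d23, h.d24]) hb2 st2 x3
    (fun c => by
      rw [i1] at c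
      rcases mem_union.1 c with c | c
      · exact absurd c (disjoint_left.1 h.d13 m1)
      · exact absurd c (disjoint_left.1 h.d14 m1))
    (fun _ => ⟨by have := k4.1; have := V3.1; grind, fun c c' => k4.2 c (V3.2.2.2 c')⟩)
    (fun _ => ⟨by have := k5.1; have := V4.1; grind, fun c c' => k5.2 c (V4.2.2.2 c')⟩)
  have V2 : Val τ r2 p2 (α e) f2 g2 b1 b2 b3 s1 s2 s3 := ⟨v2, v2'⟩
  have V3 := V3.of_eq E2 (by simp [m7]) (by simp [m8]) (by simp [m9])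
  have V4 := V4.of_eq E2 (by simp [m10]) (by simp [m11]) (by simp [m12])
  have T3 := Tr.of_eq T3 E2 subset_union_left
  have T4 := T4.of_eq E2 subset_union_right
  obtain ⟨r1, p1, x1, E1, v1, v1', T1⟩ := St.add (W := W) hn h.c1
    (union_subset h.c2.1 (union_subset h.c3.1 h.c4.1)) (by simp [h.d12, h.d13, h.d14]) hb1 st1 x2
    (fun _ => ⟨by have := k1.1; have := V2.1; grind, fun c c' => k1.2 c (V2.2.1 c')⟩)
    (fun _ => ⟨by have := k2.1; have := V3.1; grind, fun c c' => k2.2 c (V3.2.2.1 c')⟩)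
    (fun _ => ⟨by have := k3.1; have := V4.1; grind, fun c c' => k3.2 c (V4.2.2.1 c')⟩)
  rw [← union_assoc, ← union_assoc, h.un] at x1
  exact ⟨r1, p1, x1, ⟨v1, v1'⟩, V2.of_eq E1 (by simp [m4]) (by simp [m5]) (by simp [m6]),
    V3.of_eq E1 (by simp [m7]) (by simp [m8]) (by simp [m9]),
    V4.of_eq E1 (by simp [m10]) (by simp [m11]) (by simp [m12]), T1,
    Tr.of_eq T2 E1 subset_union_left,
    T3.of_eq E1 (subset_union_left.trans subset_union_right),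
    T4.of_eq E1 (subset_union_right.trans subset_union_right)⟩

end Pool.Agent.Lib.IC34
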