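import Pool.Agent.Lib.MP_fb9257_co.Pole

/-! The states of an arbitrary side of a three-edge cut. -/

set_option linter.unusedSectionVars false

namespace Pool.Agent.Lib.IC34
open Finset

variable {D V : Type*} [DecidableEq D] [DecidableEq V]
variable {v : D → V} {S X Y Z P Q U : Finset D} {α : D → D} {σ σ' τ : D → Z2}
  {a b e f g f2 g2 w : D} {W W' : D → Prop} {r : D → Z2} {p : D → Prop} {n : ℕ}
  {R R1 R2 : (D → Prop) → Prop} {a1 a2 a3 b1 b2 b3 l m : Z2} {q1 q2 q3 s1 s2 s3 : Bool}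

lemma Mid.unclose (h : Mid v S α P Q e f g f2 g2)
    (s : Sol v (S \ (P ∪ Q)) (mα α f g f2 g2) σ' W' r p)
    (hσ : ∀ d ∈ S \ (P ∪ Q), d ≠ α f → d ≠ α g → d ≠ α f2 → d ≠ α g2 → σ' d = σ d)
    (hW : ∀ d ∈ S \ (P ∪ Q), d ≠ α f → d ≠ α g → d ≠ α f2 → d ≠ α g2 → W' d → W d ∨ W (α d)) :
    Sol v (S \ (P ∪ Q)) α σ W r p := by
  refine s.congr fun d hd hd' => ?_
  have i := h.net.inv d (mem_sdiff.1 hd).1
  obtain ⟨a1, a2, a3, a4⟩ := h.inner hd'
  obtain ⟨b1, b2, b3, b4⟩ := h.inner (d := α d) (by rwa [i])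
  refine ⟨Mid.m5 a1 a2 a3 a4, by rw [hσ d hd a1 a2 a3 a4, hσ _ hd' b1 b2 b3 b4], fun k =>
    k.elim (hW d hd a1 a2 a3 a4) fun k => ?_⟩
  have := hW _ hd' b1 b2 b3 b4 k
  rw [i] at this; exact this.symm

lemma Mid.edge1 (h : Mid v S α P Q e f g f2 g2)
    (s : Sol v (S \ (P ∪ Q)) (mα α f g f2 g2) σ' W' r p) :
    r (α f) + σ' (α f) + r (α g) + σ' (α g) = 1 ∧ (p (α f) → p (α g) → W' (α f) ∨ W' (α g)) := by
  have := s.2 _ h.out1 (by rw [h.m1]; exact h.out2)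
  rwa [h.m1] at this

lemma Mid.edge2 (h : Mid v S α P Q e f g f2 g2)
    (s : Sol v (S \ (P ∪ Q)) (mα α f g f2 g2) σ' W' r p) :
    r (α f2) + σ' (α f2) + r (α g2) + σ' (α g2) = 1 ∧
      (p (α f2) → p (α g2) → W' (α f2) ∨ W' (α g2)) := by
  have := s.2 _ h.out3 (by rw [Mid.m3]; exact h.out4)
  rwa [Mid.m3] at this

lemma Mid.ms (h : Mid v S α P Q e f g f2 g2) (l m : Z2) :
    mσ α σ f f2 l m (α f) = σ (α f) + l ∧ mσ α σ f f2 l m (α g) = σ (α g) ∧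
    mσ α σ f f2 l m (α f2) = σ (α f2) + m ∧ mσ α σ f f2 l m (α g2) = σ (α g2) := by
  obtain ⟨n1, n2, n3, n4, n5, n6⟩ := h.nes
  unfold mσ fl
  simp [n1.symm, n2, n2.symm, n3.symm, n4, n6.symm]

lemma mσ_ne {d : D} (l m : Z2) (h1 : d ≠ α f) (h2 : d ≠ α f2) : mσ α σ f f2 l m d = σ d := by
  unfold mσ; rw [fl_ne _ h2, fl_ne _ h1]

lemma Mid.un (h : Mid v S α P Q e f g f2 g2) : P ∪ (S \ (P ∪ Q)) = S \ Q := by
  ext d; simp only [mem_union, mem_sdiff]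
  have := @h.cP.1 d; have : d ∈ P → d ∉ Q := fun k => disjoint_left.1 h.dis k
  tauto

lemma Mid.left (h : Mid v S α P Q e f g f2 g2) (s : Sol v (S \ (P ∪ Q)) α σ W r p)
    (st : St v P α σ σ R e f g a1 a2 a3 q1 q2 q3) (k2 : a2 = 1 + r (α f) + σ (α f))
    (k3 : a3 = 1 + r (α g) + σ (α g)) (c2 : q2 = true → ¬ p (α f)) (c3 : q3 = true → ¬ p (α g)) :
    ∃ r' p', Sol v (S \ Q) α σ W r' p' ∧ (∀ x ∈ S \ (P ∪ Q), r' x = r x ∧ p' x = p x) ∧
      r' e + σ e = a1 ∧ (p' e → q1 = true) := by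
  obtain ⟨r', p', s', E, v1, v2, -⟩ := St.add (W := W) h.net h.cP sdiff_subset
    (disjoint_left.2 fun d hd k => (mem_sdiff.1 k).2 (mem_union_left _ hd)) h.bP st s
    (fun c => absurd (mem_union_right _ h.mems.2.2.2.1) (mem_sdiff.1 c).2)
    (fun _ => ⟨by grind, fun c c' => absurd c' (c2 c)⟩)
    (fun _ => ⟨by grind, fun c c' => absurd c' (c3 c)⟩)
  rw [h.un] at s'
  exact ⟨r', p', s', E, v1.1, v2.1⟩

lemma Mid.glue (h : Mid v S α P Q e f g f2 g2) (s : Sol v (S \ (P ∪ Q)) α σ W r p)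
    (st : St v P α σ σ R1 e f g a1 a2 a3 q1 q2 q3)
    (st' : St v Q α σ σ R2 (α e) f2 g2 b1 b2 b3 s1 s2 s3) (k1 : a1 + b1 = 1)
    (k2 : a2 = 1 + r (α f) + σ (α f)) (k3 : a3 = 1 + r (α g) + σ (α g))
    (k4 : b2 = 1 + r (α f2) + σ (α f2)) (k5 : b3 = 1 + r (α g2) + σ (α g2))
    (c1 : q1 = true → ¬ s1 = true) (c2 : q2 = true → ¬ p (α f)) (c3 : q3 = true → ¬ p (α g))
    (c4 : s2 = true → ¬ p (α f2)) (c5 : s3 = true → ¬ p (α g2)) :
    ∃ r' p', Sol v S α σ W r' p' ∧ (p' e → q1 = true) ∧ (p' (α e) → s1 = true) := by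
  obtain ⟨r1, p1, s1, E, v1, v2⟩ := h.left s st k2 k3 c2 c3
  have i := h.invs.1
  have eQ : e ∈ S \ Q := mem_sdiff.2 ⟨h.cP.1 h.mems.1, disjoint_left.1 h.dis h.mems.1⟩
  obtain ⟨r', p', s', E', -, v4, -⟩ := St.add (W := W) h.net h.cQ sdiff_subset disjoint_sdiff
    h.bQ st' s1
    (fun _ => ⟨by rw [i]; grind, fun c c' => absurd c (c1 (v2 (i ▸ c')))⟩)
    (fun _ => ⟨by rw [(E _ h.out3).1]; grind, fun c c' => absurd ((E _ h.out3).2 ▸ c') (c4 c)⟩)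
    (fun _ => ⟨by rw [(E _ h.out4).1]; grind, fun c c' => absurd ((E _ h.out4).2 ▸ c') (c5 c)⟩)
  rw [union_sdiff_of_subset h.cQ.1] at s'
  exact ⟨r', p', s', fun c => v2 ((E' _ eQ).2 ▸ c), v4.1⟩

/-- `X` is a vertex with darts `e, f, g` -/
def IsV (v : D → V) (X : Finset D) (e f g : D) : Prop := X = {e, f, g} ∧ v f = v e ∧ v g = v e

lemma IsV.st (h : IsV v X e f g) (hb : bd α X = {e, f, g}) (ef : e ≠ f) (eg : e ≠ g) (fg : f ≠ g)
    (k : Vt (a1 + τ e) (a2 + τ f) (a3 + τ g) q1 q2 q3 = true) :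
    St v X α σ τ R0 e f g a1 a2 a3 q1 q2 q3 := by
  obtain ⟨rfl, h1, h2⟩ := h
  exact stV hb ef eg fg h1 h2 k

lemma IsV.swap (h : IsV v X e f g) : IsV v X e g f := ⟨by rw [h.1, pair_comm], h.2.2, h.2.1⟩

lemma IsV.card (h : IsV v X e f g) : X.card ≤ 3 := by rw [h.1]; exact card_le_three

lemma IsV.frame (h : IsV v X e f g) (hb : bd α X = {e, f, g}) (c : Z2) :
    Frame v X α σ fun _ => c :=
  ⟨fun _ _ _ _ _ => rfl, fun d hd hd' => by
    rw [h.1, ← hb] at hd; exact absurd hd' (mem_bd.1 hd).2⟩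

lemma vertex (hc : Cub v S) (h3 : Conn v 3 S α) (he : e ∈ S) (hne : fib v S e ≠ S) :
    ∃ f g, IsV v (fib v S e) e f g ∧ bd α (fib v S e) = {e, f, g} ∧ e ≠ f ∧ e ≠ g ∧ f ≠ g := by
  have m : e ∈ fib v S e := by simp [he]
  have k : bd α (fib v S e) = fib v S e := eq_of_subset_of_card_le (filter_subset _ _)
    (by rw [hc e he]; exact h3 _ (closed_fib e) ⟨e, m⟩ hne)
  obtain ⟨f, g, fg, h⟩ := card_eq_two.1 (show ((fib v S e).erase e).card = 2 by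
    rw [card_erase_of_mem m, hc e he])
  have h' : fib v S e = {e, f, g} := by rw [← h, insert_erase m]
  have mf : f ∈ (fib v S e).erase e := by simp [h]
  have mg : g ∈ (fib v S e).erase e := by simp [h]
  simp only [mem_erase, mem_fib] at mf mg
  exact ⟨f, g, ⟨h', mf.2.2, mg.2.2⟩, by rw [k, h'], mf.1.symm, mg.1.symm, fg⟩

def S0 (v : D → V) (X : Finset D) (α : D → D) (σ : D → Z2) (e f g : D) (a l : Z2) (qf qg : Bool) :
    Prop := St v X α σ σ R0 e f g a 0 (1 + l) false qf qg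

def Lam (v : D → V) (X : Finset D) (α : D → D) (σ : D → Z2) (e f g : D) (l : Z2) : Prop :=
  (∃ a, S0 v X α σ e f g a l false true) ∧ ∃ a, S0 v X α σ e f g a l true false

def AA (v : D → V) (X : Finset D) (α : D → D) (σ : D → Z2) (e f g : D) (l : Z2) : Prop :=
  ∀ a, S0 v X α σ e f g a l true true

def PVP (v : D → V) (X : Finset D) (α : D → D) (σ : D → Z2) (e f g : D) (l : Z2) : Prop :=
  ∀ s, S0 v X α σ e f g s l false true ∨ S0 v X α σ e f g (s + 1) l true false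

structure Side (v : D → V) (X : Finset D) (α : D → D) (σ : D → Z2) (e f g : D) : Prop where
  lam : ∃ l, Lam v X α σ e f g l
  aa : ∃ l, AA v X α σ e f g l
  bad : ∀ l, ¬ Lam v X α σ e f g l → (IsV v X e f g ∧ l = σ f + σ g + 1) ∨
    (AA v X α σ e f g l ∧ PVP v X α σ e f g (l + 1) ∧ (AA v X α σ e f g (l + 1) ∨
      ∃ τ, Sp v X α σ τ e f g ∧ τ f + τ g = σ f + σ g + l))

lemma IsV.s0 (h : IsV v X e f g) (hb : bd α X = {e, f, g}) (ef : e ≠ f) (eg : e ≠ g) (fg : f ≠ g) :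
    S0 v X α σ e f g (σ e + σ f) (σ f + σ g) false true ∧
      S0 v X α σ e f g (σ e + σ f + 1) (σ f + σ g) true false ∧ AA v X α σ e f g (σ f + σ g) := by
  refine ⟨h.st hb ef eg fg ?_, h.st hb ef eg fg ?_, fun a => h.st hb ef eg fg ?_⟩ <;>
    generalize σ e = x, σ f = y, σ g = z
  · revert x y z; decide
  · revert x y z; decide
  · revert a x y z; decide

lemma IsV.side (h : IsV v X e f g) (hb : bd α X = {e, f, g}) (ef : e ≠ f) (eg : e ≠ g)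
    (fg : f ≠ g) : Side v X α σ e f g := by
  obtain ⟨k1, k2, k3⟩ := h.s0 (σ := σ) hb ef eg fg
  refine ⟨⟨_, ⟨_, k1⟩, _, k2⟩, ⟨_, k3⟩, fun l hl => Or.inl ⟨h, z2_ne ?_⟩⟩
  rintro rfl; exact hl ⟨⟨_, k1⟩, _, k2⟩

/-- inserting the vertex `U` as a thread -/
lemma Mid.thread (h : Mid v S α U Q e f g f2 g2) (hU : IsV v U e f g)
    (s : Sol v (S \ (U ∪ Q)) (mα α f g f2 g2) (mσ α σ f f2 (σ f + σ g) l) W' r p)
    (hW : ∀ d, W' d → d = α f2) {c : Z2} (o : Opt (mα α f g f2 g2) r p (α f) c)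
    (c2 : p (α f2) → q2 = true) (c3 : p (α g2) → q3 = true) :
    S0 v (S \ Q) α σ e (α f2) (α g2) (c + σ f + σ (α f) + σ e + r (α f2) + σ (α f2)) l q2 q3 := by
  obtain ⟨m1, m2, m3, m4⟩ := h.ms (σ := σ) (σ f + σ g) l
  have e1 := (h.edge1 s).1
  have e2 := (h.edge2 s).1
  rw [m1, m2] at e1
  rw [m3, m4] at e2
  have s' := h.unclose (W := W0) (σ := σ) s (fun d _ k _ k' _ => mσ_ne _ _ k k')
    (fun d _ _ _ k _ k' => absurd (hW d k') k)
  have key : ∀ q q' : Bool, Vt (c + σ f + σ (α f) + σ e + σ e) (1 + r (α f) + σ (α f) + σ f)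
      (1 + r (α g) + σ (α g) + σ g) false q q' = true → (q = true → ¬ p (α f)) →
      (q' = true → ¬ p (α g)) → S0 v (S \ Q) α σ e (α f2) (α g2)
        (c + σ f + σ (α f) + σ e + r (α f2) + σ (α f2)) l q2 q3 := fun q q' k k2 k3 => by
    obtain ⟨r', p', s1, E, v1, v2⟩ := h.left s' (hU.st h.bP h.ef h.eg h.fg k) rfl rfl k2 k3
    refine ⟨_, p', s1.flip (r (α f2) + σ (α f2)), trivial, by grind, ?_, ?_, v2, ?_, ?_⟩
    · rw [(E _ h.out3).1]; grind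
    · rw [(E _ h.out4).1]; grind
    · rw [(E _ h.out3).2]; exact c2
    · rw [(E _ h.out4).2]; exact c3
  have e3 : r (α g) = r (α f) + σ (α f) + σ f + σ g + σ (α g) + 1 := by grind
  unfold Opt at o
  rw [h.m1] at o
  rcases o with ⟨o, rfl⟩ | ⟨o, rfl⟩
  · refine key true false ?_ (fun _ => o) (by simp)
    rw [e3]; generalize r (α f) = x1, σ f = x2, σ (α f) = x3, σ e = x4, σ g = x5, σ (α g) = x6
    revert x1 x2 x3 x4 x5 x6; decide
  · refine key false true ?_ (by simp) (fun _ => o)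
    rw [e3]; generalize r (α f) = x1, σ f = x2, σ (α f) = x3, σ e = x4, σ g = x5, σ (α g) = x6
    revert x1 x2 x3 x4 x5 x6; decide

lemma Mid.side (M : Models v) (ih : IH v n) (hS : S.card ≤ n + 1) (h : Mid v S α U Q e f g f2 g2)
    (hU : IsV v U e f g) : Side v (S \ Q) α σ e (α f2) (α g2) := by
  have lt := h.card_lt
  have ch := h.chain.symm
  have opt : ∀ {l r p}, Sol v (S \ (U ∪ Q)) (mα α f g f2 g2) (mσ α σ f f2 (σ f + σ g) l) W0 r p →
      ∃ c, Opt (mα α f g f2 g2) r p (α f) c := fun s =>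
    (s.plain h.out1 (h.mnet.mem _ h.out1)).elim (fun k => ⟨_, Or.inl ⟨k, rfl⟩⟩)
      fun k => ⟨_, Or.inr ⟨k, rfl⟩⟩
  have A : ∀ l, NDb v (S \ (U ∪ Q)) (mα α f g f2 g2) (mσ α σ f f2 (σ f + σ g) l) (α f2) →
      Lam v (S \ Q) α σ e (α f2) (α g2) l := by
    rintro l ⟨⟨r, p, s, k⟩, ⟨r', p', s', k'⟩⟩
    rw [Mid.m3] at k'
    obtain ⟨c, o⟩ := opt s
    obtain ⟨c', o'⟩ := opt s'
    exact ⟨⟨_, h.thread hU s (fun _ k => k.elim) o (fun c => absurd c k) (fun _ => rfl)⟩,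
      _, h.thread hU s' (fun _ k => k.elim) o' (fun _ => rfl) (fun c => absurd c k')⟩
  have B : ∀ l, TT v (S \ (U ∪ Q)) (mα α f g f2 g2) (mσ α σ f f2 (σ f + σ g) l) (α f2) (α f) →
      AA v (S \ Q) α σ e (α f2) (α g2) l := by
    rintro l ⟨r, p, s, k, k'⟩ a
    have := h.thread hU s (fun _ k => k) (c := a + σ f + σ (α f) + σ e + r (α f2) + σ (α f2))
      (q2 := true) (q3 := true) (by
        rcases z2_or (a + σ f + σ (α f) + σ e + r (α f2) + σ (α f2)) (r (α f)) with c | c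
        · exact Or.inl ⟨k, c⟩
        · exact Or.inr ⟨k', c⟩) (fun _ => rfl) (fun _ => rfl)
    convert this using 1; grind
  refine ⟨?_, ?_, fun l hl => Or.inr ?_⟩
  · obtain ⟨⟨l, k⟩, -⟩ := gnd M ih n _ _ _ (by omega) le_rfl ch.net ch.cub ch.conn ch.ha
      (fl σ (α f) (σ f + σ g))
    exact ⟨l, A l k⟩
  · obtain ⟨l, k⟩ := c1 ih n _ _ _ _ (by omega) le_rfl ch (fl σ (α f) (σ f + σ g))
    exact ⟨l, B l k⟩
  · obtain ⟨T, -⟩ := c2 M ih n _ _ _ _ (by omega) le_rfl ch (mσ α σ f f2 (σ f + σ g) l)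
      fun k => hl (A l k)
    have E : fl (mσ α σ f f2 (σ f + σ g) l) (α f2) 1 = mσ α σ f f2 (σ f + σ g) (l + 1) := fl_fl _ _ _ _
    refine ⟨B l T.t1, fun s => ?_, T.t4.imp (fun k => B _ (E ▸ k)) fun k => ?_⟩
    · obtain ⟨r, p, so, c, c', o, o', k⟩ := T.t5 (s + σ f + σ (α f) + σ e + σ (α f2))
      rw [E] at so
      unfold Opt at o
      rw [Mid.m3] at o
      rcases o with ⟨o, rfl⟩ | ⟨o, rfl⟩
      · left
        have := h.thread hU so (fun _ k => k.elim) o' (q2 := false) (q3 := true)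
          (fun c => absurd c o) (fun _ => rfl)
        convert this using 1; grind
      · right
        have := h.thread hU so (fun _ k => k.elim) o' (q2 := true) (q3 := false)
          (fun _ => rfl) (fun c => absurd c o)
        convert this using 1; grind
    · obtain ⟨rfl, h1, h2⟩ := hU
      exact M.sp S α σ Q e f g f2 g2 l h h1 h2 k

theorem side (M : Models v) (ih : IH v n) (hS : S.card ≤ n + 1) (hn : GNet S α) (hc : Cub v S)
    (h3 : Conn v 3 S α) (hP : Closed v S P) (hb : bd α P = {e, f, g}) (ef : e ≠ f) (eg : e ≠ g)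
    (fg : f ≠ g) : Side v P α σ e f g := by
  obtain ⟨⟨p1, p2⟩, ⟨p3, p4⟩, ⟨p5, p6⟩, -⟩ := bd_mem3 hb
  have he := hP.1 p1
  have sub : fib v S e ⊆ P := fun x hx => hP.2 e p1 x (mem_fib.1 hx).1 (mem_fib.1 hx).2
  obtain ⟨u1, u2, hU, bU, n1, n2, n3⟩ := vertex hc h3 he fun k => p2 (sub (k.symm ▸ hn.mem e he))
  by_cases c : P = fib v S e
  · have : P = {e, f, g} := by
      refine (eq_of_subset_of_card_le (hb ▸ filter_subset _ _) ?_).symm
      rw [c, hc e he, card_eq_three.2 ⟨e, f, g, ef, eg, fg, rfl⟩]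
    exact IsV.side ⟨this, (mem_fib.1 (c ▸ p3)).2, (mem_fib.1 (c ▸ p5)).2⟩ hb ef eg fg
  · have h : Mid v S α (fib v S e) (S \ P) e u1 u2 (α f) (α g) := by
      refine ⟨hn, hc, h3, closed_fib e, hP.compl, disjoint_left.2 fun d hd k => (mem_sdiff.1 k).2 (sub hd),
        bU, n1, n2, n3, hn.bd_compl3 hP.1 hb, hn.ne_of he (hP.1 p3) ef, hn.ne_of he (hP.1 p5) eg,
        hn.ne_of (hP.1 p3) (hP.1 p5) fg, ?_⟩
      obtain ⟨x, hx, hx'⟩ := exists_of_ssubset (ssubset_of_subset_of_ne sub (Ne.symm c))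
      exact ⟨x, by simp only [mem_sdiff, mem_union]; have := hP.1 hx; tauto⟩
    have := h.side (σ := σ) M ih hS hU
    rwa [Finset.sdiff_sdiff_eq_self hP.1, hn.inv f (hP.1 p3), hn.inv g (hP.1 p5)] at this

end Pool.Agent.Lib.IC34
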