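import Pool.Agent.Lib.MP_fb9257_co.Exc

/-! Induction step for solutions that are harmless at a given dart. -/

set_option linter.unusedSectionVars false

namespace Pool.Agent.Lib.IC34
open Finset

variable {D V : Type*} [DecidableEq D] [DecidableEq V]
variable {v : D → V} {S X Y Z P Q P' Q' U : Finset D} {α α' : D → D} {σ σ' τ τ' : D → Z2}
  {a b d e f g f2 g2 w k d1 d2 d3 : D} {W W' : D → Prop} {r : D → Z2} {p : D → Prop} {n : ℕ}
  {l m x : Z2} {q1 q2 q3 s1 s2 s3 : Bool}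

lemma exmax {Pr : Finset D → Prop} (hS : ∀ P, Pr P → P ⊆ S) (h : Pr U) :
    ∃ P, Pr P ∧ ∀ P', Pr P' → P'.card ≤ P.card := by
  classical
  obtain ⟨P, h1, h2⟩ := exists_max_image (S.powerset.filter Pr) card ⟨U, by simp [h, hS U h]⟩
  exact ⟨P, (mem_filter.1 h1).2, fun P' k => h2 P' (by simp [k, hS P' k])⟩

lemma Exc1.symm (h : Exc1 v S α σ a b) : Exc1 v S α σ b a :=
  ⟨h.1, h.2.imp id fun ⟨a, b, c, d, e, f, g⟩ => ⟨a, c, b, d.symm, f.symm, e.symm, g.symm⟩⟩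

lemma Mid.card_grow (h : Mid v S α P Q e f g f2 g2) (h1 : α f ∈ Z) : P.card < (P ∪ Z).card :=
  card_lt_card ⟨subset_union_left, fun k =>
    (mem_sdiff.1 h.out1).2 (mem_union_left _ (k (mem_union_right _ h1)))⟩

/-- the two end vertices of an edge -/
lemma mid_vertices (hn : GNet S α) (hc : Cub v S) (h3 : Conn v 3 S α) (h6 : 6 < S.card)
    (he : e ∈ S) : ∃ f g f2 g2, Mid v S α (fib v S e) (fib v S (α e)) e f g f2 g2 ∧
      IsV v (fib v S e) e f g ∧ IsV v (fib v S (α e)) (α e) f2 g2 := by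
  have he' := hn.mem e he
  obtain ⟨f, g, hU, bU, n1, n2, n3⟩ := vertex hc h3 he fun k => by have := hc e he; rw [k] at this; omega
  obtain ⟨f2, g2, hV, bV, n4, n5, n6⟩ := vertex hc h3 he' fun k => by
    have := hc _ he'; rw [k] at this; omega
  refine ⟨f, g, f2, g2, ⟨hn, hc, h3, closed_fib _, closed_fib _, disjoint_left.2 fun d h1 h2 =>
    (bd_mem3 bU).1.2 (mem_fib.2 ⟨he', (mem_fib.1 h2).2.symm.trans (mem_fib.1 h1).2⟩), bU, n1, n2, n3,
    bV, n4, n5, n6, ?_⟩, hU, hV⟩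
  rw [sdiff_nonempty]
  intro k
  have := card_le_card k
  have := card_union_le (fib v S e) (fib v S (α e))
  have := hc e he; have := hc _ he'; omega

lemma S0.fit (h : S0 v X α σ e f g x l q2 q3) (t : Z2) {a3 : Z2} (k : a3 = 1 + l + t) :
    St v X α σ σ R0 e f g (x + t) t a3 false q2 q3 :=
  St.to h t σ (by grind) (by grind) (by grind)

lemma Mid.nd_a (h : Mid v S α P Q e f g f2 g2) (hV : IsV v Q (α e) f2 g2)
    (t : TT v (S \ (P ∪ Q)) (mα α f g f2 g2) (mσ α σ f f2 l (σ f2 + σ g2 + 1)) (α f2) (α f))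
    (hA : AA v P α σ e f g l) : ND v S α σ e := by
  obtain ⟨r, p, s, k1, k2⟩ := t
  rw [h.m1] at k2
  obtain ⟨m1, m2, m3, m4⟩ := h.ms (σ := σ) l (σ f2 + σ g2 + 1)
  have e1 := (h.edge1 s).1
  have e2 := (h.edge2 s).1
  rw [m1, m2] at e1
  rw [m3, m4] at e2
  have s' := h.unclose (W := W0) (σ := σ) s (fun d _ k _ k' _ => mσ_ne _ _ k k')
    (fun d _ _ _ k _ k' => absurd k' k)
  obtain ⟨r', p', s0, c, -⟩ := h.glue s'
    ((hA (r (α f2) + σ (α f2) + σ f2 + σ (α e) + r (α f) + σ (α f))).fit (1 + r (α f) + σ (α f))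
      (a3 := 1 + r (α g) + σ (α g)) (by grind))
    (hV.st (τ := σ) (a1 := r (α f2) + σ (α f2) + σ f2 + σ (α e)) (a2 := 1 + r (α f2) + σ (α f2))
      (a3 := 1 + r (α f2) + σ (α f2) + σ f2 + σ g2) (q1 := true) (q2 := false) (q3 := false)
      h.bQ h.ef2 h.eg2 h.fg2 (by
        generalize r (α f2) = x1, σ (α f2) = x2, σ f2 = x3, σ (α e) = x4, σ g2 = x5
        revert x1 x2 x3 x4 x5; decide))
    (by grind) rfl rfl rfl (by grind) (by simp) (fun _ => k1) (fun _ => k2) (by simp) (by simp)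
  exact ⟨r', p', s0, by simpa using c⟩

lemma Mid.nd_b (h : Mid v S α P Q e f g f2 g2) (hV : IsV v Q (α e) f2 g2)
    (t : PB v (S \ (P ∪ Q)) (mα α f g f2 g2) (mσ α σ f f2 m (σ f2 + σ g2 + 1)) (α f) (α f2))
    (hA : S0 v P α σ e f g x l false true) : ND v S α σ e := by
  obtain ⟨n1, n2, n3, n4, n5, n6⟩ := h.nes
  have key : ∀ (y : Z2) r p (s2 s3 : Bool), Sol v (S \ (P ∪ Q)) (mα α f g f2 g2) (mσ α σ f f2 l y)
      (fun d => d = α f ∨ d = α f2) r p → ¬ p (α g) → (s2 = true → ¬ p (α f2)) →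
      (s3 = true → ¬ p (α g2)) → Vt (x + r (α f) + σ (α f) + σ (α e)) (1 + r (α f2) + σ (α f2) + σ f2)
        (r (α f2) + σ (α f2) + y + σ g2) true s2 s3 = true → ND v S α σ e := by
    intro y r p s2 s3 s k1 k2 k3 k4
    obtain ⟨m1, m2, m3, m4⟩ := h.ms (σ := σ) l y
    have e1 := (h.edge1 s).1
    have e2 := (h.edge2 s).1
    rw [m1, m2] at e1
    rw [m3, m4] at e2
    have s' := h.unclose (W := W0) (σ := σ) s (fun d _ k _ k' _ => mσ_ne _ _ k k')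
      (fun d _ k' _ k _ c => c.elim (absurd · k') (absurd · k))
    obtain ⟨r', p', s0, c, -⟩ := h.glue s'
      (hA.fit (1 + r (α f) + σ (α f)) (a3 := 1 + r (α g) + σ (α g)) (by grind))
      (hV.st (τ := σ) h.bQ h.ef2 h.eg2 h.fg2 k4)
      (by grind) rfl rfl rfl (by grind) (by simp) (by simp) (fun _ => k1) k2 k3
    exact ⟨r', p', s0, by simpa using c⟩
  rcases t (m + l) (x + σ (α f) + σ (α e) + σ (α f2) + σ f2) with ⟨r, p, s, k1, k2⟩ | ⟨r, p, s, k1, k2⟩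
  · rw [h.m1] at k1
    refine key (σ f2 + σ g2 + 1) r p false false (s.sg (by unfold mσ; grind [fl])) k1 (by simp) (by simp) ?_
    rw [k2]
    generalize r (α f) = x1, σ (α f2) = x2, σ f2 = x3, σ (α e) = x4, σ g2 = x5, σ (α f) = x6, x = x0
    revert x0 x1 x2 x3 x4 x5 x6; decide
  · rw [h.m1] at k1
    unfold Opt at k2
    rw [Mid.m3] at k2
    rcases k2 with ⟨k2, k3⟩ | ⟨k2, k3⟩
    · refine key (σ f2 + σ g2) r p true false (s.sg (by unfold mσ; grind [fl])) k1 (fun _ => k2) (by simp) ?_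
      rw [← k3]
      generalize r (α f) = x1, σ (α f2) = x2, σ f2 = x3, σ (α e) = x4, σ g2 = x5, σ (α f) = x6, x = x0
      revert x0 x1 x2 x3 x4 x5 x6; decide
    · refine key (σ f2 + σ g2) r p false true (s.sg (by unfold mσ; grind [fl])) k1 (by simp) (fun _ => k2) ?_
      rw [show r (α f2) = r (α f) + (x + σ (α f) + σ (α e) + σ (α f2) + σ f2) + 1 by grind]
      generalize r (α f) = x1, σ (α f2) = x2, σ f2 = x3, σ (α e) = x4, σ g2 = x5, σ (α f) = x6, x = x0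
      revert x0 x1 x2 x3 x4 x5 x6; decide

lemma Mid.nd_c (M : Models v) (h : Mid v S α P Q e f g f2 g2) (hV : IsV v Q (α e) f2 g2)
    (t : Exc1 v (S \ (P ∪ Q)) (mα α f g f2 g2) (mσ α σ f f2 m (σ f2 + σ g2)) (α f2) (α f))
    (sd : Side v P α σ e f g) : ND v S α σ e ∨ Tight v S α σ := by
  obtain ⟨rfl, v1, v2⟩ := hV
  obtain ⟨τ, sp, par⟩ := M.sp S α σ P (α e) f2 g2 f g m h.symm v1 v2 (by
    rw [union_comm, h.mα_symm, Mid.mσ_symm]; exact t.symm)
  have key : ∀ (x l : Z2) (q2 q3 : Bool), S0 v P α σ e f g x l q2 q3 →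
      Kt (1 + x + σ (α e) + τ (α e)) (1 + σ (α f) + τ (α f)) (l + σ (α g) + τ (α g)) true (!q2) (!q3)
        = true → ND v S α σ e := fun x l q2 q3 st k => by
    obtain ⟨r, p, s, v1, -⟩ := glueA (W := W0) h.net h.cP h.bP st
      ((sp.tab _ _ _ _ _ _ k).shift σ (b1 := 1 + x) (b2 := 1) (b3 := l) (by grind) (by grind) (by grind))
      ⟨by grind, by simp⟩ ⟨by grind, by simp +contextual⟩ ⟨by grind, by simp +contextual⟩
    exact ⟨r, p, s, by simpa using v1.2.1⟩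
  have E : m + 1 + σ (α g) + τ (α g) = 1 + σ (α f) + τ (α f) := by grind
  by_cases c : Lam v P α σ e f g (m + 1)
  · obtain ⟨⟨x, st⟩, -⟩ := c
    refine Or.inl (key _ _ _ _ st ?_)
    rw [E]; generalize 1 + x + σ (α e) + τ (α e) = y, 1 + σ (α f) + τ (α f) = z
    revert y z; decide
  rcases sd.bad _ c with ⟨hP, k⟩ | ⟨hA, -⟩
  swap
  · refine Or.inl (key (σ (α e) + τ (α e) + σ (α f) + τ (α f)) _ _ _ (hA _) ?_)
    rw [E]; generalize σ (α e) = x1, τ (α e) = x2, σ (α f) = x3, τ (α f) = x4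
    revert x1 x2 x3 x4; decide
  by_cases c' : σ e + σ (α e) = σ f + σ (α f) + τ (α f) + τ (α e)
  swap
  · refine Or.inl (key _ _ _ _ (hP.s0 h.bP h.ef h.eg h.fg).1 ?_)
    rw [show 1 + (σ e + σ f) + σ (α e) + τ (α e) = σ (α f) + τ (α f) by have := z2_ne c'; grind,
      show σ f + σ g + σ (α g) + τ (α g) = σ (α f) + τ (α f) by grind]
    generalize σ (α f) = x1, τ (α f) = x2
    revert x1 x2; decide
  right
  obtain ⟨⟨p1, p2⟩, ⟨p3, p4⟩, ⟨p5, p6⟩, -⟩ := bd_mem3 h.bP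
  refine ⟨⟨fun d => if d ∈ P then σ f + σ (α f) + τ (α f) else τ d, Frame.cut h.net h.cP h.bP
    ((hP.frame h.bP (σ f + σ (α f) + τ (α f))).shift 0 (by simp +contextual))
    (sp.fr.shift 0 (by simp +contextual)) (by grind) (by grind) (by grind)⟩, Or.inr ?_⟩
  obtain ⟨rfl, v3, v4⟩ := hP
  exact t.2.imp (M.k4 S α e f g f2 g2 h v3 v4 v1 v2) (M.k33 S α e f g f2 g2 h v3 v4 v1 v2)

theorem stepN (M : Models v) (ih : IH v n) (hS : S.card ≤ n + 1) (h6 : 6 < S.card) (hn : GNet S α)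
    (hc : Cub v S) (h3 : Conn v 3 S α) (he : e ∈ S) : ND v S α σ e ∨ Tight v S α σ := by
  obtain ⟨u1, u2, f2, g2, h0, -, hV⟩ := mid_vertices hn hc h3 h6 he
  generalize fib v S (α e) = Q at h0 hV
  obtain ⟨P, ⟨f, g, h⟩, hmax⟩ := exmax (Pr := fun P => ∃ f g, Mid v S α P Q e f g f2 g2)
    (fun P ⟨_, _, k⟩ => k.cP.1) ⟨u1, u2, h0⟩
  have ch := h.chain
  have c3 : Conn v 3 (S \ (P ∪ Q)) (mα α f g f2 g2) := ch.cut.resolve_right (by
    rintro ⟨X, x, y, k1, k2, -, k3, k4, k5, k6⟩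
    rw [h.m1] at k4
    rw [Mid.m3] at k6
    obtain ⟨x', y', -, k⟩ := h.grow k1 k3 k4 k5 k6 (by rw [k2]; exact card_le_two)
    have := hmax _ ⟨x', y', k⟩
    have := h.card_grow k3; omega)
  have G := ih _ _ ch.net ch.cub c3 (by have := h.card_lt; omega)
  have sd := side (σ := σ) M ih hS hn hc h3 h.cP h.bP h.ef h.eg h.fg
  obtain ⟨l, hA⟩ := sd.aa
  obtain ⟨l', ⟨x, hL⟩, -⟩ := sd.lam
  obtain ⟨n1, n2, n3, n4, n5, n6⟩ := h.nes
  rcases G.2 (mσ α σ f f2 l (σ f2 + σ g2 + 1)) _ ch.hb _ ch.ha ch.symm.ba ch.symm.ba' with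
    t | t | ⟨-, t⟩ | t | t
  · exact Or.inl (h.nd_a hV t hA)
  · refine h.nd_c (m := l) M hV ?_ sd
    convert t using 1; funext d; unfold mσ; grind [fl]
  · refine h.nd_c (m := l + 1) M hV ?_ sd
    convert t using 1; funext d; unfold mσ; grind [fl]
  · exact Or.inl (h.nd_b hV (t.pb ch.net ch.hb ch.symm.ba ch.symm.ba') hL)
  · exact Or.inl (h.nd_b hV (t.pb ch.net ch.hb ch.symm.ba ch.symm.ba') hL)

end Pool.Agent.Lib.IC34
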