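import Pool.Agent.Lib.MP_fb9257_co.StepN

/-! Induction step for solutions with a wild edge and a cut edge: the partial cases. -/

set_option linter.unusedSectionVars false

namespace Pool.Agent.Lib.IC34
open Finset

variable {D V : Type*} [DecidableEq D] [DecidableEq V]
variable {v : D → V} {S X Y Z P Q P' Q' U : Finset D} {α α' : D → D} {σ σ' τ τ' τ1 τ2 : D → Z2}
  {a b d e f g f2 g2 w w' k d1 d2 d3 : D} {W W' : D → Prop} {r : D → Z2} {p : D → Prop} {n : ℕ}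
  {l m x y : Z2} {q1 q2 q3 s1 s2 s3 : Bool}

theorem caseA (hn : GNet S α) (h6 : 6 < S.card) (hP : Closed v S P) (hb : bd α P = {e, w', k})
    (n1 : e ≠ w') (n2 : e ≠ k) (n3 : w' ≠ k) (hw : w ∈ S) (hw' : w' = w ∨ w' = α w)
    (sP : Side v P α σ e w' k) (sQ : Side v (S \ P) α σ (α e) (α w') (α k)) :
    TT v S α σ w e ∨ Exc3 v S α σ w e := by
  obtain ⟨⟨p1, p2⟩, ⟨p3, p4⟩, ⟨p5, p6⟩, -⟩ := bd_mem3 hb
  have hW : w' = w ∨ α w' = w := hw'.imp id fun k => by rw [k, hn.inv w hw]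
  have key : ∀ (x l : Z2) (q2 q3 s2 s3 : Bool), S0 v P α σ e w' k x l q2 q3 →
      S0 v (S \ P) α σ (α e) (α w') (α k) x l s2 s3 → (q3 = true → ¬ s3 = true) → TT v S α σ w e :=
    fun x l q2 q3 s2 s3 st st' c => by
      obtain ⟨r, p, s, v1, v2, -⟩ := glueA (W := (· = w)) hn hP hb st (st'.fit 1 (a3 := l) (by grind))
        ⟨by grind, by simp⟩ ⟨by grind, fun _ _ => hW⟩ ⟨by grind, fun a b => absurd b (c a)⟩
      exact ⟨r, p, s, by simpa using v1.2.1, by simpa using v2.2.1⟩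
  by_cases nt : TT v S α σ w e
  · exact Or.inl nt
  right
  have k1 : ∀ l, AA v P α σ e w' k l → ¬ Lam v (S \ P) α σ (α e) (α w') (α k) l :=
    fun l h ⟨_, x, h'⟩ => nt (key x l _ _ _ _ (h x) h' (by simp))
  have k2 : ∀ l, AA v (S \ P) α σ (α e) (α w') (α k) l → ¬ Lam v P α σ e w' k l :=
    fun l h ⟨_, x, h'⟩ => nt (key x l _ _ _ _ h' (h x) (by simp))
  obtain ⟨l1, L1⟩ := sP.lam
  obtain ⟨l2, L2⟩ := sQ.lam
  obtain ⟨m1, A1⟩ := sP.aa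
  obtain ⟨m2, A2⟩ := sQ.aa
  have a1 : ∀ l, AA v P α σ e w' k l → l = l2 + 1 := fun l h => z2_ne (by rintro rfl; exact k1 _ h L2)
  have a2 : ∀ l, AA v (S \ P) α σ (α e) (α w') (α k) l → l = l1 + 1 :=
    fun l h => z2_ne (by rintro rfl; exact k2 _ h L1)
  have b1 := a1 _ A1
  have b2 := a2 _ A2
  have hb' := hn.bd_compl3 hP.1 hb
  rcases sP.bad _ (k2 _ A2) with ⟨vP, c1⟩ | ⟨c1, -, c2⟩ <;>
    rcases sQ.bad _ (k1 _ A1) with ⟨vQ, c3⟩ | ⟨c3, -, c4⟩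
  · have := vP.card; have := vQ.card; have := card_sdiff_add_card_eq_card hP.1; omega
  · have := a1 _ (vP.s0 hb n1 n2 n3).2.2; have := a2 _ c3; grind
  · have := a2 _ (vQ.s0 hb' (hn.ne_of (hP.1 p1) (hP.1 p3) n1) (hn.ne_of (hP.1 p1) (hP.1 p5) n2)
      (hn.ne_of (hP.1 p3) (hP.1 p5) n3)).2.2
    have := a1 _ c1; grind
  have b3 := a1 _ c1
  obtain ⟨τ1, t1, e1⟩ := c2.resolve_left fun c => by have := a1 _ c; grind
  obtain ⟨τ2, t2, e2⟩ := c4.resolve_left fun c => by have := a2 _ c; grind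
  set τ : D → Z2 := fun d => if d ∈ P then τ1 d else τ2 d + (σ w' + σ (α w') + τ1 w' + τ2 (α w'))
    with hτ
  have K : K2S v S α σ τ P e w' k := ⟨hn, hP, t1.frame 0 (by simp +contextual [hτ]),
    t2.frame (σ w' + σ (α w') + τ1 w' + τ2 (α w')) (by simp +contextual [hτ]), by simp only [hτ, p5, p6, if_true, if_false]; grind⟩
  have sw : σ w' + σ (α w') = τ w' + τ (α w') := by simp only [hτ, p3, p4, if_true, if_false]; grind
  rcases z2_or (σ e + σ (α e)) (τ e + τ (α e)) with c | c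
  · exact absurd (K.tt (W := (· = w)) c sw hW) nt
  · have K' := K.sg (σ' := fl σ e 1) fun d k _ _ _ => fl_ne _ k
    exact ⟨τ, P, w', k, Frame.cut hn hP hb K'.s1.fr K'.s2.fr (by grind [fl]) (by grind [fl]) K'.sk,
      hw', hP, K.s1, K.s2⟩

lemma Mid.wne (h : Mid v S α P Q e f g f2 g2) (hw : w ∈ S \ (P ∪ Q)) (hw' : α w ∈ S \ (P ∪ Q)) :
    (w ≠ α f ∧ w ≠ α g ∧ w ≠ α f2 ∧ w ≠ α g2) ∧ (α w ≠ α f ∧ α w ≠ α g ∧ α w ≠ α f2 ∧ α w ≠ α g2) ∧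
      mα α f g f2 g2 w = α w := by
  obtain ⟨a1, a2, a3, a4⟩ := h.inner hw'
  exact ⟨⟨a1, a2, a3, a4⟩, h.inner (by rwa [h.net.inv w (mem_sdiff.1 hw).1]), Mid.m5 a1 a2 a3 a4⟩

lemma Mid.tt1 (h : Mid v S α P Q e f g f2 g2) (hw' : α w ∈ S \ (P ∪ Q))
    (t : TT v (S \ (P ∪ Q)) (mα α f g f2 g2) (mσ α σ f f2 l m) w (α f2))
    (hL : Lam v P α σ e f g l) (hA : AA v Q α σ (α e) f2 g2 m) : TT v S α σ w e := by
  obtain ⟨r, p, s, k1, k2⟩ := t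
  rw [Mid.m3] at k2
  obtain ⟨m1, m2, m3, m4⟩ := h.ms (σ := σ) l m
  obtain ⟨e1, e3⟩ := h.edge1 s
  have e2 := (h.edge2 s).1
  rw [m1, m2] at e1
  rw [m3, m4] at e2
  obtain ⟨a1, a2, -⟩ := h.inner hw'
  have s' := h.unclose (W := (· = w)) (σ := σ) s (fun d _ k _ k' _ => mσ_ne _ _ k k')
    (fun d _ _ _ _ _ k => Or.inl k)
  have key : ∀ x (q2 q3 : Bool), S0 v P α σ e f g x l q2 q3 → (q2 = true → ¬ p (α f)) →
      (q3 = true → ¬ p (α g)) → TT v S α σ w e := fun x q2 q3 st c2 c3 => by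
    obtain ⟨r', p', s0, c, c'⟩ := h.glue s'
      (st.fit (1 + r (α f) + σ (α f)) (a3 := 1 + r (α g) + σ (α g)) (by grind))
      ((hA (1 + x + r (α f) + σ (α f) + r (α f2) + σ (α f2))).fit (1 + r (α f2) + σ (α f2))
        (a3 := 1 + r (α g2) + σ (α g2)) (by grind))
      (by grind) rfl rfl rfl rfl (by simp) c2 c3 (fun _ => k1) (fun _ => k2)
    exact ⟨r', p', s0, by simpa using c, by simpa using c'⟩
  obtain ⟨⟨x, st⟩, x', st'⟩ := hL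
  by_cases c : p (α f)
  · exact key x _ _ st (by simp) fun _ c' => (e3 c c').elim (a1 ·.symm) (a2 ·.symm)
  · exact key x' _ _ st' (fun _ => c) (by simp)

lemma Mid.tt2 (h : Mid v S α P Q e f g f2 g2) (hw' : α w ∈ S \ (P ∪ Q))
    (t : TT v (S \ (P ∪ Q)) (mα α f g f2 g2) (mσ α σ f f2 l m) w (α f))
    (hA : AA v P α σ e f g l) (hL : Lam v Q α σ (α e) f2 g2 m) : TT v S α σ w e :=
  TT.symm_e h.net (h.cP.1 h.mems.1) (h.symm.tt1 (l := m) (m := l) (by rwa [union_comm])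
    (by rw [union_comm, h.mα_symm, Mid.mσ_symm]; exact t) hL (by rw [h.invs.1]; exact hA))

lemma Mid.loc (h : Mid v S α P Q e f g f2 g2) (hZ : Z ⊆ S \ (P ∪ Q)) (h1 : ¬ (α f ∈ Z ∧ α g ∈ Z))
    (h2 : ¬ (α f2 ∈ Z ∧ α g2 ∈ Z)) : ∀ d ∈ Z, (α d ∈ Z ↔ mα α f g f2 g2 d ∈ Z) ∧
      (mα α f g f2 g2 d ∈ Z → α d = mα α f g f2 g2 d ∧ d ≠ α f ∧ d ≠ α g ∧ d ≠ α f2 ∧ d ≠ α g2) := by
  intro d hd
  by_cases c : α d ∈ S \ (P ∪ Q)
  · obtain ⟨a1, a2, a3, a4⟩ := h.inner c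
    rw [Mid.m5 a1 a2 a3 a4]; exact ⟨Iff.rfl, fun _ => ⟨rfl, a1, a2, a3, a4⟩⟩
  · have : mα α f g f2 g2 d ∉ Z := by
      rcases h.bdM (hZ hd) c with rfl | rfl | rfl | rfl <;>
        simp only [h.m1, h.m2, Mid.m3, Mid.m4] <;> tauto
    exact ⟨⟨fun k => absurd (hZ k) c, fun k => absurd k this⟩, fun k => absurd k this⟩

lemma Mid.bd_loc (h : Mid v S α P Q e f g f2 g2) (hZ : Z ⊆ S \ (P ∪ Q)) (h1 : ¬ (α f ∈ Z ∧ α g ∈ Z))
    (h2 : ¬ (α f2 ∈ Z ∧ α g2 ∈ Z)) : bd α Z = bd (mα α f g f2 g2) Z := by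
  ext d; simp only [mem_bd]; exact and_congr_right fun hd => by rw [(h.loc hZ h1 h2 d hd).1]

lemma Mid.sp_loc (h : Mid v S α P Q e f g f2 g2) (hZ : Z ⊆ S \ (P ∪ Q)) (h1 : ¬ (α f ∈ Z ∧ α g ∈ Z))
    (h2 : ¬ (α f2 ∈ Z ∧ α g2 ∈ Z)) (sp : Sp v Z (mα α f g f2 g2) (mσ α σ f f2 l m) τ d1 d2 d3) :
    Sp v Z α σ τ d1 d2 d3 :=
  sp.congr (fun d hd => (h.loc hZ h1 h2 d hd).1) (fun d hd hd' => by
    obtain ⟨k, k1, -, k2, -⟩ := (h.loc hZ h1 h2 d hd).2 hd'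
    exact ⟨k, (mσ_ne _ _ k1 k2).symm⟩) fun d hd _ => h.mnet.inv d (hZ hd)

lemma Mid.part4 (h : Mid v S α P Q e f g f2 g2) (hZ : Closed v (S \ (P ∪ Q)) Z) :
    Part4 v S P Q Z ((S \ (P ∪ Q)) \ Z) := by
  have k := @hZ.1
  refine ⟨h.cP, h.cQ, h.cM.trans hZ, h.cM.trans hZ.compl, h.dis, ?_, ?_, ?_, ?_, disjoint_sdiff, ?_⟩
  iterate 4 (rw [disjoint_left]; intro d hd c; have := @k d; simp_all)
  rw [union_assoc, union_sdiff_of_subset hZ.1, union_sdiff_of_subset (h.cP.union h.cQ).1]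

lemma frame4 (hn : GNet S α) (pt : Part4 v S P Q P' Q') (b1 : bd α P = {e, f, g})
    (b2 : bd α Q = {α e, f2, g2}) (b3 : bd α P' = {w, α f, α f2}) (b4 : bd α Q' = {α w, α g, α g2})
    (F1 : Frame v P α σ τ) (F2 : Frame v Q α σ τ) (F3 : Frame v P' α σ τ) (F4 : Frame v Q' α σ τ)
    (H : ∀ d, (d = e ∨ d = f ∨ d = g ∨ d = f2 ∨ d = g2 ∨ d = w) → σ d + σ (α d) = τ d + τ (α d)) :
    Frame v S α σ τ := by
  have cov : ∀ d ∈ S, d ∈ P ∨ d ∈ Q ∨ d ∈ P' ∨ d ∈ Q' := fun d hd => by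
    rw [← pt.un] at hd; simpa [or_assoc] using hd
  obtain ⟨⟨m1, -⟩, ⟨m2, -⟩, ⟨m3, -⟩, c1⟩ := bd_mem3 b1
  obtain ⟨-, ⟨m4, -⟩, ⟨m5, -⟩, c2⟩ := bd_mem3 b2
  obtain ⟨⟨m6, -⟩, -, -, c3⟩ := bd_mem3 b3
  obtain ⟨-, -, -, c4⟩ := bd_mem3 b4
  have H' : ∀ d ∈ S, (d = e ∨ d = f ∨ d = g ∨ d = f2 ∨ d = g2 ∨ d = w) →
      σ (α d) + σ (α (α d)) = τ (α d) + τ (α (α d)) := fun d hd k => by
    rw [hn.inv d hd, add_comm, H d k, add_comm]
  refine ⟨fun d hd x hx k => ?_, fun d hd _ => ?_⟩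
  · rcases cov d hd with c | c | c | c
    exacts [F1.1 d c x (pt.c1.2 d c x hx k) k, F2.1 d c x (pt.c2.2 d c x hx k) k,
      F3.1 d c x (pt.c3.2 d c x hx k) k, F4.1 d c x (pt.c4.2 d c x hx k) k]
  · rcases cov d hd with c | c | c | c
    · by_cases c' : α d ∈ P
      · exact F1.2 d c c'
      · exact H d (by have := c1 d c c'; tauto)
    · by_cases c' : α d ∈ Q
      · exact F2.2 d c c'
      · rcases c2 d c c' with rfl | rfl | rfl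
        exacts [H' _ (pt.c1.1 m1) (by simp), H _ (by simp), H _ (by simp)]
    · by_cases c' : α d ∈ P'
      · exact F3.2 d c c'
      · rcases c3 d c c' with rfl | rfl | rfl
        exacts [H _ (by simp), H' _ (pt.c1.1 m2) (by simp), H' _ (pt.c2.1 m4) (by simp)]
    · by_cases c' : α d ∈ Q'
      · exact F4.2 d c c'
      · rcases c4 d c c' with rfl | rfl | rfl
        exacts [H' _ (pt.c3.1 m6) (by simp), H' _ (pt.c1.1 m3) (by simp), H' _ (pt.c2.1 m5) (by simp)]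

/-- a frame given piecewise on the four parts -/
lemma Part4.pw (pt : Part4 v S P Q P' Q') (τ1 τ2 τ3 τ4 : D → Z2) : ∃ τ : D → Z2,
    (∀ d ∈ P, τ d = τ1 d) ∧ (∀ d ∈ Q, τ d = τ2 d) ∧ (∀ d ∈ P', τ d = τ3 d) ∧ ∀ d ∈ Q', τ d = τ4 d := by
  have := disjoint_left.1 pt.d12; have := disjoint_left.1 pt.d13
  have := disjoint_left.1 pt.d14; have := disjoint_left.1 pt.d23
  have := disjoint_left.1 pt.d24; have := disjoint_left.1 pt.d34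
  exact ⟨fun d => if d ∈ P then τ1 d else if d ∈ Q then τ2 d else if d ∈ P' then τ3 d else τ4 d,
    by grind, by grind, by grind, by grind⟩

lemma Mid.t1_k4 (h : Mid v S α P Q e f g f2 g2) (hw : w ∈ S) (hw' : w' = w ∨ w' = α w)
    (cZ : Closed v (S \ (P ∪ Q)) Z)
    (t3 : Sp v Z α σ τ (α f2) w' (α f)) (t4 : Sp v ((S \ (P ∪ Q)) \ Z) α σ τ (α g2) (α w') (α g))
    (t1 : Sp v P α σ τ1 e f g) (t2 : Sp v Q α σ τ2 (α e) f2 g2)
    (e1 : τ1 f + τ1 g + σ f + σ g + τ (α f) + τ (α g) + σ (α f) + σ (α g) = 1)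
    (e2 : τ2 f2 + τ2 g2 + σ f2 + σ g2 + τ (α f2) + τ (α g2) + σ (α f2) + σ (α g2) = 1)
    (sw : σ w' + σ (α w') = τ w' + τ (α w')) : TT v S α σ w e ∨ Exc4 v S α σ w e := by
  have pt := h.part4 cZ
  obtain ⟨τ', F1, F2, F3, F4⟩ := pt.pw (fun d => τ1 d + (σ f + σ (α f) + τ1 f + τ (α f)))
    (fun d => τ2 d + (σ f2 + σ (α f2) + τ2 f2 + τ (α f2))) (fun d => τ d + 0) (fun d => τ d + 1)
  obtain ⟨m1, m2, m3, m4, m5, m6⟩ := h.mems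
  obtain ⟨⟨m7, -⟩, ⟨m8, -⟩, ⟨m9, -⟩, -⟩ := t3.mem
  obtain ⟨⟨m10, -⟩, ⟨m11, -⟩, ⟨m12, -⟩, -⟩ := t4.mem
  have := F1 _ m2; have := F1 _ m3; have := F2 _ m5; have := F2 _ m6; have := F3 _ m7
  have := F3 _ m8; have := F3 _ m9; have := F4 _ m10; have := F4 _ m11; have := F4 _ m12
  have K : K4S v S α σ τ' P Q Z ((S \ (P ∪ Q)) \ Z) e f g f2 g2 w' :=
    ⟨⟨h.net, pt, t1.frame _ F1, t2.frame _ F2, (t3.frame _ F3).sw12.sw23, (t4.frame _ F4).sw12.sw23⟩,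
      by grind, by grind, by grind, by grind⟩
  have sw' : σ w' + σ (α w') + τ' w' + τ' (α w') = 1 := by grind
  clear F1 F2 F3 F4
  have i := h.net.inv w hw
  rcases z2 (σ e + σ (α e) + τ' e + τ' (α e)) with c | c
  · right
    have K' := K.sg (σ' := fl σ w 1) fun d _ _ _ _ => fl_ne _ (by grind)
    obtain ⟨n1, n2, n3, n4, n5, n6⟩ := K.new
    refine ⟨τ', P, Q, Z, _, w', f, g, f2, g2, frame4 h.net pt K.s1.bdy K.s2.bdy K.s3.bdy K.s4.bdy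
      K'.s1.fr K'.s2.fr K'.s3.fr K'.s4.fr ?_, hw', pt, K.s1, K.s2, K.s3, K.s4⟩
    rintro d (rfl | rfl | rfl | rfl | rfl | rfl)
    exacts [by grind [fl], K'.k1, K'.k2, K'.k3, K'.k4, by grind [fl]]
  · exact Or.inl (K.ate (W := (· = w)) c sw' (by grind))

end Pool.Agent.Lib.IC34
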